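import Mathlib

/-!
# Tuples with few values
-/

set_option autoImplicit false

namespace Pool.Agent.H.MP_cba12a_lc.QP

open Finset

/- PROOF: a tuple whose image has at most c elements has its image inside one of the
m.choose c sets of size c (c ≤ m), and each contains c^d tuples. -/
theorem card_bad_tuples (m d c : ℕ) (hc : c ≤ m) :
    ((univ : Finset (Fin d → Fin m)).filter fun s => (univ.image s).card ≤ c).card ≤
      m ^ c * c ^ d := by
  classical
  have hsub : ((univ : Finset (Fin d → Fin m)).filter fun s => (univ.image s).card ≤ c) ⊆
      (powersetCard c (univ : Finset (Fin m))).biUnion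
        (fun T => Fintype.piFinset (fun _ : Fin d => T)) := by
    intro s hs
    have hs' : (univ.image s).card ≤ c := (Finset.mem_filter.mp hs).2
    obtain ⟨T, hT1, hT2⟩ := Finset.exists_superset_card_eq hs' (by simpa using hc)
    refine Finset.mem_biUnion.mpr ⟨T, ?_, ?_⟩
    · exact Finset.mem_powersetCard.mpr ⟨Finset.subset_univ _, hT2⟩
    · refine Fintype.mem_piFinset.mpr fun i => ?_
      exact hT1 (Finset.mem_image_of_mem s (Finset.mem_univ i))
  refine (Finset.card_le_card hsub).trans ?_
  refine (Finset.card_biUnion_le_card_mul _ _ (c ^ d) ?_).trans ?_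
  · intro T hT
    have := (Finset.mem_powersetCard.mp hT).2
    rw [Fintype.card_piFinset]
    simp [this]
  · refine Nat.mul_le_mul_right _ ?_
    rw [Finset.card_powersetCard, Finset.card_univ, Fintype.card_fin]
    exact Nat.choose_le_pow m c

end Pool.Agent.H.MP_cba12a_lc.QP
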