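import Pool.Agent.H.MP_cba12a_lc.QP.Defs
import Pool.Agent.H.MP_cba12a_lc.QP.CardT
import Pool.Agent.H.MP_cba12a_lc.SQ.BlockStep

/-!
# Blocks with random tuples
-/

set_option autoImplicit false

namespace Pool.Agent.H.MP_cba12a_lc.QP

open Finset Pool.Agent.H.MP_cba12a_lc.SQ

/-- the proportion of the tuples with few values -/
theorem BlkT_bad {m d g : ℕ} (hm : 2 ≤ m) (hg : g ≤ d) (hdm : d ≤ m) :
    (((univ : Finset (Fin d → Fin m)).filter fun s => ¬ d - g ≤ (univ.image s).card).card : ℝ) *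
      (1 / (m : ℝ) ^ d) ≤ (d : ℝ) ^ d / (m : ℝ) ^ g := by
  have hm0 : (0 : ℝ) < m := by exact_mod_cast (by omega : 0 < m)
  have h1 : ((univ : Finset (Fin d → Fin m)).filter
      fun s => ¬ d - g ≤ (univ.image s).card).card ≤ m ^ (d - g) * (d - g) ^ d := by
    refine le_trans (card_le_card ?_) (card_bad_tuples m d (d - g) (by omega))
    intro s hs
    rw [mem_filter] at hs ⊢
    exact ⟨hs.1, by have := hs.2; omega⟩
  have h2 : m ^ (d - g) * (d - g) ^ d ≤ m ^ (d - g) * d ^ d :=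
    Nat.mul_le_mul_left _ (Nat.pow_le_pow_left (Nat.sub_le d g) d)
  have h3 : (((univ : Finset (Fin d → Fin m)).filter
      fun s => ¬ d - g ≤ (univ.image s).card).card : ℝ) ≤ (m : ℝ) ^ (d - g) * (d : ℝ) ^ d := by
    exact_mod_cast h1.trans h2
  have h4 : (m : ℝ) ^ d = (m : ℝ) ^ (d - g) * (m : ℝ) ^ g := by
    rw [← pow_add, Nat.sub_add_cancel hg]
  calc _ ≤ (m : ℝ) ^ (d - g) * (d : ℝ) ^ d * (1 / (m : ℝ) ^ d) :=
        mul_le_mul_of_nonneg_right h3 (by positivity)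
    _ = (d : ℝ) ^ d / (m : ℝ) ^ g := by
        rw [h4]
        field_simp

theorem BlkT_aux {m : ℕ} (hm : 2 ≤ m) (k R d g U ℓ : ℕ) (K : ℝ) (hk : 1 ≤ k) (hg : g ≤ d)
    (hd : d ≤ U) {Ω : Type} [Fintype Ω] (w : ℝ) (hw0 : 0 ≤ w) (hw1 : ∑ _ω : Ω, w = 1)
    (ev : (Fin d → Fin m) × Ω → List (Finset (Fin m))) (hlen : ∀ ω, (ev ω).length ≤ ℓ)
    (hD : ∀ ω, ∀ T ∈ ev ω, univ.image ω.1 ⊆ T) (Φ : ℕ → ℝ)
    (hΦ : ∀ x : Finset (Fin m), ∑ ω, (1 / (m : ℝ) ^ d * w) * ind (ev ω) x = Φ x.card)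
    (hΦle : ∀ x : Finset (Fin m), Φ x.card ≤ ((x.card : ℝ) / m) ^ d)
    (hU : 3 * U ^ 2 ≤ m) (F₀ : List (Finset (Fin m)))
    (hinv : Inv U K F₀) (hK : Real.sqrt R * (K + 2 * R * (1 / 2) ^ (d - g)) ≤ 1) :
    ∃ F : List (Finset (Fin m)), F.length ≤ F₀.length + R * ℓ ∧
      Inv U (K + 2 * R * (1 / 2) ^ (d - g)) F ∧
      (∀ x, ind F₀ x ≤ ind F x) ∧ ex (fun x => ind F x - ind F₀ x) ≤ R * (1 / 2) ^ (d - g) ∧
      ∀ B : Finset (Fin m), B.card < k →
        |co (ind F) B - co (ind F₀) B - R * crad m B.card Φ| ≤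
          4 * Real.sqrt R * (1 / 2) ^ (d - g) * (m : ℝ) ^ k + R * ((d : ℝ) ^ d / (m : ℝ) ^ g) := by
  have hUm := blockstep_le hU
  have hm0 : (0 : ℝ) < m := by exact_mod_cast (by omega : 0 < m)
  have hmd : (0 : ℝ) < (m : ℝ) ^ d := by positivity
  obtain ⟨p, hp⟩ : ∃ p : (Fin d → Fin m) × Ω → ℝ, p = fun _ => 1 / (m : ℝ) ^ d * w := ⟨_, rfl⟩
  have hp0 : ∀ ω, 0 ≤ p ω := fun _ => by rw [hp]; positivity
  have hp1 : ∑ ω, p ω = 1 := by
    rw [hp, Fintype.sum_prod_type]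
    simp only [← mul_sum, hw1, mul_one, sum_const, card_univ, Fintype.card_pi, Fintype.card_fin,
      prod_const, nsmul_eq_mul, Nat.cast_pow]
    field_simp
  obtain ⟨evr, hevr⟩ : ∃ evr : (Fin d → Fin m) × Ω → List (Finset (Fin m)),
    evr = fun ω => if d - g ≤ (univ.image ω.1).card then ev ω else [] := ⟨_, rfl⟩
  have hpos : ∀ ω, d - g ≤ (univ.image ω.1).card → evr ω = ev ω := by
    intro ω h
    rw [hevr]
    exact if_pos h
  have hneg : ∀ ω, ¬ d - g ≤ (univ.image ω.1).card → evr ω = [] := by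
    intro ω h
    rw [hevr]
    exact if_neg h
  have hlen' : ∀ ω, (evr ω).length ≤ ℓ := by
    intro ω
    by_cases h : d - g ≤ (univ.image ω.1).card
    · rw [hpos ω h]
      exact hlen ω
    · rw [hneg ω h]
      exact Nat.zero_le _
  have hind : ∀ ω x, ind (evr ω) x ≤ ind (ev ω) x := by
    intro ω x
    by_cases h : d - g ≤ (univ.image ω.1).card
    · rw [hpos ω h]
    · rw [hneg ω h, ind_nil]
      exact ind_nonneg _ _
  have hD' : ∀ ω, p ω ≠ 0 → ∃ D : Finset (Fin m), d - g ≤ D.card ∧ D.card ≤ U ∧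
      ∀ T ∈ evr ω, D ⊆ T := by
    intro ω _
    by_cases h : d - g ≤ (univ.image ω.1).card
    · refine ⟨univ.image ω.1, h, ?_, fun T hT => hD ω T (hpos ω h ▸ hT)⟩
      refine card_image_le.trans ?_
      rw [card_univ, Fintype.card_fin]
      exact hd
    · obtain ⟨D, -, hDc⟩ := exists_subset_card_eq (s := (univ : Finset (Fin m))) (n := d - g)
        (by rw [card_univ, Fintype.card_fin]; omega)
      refine ⟨D, hDc.ge, by omega, fun T hT => ?_⟩
      rw [hneg ω h] at hT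
      exact absurd hT (by simp)
  have havg : ∀ x : Finset (Fin m), ∑ ω, p ω * ind (evr ω) x ≤ ((x.card : ℝ) / m) ^ (d - g) := by
    intro x
    have h1 : ∑ ω, p ω * ind (evr ω) x ≤ ∑ ω, p ω * ind (ev ω) x :=
      sum_le_sum fun ω _ => mul_le_mul_of_nonneg_left (hind ω x) (hp0 ω)
    have h2 : ∑ ω, p ω * ind (ev ω) x = Φ x.card := by
      rw [hp]
      exact hΦ x
    have hxm : (x.card : ℝ) ≤ m := by
      have : x.card ≤ m := by simpa using card_le_univ x
      exact_mod_cast this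
    have h3 : (x.card : ℝ) / m ≤ 1 := (div_le_one hm0).2 hxm
    have h4 : ((x.card : ℝ) / m) ^ d ≤ ((x.card : ℝ) / m) ^ (d - g) :=
      pow_le_pow_of_le_one (by positivity) h3 (Nat.sub_le d g)
    linarith [hΦle x]
  obtain ⟨F, h1, h2, h3, h4, h5⟩ := proc hm k R (d - g) U ℓ K hk p hp0 hp1 evr hlen' hD' havg
    (by omega) hU F₀ hinv hK
  refine ⟨F, h1, h2, h3, h4, fun B hB => ?_⟩
  have h6 := h5 B hB
  have h7 : ∑ ω, p ω * co (ind (ev ω)) B = crad m B.card Φ := by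
    rw [← co_radial Φ B]
    have h8 : (fun x : Finset (Fin m) => Φ x.card) = fun x => ∑ ω, p ω * ind (ev ω) x := by
      funext x
      rw [← hΦ x, hp]
    rw [h8, co_sum]
    refine sum_congr rfl fun ω _ => ?_
    rw [co_mul_left]
  have h9 : |∑ ω, p ω * co (ind (evr ω)) B - crad m B.card Φ| ≤ (d : ℝ) ^ d / (m : ℝ) ^ g := by
    rw [← h7, ← sum_sub_distrib]
    have h10 : ∀ ω, |p ω * co (ind (evr ω)) B - p ω * co (ind (ev ω)) B| ≤
        (if ¬ d - g ≤ (univ.image ω.1).card then (1 : ℝ) else 0) * (1 / (m : ℝ) ^ d) * w := by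
      intro ω
      by_cases h : d - g ≤ (univ.image ω.1).card
      · rw [hpos ω h, sub_self, abs_zero, if_neg (not_not.2 h), zero_mul, zero_mul]
      · rw [if_pos h, hneg ω h, ← mul_sub, abs_mul, abs_of_nonneg (hp0 ω), one_mul]
        have e1 : co (ind ([] : List (Finset (Fin m)))) B = 0 := by
          unfold co
          simp only [ind_nil, zero_mul]
          exact ex_const 0
        rw [e1, zero_sub, abs_neg]
        have e2 : |co (ind (ev ω)) B| ≤ 1 := by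
          refine (abs_co_le (g := fun _ => 1) (fun x => ?_) B).trans_eq (ex_const 1)
          rw [abs_of_nonneg (ind_nonneg _ _)]
          exact ind_le_one _ _
        have e3 : p ω = 1 / (m : ℝ) ^ d * w := by rw [hp]
        rw [← e3]
        exact mul_le_of_le_one_right (hp0 ω) e2
    refine (abs_sum_le_sum_abs _ _).trans ((sum_le_sum fun ω _ => h10 ω).trans ?_)
    have e4 : ∀ D : Fin d → Fin m, ∑ _y : Ω, (if ¬ d - g ≤ (univ.image D).card then (1 : ℝ) else 0) *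
        (1 / (m : ℝ) ^ d) * w =
        (if ¬ d - g ≤ (univ.image D).card then (1 : ℝ) else 0) * (1 / (m : ℝ) ^ d) := by
      intro D
      rw [← mul_sum, hw1, mul_one]
    rw [Fintype.sum_prod_type, sum_congr rfl fun D _ => e4 D, ← sum_mul, ← sum_filter, sum_const,
      nsmul_eq_mul, mul_one]
    exact BlkT_bad hm hg (hd.trans hUm)
  have e1 : co (ind F) B - co (ind F₀) B - R * crad m B.card Φ =
      (co (ind F) B - co (ind F₀) B - R * ∑ ω, p ω * co (ind (evr ω)) B) +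
        R * (∑ ω, p ω * co (ind (evr ω)) B - crad m B.card Φ) := by ring
  rw [e1]
  refine (abs_add_le _ _).trans (add_le_add h6 ?_)
  rw [abs_mul, abs_of_nonneg (Nat.cast_nonneg R)]
  exact mul_le_mul_of_nonneg_left h9 (Nat.cast_nonneg R)

/-- counting the tuples inside a set -/
theorem BlkT_sum_cj {m d : ℕ} (x : Finset (Fin m)) :
    ∑ D : Fin d → Fin m, cj (univ.image D) x = (x.card : ℝ) ^ d := by
  have h0 : ∀ D : Fin d → Fin m, cj (univ.image D) x = if ∀ i, D i ∈ x then (1 : ℝ) else 0 := by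
    intro D
    unfold cj
    congr 1
    rw [image_subset_iff]
    simp
  simp only [h0]
  rw [sum_ite, sum_const_zero, add_zero, sum_const, nsmul_eq_mul, mul_one]
  have h1 : (univ.filter fun s : Fin d → Fin m => ∀ i, s i ∈ x) =
      Fintype.piFinset fun _ : Fin d => x := by
    ext s
    simp
  rw [h1, Fintype.card_piFinset]
  simp

/-- the event of a block -/
def BlkT_ev {m d e M : ℕ} (ω : (Fin d → Fin m) × (Fin M → Fin e → Fin m)) :
    List (Finset (Fin m)) := List.ofFn fun t : Fin M => univ.image ω.1 ∪ univ.image (ω.2 t)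

theorem BlkT_ind {m d e M : ℕ}
    (ω : (Fin d → Fin m) × (Fin M → Fin e → Fin m)) (x : Finset (Fin m)) :
    ind (BlkT_ev ω) x =
      cj (univ.image ω.1) x * (1 - ∏ t, (1 - (if ∀ i, ω.2 t i ∈ x then (1 : ℝ) else 0))) := by
  have hT : ∀ t, (univ.image ω.1 ∪ univ.image (ω.2 t) ⊆ x) ↔
      (univ.image ω.1 ⊆ x ∧ ∀ i, ω.2 t i ∈ x) := by
    intro t
    rw [union_subset_iff, image_subset_iff (s := univ) (f := ω.2 t)]
    simp
  unfold ind cj
  by_cases h1 : univ.image ω.1 ⊆ x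
  · rw [if_pos h1, one_mul]
    by_cases h2 : ∃ t, ∀ i, ω.2 t i ∈ x
    · obtain ⟨t, ht⟩ := h2
      rw [if_pos, prod_eq_zero (mem_univ t), sub_zero]
      · rw [if_pos ht, sub_self]
      · refine ⟨univ.image ω.1 ∪ univ.image (ω.2 t), ?_, (hT t).2 ⟨h1, ht⟩⟩
        unfold BlkT_ev
        rw [List.mem_ofFn]
        exact ⟨t, rfl⟩
    · rw [if_neg, prod_eq_one, sub_self]
      · intro t _
        rw [if_neg, sub_zero]
        exact fun h => h2 ⟨t, h⟩
      · rintro ⟨T, hTm, hTx⟩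
        unfold BlkT_ev at hTm
        rw [List.mem_ofFn] at hTm
        obtain ⟨t, rfl⟩ := hTm
        exact h2 ⟨t, ((hT t).1 hTx).2⟩
  · rw [if_neg h1, zero_mul, if_neg]
    rintro ⟨T, hTm, hTx⟩
    unfold BlkT_ev at hTm
    rw [List.mem_ofFn] at hTm
    obtain ⟨t, rfl⟩ := hTm
    exact h1 ((hT t).1 hTx).1

/-- the average of a block -/
theorem BlkT_avg {m : ℕ} (d e M : ℕ) (hm : 2 ≤ m) (x : Finset (Fin m)) :
    ∑ ω : (Fin d → Fin m) × (Fin M → Fin e → Fin m),
      (1 / (m : ℝ) ^ d * (1 / ((m : ℝ) ^ e) ^ M)) * ind (BlkT_ev ω) x =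
        blkT m d e M x.card := by
  have hm0 : (m : ℝ) ≠ 0 := by
    have : (0 : ℝ) < m := by exact_mod_cast (by omega : 0 < m)
    exact this.ne'
  rw [← mul_sum]
  have h1 : ∑ ω : (Fin d → Fin m) × (Fin M → Fin e → Fin m),
      ind (BlkT_ev ω) x = (x.card : ℝ) ^ d *
        (((m : ℝ) ^ e) ^ M - ((m : ℝ) ^ e - (x.card : ℝ) ^ e) ^ M) := by
    rw [Fintype.sum_prod_type]
    simp only [BlkT_ind]
    rw [← BlkT_sum_cj x, sum_mul]
    refine sum_congr rfl fun D _ => ?_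
    rw [← mul_sum, sum_sub_distrib, blockstep_sum_tuples]
    congr 2
    simp
  rw [h1]
  unfold blkT
  have h2 : (1 : ℝ) - ((x.card : ℝ) / m) ^ e = ((m : ℝ) ^ e - (x.card : ℝ) ^ e) / (m : ℝ) ^ e := by
    rw [div_pow, sub_div, div_self (pow_ne_zero _ hm0)]
  rw [h2, div_pow, div_pow]
  have h3 : ((m : ℝ) ^ e) ^ M ≠ 0 := by positivity
  have h4 : (m : ℝ) ^ d ≠ 0 := by positivity
  field_simp

theorem BlkT_le {m : ℕ} (d e M : ℕ) (hm : 2 ≤ m) (x : Finset (Fin m)) :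
    blkT m d e M x.card ≤ ((x.card : ℝ) / m) ^ d := by
  have hm0 : (0 : ℝ) < m := by exact_mod_cast (by omega : 0 < m)
  have hxm : (x.card : ℝ) ≤ m := by
    have : x.card ≤ m := by simpa using card_le_univ x
    exact_mod_cast this
  have h3 : (x.card : ℝ) / m ≤ 1 := (div_le_one hm0).2 hxm
  have h4 : ((x.card : ℝ) / m) ^ e ≤ 1 := pow_le_one₀ (by positivity) h3
  have h5 : 0 ≤ (1 - ((x.card : ℝ) / m) ^ e) ^ M := pow_nonneg (by linarith) _
  unfold blkT
  exact mul_le_of_le_one_right (by positivity) (by linarith)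

/- PROOF: as SQ.block_step. Ω = (Fin d → Fin m) × (Fin M → Fin e → Fin m), uniform p,
ev (D, S) = if d - g ≤ card (image D) then the M terms image D ∪ image (S t) else [].
proc with dlo = d - g (for a bad D any set D' of size d - g serves; d ≤ U ≤ m). The average of the
events is blkT y minus the bad part, between 0 and P(bad) ≤ m^(d-g) d^d / m^d = d^d/m^g
(card_bad_tuples with c = d - g; it is fine to count the tuples with ≤ d - g values as bad or not);
havg: the average is ≤ (|x|/m)^d ≤ (|x|/m)^(d-g). |co of the bad part| ≤ d^d/m^g by abs_co_le. -/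
theorem blkT_step {m : ℕ} (k R d g e M U : ℕ) (K : ℝ) (hk : 1 ≤ k) (hg : g ≤ d) (hd : d ≤ U)
    (he : 0 < e) (hU : 3 * U ^ 2 ≤ m) (hm : 2 ≤ m)
    (F₀ : List (Finset (Fin m))) (hinv : Inv U K F₀)
    (hK : Real.sqrt R * (K + 2 * R * (1 / 2) ^ (d - g)) ≤ 1) :
    ∃ F : List (Finset (Fin m)), F.length ≤ F₀.length + R * M ∧
      Inv U (K + 2 * R * (1 / 2) ^ (d - g)) F ∧
      (∀ x, ind F₀ x ≤ ind F x) ∧ ex (fun x => ind F x - ind F₀ x) ≤ R * (1 / 2) ^ (d - g) ∧
      ∀ B : Finset (Fin m), B.card < k →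
        |co (ind F) B - co (ind F₀) B - R * crad m B.card (blkT m d e M)| ≤
          4 * Real.sqrt R * (1 / 2) ^ (d - g) * (m : ℝ) ^ k + R * ((d : ℝ) ^ d / (m : ℝ) ^ g) := by
  have hmp : (0 : ℝ) < m := by exact_mod_cast (by omega : 0 < m)
  refine BlkT_aux hm k R d g U M K hk hg hd (Ω := Fin M → Fin e → Fin m)
    (1 / ((m : ℝ) ^ e) ^ M) (by positivity) ?_ BlkT_ev (fun ω => by simp [BlkT_ev])
    (fun ω T hT => ?_) (blkT m d e M) (fun x => BlkT_avg d e M hm x)
    (fun x => BlkT_le d e M hm x) hU F₀ hinv hK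
  · simp only [sum_const, card_univ, nsmul_eq_mul, Fintype.card_pi, Fintype.card_fin, prod_const,
      Nat.cast_pow]
    field_simp
  · unfold BlkT_ev at hT
    rw [List.mem_ofFn] at hT
    obtain ⟨t, rfl⟩ := hT
    exact subset_union_left

/- The same without the tuples S: events [image D]. -/
theorem pureT_step {m : ℕ} (k R d g U : ℕ) (K : ℝ) (hk : 1 ≤ k) (hg : g ≤ d) (hd : d ≤ U)
    (hU : 3 * U ^ 2 ≤ m) (hm : 2 ≤ m)
    (F₀ : List (Finset (Fin m))) (hinv : Inv U K F₀)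
    (hK : Real.sqrt R * (K + 2 * R * (1 / 2) ^ (d - g)) ≤ 1) :
    ∃ F : List (Finset (Fin m)), F.length ≤ F₀.length + R ∧
      Inv U (K + 2 * R * (1 / 2) ^ (d - g)) F ∧
      (∀ x, ind F₀ x ≤ ind F x) ∧ ex (fun x => ind F x - ind F₀ x) ≤ R * (1 / 2) ^ (d - g) ∧
      ∀ B : Finset (Fin m), B.card < k →
        |co (ind F) B - co (ind F₀) B - R * crad m B.card (fun y => ((y : ℝ) / m) ^ d)| ≤
          4 * Real.sqrt R * (1 / 2) ^ (d - g) * (m : ℝ) ^ k + R * ((d : ℝ) ^ d / (m : ℝ) ^ g) := by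
  have hmp : (0 : ℝ) < m := by exact_mod_cast (by omega : 0 < m)
  have h := BlkT_aux hm k R d g U 1 K hk hg hd (Ω := Unit) 1 zero_le_one (by simp)
    (fun ω => [univ.image ω.1]) (fun ω => by simp) (fun ω T hT => ?_)
    (fun y => ((y : ℝ) / m) ^ d) (fun x => ?_) (fun x => le_rfl) hU F₀ hinv hK
  · simpa only [mul_one] using h
  · rw [List.mem_singleton] at hT
    rw [hT]
  · simp only [ind_singleton]
    rw [← mul_sum, Fintype.sum_prod_type]
    simp only [univ_unique, sum_const, card_singleton, one_smul]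
    rw [BlkT_sum_cj, div_pow]
    ring

end Pool.Agent.H.MP_cba12a_lc.QP
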