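import Pool.Agent.H.MP_cba12a_lc.QP.Defs
import Pool.Agent.H.MP_cba12a_lc.QP.BlkT

/-!
# The blocks of the base formula
-/

set_option autoImplicit false

namespace Pool.Agent.H.MP_cba12a_lc.QP

open Finset Pool.Agent.H.MP_cba12a_lc.SQ

/- PROOF: induction on the number of blocks as SQ.baseex_iter (BaseEx.lean), with pureT_step first
and then blkT_step for l < r. -/
theorem base_iter {m : ℕ} (k d g e U : ℕ) (hk : 1 ≤ k) (hg : g ≤ d) (hd : d ≤ U) (he : 0 < e)
    (hU : 3 * U ^ 2 ≤ m) (hm : 2 ≤ m) (R0 : ℕ) (R M : ℕ → ℕ) (r : ℕ) (S : ℝ)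
    (hS0 : Real.sqrt R0 ≤ S) (hS : ∀ l < r, Real.sqrt (R l) ≤ S)
    (hcond : S * (2 * ((R0 : ℝ) + ∑ l ∈ range r, (R l : ℝ)) * (1 / 2) ^ (d - g)) ≤ 1) :
    ∀ i ≤ r, ∃ F : List (Finset (Fin m)), F.length ≤ R0 + ∑ l ∈ range i, R l * M l ∧
      Inv U (2 * ((R0 : ℝ) + ∑ l ∈ range i, (R l : ℝ)) * (1 / 2) ^ (d - g)) F ∧
      ∀ B : Finset (Fin m), B.card < k →
        |co (ind F) B - R0 * crad m B.card (fun y => ((y : ℝ) / m) ^ d)
          - ∑ l ∈ range i, R l * crad m B.card (blkT m d e (M l))| ≤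
          4 * (Real.sqrt R0 + ∑ l ∈ range i, Real.sqrt (R l)) * (1 / 2) ^ (d - g) * (m : ℝ) ^ k
            + ((R0 : ℝ) + ∑ l ∈ range i, (R l : ℝ)) * ((d : ℝ) ^ d / (m : ℝ) ^ g) := by
  have hSnn : 0 ≤ S := (Real.sqrt_nonneg _).trans hS0
  have hmono : ∀ i ≤ r, ∑ l ∈ range i, (R l : ℝ) ≤ ∑ l ∈ range r, (R l : ℝ) := by
    intro i hi
    apply sum_le_sum_of_subset_of_nonneg (range_subset_range.2 hi)
    intro _ _ _
    positivity
  intro i
  induction i with
  | zero =>
    intro _
    have hinv : Inv U 0 ([] : List (Finset (Fin m))) := by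
      intro s _
      simp [ind_nil, ex]
    have hK : Real.sqrt R0 * (0 + 2 * R0 * (1 / 2) ^ (d - g)) ≤ 1 := by
      refine le_trans ?_ hcond
      apply mul_le_mul hS0 _ (by positivity) hSnn
      rw [zero_add]
      have h1 : (0 : ℝ) ≤ ∑ l ∈ range r, (R l : ℝ) := sum_nonneg (fun _ _ => by positivity)
      apply mul_le_mul_of_nonneg_right _ (by positivity)
      linarith
    obtain ⟨F, h1, h2, -, -, h5⟩ := pureT_step k R0 d g U 0 hk hg hd hU hm [] hinv hK
    refine ⟨F, by simpa using h1, ?_, ?_⟩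
    · simpa using h2
    · intro B hB
      have h6 := h5 B hB
      have h7 : co (ind ([] : List (Finset (Fin m)))) B = 0 := by
        have : ind ([] : List (Finset (Fin m))) = fun _ => 0 := by
          funext x
          exact ind_nil x
        rw [this]
        simp [co, ex]
      rw [h7, sub_zero] at h6
      rw [range_zero, sum_empty, sum_empty, sum_empty, sub_zero, add_zero, add_zero]
      exact h6
  | succ i ih =>
    intro hi
    obtain ⟨F₀, h1, h2, h3⟩ := ih (by omega)
    have h4 : ∑ l ∈ range (i + 1), (R l : ℝ) ≤ ∑ l ∈ range r, (R l : ℝ) := hmono _ hi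
    rw [sum_range_succ] at h4
    have hK : Real.sqrt (R i) * (2 * ((R0 : ℝ) + ∑ l ∈ range i, (R l : ℝ)) * (1 / 2) ^ (d - g)
        + 2 * R i * (1 / 2) ^ (d - g)) ≤ 1 := by
      refine le_trans ?_ hcond
      have h5 : (0 : ℝ) ≤ ∑ l ∈ range i, (R l : ℝ) := sum_nonneg (fun _ _ => by positivity)
      apply mul_le_mul (hS i (by omega)) _ (by positivity) hSnn
      rw [← add_mul]
      apply mul_le_mul_of_nonneg_right _ (by positivity)
      linarith
    obtain ⟨F, h5, h6, -, -, h7⟩ :=
      blkT_step k (R i) d g e (M i) U _ hk hg hd he hU hm F₀ h2 hK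
    refine ⟨F, ?_, ?_, ?_⟩
    · rw [sum_range_succ]
      omega
    · rw [sum_range_succ]
      convert h6 using 1
      ring
    · intro B hB
      have h8 := h3 B hB
      have h9 := h7 B hB
      rw [sum_range_succ, sum_range_succ, sum_range_succ]
      have h10 : co (ind F) B - R0 * crad m B.card (fun y => ((y : ℝ) / m) ^ d)
          - (∑ l ∈ range i, R l * crad m B.card (blkT m d e (M l))
            + R i * crad m B.card (blkT m d e (M i)))
          = (co (ind F) B - co (ind F₀) B - R i * crad m B.card (blkT m d e (M i)))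
            + (co (ind F₀) B - R0 * crad m B.card (fun y => ((y : ℝ) / m) ^ d)
              - ∑ l ∈ range i, R l * crad m B.card (blkT m d e (M l))) := by ring
      rw [h10]
      refine (abs_add_le _ _).trans ((add_le_add h9 h8).trans (le_of_eq ?_))
      ring

end Pool.Agent.H.MP_cba12a_lc.QP
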