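import Pool.Agent.H.MP_cba12a_lc.QP.BaseE
import Pool.Agent.H.MP_cba12a_lc.QP.BaseIt

/-!
# The blocks of the base formula, with numbers
-/

set_option autoImplicit false

namespace Pool.Agent.H.MP_cba12a_lc.QP

open Finset Pool.Agent.H.MP_cba12a_lc.SQ

private theorem BaseB_inv_mono {m U : ℕ} {K K' : ℝ} {F : List (Finset (Fin m))} (h : Inv U K F)
    (hK : K ≤ K') : Inv U K' F := fun s hs => (h s hs).trans hK

private theorem BaseB_pw {Q q : ℝ} (hQq : Q * q = 1) (a b : ℕ) : Q ^ a * q ^ (a + b) = q ^ b := by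
  rw [pow_add, ← mul_assoc, ← mul_pow, hQq, one_pow, one_mul]

private theorem BaseB_num {k n e Q : ℝ} (hk : 3 ≤ k) (hn : 2 ≤ n) (he : 1 ≤ e)
    (h : 10 ^ 9 * (k + 2) ^ 4 * n ^ 20 * e ^ 10 ≤ Q) :
    1024000 * (k + 1) * n ^ 6 ≤ Q ∧ 4 + 640000 * k * n ^ 5 ≤ Q ∧ 12800 * (k + 1) * n ^ 4 ≤ Q ∧
      320 * (k + 1) * n ^ 2 ≤ Q ∧ 6400 * (k + 1) * n ^ 4 ≤ Q ∧ k + 1 ≤ Q := by
  have he10 : (1 : ℝ) ≤ e ^ 10 := one_le_pow₀ he
  have hn1 : (1 : ℝ) ≤ n := by linarith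
  have hn6 : (1 : ℝ) ≤ n ^ 6 := one_le_pow₀ hn1
  have h1 : n ^ 6 ≤ n ^ 20 := pow_le_pow_right₀ hn1 (by norm_num)
  have h2 : n ^ 5 ≤ n ^ 6 := pow_le_pow_right₀ hn1 (by norm_num)
  have h3 : n ^ 4 ≤ n ^ 6 := pow_le_pow_right₀ hn1 (by norm_num)
  have h4 : n ^ 2 ≤ n ^ 6 := pow_le_pow_right₀ hn1 (by norm_num)
  have hk4 : k + 2 ≤ (k + 2) ^ 4 := by
    calc k + 2 = (k + 2) ^ 1 := by ring
      _ ≤ (k + 2) ^ 4 := pow_le_pow_right₀ (by linarith) (by norm_num)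
  have hk0 : 0 ≤ k + 2 := by linarith
  have hmain : 10 ^ 9 * (k + 2) * n ^ 6 ≤ Q := by
    calc 10 ^ 9 * (k + 2) * n ^ 6 ≤ 10 ^ 9 * (k + 2) ^ 4 * n ^ 20 := by gcongr
      _ = 10 ^ 9 * (k + 2) ^ 4 * n ^ 20 * 1 := by ring
      _ ≤ 10 ^ 9 * (k + 2) ^ 4 * n ^ 20 * e ^ 10 := by gcongr
      _ ≤ Q := h
  have hkn : (k + 1) * n ^ 6 ≤ (k + 2) * n ^ 6 := by gcongr; norm_num
  have hkn5 : (k + 1) * n ^ 5 ≤ (k + 1) * n ^ 6 := by gcongr
  have hkn4 : (k + 1) * n ^ 4 ≤ (k + 1) * n ^ 6 := by gcongr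
  have hkn2 : (k + 1) * n ^ 2 ≤ (k + 1) * n ^ 6 := by gcongr
  have hk1 : k + 1 ≤ (k + 1) * n ^ 6 := by nlinarith
  have hkk : k * n ^ 5 ≤ (k + 1) * n ^ 5 := by gcongr; norm_num
  have hpos : 1 ≤ (k + 1) * n ^ 6 := by nlinarith
  refine ⟨?_, ?_, ?_, ?_, ?_, ?_⟩ <;> nlinarith

/- PROOF: base_iter with d = 2000h, g = h, R0 = floor (c0 log 2 N), R l = floor (c l log 2 N),
M l = floor (x l 2^e) (extend to ℕ by 0 for l ≥ r), N = 2^(1000h), S = 80 n^2 2^(500h): all of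
R0, R l are at most 6400 n^4 2^(1000h). Then, with the number of blocks r + 1 ≤ k + 1 and P.sm:
 length ≤ 4 N + k * 6400 n^4 N * 100 n 2^e ≤ 2^(1003h + e);
 Inv: 2 (k+1) 6400 n^4 2^(1000h) 2^(-1999h) ≤ 2^(-997h) (Inv is monotone in K);
 error: 4 (k+1) 80 n^2 2^(500h) 2^(-1999h) m^k + (k+1) 6400 n^4 2^(1000h) d^d/m^g, with m^k ≤ 2^h
 and d^d/m^h ≤ 2^(-6000h) (P.bd), then blk_err, pure_err for each block: ≤ 2^(-1495h). -/
theorem base_blocks {h μ k n e U : ℕ} (P : Par h μ k n e U) (r : ℕ) (c0 : ℝ) (c x : Fin r → ℝ)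
    (hr : r ≤ k) (h0 : 0 ≤ c0) (hc : ∀ l, 0 ≤ c l) (hx : ∀ l, lo n ≤ x l ∧ x l ≤ 100 * n)
    (hc0 : c0 ≤ 4) (hc1 : ∀ l, c l ≤ 16 / lo n) :
    ∃ F : List (Finset (Fin (μ ^ 4))), F.length ≤ 2 ^ (1003 * h + e) ∧
      Inv U ((1 / 2) ^ (997 * h)) F ∧
      ∀ B : Finset (Fin (μ ^ 4)), B.card < k →
        |co (ind F) B - Real.log 2 / 2 ^ (1000 * h) *
          (c0 * lev (μ ^ 4) B.card (tf n (2000 * h) e 0) +
            ∑ l, c l * lev (μ ^ 4) B.card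
              (fun s => tf n (2000 * h) e 0 s - tf n (2000 * h) e (x l) s))| ≤
          (1 / 2) ^ (1495 * h) := by
  classical
  have hPh := P.h1
  have hPn := P.n2
  have hPk := P.k3
  have hPde := P.de
  have hPmL := P.mL
  have hPkU := P.kU
  have hn2 : (2 : ℝ) ≤ n := by exact_mod_cast hPn
  have hk3 : (3 : ℝ) ≤ k := by exact_mod_cast hPk
  have he1 : (1 : ℝ) ≤ e := by
    have : 1 ≤ e := by omega
    exact_mod_cast this
  have hrk : (r : ℝ) ≤ k := by exact_mod_cast hr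
  -- powers of two
  obtain ⟨Q, hQdef⟩ : ∃ Q : ℝ, Q = 2 ^ h := ⟨_, rfl⟩
  obtain ⟨q, hqdef⟩ : ∃ q : ℝ, q = (1 / 2) ^ h := ⟨_, rfl⟩
  have hQq : Q * q = 1 := by
    rw [hQdef, hqdef, ← mul_pow]; norm_num
  have hQ0 : 0 < Q := by rw [hQdef]; positivity
  have hq0 : 0 < q := by rw [hqdef]; positivity
  have hQ4 : 4 ≤ Q := by
    rw [hQdef]
    calc (4 : ℝ) = 2 ^ 2 := by norm_num
      _ ≤ 2 ^ h := pow_le_pow_right₀ (by norm_num) (by omega)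
  have hq1 : q ≤ 1 / 4 := by
    have : q = 1 / Q := by field_simp; linarith
    rw [this]
    exact one_div_le_one_div_of_le (by norm_num) hQ4
  have e1000 : (2 : ℝ) ^ (1000 * h) = Q ^ 1000 := by rw [hQdef, ← pow_mul']
  have hsm : 10 ^ 9 * ((k : ℝ) + 2) ^ 4 * (n : ℝ) ^ 20 * (e : ℝ) ^ 10 ≤ Q := by
    rw [hQdef]; exact par_small P
  obtain ⟨n1, n2, n3, n4, n5, n6⟩ := BaseB_num hk3 hn2 he1 hsm
  have hlo : 0 < lo n := by unfold lo; positivity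
  have hlo16 : 16 / lo n = 6400 * (n : ℝ) ^ 4 := by
    unfold lo
    have : (n : ℝ) ≠ 0 := by positivity
    field_simp
    norm_num
  have hlog0 : 0 < Real.log 2 := Real.log_pos (by norm_num)
  have hlog1 : Real.log 2 ≤ 1 := by
    have := Real.log_two_lt_d9
    linarith
  -- the numbers of blocks
  obtain ⟨A, hA⟩ : ∃ A : ℝ, A = 6400 * (n : ℝ) ^ 4 * Q ^ 1000 := ⟨_, rfl⟩
  have hA0 : 0 ≤ A := by rw [hA]; positivity
  have hfl : ∀ y : ℝ, 0 ≤ y → y ≤ 6400 * (n : ℝ) ^ 4 →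
      (⌊y * (Real.log 2 * 2 ^ (1000 * h))⌋₊ : ℝ) ≤ A := by
    intro y hy hy2
    refine (Nat.floor_le (by positivity)).trans ?_
    rw [e1000, hA]
    have : Real.log 2 * Q ^ 1000 ≤ 1 * Q ^ 1000 := by gcongr
    calc y * (Real.log 2 * Q ^ 1000) ≤ (6400 * (n : ℝ) ^ 4) * (1 * Q ^ 1000) := by gcongr
      _ = 6400 * (n : ℝ) ^ 4 * Q ^ 1000 := by ring
  obtain ⟨R0, hR0⟩ : ∃ R0 : ℕ, R0 = ⌊c0 * (Real.log 2 * 2 ^ (1000 * h))⌋₊ := ⟨_, rfl⟩
  obtain ⟨R, hR⟩ : ∃ R : ℕ → ℕ, R = fun l => if hl : l < r then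
      ⌊c ⟨l, hl⟩ * (Real.log 2 * 2 ^ (1000 * h))⌋₊ else 0 := ⟨_, rfl⟩
  obtain ⟨M, hM⟩ : ∃ M : ℕ → ℕ, M = fun l => if hl : l < r then ⌊x ⟨l, hl⟩ * 2 ^ e⌋₊ else 0 :=
    ⟨_, rfl⟩
  have hRl : ∀ l : Fin r, R (l : ℕ) = ⌊c l * (Real.log 2 * 2 ^ (1000 * h))⌋₊ := by
    intro l; rw [hR]; simp
  have hMl : ∀ l : Fin r, M (l : ℕ) = ⌊x l * 2 ^ e⌋₊ := by
    intro l; rw [hM]; simp
  have hn4 : (1 : ℝ) ≤ (n : ℝ) ^ 4 := one_le_pow₀ (by linarith)
  have hR0A : (R0 : ℝ) ≤ A := by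
    rw [hR0]; exact hfl c0 h0 (by nlinarith)
  have hRA : ∀ l, (R l : ℝ) ≤ A := by
    intro l
    rw [hR]
    by_cases hl : l < r
    · simp only [hl, dif_pos]
      exact hfl _ (hc _) (by rw [← hlo16]; exact hc1 _)
    · simp only [hl, dif_neg, not_false_iff]
      simpa using hA0
  have hMA : ∀ l, (M l : ℝ) ≤ 100 * n * 2 ^ e := by
    intro l
    rw [hM]
    by_cases hl : l < r
    · simp only [hl, dif_pos]
      refine (Nat.floor_le ?_).trans ?_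
      · have := (hx ⟨l, hl⟩).1
        have h2 : 0 ≤ x ⟨l, hl⟩ := by linarith
        positivity
      · have := (hx ⟨l, hl⟩).2
        gcongr
    · simp only [hl, dif_neg, not_false_iff]
      simp only [Nat.cast_zero]; positivity
  have hsumR : (∑ l ∈ range r, (R l : ℝ)) ≤ k * A := by
    calc (∑ l ∈ range r, (R l : ℝ)) ≤ ∑ _l ∈ range r, A := Finset.sum_le_sum fun l _ => hRA l
      _ = r * A := by simp
      _ ≤ k * A := by gcongr
  have hsumR0 : 0 ≤ ∑ l ∈ range r, (R l : ℝ) := Finset.sum_nonneg fun l _ => by positivity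
  have htot : (R0 : ℝ) + ∑ l ∈ range r, (R l : ℝ) ≤ (k + 1) * A := by nlinarith
  -- square roots
  obtain ⟨S, hS⟩ : ∃ S : ℝ, S = 80 * (n : ℝ) ^ 2 * Q ^ 500 := ⟨_, rfl⟩
  have hS0 : 0 ≤ S := by rw [hS]; positivity
  have hSA : S ^ 2 = A := by rw [hS, hA]; ring
  have hsq : ∀ y : ℕ, (y : ℝ) ≤ A → Real.sqrt y ≤ S := by
    intro y hy
    rw [← hSA] at hy
    exact Real.sqrt_le_iff.mpr ⟨hS0, hy⟩
  -- the condition
  have ed : 2000 * h - h = 1999 * h := by omega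
  have e1999 : ((1 : ℝ) / 2) ^ (1999 * h) = q ^ 1999 := by rw [hqdef, ← pow_mul']
  have hcond : S * (2 * ((R0 : ℝ) + ∑ l ∈ range r, (R l : ℝ)) * (1 / 2) ^ (2000 * h - h)) ≤ 1 := by
    rw [ed, e1999]
    calc S * (2 * ((R0 : ℝ) + ∑ l ∈ range r, (R l : ℝ)) * q ^ 1999)
        ≤ S * (2 * ((k + 1) * A) * q ^ 1999) := by gcongr
      _ = (1024000 * (k + 1) * (n : ℝ) ^ 6) * (Q ^ 1500 * q ^ (1500 + 499)) := by
          rw [hS, hA]; ring
      _ = (1024000 * (k + 1) * (n : ℝ) ^ 6) * q ^ 499 := by rw [BaseB_pw hQq]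
      _ ≤ Q * q ^ 499 := by gcongr
      _ = Q ^ 1 * q ^ (1 + 498) := by ring
      _ = q ^ 498 := by rw [BaseB_pw hQq]
      _ ≤ 1 := pow_le_one₀ hq0.le (by linarith)
  obtain ⟨F, hF1, hF2, hF3⟩ := base_iter (m := μ ^ 4) k (2000 * h) h e U (by omega) (by omega)
    (by nlinarith) (by omega) P.Um (by have := (par_km P).2.2.1; omega) R0 R M r S
    (hsq _ hR0A) (fun l _ => hsq _ (hRA l)) hcond r le_rfl
  refine ⟨F, ?_, ?_, ?_⟩
  · -- the length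
    have h1 : (F.length : ℝ) ≤ (R0 : ℝ) + ∑ l ∈ range r, (R l : ℝ) * (M l : ℝ) := by
      exact_mod_cast hF1
    have h2 : (∑ l ∈ range r, (R l : ℝ) * (M l : ℝ)) ≤ k * (A * (100 * n * 2 ^ e)) := by
      calc (∑ l ∈ range r, (R l : ℝ) * (M l : ℝ)) ≤ ∑ _l ∈ range r, A * (100 * n * 2 ^ e) :=
            Finset.sum_le_sum fun l _ => mul_le_mul (hRA l) (hMA l) (by positivity) hA0
        _ = r * (A * (100 * n * 2 ^ e)) := by simp
        _ ≤ k * (A * (100 * n * 2 ^ e)) := by gcongr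
    have h3 : (R0 : ℝ) ≤ 4 * Q ^ 1000 := by
      rw [hR0]
      refine (Nat.floor_le (by positivity)).trans ?_
      rw [e1000]
      calc c0 * (Real.log 2 * Q ^ 1000) ≤ 4 * (1 * Q ^ 1000) := by gcongr
        _ = 4 * Q ^ 1000 := by ring
    have h4 : (1 : ℝ) ≤ 2 ^ e := one_le_pow₀ (by norm_num)
    have h5 : (F.length : ℝ) ≤ 2 ^ (1003 * h + e) := by
      calc (F.length : ℝ) ≤ 4 * Q ^ 1000 + k * (A * (100 * n * 2 ^ e)) := by linarith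
        _ ≤ 4 * Q ^ 1000 * 2 ^ e + k * (A * (100 * n * 2 ^ e)) := by
            have : 4 * Q ^ 1000 * 1 ≤ 4 * Q ^ 1000 * 2 ^ e := by gcongr
            linarith
        _ = (4 + 640000 * k * (n : ℝ) ^ 5) * (Q ^ 1000 * 2 ^ e) := by rw [hA]; ring
        _ ≤ Q * (Q ^ 1000 * 2 ^ e) := by gcongr
        _ = Q ^ 1001 * 2 ^ e := by ring
        _ ≤ Q ^ 1003 * 2 ^ e := by
            gcongr
            · linarith
            · norm_num
        _ = 2 ^ (1003 * h + e) := by rw [pow_add, hQdef, ← pow_mul']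
    exact_mod_cast h5
  · -- the moment condition
    refine BaseB_inv_mono hF2 ?_
    have e997 : ((1 : ℝ) / 2) ^ (997 * h) = q ^ 997 := by rw [hqdef, ← pow_mul']
    rw [ed, e1999, e997]
    calc 2 * ((R0 : ℝ) + ∑ l ∈ range r, (R l : ℝ)) * q ^ 1999 ≤ 2 * ((k + 1) * A) * q ^ 1999 := by
          gcongr
      _ = (12800 * (k + 1) * (n : ℝ) ^ 4) * (Q ^ 1000 * q ^ (1000 + 999)) := by rw [hA]; ring
      _ = (12800 * (k + 1) * (n : ℝ) ^ 4) * q ^ 999 := by rw [BaseB_pw hQq]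
      _ ≤ Q * q ^ 999 := by gcongr
      _ = Q ^ 1 * q ^ (1 + 998) := by ring
      _ = q ^ 998 := by rw [BaseB_pw hQq]
      _ ≤ q ^ 997 := pow_le_pow_of_le_one hq0.le (by linarith) (by norm_num)
  · intro B hB
    have hb := hF3 B hB
    have e1495 : ((1 : ℝ) / 2) ^ (1495 * h) = q ^ 1495 := by rw [hqdef, ← pow_mul']
    rw [e1495]
    -- the error of base_iter
    have hmk : (((μ ^ 4 : ℕ) : ℝ)) ^ k ≤ Q := by rw [hQdef]; exact par_mk P k (by omega)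
    have hm0 : (0 : ℝ) < ((μ ^ 4 : ℕ) : ℝ) := by
      have := (par_km P).2.2.1
      exact_mod_cast (by omega : 0 < μ ^ 4)
    have hdd : (((2000 * h : ℕ) : ℝ)) ^ (2000 * h) / (((μ ^ 4 : ℕ) : ℝ)) ^ h ≤ q ^ 6000 := by
      have hbd : (((2000 * h : ℕ) : ℝ)) ^ (2000 * h) * 2 ^ (6000 * h) ≤ (((μ ^ 4 : ℕ) : ℝ)) ^ h := by
        exact_mod_cast P.bd
      have e6 : (2 : ℝ) ^ (6000 * h) = Q ^ 6000 := by rw [hQdef, ← pow_mul']
      rw [e6] at hbd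
      rw [div_le_iff₀ (by positivity)]
      calc (((2000 * h : ℕ) : ℝ)) ^ (2000 * h)
          = (((2000 * h : ℕ) : ℝ)) ^ (2000 * h) * (Q ^ 6000 * q ^ (6000 + 0)) := by
            rw [BaseB_pw hQq]; ring
        _ = q ^ 6000 * ((((2000 * h : ℕ) : ℝ)) ^ (2000 * h) * Q ^ 6000) := by ring
        _ ≤ q ^ 6000 * (((μ ^ 4 : ℕ) : ℝ)) ^ h := by gcongr
    have hsq1 : Real.sqrt R0 + ∑ l ∈ range r, Real.sqrt (R l) ≤ (k + 1) * S := by
      have h1 : (∑ l ∈ range r, Real.sqrt (R l)) ≤ k * S := by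
        calc (∑ l ∈ range r, Real.sqrt (R l)) ≤ ∑ _l ∈ range r, S :=
              Finset.sum_le_sum fun l _ => hsq _ (hRA l)
          _ = r * S := by simp
          _ ≤ k * S := by gcongr
      have h2 := hsq _ hR0A
      linarith
    have herr1 : 4 * (Real.sqrt R0 + ∑ l ∈ range r, Real.sqrt (R l)) * (1 / 2) ^ (2000 * h - h) *
        (((μ ^ 4 : ℕ) : ℝ)) ^ k ≤ q ^ 1497 := by
      rw [ed, e1999]
      have h0' : 0 ≤ Real.sqrt R0 + ∑ l ∈ range r, Real.sqrt (R l) :=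
        add_nonneg (Real.sqrt_nonneg _) (Finset.sum_nonneg fun l _ => Real.sqrt_nonneg _)
      calc 4 * (Real.sqrt R0 + ∑ l ∈ range r, Real.sqrt (R l)) * q ^ 1999 *
            (((μ ^ 4 : ℕ) : ℝ)) ^ k ≤ 4 * ((k + 1) * S) * q ^ 1999 * Q := by gcongr
        _ = (320 * (k + 1) * (n : ℝ) ^ 2) * (Q ^ 501 * q ^ (501 + 1498)) := by rw [hS]; ring
        _ = (320 * (k + 1) * (n : ℝ) ^ 2) * q ^ 1498 := by rw [BaseB_pw hQq]
        _ ≤ Q * q ^ 1498 := by gcongr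
        _ = Q ^ 1 * q ^ (1 + 1497) := by ring
        _ = q ^ 1497 := by rw [BaseB_pw hQq]
    have herr2 : ((R0 : ℝ) + ∑ l ∈ range r, (R l : ℝ)) *
        ((((2000 * h : ℕ) : ℝ)) ^ (2000 * h) / (((μ ^ 4 : ℕ) : ℝ)) ^ h) ≤ q ^ 1497 := by
      calc ((R0 : ℝ) + ∑ l ∈ range r, (R l : ℝ)) *
            ((((2000 * h : ℕ) : ℝ)) ^ (2000 * h) / (((μ ^ 4 : ℕ) : ℝ)) ^ h)
          ≤ ((k + 1) * A) * q ^ 6000 := by gcongr
        _ = (6400 * (k + 1) * (n : ℝ) ^ 4) * (Q ^ 1000 * q ^ (1000 + 5000)) := by rw [hA]; ring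
        _ = (6400 * (k + 1) * (n : ℝ) ^ 4) * q ^ 5000 := by rw [BaseB_pw hQq]
        _ ≤ Q * q ^ 5000 := by gcongr
        _ = Q ^ 1 * q ^ (1 + 4999) := by ring
        _ = q ^ 4999 := by rw [BaseB_pw hQq]
        _ ≤ q ^ 1497 := pow_le_pow_of_le_one hq0.le (by linarith) (by norm_num)
    -- the errors of the blocks
    have hpure := pure_err P B.card hB c0 h0 hc0
    rw [← hR0, e1999] at hpure
    have hblk : ∀ l : Fin r, |(R (l : ℕ) : ℝ) *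
        crad (μ ^ 4) B.card (blkT (μ ^ 4) (2000 * h) e (M (l : ℕ))) -
        Real.log 2 / 2 ^ (1000 * h) * (c l * lev (μ ^ 4) B.card
          (fun s => tf n (2000 * h) e 0 s - tf n (2000 * h) e (x l) s))| ≤ q ^ 1999 := by
      intro l
      have := blk_err P B.card hB (c l) (x l) (hc l) (hc1 l) (hx l).1 (hx l).2
      rw [e1999] at this
      rw [hRl, hMl]
      exact this
    have hsum : |∑ l ∈ range r, (R l : ℝ) * crad (μ ^ 4) B.card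
          (blkT (μ ^ 4) (2000 * h) e (M l)) -
        ∑ l : Fin r, Real.log 2 / 2 ^ (1000 * h) * (c l * lev (μ ^ 4) B.card
          (fun s => tf n (2000 * h) e 0 s - tf n (2000 * h) e (x l) s))| ≤ k * q ^ 1999 := by
      rw [Finset.sum_range, ← Finset.sum_sub_distrib]
      calc |∑ l : Fin r, ((R (l : ℕ) : ℝ) *
            crad (μ ^ 4) B.card (blkT (μ ^ 4) (2000 * h) e (M (l : ℕ))) -
            Real.log 2 / 2 ^ (1000 * h) * (c l * lev (μ ^ 4) B.card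
              (fun s => tf n (2000 * h) e 0 s - tf n (2000 * h) e (x l) s)))|
          ≤ ∑ _l : Fin r, q ^ 1999 :=
            (Finset.abs_sum_le_sum_abs _ _).trans (Finset.sum_le_sum fun l _ => hblk l)
        _ = r * q ^ 1999 := by simp
        _ ≤ k * q ^ 1999 := by gcongr
    have hk1 : ((k : ℝ) + 1) * q ^ 1999 ≤ q ^ 1497 := by
      calc ((k : ℝ) + 1) * q ^ 1999 ≤ Q * q ^ 1999 := by gcongr
        _ = Q ^ 1 * q ^ (1 + 1998) := by ring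
        _ = q ^ 1998 := by rw [BaseB_pw hQq]
        _ ≤ q ^ 1497 := pow_le_pow_of_le_one hq0.le (by linarith) (by norm_num)
    have hfin : 3 * q ^ 1497 ≤ q ^ 1495 := by
      calc 3 * q ^ 1497 = (3 * q ^ 2) * q ^ 1495 := by ring
        _ ≤ 1 * q ^ 1495 := by
            gcongr
            nlinarith
        _ = q ^ 1495 := by ring
    rw [mul_add, Finset.mul_sum]
    rw [abs_le] at hb hpure hsum ⊢
    constructor
    · linarith [hb.1, hb.2, hpure.1, hpure.2, hsum.1, hsum.2]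
    · linarith [hb.1, hb.2, hpure.1, hpure.2, hsum.1, hsum.2]

end Pool.Agent.H.MP_cba12a_lc.QP
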