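import Pool.Agent.H.MP_cba12a_lc.QP.Defs

/-!
# Numerical consequences of the conditions on the parameters
-/

set_option autoImplicit false

namespace Pool.Agent.H.MP_cba12a_lc.QP

open Finset Pool.Agent.H.MP_cba12a_lc.SQ

theorem par_exp {h μ k n e U : ℕ} (P : Par h μ k n e U) :
    Real.exp (-(μ : ℝ) ^ 2 / 2) ≤ (1 / 2) ^ (10000 * h) := by
  have h1 : (40000 : ℝ) * h ≤ μ := by exact_mod_cast P.mL
  have h2 : (100 : ℝ) ≤ h := by exact_mod_cast P.h1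
  have h3 : (1 / 2 : ℝ) ^ (10000 * h) = Real.exp (-((10000 * h : ℕ) : ℝ) * Real.log 2) := by
    rw [one_div, inv_pow, neg_mul, Real.exp_neg, ← Real.log_pow, Real.exp_log (by positivity)]
  rw [h3]
  apply Real.exp_le_exp.2
  have h4 : Real.log 2 ≤ 1 := by
    have := Real.log_two_lt_d9
    linarith
  push_cast
  have h5 : (10000 * (h : ℝ)) * Real.log 2 ≤ 10000 * h * 1 :=
    mul_le_mul_of_nonneg_left h4 (by positivity)
  have h6 : (40000 * (h : ℝ)) ^ 2 ≤ (μ : ℝ) ^ 2 := pow_le_pow_left₀ (by positivity) h1 2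
  nlinarith

theorem par_small {h μ k n e U : ℕ} (P : Par h μ k n e U) :
    10 ^ 9 * ((k : ℝ) + 2) ^ 4 * (n : ℝ) ^ 20 * (e : ℝ) ^ 10 ≤ 2 ^ h := by
  exact_mod_cast P.sm

theorem par_mk {h μ k n e U : ℕ} (P : Par h μ k n e U) (j : ℕ) (hj : j ≤ 10 * k) :
    (((μ ^ 4 : ℕ) : ℝ)) ^ j ≤ 2 ^ h := by
  have h0 : 1 ≤ μ := by
    have := P.mL
    have := P.h1
    omega
  have h1 : (μ ^ 4) ^ j ≤ (μ ^ 4) ^ (10 * k) := Nat.pow_le_pow_right (Nat.one_le_pow _ _ h0) hj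
  exact_mod_cast h1.trans P.mK

theorem par_km {h μ k n e U : ℕ} (P : Par h μ k n e U) :
    k ≤ μ ^ 4 ∧ U < μ ^ 4 ∧ 16 ≤ μ ^ 4 ∧ 16 ≤ μ := by
  have h1 := P.mL
  have h2 := P.h1
  have h3 := P.kn
  have h4 := P.nd
  have h5 := P.Uu
  have h6 : μ ≤ μ ^ 4 := Nat.le_self_pow (by norm_num) μ
  refine ⟨by omega, by omega, by omega, by omega⟩

theorem par_lo {h μ k n e U : ℕ} (P : Par h μ k n e U) : 40000 * (n : ℝ) ^ 4 ≤ 2 ^ h := by
  refine le_trans ?_ (par_small P)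
  have hn : (2 : ℝ) ≤ n := by exact_mod_cast P.n2
  have he : (1 : ℝ) ≤ e := by
    have h1 := P.de
    have h2 := P.h1
    have : 1 ≤ e := by omega
    exact_mod_cast this
  have h1 : (n : ℝ) ^ 4 ≤ (n : ℝ) ^ 20 := pow_le_pow_right₀ (by linarith) (by norm_num)
  have h2 : (1 : ℝ) ≤ (e : ℝ) ^ 10 := one_le_pow₀ he
  have h3 : (1 : ℝ) ≤ ((k : ℝ) + 2) ^ 4 := one_le_pow₀ (by
    have : (0 : ℝ) ≤ k := by positivity
    linarith)
  calc 40000 * (n : ℝ) ^ 4 ≤ 10 ^ 9 * 1 * (n : ℝ) ^ 20 * 1 := by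
        have : (0 : ℝ) ≤ (n : ℝ) ^ 20 := by positivity
        linarith
    _ ≤ _ := by gcongr

theorem par_tau {h μ k n e U : ℕ} (P : Par h μ k n e U) :
    tau μ n (2000 * h) e ≤ (1 / 2) ^ (4000 * h) ∧ tau μ n (2000 * h) e ≤ lo n / 100 := by
  have hh : 100 ≤ h := P.h1
  have hμ : (0 : ℝ) < μ := by
    have h1 := P.mL
    have : 0 < μ := by omega
    exact_mod_cast this
  have hn : (2 : ℝ) ≤ n := by exact_mod_cast P.n2
  have h1 : (3 * (e : ℝ) / μ) ^ (n + 1) ≤ (1 / 2) ^ (5000 * h) := by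
    have h2 : (3 * (e : ℝ)) ^ (n + 1) * 2 ^ (5000 * h) ≤ (μ : ℝ) ^ (n + 1) := by
      exact_mod_cast P.ty
    rw [div_pow, div_le_iff₀ (by positivity), one_div, inv_pow, inv_mul_eq_div,
      le_div_iff₀ (by positivity)]
    exact h2
  have h2 : (3 * (e : ℝ)) ^ (n + 1) ≤ 2 ^ h := by exact_mod_cast P.en
  have h3 := par_exp P
  have h4 : (3 * (e : ℝ)) ^ (n + 1) ≤ 2 ^ (2000 * h) :=
    h2.trans (pow_le_pow_right₀ (by norm_num) (by omega))
  have h5 : 2 * ((2 : ℝ) ^ (2000 * h) + (3 * (e : ℝ)) ^ (n + 1)) * Real.exp (-(μ : ℝ) ^ 2 / 2) ≤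
      4 * (1 / 2) ^ (8000 * h) := by
    calc 2 * ((2 : ℝ) ^ (2000 * h) + (3 * (e : ℝ)) ^ (n + 1)) * Real.exp (-(μ : ℝ) ^ 2 / 2)
        ≤ 2 * ((2 : ℝ) ^ (2000 * h) + 2 ^ (2000 * h)) * (1 / 2) ^ (10000 * h) := by
          gcongr
      _ = 4 * ((2 : ℝ) ^ (2000 * h) * (1 / 2) ^ (2000 * h)) * (1 / 2) ^ (8000 * h) := by
          rw [show 10000 * h = 2000 * h + 8000 * h by ring, pow_add]
          ring
      _ = 4 * (1 / 2) ^ (8000 * h) := by
          rw [← mul_pow]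
          norm_num
  have h6 : (1 / 2 : ℝ) ^ (8000 * h) ≤ (1 / 2) ^ (5000 * h) :=
    pow_le_pow_of_le_one (by norm_num) (by norm_num) (by omega)
  have h7 : tau μ n (2000 * h) e ≤ 7 * (1 / 2) ^ (5000 * h) := by
    unfold tau
    linarith
  have h8 : 7 * (1 / 2 : ℝ) ^ (5000 * h) ≤ (1 / 2) ^ (4000 * h) := by
    rw [show 5000 * h = 1000 * h + 4000 * h by ring, pow_add, ← mul_assoc]
    have h9 : 7 * (1 / 2 : ℝ) ^ (1000 * h) ≤ 1 := by
      calc 7 * (1 / 2 : ℝ) ^ (1000 * h) ≤ 7 * (1 / 2 : ℝ) ^ 3 := by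
            apply mul_le_mul_of_nonneg_left _ (by norm_num)
            exact pow_le_pow_of_le_one (by norm_num) (by norm_num) (by omega)
        _ ≤ 1 := by norm_num
    exact mul_le_of_le_one_left (by positivity) h9
  have h9 : tau μ n (2000 * h) e ≤ (1 / 2) ^ (4000 * h) := h7.trans h8
  refine ⟨h9, h9.trans ?_⟩
  have h10 := par_lo P
  have h11 : (1 / 2 : ℝ) ^ (4000 * h) ≤ (1 / 2) ^ h :=
    pow_le_pow_of_le_one (by norm_num) (by norm_num) (by omega)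
  refine h11.trans ?_
  unfold lo
  rw [div_div, one_div_pow]
  apply one_div_le_one_div_of_le (by positivity)
  linarith

end Pool.Agent.H.MP_cba12a_lc.QP
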