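import Pool.Agent.H.MP_cba12a_lc.QP.Lev
import Pool.Agent.H.MP_cba12a_lc.SQ.Gadg

/-!
# The plan as an average of level coefficients
-/

set_option autoImplicit false

namespace Pool.Agent.H.MP_cba12a_lc.QP

open Finset Pool.Agent.H.MP_cba12a_lc.SQ

private theorem crad_ur (m v j : ℕ) (hjv : j ≤ v) (hv : v ≤ m) :
    crad m j (ur m v) = (1 / 2) ^ v * (((m - j).choose (v - j) : ℝ) / (m.choose v : ℝ)) := by
  obtain ⟨B, hB⟩ := Finset.exists_subset_card_eq (s := (univ : Finset (Fin m))) (n := j)
    (by simpa using hjv.trans hv)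
  have h1 : crad m j (ur m v) = co (fun x => ur m v x.card) B := by
    rw [co_radial, hB.2]
  have h2 : (fun x : Finset (Fin m) => ur m v x.card) =
      fun x => (1 / (m.choose v : ℝ)) * ∑ D ∈ powersetCard v (univ : Finset (Fin m)), cj D x := by
    funext x
    rw [← radial_choose]
    unfold ur
    ring
  rw [h1, h2, co_mul_left, co_sum]
  have h3 : ∑ D ∈ powersetCard v (univ : Finset (Fin m)), co (cj D) B =
      ∑ D ∈ powersetCard v (univ : Finset (Fin m)), (if B ⊆ D then (1 / 2 : ℝ) ^ v else 0) := by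
    apply sum_congr rfl
    intro D hD
    rw [co_cj, (mem_powersetCard.1 hD).2]
  rw [h3, ← sum_filter, sum_const, nsmul_eq_mul, gadg_count univ B (subset_univ B) v, hB.2,
    if_pos hjv, card_univ, Fintype.card_fin]
  ring

theorem plan_eq (m k u j : ℕ) (hk : 0 < k) (hju : j ≤ u) (hu : u + k ≤ m) :
    plan m k u j = ∑ l ∈ range k, 1 / (2 * (k : ℝ)) * crad m j (ur m (u + l)) := by
  unfold plan
  apply sum_congr rfl
  intro l hl
  have hl' := mem_range.1 hl
  rw [crad_ur m (u + l) j (by omega) (by omega)]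
  ring

end Pool.Agent.H.MP_cba12a_lc.QP
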