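import Pool.Agent.H.MP_cba12a_lc.QP.UrB
import Pool.Agent.H.MP_cba12a_lc.QP.UrC
import Pool.Agent.H.MP_cba12a_lc.QP.ParN

/-!
# The planned corrections as a small perturbation of the target
-/

set_option autoImplicit false

namespace Pool.Agent.H.MP_cba12a_lc.QP

open Finset Pool.Agent.H.MP_cba12a_lc.SQ

/-- the coefficients of the planned corrections, normalised (`N = 2 ^ L`) -/
noncomputable def phB (m k I : ℕ) (u : ℕ → ℕ) (N : ℝ) (i : ℕ) : ℝ :=
  ∑ i' ∈ range I, N ^ 2 / Real.log 2 *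
    ∑ l ∈ range k, 1 / (2 * (k : ℝ)) * (urp m (u i' + l)).coeff i

private theorem BaseP_log2 : 1 / 2 < Real.log 2 := by
  have := Real.log_two_gt_d9
  linarith

/-- powers of two at the scale `h` -/
private theorem BaseP_pow (a b : ℕ) : (2 : ℝ) ^ a * (1 / 2) ^ (a + b) = (1 / 2) ^ b := by
  rw [pow_add, ← mul_assoc, ← mul_pow]
  norm_num

/- PROOF: urp_sum for each i', l: sum_i |coeff| 2^i ≤ 2 (1/2)^(u+l) (n+1)(2(u+l))^n ≤
2 (1/2)^u (n+1)(2U)^n; weights k * 1/(2k) = 1/2; P.Un; so at most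
2^(2000h)/log 2 * 2 * 2^(-2489h) * 2^h ≤ 3 * 2^(-488h) ≤ 2^(-487h). -/
theorem phB_sum {h μ k n e U : ℕ} (P : Par h μ k n e U) (I : ℕ) (u : ℕ → ℕ)
    (hu : ∀ i < I, 2489 * h ≤ u i ∧ u i + k ≤ U)
    (hsum : ∑ i ∈ range I, (1 / 2 : ℝ) ^ u i ≤ 2 * (1 / 2) ^ (2489 * h)) :
    ∑ i ∈ range (n + 1), |phB (μ ^ 4) k I u (2 ^ (1000 * h)) i| * 2 ^ i ≤
      (1 / 2) ^ (487 * h) := by
  have hlog := BaseP_log2
  have hlog0 : 0 < Real.log 2 := by linarith
  have hh := P.h1
  have hk0 : (0 : ℝ) < k := by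
    have := P.k3
    have : 0 < k := by omega
    exact_mod_cast this
  set m := μ ^ 4 with hm
  have hUn : ((n : ℝ) + 1) * (2 * (U : ℝ)) ^ n ≤ 2 ^ h := by
    have := P.Un
    exact_mod_cast this
  set C : ℝ := (2 ^ (1000 * h)) ^ 2 / Real.log 2 with hC
  have hC0 : 0 ≤ C := by positivity
  -- one term
  have hterm : ∀ i' ∈ range I, ∀ l ∈ range k,
      ∑ i ∈ range (n + 1), |(urp m (u i' + l)).coeff i| * 2 ^ i ≤
        2 * ((1 / 2) ^ (u i') * 2 ^ h) := by
    intro i' hi' l hl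
    rw [mem_range] at hi' hl
    obtain ⟨h1, h2⟩ := hu i' hi'
    have h3 : u i' + l ≤ U := by omega
    have h4 : 3 * (u i' + l) ^ 2 ≤ m :=
      (Nat.mul_le_mul_left 3 (Nat.pow_le_pow_left h3 2)).trans P.Um
    refine (urp_sum m (u i' + l) n h4 (by omega)).trans ?_
    rw [mul_assoc 2]
    refine mul_le_mul_of_nonneg_left ?_ (by norm_num)
    have h5 : ((1 : ℝ) / 2) ^ (u i' + l) ≤ (1 / 2) ^ (u i') :=
      pow_le_pow_of_le_one (by norm_num) (by norm_num) (by omega)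
    have h6 : ((n : ℝ) + 1) * (2 * ((u i' + l : ℕ) : ℝ)) ^ n ≤ 2 ^ h := by
      refine le_trans ?_ hUn
      have h7 : ((u i' + l : ℕ) : ℝ) ≤ (U : ℝ) := by exact_mod_cast h3
      gcongr
    exact mul_le_mul h5 h6 (by positivity) (by positivity)
  -- the triangle inequality
  have htri : ∀ i, |phB m k I u (2 ^ (1000 * h)) i| ≤
      ∑ i' ∈ range I, C * ∑ l ∈ range k, 1 / (2 * (k : ℝ)) * |(urp m (u i' + l)).coeff i| := by
    intro i
    unfold phB
    refine (abs_sum_le_sum_abs _ _).trans (sum_le_sum fun i' _ => ?_)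
    rw [abs_mul, ← hC, abs_of_nonneg hC0]
    refine mul_le_mul_of_nonneg_left ?_ hC0
    refine (abs_sum_le_sum_abs _ _).trans (sum_le_sum fun l _ => ?_)
    rw [abs_mul, abs_of_nonneg (by positivity : (0 : ℝ) ≤ 1 / (2 * (k : ℝ)))]
  calc ∑ i ∈ range (n + 1), |phB m k I u (2 ^ (1000 * h)) i| * 2 ^ i
      ≤ ∑ i ∈ range (n + 1), (∑ i' ∈ range I, C *
          ∑ l ∈ range k, 1 / (2 * (k : ℝ)) * |(urp m (u i' + l)).coeff i|) * 2 ^ i :=
        sum_le_sum fun i _ => mul_le_mul_of_nonneg_right (htri i) (by positivity)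
    _ = ∑ i' ∈ range I, C * ∑ l ∈ range k, 1 / (2 * (k : ℝ)) *
          ∑ i ∈ range (n + 1), |(urp m (u i' + l)).coeff i| * 2 ^ i := by
        simp_rw [sum_mul, mul_sum, sum_mul]
        rw [sum_comm]
        refine sum_congr rfl fun i' _ => ?_
        rw [sum_comm]
        refine sum_congr rfl fun l _ => sum_congr rfl fun i _ => ?_
        ring
    _ ≤ ∑ i' ∈ range I, C * ∑ l ∈ range k, 1 / (2 * (k : ℝ)) *
          (2 * ((1 / 2) ^ (u i') * 2 ^ h)) := by
        refine sum_le_sum fun i' hi' => mul_le_mul_of_nonneg_left (sum_le_sum fun l hl => ?_) hC0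
        exact mul_le_mul_of_nonneg_left (hterm i' hi' l hl) (by positivity)
    _ = C * 2 ^ h * ∑ i' ∈ range I, (1 / 2 : ℝ) ^ u i' := by
        rw [mul_sum]
        refine sum_congr rfl fun i' _ => ?_
        rw [sum_const, card_range, nsmul_eq_mul]
        field_simp
    _ ≤ C * 2 ^ h * (2 * (1 / 2) ^ (2489 * h)) :=
        mul_le_mul_of_nonneg_left hsum (by positivity)
    _ ≤ (1 / 2) ^ (487 * h) := by
        have h1 : C ≤ 2 * 2 ^ (2000 * h) := by
          rw [hC, div_le_iff₀ hlog0, ← pow_mul]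
          have h2 : (2 : ℝ) ^ (1000 * h * 2) = 2 ^ (2000 * h) := by
            congr 1
            ring
          rw [h2]
          have h3 : (0 : ℝ) < 2 ^ (2000 * h) := by positivity
          nlinarith
        have h4 : (4 : ℝ) ≤ 2 ^ h := by
          calc (4 : ℝ) = 2 ^ 2 := by norm_num
            _ ≤ 2 ^ h := pow_le_pow_right₀ (by norm_num) (by omega)
        calc C * 2 ^ h * (2 * (1 / 2) ^ (2489 * h))
            ≤ 2 * 2 ^ (2000 * h) * 2 ^ h * (2 * (1 / 2) ^ (2489 * h)) := by gcongr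
          _ = 4 * (2 ^ (2001 * h) * (1 / 2) ^ (2001 * h + 488 * h)) := by
              have e1 : 2489 * h = 2001 * h + 488 * h := by ring
              have e2 : (2 : ℝ) ^ (2001 * h) = 2 ^ (2000 * h) * 2 ^ h := by
                rw [← pow_add]
                congr 1
                ring
              rw [e1, e2]
              ring
          _ = 4 * (1 / 2) ^ (488 * h) := by rw [BaseP_pow]
          _ ≤ 2 ^ h * (1 / 2) ^ (488 * h) := by gcongr
          _ = 2 ^ h * (1 / 2) ^ (h + 487 * h) := by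
              congr 2
              ring
          _ = (1 / 2) ^ (487 * h) := BaseP_pow _ _

/- PROOF: abs_crad_le with |sum phi i s^i| ≤ sum |phi i| 2^i (|s| ≤ 1). -/
theorem phB_zero (m n j : ℕ) (hm : 0 < m) (hj : j ≤ m) (phi : ℕ → ℝ) :
    |lev m j (fun s => ∑ i ∈ range (n + 1), phi i * s ^ i)| ≤
      ∑ i ∈ range (n + 1), |phi i| * 2 ^ i := by
  unfold lev
  have hm0 : (0 : ℝ) < m := by exact_mod_cast hm
  refine (abs_crad_le m j hj _ (fun _ => ∑ i ∈ range (n + 1), |phi i| * 2 ^ i) ?_).trans ?_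
  · intro x
    refine (abs_sum_le_sum_abs _ _).trans (sum_le_sum fun i _ => ?_)
    rw [abs_mul, abs_pow]
    refine mul_le_mul_of_nonneg_left ?_ (abs_nonneg _)
    refine pow_le_pow_left₀ (abs_nonneg _) ?_ i
    have h1 : (x.card : ℝ) ≤ m := by
      have := card_le_univ x
      rw [Fintype.card_fin] at this
      exact_mod_cast this
    have h2 : 2 * (x.card : ℝ) / m ≤ 2 := by
      rw [div_le_iff₀ hm0]
      linarith
    have h3 : 0 ≤ 2 * (x.card : ℝ) / m := by positivity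
    rw [abs_le]
    constructor <;> linarith
  · rw [ex_const]

/- PROOF: (log 2/N) lev j (phB) = sum over i' of N sum over l of (1/(2k)) lev j (truncated urp)
(lev_sum, lev_mul after reordering), plan_eq, lev_ur termwise: error at most
N * sum over i' (2 (1/2)^(u i') (U/μ)^(n+1) + 2 exp(-μ^2/2)); P.Ut gives (U/μ)^(n+1) ≤ 2^(-1000h),
par_exp: total ≤ 4 * 2^(-2489h) + 2 * 2^(1001h - 10000h) ≤ 2^(-2400h). -/
theorem phB_plan {h μ k n e U : ℕ} (P : Par h μ k n e U) (I : ℕ) (hI : (I : ℝ) ≤ 2 ^ h)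
    (u : ℕ → ℕ) (hu : ∀ i < I, 2489 * h ≤ u i ∧ u i + k ≤ U)
    (hsum : ∑ i ∈ range I, (1 / 2 : ℝ) ^ u i ≤ 2 * (1 / 2) ^ (2489 * h)) (j : ℕ) (hj : j < k) :
    |Real.log 2 / 2 ^ (1000 * h) * lev (μ ^ 4) j (fun s =>
        ∑ i ∈ range (n + 1), phB (μ ^ 4) k I u (2 ^ (1000 * h)) i * s ^ i) -
      ∑ i ∈ range I, 2 ^ (1000 * h) * plan (μ ^ 4) k (u i) j| ≤ (1 / 2) ^ (2400 * h) := by
  have hlog := BaseP_log2
  have hlog0 : 0 < Real.log 2 := by linarith
  have hh := P.h1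
  have hkk := P.k3
  have hk0 : (0 : ℝ) < k := by
    have : 0 < k := by omega
    exact_mod_cast this
  obtain ⟨hkm, hUm, _, hμ16⟩ := par_km P
  have hμ0 : 0 < μ := by omega
  have hμR : (0 : ℝ) < μ := by exact_mod_cast hμ0
  have hkn := P.kn
  have hnd := P.nd
  set N : ℝ := 2 ^ (1000 * h) with hN
  have hN0 : 0 < N := by positivity
  set m := μ ^ 4 with hm
  -- the level coefficient of the corrections
  have hlev : Real.log 2 / N * lev m j (fun s =>
        ∑ i ∈ range (n + 1), phB m k I u N i * s ^ i) =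
      ∑ i' ∈ range I, N * ∑ l ∈ range k, 1 / (2 * (k : ℝ)) *
        lev m j (fun s => ∑ i ∈ range (n + 1), (urp m (u i' + l)).coeff i * s ^ i) := by
    have h1 : (fun s : ℝ => ∑ i ∈ range (n + 1), phB m k I u N i * s ^ i) =
        fun s : ℝ => ∑ i' ∈ range I, N ^ 2 / Real.log 2 * ∑ l ∈ range k, 1 / (2 * (k : ℝ)) *
          ∑ i ∈ range (n + 1), (urp m (u i' + l)).coeff i * s ^ i := by
      funext s
      unfold phB
      simp_rw [sum_mul, mul_sum, sum_mul]
      rw [sum_comm]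
      refine sum_congr rfl fun i' _ => ?_
      rw [sum_comm]
      refine sum_congr rfl fun l _ => sum_congr rfl fun i _ => ?_
      ring
    rw [h1, lev_sum, mul_sum]
    refine sum_congr rfl fun i' _ => ?_
    rw [lev_mul m j (N ^ 2 / Real.log 2) (fun s => ∑ l ∈ range k, 1 / (2 * (k : ℝ)) *
          ∑ i ∈ range (n + 1), (urp m (u i' + l)).coeff i * s ^ i), lev_sum]
    have h2 : Real.log 2 / N * (N ^ 2 / Real.log 2) = N := by
      field_simp
    rw [← mul_assoc, h2]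
    congr 1
    refine sum_congr rfl fun l _ => ?_
    rw [lev_mul m j (1 / (2 * (k : ℝ)))
      (fun s => ∑ i ∈ range (n + 1), (urp m (u i' + l)).coeff i * s ^ i)]
  rw [hlev, ← sum_sub_distrib]
  set q : ℝ := ((U : ℝ) / μ) ^ (n + 1) with hq
  set E : ℝ := Real.exp (-(μ : ℝ) ^ 2 / 2) with hE
  have hE0 : 0 ≤ E := (Real.exp_pos _).le
  have hq0 : 0 ≤ q := by positivity
  -- one term
  have hterm : ∀ i' ∈ range I,
      |N * ∑ l ∈ range k, 1 / (2 * (k : ℝ)) *
          lev m j (fun s => ∑ i ∈ range (n + 1), (urp m (u i' + l)).coeff i * s ^ i) -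
        N * plan m k (u i') j| ≤ N * (2 * (1 / 2) ^ (u i') * q + 2 * E) := by
    intro i' hi'
    rw [mem_range] at hi'
    obtain ⟨h1, h2⟩ := hu i' hi'
    have hju : j ≤ u i' := by omega
    rw [plan_eq m k (u i') j (by omega) hju (by omega), ← mul_sub, abs_mul, abs_of_pos hN0]
    refine mul_le_mul_of_nonneg_left ?_ hN0.le
    rw [← sum_sub_distrib]
    have h3 : ∀ l ∈ range k,
        |1 / (2 * (k : ℝ)) * lev m j
            (fun s => ∑ i ∈ range (n + 1), (urp m (u i' + l)).coeff i * s ^ i) -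
          1 / (2 * (k : ℝ)) * crad m j (ur m (u i' + l))| ≤
          1 / (2 * (k : ℝ)) * (4 * (1 / 2) ^ (u i') * q + 4 * E) := by
      intro l hl
      rw [mem_range] at hl
      have h4 : u i' + l ≤ U := by omega
      have h5 : 3 * (u i' + l) ^ 2 ≤ μ ^ 4 :=
        (Nat.mul_le_mul_left 3 (Nat.pow_le_pow_left h4 2)).trans P.Um
      have hUu := P.Uu
      have h6 := lev_ur μ (u i' + l) n j hμ0 (by omega) h5 (by omega) (by omega)
      rw [← mul_sub, abs_mul, abs_of_nonneg (by positivity : (0 : ℝ) ≤ 1 / (2 * (k : ℝ))),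
        abs_sub_comm]
      refine mul_le_mul_of_nonneg_left (h6.trans ?_) (by positivity)
      have h7 : ((1 : ℝ) / 2) ^ (u i' + l) ≤ (1 / 2) ^ (u i') :=
        pow_le_pow_of_le_one (by norm_num) (by norm_num) (by omega)
      have h8 : (((u i' + l : ℕ) : ℝ) / μ) ^ (n + 1) ≤ q := by
        have h9 : ((u i' + l : ℕ) : ℝ) ≤ (U : ℝ) := by exact_mod_cast h4
        rw [hq]
        gcongr
      have h10 : 4 * ((1 : ℝ) / 2) ^ (u i' + l) * (((u i' + l : ℕ) : ℝ) / μ) ^ (n + 1) ≤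
          4 * (1 / 2) ^ (u i') * q := by
        refine mul_le_mul ?_ h8 (by positivity) (by positivity)
        linarith
      linarith
    refine (abs_sum_le_sum_abs _ _).trans ((sum_le_sum h3).trans (le_of_eq ?_))
    rw [sum_const, card_range, nsmul_eq_mul]
    field_simp
    ring
  refine (abs_sum_le_sum_abs _ _).trans ((sum_le_sum hterm).trans ?_)
  have hsplit : ∑ i' ∈ range I, N * (2 * (1 / 2) ^ (u i') * q + 2 * E) =
      2 * N * q * ∑ i' ∈ range I, (1 / 2 : ℝ) ^ u i' + 2 * (I * (N * E)) := by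
    rw [mul_sum]
    simp_rw [mul_add]
    rw [sum_add_distrib, sum_const, card_range, nsmul_eq_mul]
    congr 1
    · refine sum_congr rfl fun i' _ => ?_
      ring
    · ring
  rw [hsplit]
  -- the sizes
  have hNq : N * q ≤ 1 := by
    have h1 : (2 * (U : ℝ)) ^ (n + 1) * 2 ^ (1000 * h) ≤ (μ : ℝ) ^ (n + 1) := by
      have := P.Ut
      exact_mod_cast this
    rw [hq, div_pow, mul_div_assoc', div_le_one (by positivity)]
    refine le_trans ?_ h1
    rw [mul_comm]
    refine mul_le_mul_of_nonneg_right ?_ (by positivity)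
    have h2 : (0 : ℝ) ≤ U := by positivity
    exact pow_le_pow_left₀ h2 (by linarith) _
  have hp1 : 2 * N * q * ∑ i' ∈ range I, (1 / 2 : ℝ) ^ u i' ≤ 4 * (1 / 2) ^ (2489 * h) := by
    have h1 : 0 ≤ ∑ i' ∈ range I, (1 / 2 : ℝ) ^ u i' := sum_nonneg fun _ _ => by positivity
    calc 2 * N * q * ∑ i' ∈ range I, (1 / 2 : ℝ) ^ u i'
        = 2 * ((N * q) * ∑ i' ∈ range I, (1 / 2 : ℝ) ^ u i') := by ring
      _ ≤ 2 * (1 * ∑ i' ∈ range I, (1 / 2 : ℝ) ^ u i') := by gcongr
      _ ≤ 2 * (1 * (2 * (1 / 2) ^ (2489 * h))) := by gcongr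
      _ = 4 * (1 / 2) ^ (2489 * h) := by ring
  have hp2 : (I : ℝ) * (N * E) ≤ (1 / 2) ^ (8999 * h) := by
    have h1 : E ≤ (1 / 2) ^ (10000 * h) := par_exp P
    calc (I : ℝ) * (N * E) ≤ 2 ^ h * (N * (1 / 2) ^ (10000 * h)) := by gcongr
      _ = 2 ^ (1001 * h) * (1 / 2) ^ (1001 * h + 8999 * h) := by
          have e1 : 10000 * h = 1001 * h + 8999 * h := by ring
          have e2 : (2 : ℝ) ^ (1001 * h) = 2 ^ h * N := by
            rw [hN, ← pow_add]
            congr 1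
            ring
          rw [e1, e2]
          ring
      _ = (1 / 2) ^ (8999 * h) := BaseP_pow _ _
  have hp3 : ((1 : ℝ) / 2) ^ (2489 * h) ≤ (1 / 2) ^ (2400 * h + 4) :=
    pow_le_pow_of_le_one (by norm_num) (by norm_num) (by omega)
  have hp4 : ((1 : ℝ) / 2) ^ (8999 * h) ≤ (1 / 2) ^ (2400 * h + 4) :=
    pow_le_pow_of_le_one (by norm_num) (by norm_num) (by omega)
  have hp5 : ((1 : ℝ) / 2) ^ (2400 * h + 4) = (1 / 2) ^ (2400 * h) / 16 := by
    rw [pow_add]
    norm_num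
    ring
  have hp6 : (0 : ℝ) < (1 / 2) ^ (2400 * h) := by positivity
  rw [hp5] at hp3 hp4
  linarith

end Pool.Agent.H.MP_cba12a_lc.QP
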