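import Pool.Agent.H.MP_cba12a_lc.QP.BaseCone
import Pool.Agent.H.MP_cba12a_lc.QP.BaseB
import Pool.Agent.H.MP_cba12a_lc.QP.BaseP

/-!
# The base formula
-/

set_option autoImplicit false

namespace Pool.Agent.H.MP_cba12a_lc.QP

open Finset Pool.Agent.H.MP_cba12a_lc.SQ

/- PROOF. phi = phB (μ^4) k I u (2^(1000h)), phB_sum and 2500 e^3 n^4 ≤ 2^h (P.sm) give hphi of
base_cone; base_blocks. For 2 ≤ |B| < k: the main term is -(log 2/N) lev j (phi) (base_cone), and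
phB_plan; 2^(-1495h) + 2^(-2400h) ≤ 2^(-1491h). For B = ∅: the main term is
(log 2/N) (1 - lev 0 (phi)), |lev 0 (phi)| ≤ 2^(-487h) by phB_zero. -/
theorem base {h μ k n e U : ℕ} (P : Par h μ k n e U) (I : ℕ) (hI : (I : ℝ) ≤ 2 ^ h) (u : ℕ → ℕ)
    (hu : ∀ i < I, 2489 * h ≤ u i ∧ u i + k ≤ U)
    (hsum : ∑ i ∈ range I, (1 / 2 : ℝ) ^ u i ≤ 2 * (1 / 2) ^ (2489 * h)) :
    ∃ F : List (Finset (Fin (μ ^ 4))), F.length ≤ 2 ^ (1003 * h + e) ∧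
      Inv U ((1 / 2) ^ (997 * h)) F ∧
      |co (ind F) ∅ - Real.log 2 / 2 ^ (1000 * h)| ≤ (1 / 2) ^ (1480 * h) ∧
      ∀ B : Finset (Fin (μ ^ 4)), 2 ≤ B.card → B.card < k →
        |co (ind F) B + ∑ i ∈ range I, 2 ^ (1000 * h) * plan (μ ^ 4) k (u i) B.card| ≤
          (1 / 2) ^ (1491 * h) := by
  have hh := P.h1
  have hk3 := P.k3
  have hkn := P.kn
  have hn2 := P.n2
  have hnd := P.nd
  have hmL := P.mL
  obtain ⟨hkm, -, -, hμ16⟩ := par_km P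
  have he1 : 1 ≤ e := by
    have := P.de
    omega
  have hsmall : 2500 * (e : ℝ) ^ 3 * (n : ℝ) ^ 4 ≤ 2 ^ h := by
    refine le_trans ?_ (par_small P)
    have a1 : (1 : ℝ) ≤ (k : ℝ) + 2 := by
      have : (0 : ℝ) ≤ k := Nat.cast_nonneg k
      linarith
    have a2 : (1 : ℝ) ≤ (n : ℝ) := by exact_mod_cast (by omega : 1 ≤ n)
    have a3 : (1 : ℝ) ≤ (e : ℝ) := by exact_mod_cast he1
    have b1 : (1 : ℝ) ≤ ((k : ℝ) + 2) ^ 4 := one_le_pow₀ a1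
    have b2 : (n : ℝ) ^ 4 ≤ (n : ℝ) ^ 20 := pow_le_pow_right₀ a2 (by norm_num)
    have b3 : (e : ℝ) ^ 3 ≤ (e : ℝ) ^ 10 := pow_le_pow_right₀ a3 (by norm_num)
    have c2 : (0 : ℝ) ≤ (n : ℝ) ^ 4 := by positivity
    have c3 : (0 : ℝ) ≤ (e : ℝ) ^ 3 := by positivity
    have d1 : (e : ℝ) ^ 3 * (n : ℝ) ^ 4 ≤ (e : ℝ) ^ 10 * (n : ℝ) ^ 20 :=
      mul_le_mul b3 b2 c2 (by positivity)
    have d2 : (0 : ℝ) ≤ (e : ℝ) ^ 10 * (n : ℝ) ^ 20 := by positivity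
    have d3 : (e : ℝ) ^ 10 * (n : ℝ) ^ 20 ≤
        ((k : ℝ) + 2) ^ 4 * ((e : ℝ) ^ 10 * (n : ℝ) ^ 20) := le_mul_of_one_le_left d2 b1
    have d4 : 10 ^ 9 * ((k : ℝ) + 2) ^ 4 * (n : ℝ) ^ 20 * (e : ℝ) ^ 10 =
        10 ^ 9 * (((k : ℝ) + 2) ^ 4 * ((e : ℝ) ^ 10 * (n : ℝ) ^ 20)) := by ring
    rw [d4]
    nlinarith
  have hS := phB_sum P I u hu hsum
  have hhalf : ∀ a b : ℕ, a ≤ b → (1 / 2 : ℝ) ^ b ≤ (1 / 2) ^ a := fun a b hab =>
    pow_le_pow_of_le_one (by norm_num) (by norm_num) hab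
  have hphi : (∑ i ∈ range (n + 1), |phB (μ ^ 4) k I u (2 ^ (1000 * h)) i| * 2 ^ i) *
      (2500 * (e : ℝ) ^ 3 * (n : ℝ) ^ 4) ≤ 1 := by
    have h1 : (∑ i ∈ range (n + 1), |phB (μ ^ 4) k I u (2 ^ (1000 * h)) i| * 2 ^ i) *
        (2500 * (e : ℝ) ^ 3 * (n : ℝ) ^ 4) ≤ (1 / 2) ^ (487 * h) * 2 ^ h :=
      mul_le_mul hS hsmall (by positivity) (by positivity)
    refine h1.trans ?_
    have h2 : (1 / 2 : ℝ) ^ (487 * h) * 2 ^ h ≤ (1 / 2) ^ h * 2 ^ h :=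
      mul_le_mul_of_nonneg_right (hhalf _ _ (by omega)) (by positivity)
    refine h2.trans (le_of_eq ?_)
    rw [← mul_pow]
    norm_num
  have hμ4 : k ≤ μ ^ 4 := hkm
  obtain ⟨r, c0, c, x, hr, h0, hc, hx, hc0, hc1, heq⟩ := base_cone μ n (2000 * h) e k hk3 hkn hn2
    (by omega) hkm hnd (by have := P.de; omega) P.em P.lg (par_tau P).2
    (phB (μ ^ 4) k I u (2 ^ (1000 * h))) hphi
  obtain ⟨F, hF1, hF2, hF3⟩ := base_blocks P r c0 c x hr h0 hc hx hc0 hc1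
  have hN : (0 : ℝ) < 2 ^ (1000 * h) := by positivity
  have hlog0 : 0 < Real.log 2 := Real.log_pos (by norm_num)
  have hlog1 : Real.log 2 ≤ 1 := by
    have := Real.log_two_lt_d9
    linarith
  refine ⟨F, hF1, hF2, ?_, ?_⟩
  · have h1 := hF3 ∅ (by rw [card_empty]; omega)
    rw [card_empty, heq 0 (by omega) (by norm_num), if_pos rfl] at h1
    have h2 := phB_zero (μ ^ 4) n 0 (by omega) (Nat.zero_le _)
      (phB (μ ^ 4) k I u (2 ^ (1000 * h)))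
    have h3 := h2.trans hS
    obtain ⟨z, hz⟩ : ∃ z : ℝ, z = lev (μ ^ 4) 0 (fun s => ∑ i ∈ range (n + 1),
      phB (μ ^ 4) k I u (2 ^ (1000 * h)) i * s ^ i) := ⟨_, rfl⟩
    rw [← hz] at h1 h3
    have h4 : |Real.log 2 / 2 ^ (1000 * h) * z| ≤ (1 / 2) ^ (1487 * h) := by
      rw [abs_mul, abs_of_nonneg (div_nonneg hlog0.le hN.le)]
      have h5 : Real.log 2 / 2 ^ (1000 * h) ≤ (1 / 2) ^ (1000 * h) := by
        rw [div_le_iff₀ hN, ← mul_pow]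
        norm_num
        exact hlog1
      have h6 : Real.log 2 / 2 ^ (1000 * h) * |z| ≤ (1 / 2) ^ (1000 * h) * (1 / 2) ^ (487 * h) :=
        mul_le_mul h5 h3 (abs_nonneg _) (by positivity)
      refine h6.trans (le_of_eq ?_)
      rw [← pow_add]
      congr 1
      ring
    have h7 : co (ind F) ∅ - Real.log 2 / 2 ^ (1000 * h) =
        (co (ind F) ∅ - Real.log 2 / 2 ^ (1000 * h) * (1 - z)) -
          Real.log 2 / 2 ^ (1000 * h) * z := by ring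
    rw [h7]
    refine (abs_sub _ _).trans ((add_le_add h1 h4).trans ?_)
    have h8 : (1 / 2 : ℝ) ^ (1495 * h) ≤ (1 / 2) ^ (1480 * h + 1) := hhalf _ _ (by omega)
    have h9 : (1 / 2 : ℝ) ^ (1487 * h) ≤ (1 / 2) ^ (1480 * h + 1) := hhalf _ _ (by omega)
    have h10 : (1 / 2 : ℝ) ^ (1480 * h + 1) = (1 / 2) ^ (1480 * h) / 2 := by
      rw [pow_succ]
      ring
    linarith
  · intro B hB2 hBk
    have h1 := hF3 B hBk
    rw [heq B.card hBk (by omega), if_neg (by omega)] at h1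
    have h2 := phB_plan P I hI u hu hsum B.card hBk
    obtain ⟨z, hz⟩ : ∃ z : ℝ, z = lev (μ ^ 4) B.card (fun s => ∑ i ∈ range (n + 1),
      phB (μ ^ 4) k I u (2 ^ (1000 * h)) i * s ^ i) := ⟨_, rfl⟩
    rw [← hz] at h1 h2
    have h7 : co (ind F) B + ∑ i ∈ range I, 2 ^ (1000 * h) * plan (μ ^ 4) k (u i) B.card =
        (co (ind F) B - Real.log 2 / 2 ^ (1000 * h) * (0 - z)) -
          (Real.log 2 / 2 ^ (1000 * h) * z -
            ∑ i ∈ range I, 2 ^ (1000 * h) * plan (μ ^ 4) k (u i) B.card) := by ring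
    rw [h7]
    refine (abs_sub _ _).trans ((add_le_add h1 h2).trans ?_)
    have h8 : (1 / 2 : ℝ) ^ (1495 * h) ≤ (1 / 2) ^ (1491 * h + 1) := hhalf _ _ (by omega)
    have h9 : (1 / 2 : ℝ) ^ (2400 * h) ≤ (1 / 2) ^ (1491 * h + 1) := hhalf _ _ (by omega)
    have h10 : (1 / 2 : ℝ) ^ (1491 * h + 1) = (1 / 2) ^ (1491 * h) / 2 := by
      rw [pow_succ]
      ring
    linarith

end Pool.Agent.H.MP_cba12a_lc.QP
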