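import Mathlib

/-!
# Cones over compact sets
-/

namespace Pool.Agent.H.MP_cba12a_lc.QP

open Finset Filter Topology

/-- Caratheodory's theorem with a fixed number of points -/
theorem cone_carath {J : Type} [Fintype J] (S : Set (J → ℝ)) (x : J → ℝ)
    (hx : x ∈ convexHull ℝ S) :
    ∃ (w : Fin (Fintype.card J + 1) → ℝ) (z : Fin (Fintype.card J + 1) → J → ℝ),
      w ∈ stdSimplex ℝ (Fin (Fintype.card J + 1)) ∧ (∀ i, z i ∈ S) ∧ ∑ i, w i • z i = x := by
  classical
  obtain ⟨ι, hι, z, w, hz, hind, hw, hw1, hsum⟩ := eq_pos_convex_span_of_mem_convexHull hx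
  have hcard : Fintype.card ι ≤ Fintype.card J + 1 := by
    have h1 := hind.card_le_finrank_succ
    have h2 : Module.finrank ℝ (vectorSpan ℝ (Set.range z)) ≤ Module.finrank ℝ (J → ℝ) :=
      Submodule.finrank_le _
    rw [Module.finrank_fintype_fun_eq_card] at h2
    omega
  have hne : Nonempty ι := by
    by_contra hc
    rw [not_nonempty_iff] at hc
    rw [Fintype.sum_empty] at hw1
    exact zero_ne_one hw1
  obtain ⟨i₀⟩ := hne
  obtain ⟨g⟩ : Nonempty (ι ↪ Fin (Fintype.card J + 1)) := by
    apply Function.Embedding.nonempty_of_card_le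
    rwa [Fintype.card_fin]
  have hne' : Nonempty ι := ⟨i₀⟩
  have hinv : ∀ i, Function.invFun g (g i) = i := fun i => Function.leftInverse_invFun g.injective i
  have hkey : ∀ {E : Type} [AddCommMonoid E] (F : Fin (Fintype.card J + 1) → E),
      (∀ k, k ∉ Set.range g → F k = 0) → ∑ k, F k = ∑ i, F (g i) := by
    intro E _ F hF
    rw [← sum_map univ g F]
    symm
    apply sum_subset (subset_univ _)
    intro k _ hk
    apply hF
    rintro ⟨i, rfl⟩
    exact hk (mem_map_of_mem g (mem_univ i))
  refine ⟨fun k => if k ∈ Set.range g then w (Function.invFun g k) else 0,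
    fun k => if k ∈ Set.range g then z (Function.invFun g k) else z i₀, ⟨?_, ?_⟩, ?_, ?_⟩
  · intro k
    dsimp only
    split_ifs
    · exact (hw _).le
    · exact le_rfl
  · rw [hkey _ (fun k hk => if_neg hk), ← hw1]
    apply sum_congr rfl
    intro i _
    rw [if_pos ⟨i, rfl⟩, hinv]
  · intro k
    dsimp only
    split_ifs
    · exact hz ⟨_, rfl⟩
    · exact hz ⟨_, rfl⟩
  · rw [hkey _ (fun k hk => by beta_reduce; rw [if_neg hk, zero_smul]), ← hsum]
    apply sum_congr rfl
    intro i _
    beta_reduce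
    have hgi : g i ∈ Set.range g := ⟨i, rfl⟩
    rw [if_pos hgi, if_pos hgi, hinv]

theorem cone_compact {J : Type} [Fintype J] (S : Set (J → ℝ)) (hS : IsCompact S) :
    IsCompact (convexHull ℝ S) := by
  have h1 : convexHull ℝ S = (fun p : (Fin (Fintype.card J + 1) → ℝ) ×
      (Fin (Fintype.card J + 1) → J → ℝ) => ∑ i, p.1 i • p.2 i) ''
      (stdSimplex ℝ (Fin (Fintype.card J + 1)) ×ˢ Set.univ.pi fun _ => S) := by
    ext x
    constructor
    · intro hx
      obtain ⟨w, z, hw, hz, hsum⟩ := cone_carath S x hx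
      exact ⟨(w, z), ⟨hw, fun i _ => hz i⟩, hsum⟩
    · rintro ⟨⟨w, z⟩, ⟨hw, hz⟩, rfl⟩
      exact (convex_convexHull ℝ S).sum_mem (fun i _ => hw.1 i) hw.2
        (fun i _ => subset_convexHull ℝ S (hz i (Set.mem_univ i)))
  rw [h1]
  apply ((isCompact_stdSimplex ℝ _).prod (isCompact_univ_pi fun _ => hS)).image
  fun_prop

/-- If every functional positive on the compact set `S` is positive at `t`, then `t` is a
combination of few points of `S` with nonnegative coefficients. -/
theorem cone_rep {J : Type} [Fintype J] (S : Set (J → ℝ)) (hS : IsCompact S) (t : J → ℝ)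
    (j0 : J) (δ : ℝ) (hδ : 0 < δ) (hSδ : ∀ y ∈ S, δ ≤ y j0)
    (hP : ∀ v : J → ℝ, (∀ y ∈ S, 0 < ∑ j, v j * y j) → 0 < ∑ j, v j * t j) :
    ∃ (y : Fin (Fintype.card J + 1) → J → ℝ) (c : Fin (Fintype.card J + 1) → ℝ),
      (∀ i, y i ∈ S) ∧ (∀ i, 0 ≤ c i) ∧ (∀ j, ∑ i, c i * y i j = t j) ∧
      ∑ i, c i ≤ t j0 / δ := by
  classical
  set K := convexHull ℝ S with hK
  set R : Set (J → ℝ) := (fun s : ℝ => s • t) '' Set.Ici 0 with hR
  have hKc : IsCompact K := cone_compact S hS
  have hRconv : Convex ℝ R := by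
    rintro _ ⟨a, ha, rfl⟩ _ ⟨b, hb, rfl⟩ p q hp hq hpq
    refine ⟨p * a + q * b, ?_, ?_⟩
    · have ha' : (0 : ℝ) ≤ a := ha
      have hb' : (0 : ℝ) ≤ b := hb
      show (0 : ℝ) ≤ p * a + q * b
      positivity
    · simp only [add_smul, mul_smul]
  have hnz : t ≠ 0 := by
    rintro rfl
    have h1 := hP (Pi.single j0 1) (by
      intro y hy
      have h2 : ∑ j, (Pi.single j0 (1 : ℝ) : J → ℝ) j * y j = y j0 := by
        rw [sum_eq_single j0]
        · simp
        · intro j _ hj
          rw [Pi.single_eq_of_ne hj, zero_mul]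
        · intro h
          exact absurd (mem_univ _) h
      rw [h2]
      exact hδ.trans_le (hSδ y hy))
    simp at h1
  have hRclosed : IsClosed R := by
    have hcl : Topology.IsClosedEmbedding fun s : ℝ => s • t := isClosedEmbedding_smul_left hnz
    exact hcl.isClosedMap _ isClosed_Ici
  have hmeet : ∃ y ∈ K, y ∈ R := by
    by_contra hc
    have hdisj : Disjoint K R := by
      rw [Set.disjoint_left]
      intro y hy1 hy2
      exact hc ⟨y, hy1, hy2⟩
    obtain ⟨f, u, v, hf1, huv, hf2⟩ := geometric_hahn_banach_compact_closed (convex_convexHull ℝ S)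
      hKc hRconv hRclosed hdisj
    have h0 : v < 0 := by
      have := hf2 0 ⟨0, Set.self_mem_Ici, by simp⟩
      rwa [map_zero] at this
    have hrep : ∀ y : J → ℝ, ∑ j, (-(f (Pi.single j 1))) * y j = -(f y) := by
      intro y
      have h2 : f y = ∑ j, y j * f (Pi.single j 1) := by
        have h3 : y = ∑ j, y j • (Pi.single j (1 : ℝ) : J → ℝ) := by
          funext i
          rw [Finset.sum_apply, sum_eq_single i]
          · simp
          · intro j _ hj
            rw [Pi.smul_apply, Pi.single_eq_of_ne hj.symm, smul_zero]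
          · intro h
            exact absurd (mem_univ _) h
        conv_lhs => rw [h3]
        rw [map_sum]
        apply sum_congr rfl
        intro j _
        rw [map_smul, smul_eq_mul]
      rw [h2, ← sum_neg_distrib]
      apply sum_congr rfl
      intro j _
      ring
    have h1 := hP (fun j => -(f (Pi.single j 1))) (by
      intro y hy
      rw [hrep]
      have := hf1 y (subset_convexHull ℝ S hy)
      linarith)
    rw [hrep] at h1
    have h2 := hf2 ((v / f t) • t) ⟨v / f t, by
      show (0 : ℝ) ≤ v / f t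
      exact div_nonneg_of_nonpos h0.le (by linarith), rfl⟩
    rw [map_smul, smul_eq_mul, div_mul_cancel₀ _ (by linarith : f t ≠ 0)] at h2
    exact lt_irrefl _ h2
  obtain ⟨y, hyK, s, hs, hy⟩ := hmeet
  obtain ⟨w, z, hw, hz, hsum⟩ := cone_carath S y hyK
  have hs0 : (0 : ℝ) ≤ s := hs
  have hyj : δ ≤ y j0 := by
    have h1 : y j0 = ∑ i, w i * z i j0 := by
      rw [← hsum]
      simp
    rw [h1]
    calc δ = ∑ i, w i * δ := by rw [← sum_mul, hw.2, one_mul]
      _ ≤ _ := sum_le_sum fun i _ => mul_le_mul_of_nonneg_left (hSδ _ (hz i)) (hw.1 i)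
  have hy' : ∀ j, s * t j = y j := by
    intro j
    rw [← hy]
    simp
  have hs1 : 0 < s := by
    rcases hs0.eq_or_lt with h | h
    · exfalso
      have := hy' j0
      rw [← h, zero_mul] at this
      linarith
    · exact h
  refine ⟨z, fun i => w i / s, hz, fun i => div_nonneg (hw.1 i) hs0, ?_, ?_⟩
  · intro j
    have h1 : ∑ i, w i * z i j = s * t j := by
      rw [hy' j, ← hsum]
      simp
    have h2 : ∑ i, w i / s * z i j = (∑ i, w i * z i j) / s := by
      rw [sum_div]
      apply sum_congr rfl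
      intro i _
      ring
    rw [h2, h1, mul_div_cancel_left₀ _ hs1.ne']
  · rw [← sum_div, hw.2, div_le_div_iff₀ hs1 hδ, one_mul]
    rw [mul_comm, hy' j0]
    exact hyj

end Pool.Agent.H.MP_cba12a_lc.QP
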