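import Pool.Agent.H.MP_cba12a_lc.QP.TayA

/-!
# The averages of the Taylor polynomials
-/

set_option autoImplicit false

namespace Pool.Agent.H.MP_cba12a_lc.QP

open Finset Pool.Agent.H.MP_cba12a_lc.SQ

private theorem tayB_exp {μ : ℕ} (hμ : 4 ≤ μ) : Real.exp (-(μ : ℝ) ^ 2 / 2) ≤ 1 / 100 := by
  have h4 : (4 : ℝ) ≤ μ := by exact_mod_cast hμ
  have h1 : -(μ : ℝ) ^ 2 / 2 ≤ -8 := by nlinarith
  refine (Real.exp_le_exp.2 h1).trans ?_
  rw [Real.exp_neg, one_div]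
  refine inv_anti₀ (by norm_num) ?_
  have h2 : Real.exp 8 = Real.exp 1 ^ 8 := by
    rw [← Real.exp_nat_mul]
    norm_num
  rw [h2]
  have h3 : (2 : ℝ) ≤ Real.exp 1 := by
    have := Real.add_one_le_exp (1 : ℝ)
    linarith
  calc (100 : ℝ) ≤ 2 ^ 8 := by norm_num
    _ ≤ Real.exp 1 ^ 8 := pow_le_pow_left₀ (by norm_num) h3 8

private theorem tayB_pow {μ k : ℕ} (hμ : 4 ≤ μ) (hk : 4 * k ≤ μ) {s : ℝ} (hs : |s| < 1 / μ) :
    (3 : ℝ) / 4 ≤ (1 + s) ^ k := by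
  have h4 : (4 : ℝ) ≤ μ := by exact_mod_cast hμ
  have hk' : 4 * (k : ℝ) ≤ μ := by exact_mod_cast hk
  have hμ0 : (0 : ℝ) < μ := by linarith
  have hs1 := (abs_lt.1 hs).1
  have h1 : (1 : ℝ) / μ ≤ 1 / 4 := by
    rw [div_le_div_iff₀ hμ0 (by norm_num)]
    linarith
  have hb := one_add_mul_le_pow (show (-2 : ℝ) ≤ s by linarith) k
  refine le_trans ?_ hb
  have h2 : -((k : ℝ) * (1 / μ)) ≤ k * s := by
    have h3 : (k : ℝ) * (-(1 / μ)) ≤ k * s :=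
      mul_le_mul_of_nonneg_left (by linarith) (Nat.cast_nonneg k)
    linarith
  have h5 : (k : ℝ) * (1 / μ) ≤ 1 / 4 := by
    rw [mul_one_div, div_le_div_iff₀ hμ0 (by norm_num)]
    linarith
  linarith

private theorem tayB_lo {n : ℕ} (hn : 2 ≤ n) : 0 < lo n ∧ lo n ≤ 1 := by
  have h2 : (2 : ℝ) ≤ n := by exact_mod_cast hn
  have h3 : (1 : ℝ) ≤ (n : ℝ) ^ 4 := one_le_pow₀ (by linarith)
  unfold lo
  constructor
  · positivity
  · rw [div_le_one (by positivity)]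
    linarith

private theorem tayB_one_sub_exp {y : ℝ} (h0 : 0 ≤ y) (h1 : y ≤ 1) :
    y / 2 ≤ 1 - Real.exp (-y) := by
  have h2 := Real.add_one_le_exp y
  have h3 : Real.exp (-y) ≤ 1 / (1 + y) := by
    rw [Real.exp_neg, ← one_div]
    exact one_div_le_one_div_of_le (by linarith) (by linarith)
  have h4 : 1 / (1 + y) ≤ 1 - y / 2 := by
    rw [div_le_iff₀ (by linarith)]
    nlinarith
  linarith

private theorem tayB_s {μ : ℕ} (hμ : 0 < μ) {y : ℕ} :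
    0 ≤ 1 + (2 * (y : ℝ) / ((μ ^ 4 : ℕ) : ℝ) - 1) := by
  have h : 0 ≤ 2 * (y : ℝ) / ((μ ^ 4 : ℕ) : ℝ) := by positivity
  linarith

/- PROOF: ff 0 - ff x at typical s: (1+s)^d ≥ 1 - d/μ ≥ 3/4 and (1+s)^e ≥ 3/4 (Bernoulli), so it is
≥ (3/4)(1 - exp(-3x/4)) ≥ (3/4)(3/8) lo ≥ lo/4 (1 - exp(-y) ≥ y/2 on [0,1], monotone in x, lo ≤ 1);
it is ≥ 0 everywhere. crad_zero_ge, exp(-μ^2/2) ≤ 1/100, then lev_tf twice, tau ≤ lo/100. -/
theorem lev_zero_block (μ n d e : ℕ) (hn : 2 ≤ n) (hμ : 4 ≤ μ) (hnd : n + 1 < d) (hde : 2 * d ≤ e)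
    (hem : 4 * e ≤ μ) (ht : tau μ n d e ≤ lo n / 100) (x : ℝ) (hx : lo n ≤ x) :
    lo n / 8 ≤ lev (μ ^ 4) 0 (fun s => tf n d e 0 s - tf n d e x s) := by
  obtain ⟨hl0, hl1⟩ := tayB_lo hn
  have hμ0 : 0 < μ := by omega
  have hx0 : 0 ≤ x := hl0.le.trans hx
  have e1 := lev_tf μ n d e 0 hμ0 (Nat.zero_le _) hnd hde hem 0 le_rfl
  have e2 := lev_tf μ n d e 0 hμ0 (Nat.zero_le _) hnd hde hem x hx0
  rw [lev_sub]
  have hmain : lo n / 4 * (1 - 2 * Real.exp (-(μ : ℝ) ^ 2 / 2)) ≤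
      lev (μ ^ 4) 0 (fun s => ff d e 0 s - ff d e x s) := by
    unfold lev
    refine crad_zero_ge μ hμ0 _ (lo n / 4) (by linarith) ?_ ?_
    · intro y _ hs
      have hd : (3 : ℝ) / 4 ≤ (1 + (2 * (y : ℝ) / ((μ ^ 4 : ℕ) : ℝ) - 1)) ^ d :=
        tayB_pow hμ (by omega) hs
      have he : (3 : ℝ) / 4 ≤ (1 + (2 * (y : ℝ) / ((μ ^ 4 : ℕ) : ℝ) - 1)) ^ e :=
        tayB_pow hμ hem hs
      unfold ff
      generalize (2 * (y : ℝ) / ((μ ^ 4 : ℕ) : ℝ) - 1) = s at *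
      beta_reduce
      rw [zero_mul, neg_zero, Real.exp_zero, mul_one]
      have h1 : 3 / 4 * lo n ≤ x * (1 + s) ^ e := by
        calc 3 / 4 * lo n ≤ (1 + s) ^ e * x := mul_le_mul he hx hl0.le (by linarith)
          _ = x * (1 + s) ^ e := mul_comm _ _
      have h2 : Real.exp (-(x * (1 + s) ^ e)) ≤ Real.exp (-(3 / 4 * lo n)) :=
        Real.exp_le_exp.2 (by linarith)
      have h3 := tayB_one_sub_exp (y := 3 / 4 * lo n) (by linarith) (by linarith)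
      have h4 : 3 / 4 * lo n / 2 ≤ 1 - Real.exp (-(x * (1 + s) ^ e)) := by linarith
      have h5 : 3 / 4 * (3 / 4 * lo n / 2) ≤
          (1 + s) ^ d * (1 - Real.exp (-(x * (1 + s) ^ e))) :=
        mul_le_mul hd h4 (by linarith) (by linarith)
      linarith
    · intro y _
      have hs := tayB_s hμ0 (y := y)
      unfold ff
      generalize (2 * (y : ℝ) / ((μ ^ 4 : ℕ) : ℝ) - 1) = s at *
      beta_reduce
      rw [zero_mul, neg_zero, Real.exp_zero, mul_one]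
      have h1 : Real.exp (-(x * (1 + s) ^ e)) ≤ 1 := by
        rw [Real.exp_le_one_iff]
        have : 0 ≤ x * (1 + s) ^ e := mul_nonneg hx0 (pow_nonneg hs e)
        linarith
      have h2 : 0 ≤ (1 + s) ^ d := pow_nonneg hs d
      nlinarith
  rw [lev_sub] at hmain
  have hexp := tayB_exp hμ
  have h6 : lo n / 4 * (98 / 100) ≤ lo n / 4 * (1 - 2 * Real.exp (-(μ : ℝ) ^ 2 / 2)) :=
    mul_le_mul_of_nonneg_left (by linarith) (by linarith)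
  have e1' := (abs_le.1 e1).2
  have e2' := (abs_le.1 e2).1
  linarith

/- PROOF: the same with ff 0 = (1+s)^d ≥ 3/4 at typical points. -/
theorem lev_zero_pure (μ n d e : ℕ) (hn : 2 ≤ n) (hμ : 4 ≤ μ) (hnd : n + 1 < d) (hde : 2 * d ≤ e)
    (hem : 4 * e ≤ μ) (ht : tau μ n d e ≤ lo n / 100) :
    1 / 2 ≤ lev (μ ^ 4) 0 (tf n d e 0) := by
  obtain ⟨hl0, hl1⟩ := tayB_lo hn
  have hμ0 : 0 < μ := by omega
  have e1 := lev_tf μ n d e 0 hμ0 (Nat.zero_le _) hnd hde hem 0 le_rfl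
  have hmain : (3 : ℝ) / 4 * (1 - 2 * Real.exp (-(μ : ℝ) ^ 2 / 2)) ≤
      lev (μ ^ 4) 0 (ff d e 0) := by
    unfold lev
    refine crad_zero_ge μ hμ0 _ (3 / 4) (by norm_num) ?_ ?_
    · intro y _ hs
      have hd : (3 : ℝ) / 4 ≤ (1 + (2 * (y : ℝ) / ((μ ^ 4 : ℕ) : ℝ) - 1)) ^ d :=
        tayB_pow hμ (by omega) hs
      unfold ff
      rw [zero_mul, neg_zero, Real.exp_zero, mul_one]
      exact hd
    · intro y _
      have hs := tayB_s hμ0 (y := y)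
      unfold ff
      rw [zero_mul, neg_zero, Real.exp_zero, mul_one]
      exact pow_nonneg hs d
  have hexp := tayB_exp hμ
  have e1' := (abs_le.1 e1).2
  linarith

end Pool.Agent.H.MP_cba12a_lc.QP
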