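import Pool.Agent.H.MP_cba12a_lc.QP.Bd
import Pool.Agent.H.MP_cba12a_lc.QP.TayB
import Pool.Agent.H.MP_cba12a_lc.QP.Cone

/-!
# A positive combination of blocks with prescribed levels
-/

set_option autoImplicit false

namespace Pool.Agent.H.MP_cba12a_lc.QP

open Finset Pool.Agent.H.MP_cba12a_lc.SQ

theorem lev_poly (m j n : ℕ) (b : ℕ → ℝ) :
    lev m j (fun s => ∑ i ∈ range (n + 1), b i * s ^ i) =
      ∑ i ∈ range (n + 1), b i * lev m j (fun s => s ^ i) := by
  rw [lev_sum]
  apply sum_congr rfl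
  intro i _
  rw [lev_mul]

theorem lev_tf_eq (m j n d e : ℕ) (x : ℝ) :
    lev m j (tf n d e x) = ∑ i ∈ range (n + 1),
      (Real.exp (-x) * (RR d e i).eval x) / (i.factorial : ℝ) * lev m j (fun s => s ^ i) := by
  rw [← lev_poly]
  congr 1
  funext s
  unfold tf
  apply sum_congr rfl
  intro i _
  ring

theorem abs_lev_pow_le (m i : ℕ) (hm : 0 < m) : |lev m 0 (fun s => s ^ i)| ≤ 1 := by
  unfold lev
  have h := abs_crad_le m 0 (Nat.zero_le _) (fun y => (2 * (y : ℝ) / m - 1) ^ i)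
    (fun _ => (1 : ℝ)) (by
      intro x
      have h1 : (x.card : ℝ) ≤ m := by
        have := card_le_univ x
        rw [Fintype.card_fin] at this
        exact_mod_cast this
      have hm0 : (0 : ℝ) < m := by exact_mod_cast hm
      rw [abs_pow]
      apply pow_le_one₀ (abs_nonneg _)
      rw [abs_le]
      constructor
      · have : 0 ≤ 2 * (x.card : ℝ) / m := by positivity
        linarith
      · have : 2 * (x.card : ℝ) / m ≤ 2 := by
          rw [div_le_iff₀ hm0]
          linarith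
        linarith)
  refine h.trans (le_of_eq ?_)
  simp [ex]

theorem base_cone (μ n d e k : ℕ) (hk : 3 ≤ k) (hkn : k ≤ n) (hn : 2 ≤ n) (hμ : 4 ≤ μ)
    (hkm : k ≤ μ ^ 4) (hnd : n + 1 < d) (hde : 2 * d ≤ e) (hem : 4 * e ≤ μ)
    (he : 4 * (d : ℝ) * Real.log (40000 * (n : ℝ) ^ 5) ≤ e)
    (ht : tau μ n d e ≤ lo n / 100) (phi : ℕ → ℝ)
    (hphi : (∑ i ∈ range (n + 1), |phi i| * 2 ^ i) * (2500 * (e : ℝ) ^ 3 * (n : ℝ) ^ 4) ≤ 1) :
    ∃ (r : ℕ) (c0 : ℝ) (c x : Fin r → ℝ), r ≤ k ∧ 0 ≤ c0 ∧ (∀ l, 0 ≤ c l) ∧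
      (∀ l, lo n ≤ x l ∧ x l ≤ 100 * n) ∧ c0 ≤ 4 ∧ (∀ l, c l ≤ 16 / lo n) ∧
      ∀ j, j < k → j ≠ 1 →
        c0 * lev (μ ^ 4) j (tf n d e 0) +
          ∑ l, c l * lev (μ ^ 4) j (fun s => tf n d e 0 s - tf n d e (x l) s) =
        (if j = 0 then 1 else 0) -
          lev (μ ^ 4) j (fun s => ∑ i ∈ range (n + 1), phi i * s ^ i) := by
  classical
  set m := μ ^ 4 with hm
  have hm0 : 0 < m := by rw [hm]; positivity
  have hn0 : (2 : ℝ) ≤ n := by exact_mod_cast hn
  have he1 : 1 ≤ e := by omega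
  have he0 : (1 : ℝ) ≤ e := by exact_mod_cast he1
  have hlo0 : 0 < lo n := by unfold lo; positivity
  have hlo1 : lo n ≤ 1 := by
    unfold lo
    rw [div_le_one (by positivity)]
    have : (1 : ℝ) ≤ (n : ℝ) ^ 4 := one_le_pow₀ (by linarith)
    linarith
  have hlo100 : lo n ≤ 100 * n := by linarith
  let J := {j : Fin k // j.1 ≠ 1}
  have hcardJ : Fintype.card J + 1 ≤ k := by
    have h1 : Fintype.card J < Fintype.card (Fin k) :=
      Fintype.card_subtype_lt (x := ⟨1, by omega⟩) (by simp)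
    rw [Fintype.card_fin] at h1
    omega
  let j0 : J := ⟨⟨0, by omega⟩, by simp⟩
  have hjm : ∀ j : J, j.1.1 ≤ m := fun j => (le_of_lt j.1.2).trans hkm
  set V : ℝ → J → ℝ := fun x j => lev m j.1.1 (fun s => tf n d e 0 s - tf n d e x s) with hV
  set Vp : J → ℝ := fun j => lev m j.1.1 (tf n d e 0) with hVp
  have hVeq : ∀ x j, V x j = Vp j - lev m j.1.1 (tf n d e x) := by
    intro x j
    simp only [hV, hVp]
    rw [lev_sub]
  have hVc : Continuous V := by
    apply continuous_pi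
    intro j
    have h1 : (fun x => V x j) = fun x => Vp j - ∑ i ∈ range (n + 1),
      (Real.exp (-x) * (RR d e i).eval x) / (i.factorial : ℝ) * lev m j.1.1 (fun s => s ^ i) := by
      funext x
      rw [hVeq, lev_tf_eq]
    rw [h1]
    have h2 : ∀ i, Continuous fun x : ℝ => Real.exp (-x) * (RR d e i).eval x :=
      fun i => SQ.mom_cont _
    fun_prop
  set S : Set (J → ℝ) := (V '' Set.Icc (lo n) (100 * n)) ∪ {Vp} with hS
  have hScomp : IsCompact S := (isCompact_Icc.image hVc).union isCompact_singleton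
  have hV0 : ∀ x, lo n ≤ x → lo n / 8 ≤ V x j0 := fun x hx =>
    lev_zero_block μ n d e hn hμ hnd hde hem ht x hx
  have hVp0 : 1 / 2 ≤ Vp j0 := lev_zero_pure μ n d e hn hμ hnd hde hem ht
  have hSδ : ∀ y ∈ S, lo n / 8 ≤ y j0 := by
    rintro y (⟨x, hx, rfl⟩ | hy)
    · exact hV0 x hx.1
    · rw [Set.mem_singleton_iff] at hy
      rw [hy]
      linarith
  -- the target
  set t : J → ℝ := fun j => (if j.1.1 = 0 then 1 else 0) -
    lev m j.1.1 (fun s => ∑ i ∈ range (n + 1), phi i * s ^ i) with htdef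
  have hsum0 : ∑ i ∈ range (n + 1), |phi i| * 2 ^ i ≤ 1 := by
    have h1 : (0 : ℝ) ≤ ∑ i ∈ range (n + 1), |phi i| * 2 ^ i :=
      sum_nonneg fun i _ => by positivity
    have h2 : (1 : ℝ) ≤ 2500 * (e : ℝ) ^ 3 * (n : ℝ) ^ 4 := by
      have h3 : (1 : ℝ) ≤ (e : ℝ) ^ 3 := one_le_pow₀ he0
      have h4 : (1 : ℝ) ≤ (n : ℝ) ^ 4 := one_le_pow₀ (by linarith)
      have h5 : (1 : ℝ) * 1 ≤ (e : ℝ) ^ 3 * (n : ℝ) ^ 4 :=
        mul_le_mul h3 h4 (by norm_num) (by positivity)
      linarith
    calc ∑ i ∈ range (n + 1), |phi i| * 2 ^ i = (∑ i ∈ range (n + 1), |phi i| * 2 ^ i) * 1 := by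
          ring
      _ ≤ _ := mul_le_mul_of_nonneg_left h2 h1
      _ ≤ 1 := hphi
  have ht0 : t j0 ≤ 2 := by
    simp only [htdef, j0, if_true]
    rw [lev_poly]
    have h1 : |∑ i ∈ range (n + 1), phi i * lev m 0 (fun s => s ^ i)| ≤ 1 := by
      refine (abs_sum_le_sum_abs _ _).trans (le_trans ?_ hsum0)
      apply sum_le_sum
      intro i _
      rw [abs_mul]
      apply mul_le_mul_of_nonneg_left _ (abs_nonneg _)
      exact (abs_lev_pow_le m i hm0).trans (one_le_pow₀ (by norm_num))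
    have := neg_le_of_abs_le h1
    linarith
  -- positivity
  have hP : ∀ v : J → ℝ, (∀ y ∈ S, 0 < ∑ j, v j * y j) → 0 < ∑ j, v j * t j := by
    intro v hv
    set w : ℕ → ℝ := fun i => (1 / (i.factorial : ℝ)) *
      ∑ j : J, v j * lev m j.1.1 (fun s => s ^ i) with hw
    have hwi : ∀ i, w i * (i.factorial : ℝ) = ∑ j : J, v j * lev m j.1.1 (fun s => s ^ i) := by
      intro i
      simp only [hw]
      have : (i.factorial : ℝ) ≠ 0 := by positivity
      field_simp
    have hw1 : w 1 = 0 := by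
      simp only [hw]
      rw [sum_eq_zero, mul_zero]
      intro j _
      have h1 : (fun s : ℝ => s ^ 1) = fun s => s := by
        funext s
        rw [pow_one]
      rw [h1, lev_id m j.1.1 hm0 (hjm j) j.2, mul_zero]
    have hQ : ∀ x, ∑ j : J, v j * lev m j.1.1 (tf n d e x) =
        Real.exp (-x) * (QQ n d e w).eval x := by
      intro x
      have h1 : (QQ n d e w).eval x = ∑ i ∈ range (n + 1), w i * (RR d e i).eval x :=
        eval_Qw d e n w x
      rw [h1, mul_sum]
      simp only [lev_tf_eq, mul_sum]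
      rw [sum_comm]
      apply sum_congr rfl
      intro i _
      have h2 : w i = (1 / (i.factorial : ℝ)) * ∑ j : J, v j * lev m j.1.1 (fun s => s ^ i) := rfl
      rw [h2, mul_sum, sum_mul, mul_sum]
      apply sum_congr rfl
      intro j _
      ring
    have hQ0 : ∑ j : J, v j * Vp j = (QQ n d e w).eval 0 := by
      have := hQ 0
      rw [neg_zero, Real.exp_zero, one_mul] at this
      exact this
    have hQx : ∀ x, ∑ j : J, v j * V x j =
        (QQ n d e w).eval 0 - Real.exp (-x) * (QQ n d e w).eval x := by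
      intro x
      rw [← hQ0, ← hQ x, ← sum_sub_distrib]
      apply sum_congr rfl
      intro j _
      rw [hVeq]
      ring
    have hC0 : 0 < (QQ n d e w).eval 0 := by
      rw [← hQ0]
      exact hv Vp (Or.inr rfl)
    have hSgn : Sgn n (QQ n d e w) := by
      refine ⟨hC0.le, ?_⟩
      intro x hx1 hx2
      rw [← hQx]
      exact (hv (V x) (Or.inl ⟨x, ⟨hx1, hx2⟩, rfl⟩)).le
    obtain ⟨T, hT1, hT2, hT3⟩ := bnd n d e hn hnd hde he w hw1 hSgn
    have hT0 : 0 < T := hC0.trans_le hT1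
    -- the value at the target
    have hw0 : w 0 = ∑ j : J, v j * (if j.1.1 = 0 then (1 : ℝ) else 0) := by
      simp only [hw, Nat.factorial_zero, Nat.cast_one, div_one, one_mul, pow_zero]
      apply sum_congr rfl
      intro j _
      rw [lev_one m j.1.1 (hjm j)]
    have hval : ∑ j, v j * t j = w 0 - ∑ i ∈ range (n + 1), phi i * (w i * (i.factorial : ℝ)) := by
      rw [hw0]
      simp only [hwi, htdef, mul_sub, sum_sub_distrib]
      congr 1
      simp only [lev_poly, mul_sum]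
      rw [sum_comm]
      apply sum_congr rfl
      intro i _
      apply sum_congr rfl
      intro j _
      ring
    have hbd : |∑ i ∈ range (n + 1), phi i * (w i * (i.factorial : ℝ))| ≤
        (∑ i ∈ range (n + 1), |phi i| * 2 ^ i) * (1000 * (e : ℝ) * (n : ℝ) ^ 4 * T) := by
      refine (abs_sum_le_sum_abs _ _).trans ?_
      rw [sum_mul]
      apply sum_le_sum
      intro i hi
      rw [mem_range] at hi
      rw [abs_mul, abs_mul, Nat.abs_cast]
      calc |phi i| * (|w i| * (i.factorial : ℝ)) ≤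
            |phi i| * (2 ^ i * (1000 * (e : ℝ) * (n : ℝ) ^ 4) * T) :=
            mul_le_mul_of_nonneg_left (hT3 i (by omega)) (abs_nonneg _)
        _ = _ := by ring
    set Φ := ∑ i ∈ range (n + 1), |phi i| * 2 ^ i with hΦ
    rw [hval]
    have h1 := le_of_abs_le hbd
    have h2 : Φ * (1000 * (e : ℝ) * (n : ℝ) ^ 4 * T) * (e : ℝ) ^ 2 ≤ 2 / 5 * T := by
      have h3 : Φ * (1000 * (e : ℝ) * (n : ℝ) ^ 4 * T) * (e : ℝ) ^ 2 =
          (Φ * (2500 * (e : ℝ) ^ 3 * (n : ℝ) ^ 4)) * (2 / 5 * T) := by ring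
      rw [h3]
      calc (Φ * (2500 * (e : ℝ) ^ 3 * (n : ℝ) ^ 4)) * (2 / 5 * T) ≤ 1 * (2 / 5 * T) :=
            mul_le_mul_of_nonneg_right hphi (by positivity)
        _ = 2 / 5 * T := one_mul _
    have h4 : 0 < (e : ℝ) ^ 2 := by positivity
    have h5 : (∑ i ∈ range (n + 1), phi i * (w i * (i.factorial : ℝ))) * (e : ℝ) ^ 2 ≤
        2 / 5 * T := (mul_le_mul_of_nonneg_right h1 h4.le).trans h2
    have h6 : (∑ i ∈ range (n + 1), phi i * (w i * (i.factorial : ℝ))) * (e : ℝ) ^ 2 <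
        w 0 * (e : ℝ) ^ 2 := by linarith
    have h7 := lt_of_mul_lt_mul_right h6 h4.le
    linarith
  obtain ⟨y, c, hy, hc, hsum, hmass⟩ := cone_rep S hScomp t j0 (lo n / 8) (by positivity) hSδ hP
  -- collecting the points
  have hex : ∀ i, ∃ x : ℝ, (lo n ≤ x ∧ x ≤ 100 * n) ∧ (y i = V x ∨ y i = Vp) := by
    intro i
    rcases hy i with ⟨x, hx, hxy⟩ | h
    · exact ⟨x, hx, Or.inl hxy.symm⟩
    · exact ⟨lo n, ⟨le_rfl, hlo100⟩, Or.inr h⟩
  choose x hx hxy using hex
  have hmass' : ∑ i, c i ≤ 16 / lo n := by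
    refine hmass.trans ?_
    rw [div_div_eq_mul_div]
    apply div_le_div_of_nonneg_right _ hlo0.le
    linarith
  have hsum' : ∀ j, (∑ i, if y i = V (x i) then 0 else c i) * Vp j +
      ∑ i, (if y i = V (x i) then c i else 0) * V (x i) j = t j := by
    intro j
    rw [← hsum j, sum_mul, ← sum_add_distrib]
    apply sum_congr rfl
    intro i _
    by_cases h : y i = V (x i)
    · rw [if_pos h, if_pos h, zero_mul, zero_add, ← h]
    · rw [if_neg h, if_neg h, zero_mul, add_zero]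
      rcases hxy i with h' | h'
      · exact absurd h' h
      · rw [h']
  refine ⟨Fintype.card J + 1, ∑ i, if y i = V (x i) then 0 else c i,
    fun i => if y i = V (x i) then c i else 0, x, hcardJ, ?_, ?_, hx, ?_, ?_, ?_⟩
  · apply sum_nonneg
    intro i _
    split_ifs
    · exact le_rfl
    · exact hc i
  · intro i
    dsimp only
    split_ifs
    · exact hc i
    · exact le_rfl
  · have h1 := hsum' j0
    have h2 : 0 ≤ ∑ i, (if y i = V (x i) then c i else 0) * V (x i) j0 := by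
      apply sum_nonneg
      intro i _
      apply mul_nonneg
      · split_ifs
        · exact hc i
        · exact le_rfl
      · have := hV0 (x i) (hx i).1
        linarith
    have h3 : 0 ≤ ∑ i, if y i = V (x i) then 0 else c i := by
      apply sum_nonneg
      intro i _
      split_ifs
      · exact le_rfl
      · exact hc i
    have h4 := mul_le_mul_of_nonneg_left hVp0 h3
    linarith
  · intro i
    dsimp only
    have h1 : c i ≤ ∑ i, c i := single_le_sum (fun i _ => hc i) (mem_univ i)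
    split_ifs
    · linarith
    · positivity
  · intro j hj hj1
    have h1 := hsum' ⟨⟨j, hj⟩, hj1⟩
    simp only [htdef, hV, hVp] at h1
    exact h1

end Pool.Agent.H.MP_cba12a_lc.QP
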