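import Pool.Agent.H.MP_cba12a_lc.QP.Lev

/-!
# Level coefficients of the Taylor polynomials
-/

set_option autoImplicit false

namespace Pool.Agent.H.MP_cba12a_lc.QP

open Finset Pool.Agent.H.MP_cba12a_lc.SQ

private theorem TayA_geom (b : ℝ) (hb : 2 ≤ b) (k : ℕ) : ∑ i ∈ range k, b ^ i ≤ b ^ k := by
  induction k with
  | zero => simp
  | succ k ih =>
    rw [sum_range_succ, pow_succ]
    have h1 : 0 ≤ b ^ k := by positivity
    nlinarith

/- PROOF: abs_RR term by term, |s| ≤ 1, geometric sum of (3e)^i, i ≤ n. -/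
theorem tf_bound (n d e : ℕ) (he : 1 ≤ e) (hnd : n + 1 < d) (hde : 2 * d ≤ e) (x : ℝ) (hx : 0 ≤ x)
    (s : ℝ) (hs : |s| ≤ 1) : |tf n d e x s| ≤ (3 * (e : ℝ)) ^ (n + 1) := by
  have he1 : (1 : ℝ) ≤ e := by exact_mod_cast he
  unfold tf
  refine (abs_sum_le_sum_abs _ _).trans ?_
  refine le_trans ?_ (TayA_geom (3 * (e : ℝ)) (by linarith) (n + 1))
  apply sum_le_sum
  intro i hi
  rw [mem_range] at hi
  have hf : (0 : ℝ) < (i.factorial : ℝ) := by exact_mod_cast i.factorial_pos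
  have h1 := abs_RR d e he hde x hx i (by omega)
  rw [abs_mul, abs_div, abs_pow, Nat.abs_cast]
  have h2 : |s| ^ i ≤ 1 := pow_le_one₀ (abs_nonneg s) hs
  have h3 : |s| ^ i / (i.factorial : ℝ) ≤ 1 / (i.factorial : ℝ) := by gcongr
  calc |s| ^ i / (i.factorial : ℝ) * |Real.exp (-x) * (RR d e i).eval x|
      ≤ 1 / (i.factorial : ℝ) * ((3 * (e : ℝ)) ^ i * (i.factorial : ℝ)) :=
        mul_le_mul h3 h1 (abs_nonneg _) (by positivity)
    _ = (3 * (e : ℝ)) ^ i := by field_simp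

/- PROOF: crad_small with f = ff x - tf x at s = 2y/m - 1. Typical: |s| < 1/μ, |s| d ≤ 1, taylor_RR:
A = 3 (3e/μ)^(n+1). All y ≤ m: |s| ≤ 1, 0 ≤ ff ≤ 2^d, tf_bound: B = 2^d + (3e)^(n+1). -/
theorem lev_tf (μ n d e j : ℕ) (hμ : 0 < μ) (hj : j ≤ μ ^ 4) (hnd : n + 1 < d) (hde : 2 * d ≤ e)
    (hem : 4 * e ≤ μ) (x : ℝ) (hx : 0 ≤ x) :
    |lev (μ ^ 4) j (ff d e x) - lev (μ ^ 4) j (tf n d e x)| ≤ tau μ n d e := by
  have he : 1 ≤ e := by omega
  have hμ0 : (0 : ℝ) < μ := by exact_mod_cast hμ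
  have hm0 : (0 : ℝ) < ((μ ^ 4 : ℕ) : ℝ) := by
    have : 0 < μ ^ 4 := by positivity
    exact_mod_cast this
  have h0 : lev (μ ^ 4) j (ff d e x) - lev (μ ^ 4) j (tf n d e x) =
      crad (μ ^ 4) j (fun y => ff d e x (2 * (y : ℝ) / ((μ ^ 4 : ℕ) : ℝ) - 1) -
        tf n d e x (2 * (y : ℝ) / ((μ ^ 4 : ℕ) : ℝ) - 1)) := by
    rw [← lev_sub]
    rfl
  rw [h0]
  have h1 := crad_small μ j hμ hj (fun y => ff d e x (2 * (y : ℝ) / ((μ ^ 4 : ℕ) : ℝ) - 1) -
        tf n d e x (2 * (y : ℝ) / ((μ ^ 4 : ℕ) : ℝ) - 1)) (3 * (3 * (e : ℝ) / μ) ^ (n + 1))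
        (2 ^ d + (3 * (e : ℝ)) ^ (n + 1)) (by positivity) (by positivity)
        (by
          intro y _ hs
          generalize 2 * (y : ℝ) / ((μ ^ 4 : ℕ) : ℝ) - 1 = s at hs
          have h2 : |s| * d ≤ 1 := by
            have h3 : (d : ℝ) ≤ μ := by
              have : d ≤ μ := by omega
              exact_mod_cast this
            calc |s| * d ≤ 1 / μ * μ := mul_le_mul hs.le h3 (by positivity) (by positivity)
              _ = 1 := by field_simp
          have h4 := taylor_RR d e n he hde hnd x hx s h2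
          refine h4.trans ?_
          have h5 : 3 * (e : ℝ) * |s| ≤ 3 * (e : ℝ) / μ := by
            rw [div_eq_mul_one_div]
            exact mul_le_mul_of_nonneg_left hs.le (by positivity)
          have h6 : (3 * (e : ℝ) * |s|) ^ (n + 1) ≤ (3 * (e : ℝ) / μ) ^ (n + 1) :=
            pow_le_pow_left₀ (by positivity) h5 _
          linarith)
        (by
          intro y hy
          have hy' : (y : ℝ) ≤ ((μ ^ 4 : ℕ) : ℝ) := by exact_mod_cast hy
          have h2 : 0 ≤ 2 * (y : ℝ) / ((μ ^ 4 : ℕ) : ℝ) := by positivity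
          have h3 : 2 * (y : ℝ) / ((μ ^ 4 : ℕ) : ℝ) ≤ 2 := by
            rw [div_le_iff₀ hm0]
            linarith
          have hs : |2 * (y : ℝ) / ((μ ^ 4 : ℕ) : ℝ) - 1| ≤ 1 := by
            rw [abs_le]
            constructor <;> linarith
          have h5 : 0 ≤ 1 + (2 * (y : ℝ) / ((μ ^ 4 : ℕ) : ℝ) - 1) := by linarith
          have h6 : 1 + (2 * (y : ℝ) / ((μ ^ 4 : ℕ) : ℝ) - 1) ≤ 2 := by linarith
          generalize 2 * (y : ℝ) / ((μ ^ 4 : ℕ) : ℝ) - 1 = s at hs h5 h6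
          have h7 := tf_bound n d e he hnd hde x hx s hs
          have h8 : |ff d e x s| ≤ 2 ^ d := by
            unfold ff
            rw [abs_mul, abs_of_pos (Real.exp_pos _), abs_of_nonneg (pow_nonneg h5 d)]
            have h9 : (1 + s) ^ d ≤ 2 ^ d := pow_le_pow_left₀ h5 h6 d
            have h10 : Real.exp (-(x * (1 + s) ^ e)) ≤ 1 := by
              apply Real.exp_le_one_iff.2
              have : 0 ≤ x * (1 + s) ^ e := mul_nonneg hx (pow_nonneg h5 e)
              linarith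
            calc (1 + s) ^ d * Real.exp (-(x * (1 + s) ^ e)) ≤ 2 ^ d * 1 :=
                  mul_le_mul h9 h10 (Real.exp_pos _).le (by positivity)
              _ = 2 ^ d := mul_one _
          exact (abs_sub _ _).trans (add_le_add h8 h7))
  refine h1.trans (le_of_eq ?_)
  unfold tau
  ring

end Pool.Agent.H.MP_cba12a_lc.QP
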