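import Pool.Agent.H.MP_cba12a_lc.QP.BlkF
import Pool.Agent.H.MP_cba12a_lc.QP.TayA
import Pool.Agent.H.MP_cba12a_lc.QP.ParN

/-!
# Errors of the blocks of the base formula
-/

set_option autoImplicit false

namespace Pool.Agent.H.MP_cba12a_lc.QP

open Finset Pool.Agent.H.MP_cba12a_lc.SQ

private theorem BaseE_core {Q cr w D Lv T R : ℝ} (hQ : 0 ≤ Q) (hcr : |cr| ≤ R) (hQw : Q = w * D)
    (hw : 0 ≤ w) (hT : |D * cr - Lv| ≤ T) : |(⌊Q⌋₊ : ℝ) * cr - w * Lv| ≤ R + w * T := by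
  have h1 : (⌊Q⌋₊ : ℝ) * cr - w * Lv = ((⌊Q⌋₊ : ℝ) - Q) * cr + w * (D * cr - Lv) := by
    rw [hQw]
    ring
  have h2 : |(⌊Q⌋₊ : ℝ) - Q| ≤ 1 := by
    rw [abs_le]
    have h3 := Nat.floor_le hQ
    have h4 := Nat.lt_floor_add_one Q
    constructor <;> linarith
  rw [h1]
  refine (abs_add_le _ _).trans (add_le_add ?_ ?_)
  · rw [abs_mul]
    calc |(⌊Q⌋₊ : ℝ) - Q| * |cr| ≤ 1 * R := mul_le_mul h2 hcr (abs_nonneg _) zero_le_one
      _ = R := one_mul R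
  · rw [abs_mul, abs_of_nonneg hw]
    exact mul_le_mul_of_nonneg_left hT hw

private theorem BaseE_pow (h N : ℕ) : ((1 : ℝ) / 2) ^ (N * h) = ((1 / 2) ^ h) ^ N := by
  rw [mul_comm, pow_mul]

private theorem BaseE_inv (h N : ℕ) : (1 : ℝ) / 2 ^ (N * h) = ((1 / 2) ^ h) ^ N := by
  rw [← BaseE_pow, div_pow, one_pow]

/-- small numbers -/
private theorem BaseE_a {h μ k n e U : ℕ} (P : Par h μ k n e U) :
    0 < ((1 : ℝ) / 2) ^ h ∧ ((1 : ℝ) / 2) ^ h ≤ 1 / 8 ∧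
      7712000 * (n : ℝ) ^ 5 * (1 / 2) ^ h ≤ 1 ∧ (2 : ℝ) ≤ n := by
  have hn : (2 : ℝ) ≤ n := by exact_mod_cast P.n2
  have h100 := P.h1
  have he : (1 : ℝ) ≤ e := by
    have := P.de
    have h2 : 1 ≤ e := by omega
    exact_mod_cast h2
  refine ⟨by positivity, ?_, ?_, hn⟩
  · have h1 : ((1 : ℝ) / 2) ^ h ≤ (1 / 2) ^ 3 :=
      pow_le_pow_of_le_one (by norm_num) (by norm_num) (by omega)
    refine h1.trans (by norm_num)
  · have h1 := par_small P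
    have h2 : (1 : ℝ) ≤ ((k : ℝ) + 2) ^ 4 :=
      one_le_pow₀ (by have : (0 : ℝ) ≤ k := Nat.cast_nonneg k; linarith)
    have h3 : (1 : ℝ) ≤ (e : ℝ) ^ 10 := one_le_pow₀ he
    have h4 : (n : ℝ) ^ 5 ≤ (n : ℝ) ^ 20 := pow_le_pow_right₀ (by linarith) (by norm_num)
    have h5 : 0 < (n : ℝ) ^ 20 := by positivity
    have h6 : (n : ℝ) ^ 20 ≤ ((k : ℝ) + 2) ^ 4 * (n : ℝ) ^ 20 :=
      le_mul_of_one_le_left h5.le h2
    have h7 : ((k : ℝ) + 2) ^ 4 * (n : ℝ) ^ 20 ≤ ((k : ℝ) + 2) ^ 4 * (n : ℝ) ^ 20 * (e : ℝ) ^ 10 :=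
      le_mul_of_one_le_right (by positivity) h3
    have h8 : 7712000 * (n : ℝ) ^ 5 ≤ 2 ^ h := by
      have h9 : (0 : ℝ) ≤ (n : ℝ) ^ 5 := by positivity
      linarith
    have h9 : (2 : ℝ) ^ h * (1 / 2) ^ h = 1 := by
      rw [← mul_pow]
      norm_num
    calc 7712000 * (n : ℝ) ^ 5 * (1 / 2) ^ h ≤ 2 ^ h * (1 / 2) ^ h :=
          mul_le_mul_of_nonneg_right h8 (by positivity)
      _ = 1 := h9

/-- the factor in front -/
private theorem BaseE_w {h : ℕ} {c C : ℝ} (hc0 : 0 ≤ c) (hc : c ≤ C) :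
    0 ≤ Real.log 2 / 2 ^ (1000 * h) * c ∧ Real.log 2 / 2 ^ (1000 * h) * c ≤ C := by
  have hl0 : 0 ≤ Real.log 2 := Real.log_nonneg (by norm_num)
  have hl1 : Real.log 2 ≤ 1 := by
    have := Real.log_le_sub_one_of_pos (show (0 : ℝ) < 2 by norm_num)
    linarith
  have hN : (1 : ℝ) ≤ 2 ^ (1000 * h) := one_le_pow₀ (by norm_num)
  have h1 : Real.log 2 / 2 ^ (1000 * h) ≤ 1 := by
    rw [div_le_one (by positivity)]
    linarith
  refine ⟨by positivity, ?_⟩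
  calc Real.log 2 / 2 ^ (1000 * h) * c ≤ 1 * c := mul_le_mul_of_nonneg_right h1 hc0
    _ ≤ C := by rw [one_mul]; exact hc

private theorem BaseE_Q (h : ℕ) (c : ℝ) : c * (Real.log 2 * 2 ^ (1000 * h)) =
    Real.log 2 / 2 ^ (1000 * h) * c * 2 ^ (2000 * h) := by
  have h1 : (2 : ℝ) ^ (2000 * h) = 2 ^ (1000 * h) * 2 ^ (1000 * h) := by
    rw [← pow_add]
    congr 1
    ring
  rw [h1]
  field_simp

/- PROOF: d = 2000h, N = 2^(1000h), N/2^d = 1/N. Rounding of the number of blocks costs at most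
|crad| ≤ 2/2^d (crad_blkT_le; d^2 ≤ m since d ≤ μ). Then c log 2 N * crad(blkT) =
(c log 2/N) 2^d crad(blkT), and crad_blkT (2^e ≥ 2^(4000h)), lev_tf twice (x and 0; lev_sub) with
par_tau, par_exp; c ≤ 16/lo = 6400 n^4 ≤ 2^h: everything else is at most 2^(-3000h). -/
theorem blk_err {h μ k n e U : ℕ} (P : Par h μ k n e U) (j : ℕ) (hj : j < k) (c x : ℝ)
    (hc0 : 0 ≤ c) (hc : c ≤ 16 / lo n) (hx0 : lo n ≤ x) (hx1 : x ≤ 100 * n) :
    |(⌊c * (Real.log 2 * 2 ^ (1000 * h))⌋₊ : ℝ) *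
        crad (μ ^ 4) j (blkT (μ ^ 4) (2000 * h) e ⌊x * 2 ^ e⌋₊) -
      Real.log 2 / 2 ^ (1000 * h) *
        (c * lev (μ ^ 4) j (fun s => tf n (2000 * h) e 0 s - tf n (2000 * h) e x s))| ≤
      (1 / 2) ^ (1999 * h) := by
  obtain ⟨ha0, ha8, hna, hn⟩ := BaseE_a P
  obtain ⟨a, ha⟩ : ∃ a : ℝ, a = (1 / 2) ^ h := ⟨_, rfl⟩
  rw [← ha] at ha0 ha8 hna
  have hμ : 0 < μ := by
    have := P.mL
    have := P.h1
    omega
  have hjm : j ≤ μ ^ 4 := by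
    have := (par_km P).1
    omega
  have hde : 2 * (2000 * h) ≤ e := by
    have := P.de
    omega
  have hx : 0 ≤ x := by
    refine le_trans ?_ hx0
    unfold lo
    positivity
  have hd2 : (2000 * h) ^ 2 ≤ μ ^ 4 := by
    have h1 := P.mL
    have h2 : 2000 * h ≤ μ := by omega
    calc (2000 * h) ^ 2 ≤ μ ^ 2 := Nat.pow_le_pow_left h2 2
      _ ≤ μ ^ 4 := Nat.pow_le_pow_right hμ (by norm_num)
  have hcr := (crad_blkT_le (μ ^ 4) (2000 * h) e ⌊x * 2 ^ e⌋₊ j (by positivity) hjm hd2).1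
  have hC : c ≤ 6400 * (n : ℝ) ^ 4 := by
    refine hc.trans (le_of_eq ?_)
    unfold lo
    field_simp
    norm_num
  have hw := BaseE_w (h := h) hc0 hC
  have hQ0 : 0 ≤ c * (Real.log 2 * 2 ^ (1000 * h)) := by
    have hl0 : 0 ≤ Real.log 2 := Real.log_nonneg (by norm_num)
    positivity
  have hE : Real.exp (-(μ : ℝ) ^ 2 / 2) ≤ a ^ 10000 := by
    rw [ha, ← BaseE_pow]
    exact par_exp P
  have htau : tau μ n (2000 * h) e ≤ a ^ 4000 := by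
    rw [ha, ← BaseE_pow]
    exact (par_tau P).1
  have h2d : (2 : ℝ) ^ (2000 * h) * a ^ 2000 = 1 := by
    rw [ha, ← BaseE_pow, ← mul_pow]
    norm_num
  have h1e : (1 : ℝ) / 2 ^ e ≤ a ^ 4000 := by
    rw [ha, ← BaseE_inv]
    apply one_div_le_one_div_of_le (by positivity)
    apply pow_le_pow_right₀ (by norm_num)
    omega
  have k1 := crad_blkT μ n (2000 * h) e j hμ hjm hde P.em x hx hx1
  have k2 := lev_tf μ n (2000 * h) e j hμ hjm P.nd hde P.em 0 le_rfl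
  have k3 := lev_tf μ n (2000 * h) e j hμ hjm P.nd hde P.em x hx
  have e1 : lev (μ ^ 4) j (fun s => ff (2000 * h) e 0 s - ff (2000 * h) e x s) =
      lev (μ ^ 4) j (ff (2000 * h) e 0) - lev (μ ^ 4) j (ff (2000 * h) e x) := lev_sub _ _ _ _
  have e2 : lev (μ ^ 4) j (fun s => tf n (2000 * h) e 0 s - tf n (2000 * h) e x s) =
      lev (μ ^ 4) j (tf n (2000 * h) e 0) - lev (μ ^ 4) j (tf n (2000 * h) e x) := lev_sub _ _ _ _
  have hT : |2 ^ (2000 * h) * crad (μ ^ 4) j (blkT (μ ^ 4) (2000 * h) e ⌊x * 2 ^ e⌋₊) -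
      lev (μ ^ 4) j (fun s => tf n (2000 * h) e 0 s - tf n (2000 * h) e x s)| ≤
      1205 * n * a ^ 4000 := by
    rw [e1] at k1
    rw [e2]
    have e3 : 6 * (1 + 200 * (n : ℝ)) / 2 ^ e ≤ 6 * (1 + 200 * (n : ℝ)) * a ^ 4000 := by
      rw [div_eq_mul_one_div]
      exact mul_le_mul_of_nonneg_left h1e (by positivity)
    have e4 : 2 * 2 ^ (2000 * h) * Real.exp (-(μ : ℝ) ^ 2 / 2) ≤ 2 * a ^ 4000 := by
      calc 2 * 2 ^ (2000 * h) * Real.exp (-(μ : ℝ) ^ 2 / 2) ≤ 2 * 2 ^ (2000 * h) * a ^ 10000 :=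
            mul_le_mul_of_nonneg_left hE (by positivity)
        _ = 2 * (2 ^ (2000 * h) * a ^ 2000) * (a ^ 4000 * a ^ 4000) := by ring
        _ = 2 * (a ^ 4000 * a ^ 4000) := by rw [h2d, mul_one]
        _ ≤ 2 * (a ^ 4000 * 1) := by
            have : a ^ 4000 ≤ 1 := pow_le_one₀ ha0.le (by linarith)
            gcongr
        _ = 2 * a ^ 4000 := by rw [mul_one]
    have e5 : 0 ≤ a ^ 4000 := by positivity
    have e6 : 10 * a ^ 4000 ≤ 5 * (n : ℝ) * a ^ 4000 :=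
      mul_le_mul_of_nonneg_right (by linarith) e5
    rw [abs_le] at k1 k2 k3 ⊢
    constructor <;> linarith [k1.1, k1.2, k2.1, k2.2, k3.1, k3.2]
  have key := BaseE_core hQ0 hcr (BaseE_Q h c) hw.1 hT
  rw [mul_assoc] at key
  refine key.trans ?_
  have e7 : (2 : ℝ) / 2 ^ (2000 * h) = 2 * a ^ 2000 := by
    rw [ha, ← BaseE_inv]
    ring
  have e8 : Real.log 2 / 2 ^ (1000 * h) * c * (1205 * n * a ^ 4000) ≤ a ^ 3999 := by
    have e9 : 0 ≤ 1205 * (n : ℝ) * a ^ 4000 := by positivity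
    calc Real.log 2 / 2 ^ (1000 * h) * c * (1205 * n * a ^ 4000) ≤
          6400 * (n : ℝ) ^ 4 * (1205 * n * a ^ 4000) := mul_le_mul_of_nonneg_right hw.2 e9
      _ = (7712000 * (n : ℝ) ^ 5 * a) * a ^ 3999 := by ring
      _ ≤ 1 * a ^ 3999 := mul_le_mul_of_nonneg_right hna (by positivity)
      _ = a ^ 3999 := one_mul _
  have e9 : a ^ 3999 ≤ a ^ 2000 := pow_le_pow_of_le_one ha0.le (by linarith) (by norm_num)
  have e10 : 3 * a ^ 2000 ≤ a ^ 1999 := by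
    have e11 : a ^ 2000 = a * a ^ 1999 := by rw [← pow_succ']
    rw [e11]
    have e12 : 0 < a ^ 1999 := by positivity
    nlinarith
  rw [e7, BaseE_pow h 1999, ← ha]
  linarith

/- PROOF: the same with crad_pureT. -/
theorem pure_err {h μ k n e U : ℕ} (P : Par h μ k n e U) (j : ℕ) (hj : j < k) (c : ℝ)
    (hc0 : 0 ≤ c) (hc : c ≤ 4) :
    |(⌊c * (Real.log 2 * 2 ^ (1000 * h))⌋₊ : ℝ) *
        crad (μ ^ 4) j (fun y => ((y : ℝ) / ((μ ^ 4 : ℕ) : ℝ)) ^ (2000 * h)) -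
      Real.log 2 / 2 ^ (1000 * h) * (c * lev (μ ^ 4) j (tf n (2000 * h) e 0))| ≤
      (1 / 2) ^ (1999 * h) := by
  obtain ⟨ha0, ha8, hna, hn⟩ := BaseE_a P
  obtain ⟨a, ha⟩ : ∃ a : ℝ, a = (1 / 2) ^ h := ⟨_, rfl⟩
  rw [← ha] at ha0 ha8 hna
  have hμ : 0 < μ := by
    have := P.mL
    have := P.h1
    omega
  have hjm : j ≤ μ ^ 4 := by
    have := (par_km P).1
    omega
  have hde : 2 * (2000 * h) ≤ e := by
    have := P.de
    omega
  have hd2 : (2000 * h) ^ 2 ≤ μ ^ 4 := by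
    have h1 := P.mL
    have h2 : 2000 * h ≤ μ := by omega
    calc (2000 * h) ^ 2 ≤ μ ^ 2 := Nat.pow_le_pow_left h2 2
      _ ≤ μ ^ 4 := Nat.pow_le_pow_right hμ (by norm_num)
  have hcr := (crad_blkT_le (μ ^ 4) (2000 * h) e 0 j (by positivity) hjm hd2).2
  have hw := BaseE_w (h := h) hc0 hc
  have hQ0 : 0 ≤ c * (Real.log 2 * 2 ^ (1000 * h)) := by
    have hl0 : 0 ≤ Real.log 2 := Real.log_nonneg (by norm_num)
    positivity
  have htau : tau μ n (2000 * h) e ≤ a ^ 4000 := by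
    rw [ha, ← BaseE_pow]
    exact (par_tau P).1
  have k2 := lev_tf μ n (2000 * h) e j hμ hjm P.nd hde P.em 0 le_rfl
  have hT : |2 ^ (2000 * h) * crad (μ ^ 4) j (fun y => ((y : ℝ) / ((μ ^ 4 : ℕ) : ℝ)) ^ (2000 * h)) -
      lev (μ ^ 4) j (tf n (2000 * h) e 0)| ≤ a ^ 4000 := by
    rw [crad_pureT (μ ^ 4) (2000 * h) e j (by positivity)]
    exact k2.trans htau
  have key := BaseE_core hQ0 hcr (BaseE_Q h c) hw.1 hT
  rw [mul_assoc] at key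
  refine key.trans ?_
  have e7 : (2 : ℝ) / 2 ^ (2000 * h) = 2 * a ^ 2000 := by
    rw [ha, ← BaseE_inv]
    ring
  have e8 : Real.log 2 / 2 ^ (1000 * h) * c * a ^ 4000 ≤ 4 * a ^ 4000 :=
    mul_le_mul_of_nonneg_right hw.2 (by positivity)
  have e9 : a ^ 4000 ≤ a ^ 2000 := pow_le_pow_of_le_one ha0.le (by linarith) (by norm_num)
  have e10 : 6 * a ^ 2000 ≤ a ^ 1999 := by
    have e11 : a ^ 2000 = a * a ^ 1999 := by rw [← pow_succ']
    rw [e11]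
    have e12 : 0 < a ^ 1999 := by positivity
    nlinarith
  rw [e7, BaseE_pow h 1999, ← ha]
  linarith

end Pool.Agent.H.MP_cba12a_lc.QP
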