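import Pool.Agent.H.MP_cba12a_lc.SQ.NearZero
import Pool.Agent.H.MP_cba12a_lc.SQ.TailB

namespace Pool.Agent.H.MP_cba12a_lc.QP

open Finset Filter Topology Pool.Agent.H.MP_cba12a_lc.SQ

/-- The weight `(x ^ (a - 1) - lo ^ b x ^ (a - b - 1)) / b`. -/
noncomputable def rhoAB (a b lo x : ℝ) : ℝ := (x ^ (a - 1) - lo ^ b * x ^ (a - b - 1)) / b

/-- its primitive -/
private noncomputable def coer_F (a b lo x : ℝ) : ℝ :=
  (x ^ a / a - lo ^ b * (x ^ (a - b) / (a - b))) / b

private theorem coer_F_deriv (a b lo x : ℝ) (ha : 0 < a) (hba : b < a) (hx : 0 < x) :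
    HasDerivAt (coer_F a b lo) (rhoAB a b lo x) x := by
  have h1 : HasDerivAt (fun y : ℝ => y ^ a) (a * x ^ (a - 1)) x :=
    Real.hasDerivAt_rpow_const (Or.inl hx.ne')
  have h2 : HasDerivAt (fun y : ℝ => y ^ (a - b)) ((a - b) * x ^ (a - b - 1)) x :=
    Real.hasDerivAt_rpow_const (Or.inl hx.ne')
  have h3 := ((h1.div_const a).sub ((h2.div_const (a - b)).const_mul (lo ^ b))).div_const b
  have hab : a - b ≠ 0 := (sub_pos.mpr hba).ne'
  refine h3.congr_deriv ?_
  unfold rhoAB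
  congr 1
  field_simp

private theorem coer_F_zero (a b lo : ℝ) (ha : 0 < a) (hba : b < a) : coer_F a b lo 0 = 0 := by
  unfold coer_F
  rw [Real.zero_rpow ha.ne', Real.zero_rpow (sub_pos.mpr hba).ne']
  simp

private theorem coer_F_cont (a b lo : ℝ) (ha : 0 < a) (hba : b < a) :
    Continuous (coer_F a b lo) := by
  unfold coer_F
  have h1 : Continuous (fun x : ℝ => x ^ a) := Real.continuous_rpow_const ha.le
  have h2 : Continuous (fun x : ℝ => x ^ (a - b)) :=
    Real.continuous_rpow_const (sub_pos.mpr hba).le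
  exact ((h1.div_const a).sub (continuous_const.mul (h2.div_const (a - b)))).div_const b

theorem rhoAB_int (a b lo : ℝ) (ha : 0 < a) (hba : b < a) (u v : ℝ) :
    IntervalIntegrable (rhoAB a b lo) MeasureTheory.volume u v := by
  have h1 : IntervalIntegrable (fun x : ℝ => x ^ (a - 1)) MeasureTheory.volume u v :=
    intervalIntegral.intervalIntegrable_rpow' (by linarith)
  have h2 : IntervalIntegrable (fun x : ℝ => x ^ (a - b - 1)) MeasureTheory.volume u v :=
    intervalIntegral.intervalIntegrable_rpow' (by linarith)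
  exact (h1.sub (h2.const_mul (lo ^ b))).div_const b

private theorem coer_rho_int0 (a b lo v : ℝ) (ha : 0 < a) (hba : b < a) (hv : 0 ≤ v) :
    ∫ x in (0 : ℝ)..v, rhoAB a b lo x = coer_F a b lo v := by
  rw [intervalIntegral.integral_eq_sub_of_hasDerivAt_of_le hv (coer_F_cont a b lo ha hba).continuousOn
    (fun x hx => coer_F_deriv a b lo x ha hba hx.1) (rhoAB_int a b lo ha hba 0 v),
    coer_F_zero a b lo ha hba, sub_zero]

theorem rhoAB_cont (a b lo v : ℝ) (hv : 0 < v) : ContinuousOn (rhoAB a b lo) (Set.Ici v) := by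
  intro x hx
  have hx0 : 0 < x := lt_of_lt_of_le hv hx
  have h1 : ContinuousAt (fun y : ℝ => y ^ (a - 1)) x :=
    Real.continuousAt_rpow_const x (a - 1) (Or.inl hx0.ne')
  have h2 : ContinuousAt (fun y : ℝ => y ^ (a - b - 1)) x :=
    Real.continuousAt_rpow_const x (a - b - 1) (Or.inl hx0.ne')
  exact ((h1.sub (continuousAt_const.mul h2)).div_const b).continuousWithinAt

/-- the weight in exponential form -/
private theorem rhoAB_eq (a b lo x : ℝ) (hlo : 0 < lo) (hx : 0 < x) :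
    rhoAB a b lo x = x ^ (a - 1) * ((1 - Real.exp (-(b * (Real.log x - Real.log lo)))) / b) := by
  unfold rhoAB
  have h1 : lo ^ b * x ^ (a - b - 1) =
      x ^ (a - 1) * Real.exp (-(b * (Real.log x - Real.log lo))) := by
    rw [Real.rpow_def_of_pos hlo, Real.rpow_def_of_pos hx, Real.rpow_def_of_pos hx,
      ← Real.exp_add, ← Real.exp_add]
    congr 1
    ring
  rw [h1]
  ring

private theorem rhoAB_le (a b lo x : ℝ) (hb : 0 < b) (hlo : 0 < lo) (hx : 0 < x) :
    rhoAB a b lo x ≤ x ^ (a - 1) * (Real.log x - Real.log lo) := by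
  rw [rhoAB_eq a b lo x hlo hx]
  apply mul_le_mul_of_nonneg_left _ (Real.rpow_nonneg hx.le _)
  rw [div_le_iff₀ hb]
  have := Real.add_one_le_exp (-(b * (Real.log x - Real.log lo)))
  linarith

private theorem rhoAB_ge (a b lo x : ℝ) (hb : 0 < b) (hlo : 0 < lo) (hx : 0 < x)
    (h0 : 0 ≤ Real.log x - Real.log lo) (h1 : b * (Real.log x - Real.log lo) ≤ 1) :
    x ^ (a - 1) * ((Real.log x - Real.log lo) / 2) ≤ rhoAB a b lo x := by
  rw [rhoAB_eq a b lo x hlo hx]
  apply mul_le_mul_of_nonneg_left _ (Real.rpow_nonneg hx.le _)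
  rw [le_div_iff₀ hb]
  set t := b * (Real.log x - Real.log lo) with ht
  have ht0 : 0 ≤ t := mul_nonneg hb.le h0
  have h2 : Real.exp (-t) ≤ 1 - t / 2 := by
    have h3 : Real.exp (-t) * Real.exp t = 1 := by rw [← Real.exp_add]; simp
    have h4 : 1 + t ≤ Real.exp t := by
      have := Real.add_one_le_exp t; linarith
    have h5 : 0 < Real.exp (-t) := Real.exp_pos _
    have h6 : Real.exp (-t) * (1 + t) ≤ 1 := by
      have h7 := mul_le_mul_of_nonneg_left h4 h5.le
      rw [h3] at h7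
      exact h7
    have h7 : 1 ≤ (1 - t / 2) * (1 + t) := by nlinarith
    have h8 : Real.exp (-t) * (1 + t) ≤ (1 - t / 2) * (1 + t) := h6.trans h7
    exact le_of_mul_le_mul_right h8 (by linarith)
  have h3 : (Real.log x - Real.log lo) / 2 * b = t / 2 := by rw [ht]; ring
  rw [h3]
  linarith

theorem rhoAB_nonneg (a b lo x : ℝ) (hb : 0 < b) (hlo : 0 < lo) (hx : lo ≤ x) :
    0 ≤ rhoAB a b lo x := by
  have hx0 : 0 < x := lt_of_lt_of_le hlo hx
  rw [rhoAB_eq a b lo x hlo hx0]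
  apply mul_nonneg (Real.rpow_nonneg hx0.le _) (div_nonneg _ hb.le)
  have h1 : 0 ≤ Real.log x - Real.log lo := sub_nonneg.mpr (Real.log_le_log hlo hx)
  have h2 : Real.exp (-(b * (Real.log x - Real.log lo))) ≤ 1 := by
    rw [Real.exp_le_one_iff]
    have := mul_nonneg hb.le h1
    linarith
  linarith

private theorem rhoAB_neg_le (a b lo x : ℝ) (hb : 0 < b) (hlo : 0 < lo) (hx : 0 < x)
    (hxl : x ≤ lo) :
    0 ≤ - rhoAB a b lo x ∧
    - rhoAB a b lo x ≤ (Real.log lo - Real.log x) * (lo ^ b * x ^ (a - b - 1)) := by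
  have h0 : 0 ≤ Real.log lo - Real.log x := sub_nonneg.mpr (Real.log_le_log hx hxl)
  have h1 : lo ^ b * x ^ (a - b - 1) =
      x ^ (a - 1) * Real.exp (b * (Real.log lo - Real.log x)) := by
    rw [Real.rpow_def_of_pos hlo, Real.rpow_def_of_pos hx, Real.rpow_def_of_pos hx,
      ← Real.exp_add, ← Real.exp_add]
    congr 1
    ring
  have h2 : - rhoAB a b lo x =
      x ^ (a - 1) * ((Real.exp (b * (Real.log lo - Real.log x)) - 1) / b) := by
    rw [rhoAB_eq a b lo x hlo hx]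
    have : -(b * (Real.log x - Real.log lo)) = b * (Real.log lo - Real.log x) := by ring
    rw [this]
    ring
  have hp : 0 ≤ x ^ (a - 1) := Real.rpow_nonneg hx.le _
  set t := b * (Real.log lo - Real.log x) with ht
  have ht0 : 0 ≤ t := mul_nonneg hb.le h0
  rw [h2, h1]
  constructor
  · apply mul_nonneg hp (div_nonneg _ hb.le)
    have := Real.one_le_exp ht0
    linarith
  · have h3 : (Real.exp t - 1) / b ≤ (Real.log lo - Real.log x) * Real.exp t := by
      rw [div_le_iff₀ hb]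
      have h4 : (Real.log lo - Real.log x) * Real.exp t * b = t * Real.exp t := by
        rw [ht]; ring
      rw [h4]
      have h5 : 1 - t ≤ Real.exp (-t) := by
        have := Real.add_one_le_exp (-t); linarith
      have h6 : Real.exp (-t) * Real.exp t = 1 := by rw [← Real.exp_add]; simp
      have h7 : (1 - t) * Real.exp t ≤ Real.exp (-t) * Real.exp t :=
        mul_le_mul_of_nonneg_right h5 (Real.exp_pos _).le
      rw [h6] at h7
      linarith
    calc x ^ (a - 1) * ((Real.exp t - 1) / b)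
        ≤ x ^ (a - 1) * ((Real.log lo - Real.log x) * Real.exp t) :=
          mul_le_mul_of_nonneg_left h3 hp
      _ = (Real.log lo - Real.log x) * (x ^ (a - 1) * Real.exp t) := by ring

/-- pointwise estimate of the tail -/
private theorem coer_tail_pt (n : ℕ) (hn : 2 ≤ n) (a b : ℝ) (hb : 0 < b) (ha1 : a ≤ 1)
    (x : ℝ) (hx : 100 * (n : ℝ) ≤ x) :
    0 ≤ rhoAB a b (1 / (400 * (n : ℝ) ^ 4)) x ∧
    Real.exp (-x / 2) * (16 * Real.exp 1 * x / (100 * n)) ^ n *
      rhoAB a b (1 / (400 * (n : ℝ) ^ 4)) x ≤ Real.exp (-(1 / 4) * x) ∧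
    Real.exp (-x / 2) * (16 * Real.exp 1 * x / (100 * n)) ^ n ≤ Real.exp (-(1 / 4) * x) := by
  have hn2 : (2 : ℝ) ≤ n := by exact_mod_cast hn
  have hn0 : (0 : ℝ) < n := by linarith
  have hx200 : (200 : ℝ) ≤ x := by linarith
  have hx0 : (0 : ℝ) < x := by linarith
  have hlo0 : (0 : ℝ) < 1 / (400 * (n : ℝ) ^ 4) := by positivity
  have hlo1 : 1 / (400 * (n : ℝ) ^ 4) ≤ x := by
    have h2 : 1 / (400 * (n : ℝ) ^ 4) ≤ 1 := by
      rw [div_le_one (by positivity)]
      have : (1 : ℝ) ≤ (n : ℝ) ^ 4 := one_le_pow₀ (by linarith)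
      linarith
    linarith
  -- the weight
  have hlog : Real.log x - Real.log (1 / (400 * (n : ℝ) ^ 4)) = Real.log (400 * (n : ℝ) ^ 4 * x) := by
    rw [Real.log_div one_ne_zero (by positivity), Real.log_one,
      Real.log_mul (by positivity) hx0.ne']
    ring
  have h4 : 400 * (n : ℝ) ^ 4 ≤ x ^ 4 := by
    have h1 : (100 * (n : ℝ)) ^ 4 ≤ x ^ 4 := pow_le_pow_left₀ (by positivity) hx 4
    have h2 : 400 * (n : ℝ) ^ 4 ≤ (100 * (n : ℝ)) ^ 4 := by
      have : (0 : ℝ) ≤ (n : ℝ) ^ 4 := by positivity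
      rw [mul_pow]
      norm_num
      linarith
    linarith
  have h5 : Real.log (400 * (n : ℝ) ^ 4 * x) ≤ 5 * x := by
    have h1 : Real.log (400 * (n : ℝ) ^ 4 * x) ≤ Real.log (x ^ 5) := by
      apply Real.log_le_log (by positivity)
      have : 400 * (n : ℝ) ^ 4 * x ≤ x ^ 4 * x := mul_le_mul_of_nonneg_right h4 hx0.le
      calc 400 * (n : ℝ) ^ 4 * x ≤ x ^ 4 * x := this
        _ = x ^ 5 := by ring
    rw [Real.log_pow] at h1
    have h2 : Real.log x ≤ x - 1 := Real.log_le_sub_one_of_pos hx0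
    push_cast at h1
    linarith
  have h6 : 0 ≤ Real.log (400 * (n : ℝ) ^ 4 * x) := by
    apply Real.log_nonneg
    have h1 : (1 : ℝ) ≤ (n : ℝ) ^ 4 := one_le_pow₀ (by linarith)
    have h2 : (1 : ℝ) * 1 ≤ (400 * (n : ℝ) ^ 4) * x :=
      mul_le_mul (by linarith) (by linarith) (by norm_num) (by linarith)
    linarith
  have h7 : x ^ (a - 1) ≤ 1 := Real.rpow_le_one_of_one_le_of_nonpos (by linarith) (by linarith)
  have hrho0 : 0 ≤ rhoAB a b (1 / (400 * (n : ℝ) ^ 4)) x := rhoAB_nonneg a b _ x hb hlo0 hlo1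
  have hrho1 : rhoAB a b (1 / (400 * (n : ℝ) ^ 4)) x ≤ 5 * x := by
    refine (rhoAB_le a b _ x hb hlo0 hx0).trans ?_
    rw [hlog]
    calc x ^ (a - 1) * Real.log (400 * (n : ℝ) ^ 4 * x)
        ≤ 1 * Real.log (400 * (n : ℝ) ^ 4 * x) := mul_le_mul_of_nonneg_right h7 h6
      _ ≤ 5 * x := by linarith
  -- 5 x <= exp (x / 5)
  have h9 : 5 * x ≤ Real.exp ((1 / 5) * x) := by
    have h1 : 1 + (1 / 20) * x ≤ Real.exp ((1 / 20) * x) := by
      have := Real.add_one_le_exp ((1 / 20) * x)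
      linarith
    have h2 : Real.exp ((1 / 5) * x) = Real.exp ((1 / 20) * x) ^ 4 := by
      rw [← Real.exp_nat_mul]; congr 1; push_cast; ring
    rw [h2]
    set y := Real.exp ((1 / 20) * x) with hy
    have hy10 : (10 : ℝ) ≤ y := by linarith
    have h3 : (1000 : ℝ) ≤ y ^ 3 := by
      calc (1000 : ℝ) = 10 ^ 3 := by norm_num
        _ ≤ y ^ 3 := pow_le_pow_left₀ (by norm_num) hy10 3
    calc 5 * x ≤ 1000 * y := by linarith
      _ ≤ y ^ 3 * y := mul_le_mul_of_nonneg_right h3 (by linarith)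
      _ = y ^ 4 := by ring
  -- the power
  have h16 : 16 * Real.exp 1 ≤ Real.exp 4 := by
    have h1 : (2.7 : ℝ) < Real.exp 1 := by
      have := Real.exp_one_gt_d9; linarith
    have h2 : Real.exp 4 = Real.exp 1 ^ 3 * Real.exp 1 := by
      rw [← Real.exp_nat_mul, ← Real.exp_add]; congr 1; norm_num
    rw [h2]
    have h3 : (16 : ℝ) ≤ Real.exp 1 ^ 3 := by
      calc (16 : ℝ) ≤ 2.7 ^ 3 := by norm_num
        _ ≤ Real.exp 1 ^ 3 := pow_le_pow_left₀ (by norm_num) h1.le 3
    exact mul_le_mul_of_nonneg_right h3 (Real.exp_pos 1).le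
  have hpow : (16 * Real.exp 1 * x / (100 * n)) ^ n ≤ Real.exp ((1 / 25) * x) := by
    have h1 : x / (100 * n) ≤ Real.exp (x / (100 * n) - 1) := by
      have := Real.add_one_le_exp (x / (100 * n) - 1)
      linarith
    have h2 : 16 * Real.exp 1 * x / (100 * n) ≤ Real.exp (3 + x / (100 * n)) := by
      have h3 : 16 * Real.exp 1 * x / (100 * n) = 16 * Real.exp 1 * (x / (100 * n)) := by ring
      rw [h3]
      calc 16 * Real.exp 1 * (x / (100 * n)) ≤ Real.exp 4 * Real.exp (x / (100 * n) - 1) := by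
            apply mul_le_mul h16 h1 (by positivity) (Real.exp_pos _).le
        _ = Real.exp (3 + x / (100 * n)) := by
            rw [← Real.exp_add]; congr 1; ring
    calc (16 * Real.exp 1 * x / (100 * n)) ^ n ≤ Real.exp (3 + x / (100 * n)) ^ n :=
          pow_le_pow_left₀ (by positivity) h2 n
      _ = Real.exp (3 * n + (1 / 100) * x) := by
          rw [← Real.exp_nat_mul]
          congr 1
          field_simp
      _ ≤ Real.exp ((1 / 25) * x) := by
          apply Real.exp_le_exp.mpr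
          linarith
  have hpow0 : 0 ≤ (16 * Real.exp 1 * x / (100 * n)) ^ n := by positivity
  refine ⟨hrho0, ?_, ?_⟩
  · calc Real.exp (-x / 2) * (16 * Real.exp 1 * x / (100 * n)) ^ n *
          rhoAB a b (1 / (400 * (n : ℝ) ^ 4)) x
        ≤ Real.exp (-x / 2) * Real.exp ((1 / 25) * x) * Real.exp ((1 / 5) * x) := by
          apply mul_le_mul _ (hrho1.trans h9) hrho0 (by positivity)
          exact mul_le_mul_of_nonneg_left hpow (Real.exp_pos _).le
      _ = Real.exp (-x / 2 + (1 / 25) * x + (1 / 5) * x) := by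
          rw [Real.exp_add, Real.exp_add]
      _ ≤ Real.exp (-(1 / 4) * x) := by
          apply Real.exp_le_exp.mpr
          linarith
  · calc Real.exp (-x / 2) * (16 * Real.exp 1 * x / (100 * n)) ^ n
        ≤ Real.exp (-x / 2) * Real.exp ((1 / 25) * x) :=
          mul_le_mul_of_nonneg_left hpow (Real.exp_pos _).le
      _ = Real.exp (-x / 2 + (1 / 25) * x) := by
          rw [Real.exp_add]
      _ ≤ Real.exp (-(1 / 4) * x) := by
          apply Real.exp_le_exp.mpr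
          linarith

private theorem coer_R (n : ℕ) (hn : 2 ≤ n) : 10 ≤ Real.log (40000 * (n : ℝ) ^ 5) := by
  have hn2 : (2 : ℝ) ≤ n := by exact_mod_cast hn
  rw [Real.le_log_iff_exp_le (by positivity)]
  have h1 : Real.exp 10 ≤ 40000 := by
    have h2 : Real.exp 10 = Real.exp 1 ^ 10 := by
      rw [← Real.exp_nat_mul]; norm_num
    rw [h2]
    calc Real.exp 1 ^ 10 ≤ 2.7182818286 ^ 10 :=
          pow_le_pow_left₀ (Real.exp_pos 1).le Real.exp_one_lt_d9.le 10
      _ ≤ 40000 := by norm_num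
  have h3 : (1 : ℝ) ≤ (n : ℝ) ^ 5 := one_le_pow₀ (by linarith)
  linarith

private theorem coer_logBlo (n : ℕ) (hn : 2 ≤ n) :
    Real.log (100 * (n : ℝ)) - Real.log (1 / (400 * (n : ℝ) ^ 4)) =
      Real.log (40000 * (n : ℝ) ^ 5) := by
  have hn2 : (2 : ℝ) ≤ n := by exact_mod_cast hn
  rw [Real.log_div one_ne_zero (by positivity), Real.log_one,
    zero_sub, sub_neg_eq_add, ← Real.log_mul (by positivity) (by positivity)]
  congr 1; ring

/-- bounds for the weight -/
theorem rhoAB_lower (n : ℕ) (hn : 2 ≤ n) (a b : ℝ) (hb : 0 < b) (hba : b < a)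
    (ha : a * (2 * Real.log (40000 * (n : ℝ) ^ 5)) ≤ 1) :
    (∀ x, 1 / (2 * (n : ℝ) ^ 2) ≤ x → x ≤ 100 * n →
      x ^ (a - 1) ≤ rhoAB a b (1 / (400 * (n : ℝ) ^ 4)) x) := by
  have hn2 : (2 : ℝ) ≤ n := by exact_mod_cast hn
  have hn0 : (0 : ℝ) < n := by linarith
  have he : Real.exp 2 < 9 := by
    have h1 : Real.exp 2 = Real.exp 1 * Real.exp 1 := by
      rw [← Real.exp_add]; norm_num
    have := Real.exp_one_lt_d9
    have h2 := Real.exp_pos 1
    rw [h1]
    nlinarith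
  have hlo0 : (0 : ℝ) < 1 / (400 * (n : ℝ) ^ 4) := by positivity
  have hn24 : (4 : ℝ) ≤ (n : ℝ) ^ 2 := by
    calc (4 : ℝ) = 2 ^ 2 := by norm_num
      _ ≤ (n : ℝ) ^ 2 := pow_le_pow_left₀ (by norm_num) hn2 2
  intro x h1 h2
  have hx0 : 0 < x := lt_of_lt_of_le (by positivity) h1
  have hlog : Real.log x - Real.log (1 / (400 * (n : ℝ) ^ 4)) =
      Real.log (400 * (n : ℝ) ^ 4 * x) := by
    rw [Real.log_div one_ne_zero (by positivity), Real.log_one,
      Real.log_mul (by positivity) hx0.ne']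
    ring
  have h3 : 9 ≤ 400 * (n : ℝ) ^ 4 * x := by
    have : 400 * (n : ℝ) ^ 4 * (1 / (2 * (n : ℝ) ^ 2)) ≤ 400 * (n : ℝ) ^ 4 * x :=
      mul_le_mul_of_nonneg_left h1 (by positivity)
    have h4 : 400 * (n : ℝ) ^ 4 * (1 / (2 * (n : ℝ) ^ 2)) = 200 * (n : ℝ) ^ 2 := by
      field_simp; ring
    linarith
  have h5 : 2 ≤ Real.log x - Real.log (1 / (400 * (n : ℝ) ^ 4)) := by
    rw [hlog, Real.le_log_iff_exp_le (by positivity)]
    linarith
  have h6 : b * (Real.log x - Real.log (1 / (400 * (n : ℝ) ^ 4))) ≤ 1 := by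
    have h7 : Real.log x - Real.log (1 / (400 * (n : ℝ) ^ 4)) ≤
        Real.log (40000 * (n : ℝ) ^ 5) := by
      rw [← coer_logBlo n hn]
      have := Real.log_le_log hx0 h2
      linarith
    have h8 := coer_R n hn
    have h9 : b * (Real.log x - Real.log (1 / (400 * (n : ℝ) ^ 4))) ≤
        a * Real.log (40000 * (n : ℝ) ^ 5) :=
      mul_le_mul hba.le h7 (by linarith) (by linarith)
    have h10 : a * (2 * Real.log (40000 * (n : ℝ) ^ 5)) =
        2 * (a * Real.log (40000 * (n : ℝ) ^ 5)) := by ring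
    have h11 : 0 ≤ a * Real.log (40000 * (n : ℝ) ^ 5) :=
      mul_nonneg (by linarith) (by linarith)
    linarith
  refine le_trans ?_ (rhoAB_ge a b _ x hb hlo0 hx0 (by linarith) h6)
  have h7 : 0 ≤ x ^ (a - 1) := Real.rpow_nonneg hx0.le _
  exact le_mul_of_one_le_right h7 (by linarith)

private theorem coer_F_le (n : ℕ) (hn : 2 ≤ n) (a b : ℝ) (hb : 0 < b) (hba : b < a)
    (ha : a * (2 * Real.log (40000 * (n : ℝ) ^ 5)) ≤ 1) :
    coer_F a b (1 / (400 * (n : ℝ) ^ 4)) (100 * n) ≤ -1 := by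
  have hn2 : (2 : ℝ) ≤ n := by exact_mod_cast hn
  have hn0 : (0 : ℝ) < n := by linarith
  have ha0 : 0 < a := hb.trans hba
  have hR := coer_R n hn
  have hlogBlo := coer_logBlo n hn
  set R := Real.log (40000 * (n : ℝ) ^ 5) with hRdef
  have ha20 : a ≤ 1 / 20 := by
    have h1 : a * 20 ≤ a * (2 * R) := mul_le_mul_of_nonneg_left (by linarith) ha0.le
    linarith
  set lo : ℝ := 1 / (400 * (n : ℝ) ^ 4) with hlodef
  set B : ℝ := 100 * (n : ℝ) with hBdef
  have hlo0 : 0 < lo := by rw [hlodef]; positivity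
  have hB0 : 0 < B := by rw [hBdef]; positivity
  have hab : 0 < a - b := sub_pos.mpr hba
  have h1 : lo ^ b * B ^ (a - b) = B ^ a * Real.exp (-(b * R)) := by
    rw [Real.rpow_def_of_pos hlo0, Real.rpow_def_of_pos hB0, Real.rpow_def_of_pos hB0,
      ← Real.exp_add, ← Real.exp_add, ← hlogBlo]
    congr 1
    ring
  have h2 : 1 - b * R ≤ Real.exp (-(b * R)) := by
    have := Real.add_one_le_exp (-(b * R)); linarith
  have hBa : 1 ≤ B ^ a := Real.one_le_rpow (by rw [hBdef]; linarith) ha0.le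
  have h3 : coer_F a b lo B = B ^ a * ((1 / a - Real.exp (-(b * R)) / (a - b)) / b) := by
    unfold coer_F
    have h4 : lo ^ b * (B ^ (a - b) / (a - b)) = B ^ a * Real.exp (-(b * R)) / (a - b) := by
      rw [← h1]; ring
    rw [h4]
    ring
  have h4 : (1 / a - Real.exp (-(b * R)) / (a - b)) / b ≤ -1 := by
    rw [div_le_iff₀ hb]
    have h5 : (1 - b * R) / (a - b) ≤ Real.exp (-(b * R)) / (a - b) :=
      div_le_div_of_nonneg_right h2 hab.le
    have h6 : 1 / a - (1 - b * R) / (a - b) = - (b * ((1 - a * R) / (a * (a - b)))) := by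
      field_simp
      ring
    have h7 : 1 ≤ (1 - a * R) / (a * (a - b)) := by
      rw [le_div_iff₀ (by positivity)]
      have h8 : a * (a - b) ≤ 1 / 20 * (1 / 20) :=
        mul_le_mul ha20 (by linarith) hab.le (by norm_num)
      have h9 : a * (2 * R) = 2 * (a * R) := by ring
      linarith
    have h8 : b * 1 ≤ b * ((1 - a * R) / (a * (a - b))) := mul_le_mul_of_nonneg_left h7 hb.le
    linarith
  rw [h3]
  have h5 : B ^ a * ((1 / a - Real.exp (-(b * R)) / (a - b)) / b) ≤ B ^ a * (-1) :=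
    mul_le_mul_of_nonneg_left h4 (by linarith)
  linarith

/-- Everything about a polynomial `Q` with `0 ≤ Q 0` and `e ^ (-x) Q x ≤ Q 0` on `[lo, 100 n]`. -/
theorem coer_all (n : ℕ) (hn : 2 ≤ n) (a b : ℝ) (hb : 0 < b) (hba : b < a)
    (ha : a * (2 * Real.log (40000 * (n : ℝ) ^ 5)) ≤ 1) (Q : Polynomial ℝ)
    (hQ : Q.natDegree ≤ n) (hC : 0 ≤ Q.eval 0)
    (hψ : ∀ x : ℝ, 1 / (400 * (n : ℝ) ^ 4) ≤ x → x ≤ 100 * n →
      0 ≤ Q.eval 0 - Real.exp (-x) * Q.eval x) :
    0 ≤ (∫ x in (1 / (400 * (n : ℝ) ^ 4))..(100 * n),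
        (Q.eval 0 - Real.exp (-x) * Q.eval x) * rhoAB a b (1 / (400 * (n : ℝ) ^ 4)) x) ∧
    (∀ x, 0 ≤ x → x ≤ 1 / (2 * (n : ℝ) ^ 2) → |Q.eval 0 - Real.exp (-x) * Q.eval x| ≤
      (30 * (n : ℝ) ^ 2 * Q.eval 0 + 48 * (n : ℝ) ^ 4 *
        ∫ x in (1 / (400 * (n : ℝ) ^ 4))..(100 * n),
        (Q.eval 0 - Real.exp (-x) * Q.eval x) * rhoAB a b (1 / (400 * (n : ℝ) ^ 4)) x) * x) ∧
    (∀ x, 100 * (n : ℝ) ≤ x → |Real.exp (-x) * Q.eval x| ≤
      Real.exp (-x / 2) * (16 * Real.exp 1 * x / (100 * n)) ^ n *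
      (Q.eval 0 + 4 * ∫ x in (1 / (400 * (n : ℝ) ^ 4))..(100 * n),
        (Q.eval 0 - Real.exp (-x) * Q.eval x) * rhoAB a b (1 / (400 * (n : ℝ) ^ 4)) x)) ∧
    ((MeasureTheory.IntegrableOn (fun x : ℝ => Real.exp (-x) * Q.eval x *
        rhoAB a b (1 / (400 * (n : ℝ) ^ 4)) x) (Set.Ioi 0)) →
     (∫ x in Set.Ioi (0 : ℝ), Real.exp (-x) * Q.eval x *
        rhoAB a b (1 / (400 * (n : ℝ) ^ 4)) x) ≤
      -(4 / 5) * (Q.eval 0 + ∫ x in (1 / (400 * (n : ℝ) ^ 4))..(100 * n),
        (Q.eval 0 - Real.exp (-x) * Q.eval x) * rhoAB a b (1 / (400 * (n : ℝ) ^ 4)) x)) := by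
  have hn2 : (2 : ℝ) ≤ n := by exact_mod_cast hn
  have hn0 : (0 : ℝ) < n := by linarith
  have ha0 : 0 < a := hb.trans hba
  have hn4 : (16 : ℝ) ≤ (n : ℝ) ^ 4 := by
    calc (16 : ℝ) = 2 ^ 4 := by norm_num
      _ ≤ (n : ℝ) ^ 4 := pow_le_pow_left₀ (by norm_num) hn2 4
  have hn24 : (4 : ℝ) ≤ (n : ℝ) ^ 2 := by
    calc (4 : ℝ) = 2 ^ 2 := by norm_num
      _ ≤ (n : ℝ) ^ 2 := pow_le_pow_left₀ (by norm_num) hn2 2
  have hR := coer_R n hn
  have hF := coer_F_le n hn a b hb hba ha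
  have hrl := rhoAB_lower n hn a b hb hba ha
  have htail := fun x hx => coer_tail_pt n hn a b hb
    (show a ≤ 1 by
      have h1 : a * 20 ≤ a * (2 * Real.log (40000 * (n : ℝ) ^ 5)) :=
        mul_le_mul_of_nonneg_left (by linarith) ha0.le
      linarith) x hx
  have ha20 : a ≤ 1 / 20 := by
    have h1 : a * 20 ≤ a * (2 * Real.log (40000 * (n : ℝ) ^ 5)) :=
      mul_le_mul_of_nonneg_left (by linarith) ha0.le
    linarith
  have ha1 : a ≤ 1 := by linarith
  set lo : ℝ := 1 / (400 * (n : ℝ) ^ 4) with hlodef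
  set L : ℝ := 100 * (n : ℝ) with hLdef
  have hlo0 : 0 < lo := by rw [hlodef]; positivity
  have hlo1 : lo ≤ 1 / (2 * (n : ℝ) ^ 2) := by
    rw [hlodef]
    apply one_div_le_one_div_of_le (by positivity)
    have h1 : (n : ℝ) ^ 2 * 4 ≤ (n : ℝ) ^ 2 * (n : ℝ) ^ 2 :=
      mul_le_mul_of_nonneg_left hn24 (by positivity)
    have h2 : (n : ℝ) ^ 4 = (n : ℝ) ^ 2 * (n : ℝ) ^ 2 := by ring
    have h3 : 0 ≤ (n : ℝ) ^ 2 := by positivity
    rw [h2]
    linarith
  have hτ1 : 1 / (2 * (n : ℝ) ^ 2) ≤ 1 := by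
    rw [div_le_one (by positivity)]; linarith
  have hτ0 : 0 < 1 / (2 * (n : ℝ) ^ 2) := by positivity
  have hL200 : 200 ≤ L := by rw [hLdef]; linarith
  have hloL : lo ≤ L := by linarith
  -- functions
  set C := Q.eval 0 with hCdef
  set φ : ℝ → ℝ := fun x => Real.exp (-x) * Q.eval x with hφdef
  set ρ : ℝ → ℝ := rhoAB a b lo with hρdef
  have hρ0 : ∀ x, lo ≤ x → 0 ≤ ρ x := fun x hx => rhoAB_nonneg a b lo x hb hlo0 hx
  have hφc : Continuous φ := by
    rw [hφdef]
    exact (Real.continuous_exp.comp continuous_neg).mul Q.continuous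
  -- lower bounds for the weight
  have hr1 : ∀ x, 1 / (2 * (n : ℝ) ^ 2) ≤ x → x ≤ 1 → 1 ≤ ρ x := by
    intro x h1 h2
    have hx0 : 0 < x := lt_of_lt_of_le hτ0 h1
    have h6 : 1 ≤ x ^ (a - 1) :=
      Real.one_le_rpow_of_pos_of_le_one_of_nonpos hx0 h2 (by linarith)
    exact h6.trans (hrl x h1 (by linarith))
  have hr2 : ∀ x, 25 / 2 * (n : ℝ) ≤ x → x ≤ 50 * n → 1 / (50 * n) ≤ ρ x := by
    intro x h1 h2
    have hx25 : (25 : ℝ) ≤ x := by linarith
    have hx0 : 0 < x := by linarith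
    have h6 : 1 / (50 * n) ≤ x ^ (a - 1) := by
      have h7 : x ^ (-1 : ℝ) ≤ x ^ (a - 1) :=
        Real.rpow_le_rpow_of_exponent_le (by linarith) (by linarith)
      rw [Real.rpow_neg_one] at h7
      have h8 : 1 / (50 * (n : ℝ)) ≤ x⁻¹ := by
        rw [← one_div]
        exact one_div_le_one_div_of_le hx0 h2
      linarith
    exact h6.trans (hrl x (by linarith) (by rw [hLdef]; linarith))
  -- the function ψ ρ
  have hρc : ContinuousOn ρ (Set.Icc lo L) :=
    (rhoAB_cont a b lo lo hlo0).mono Set.Icc_subset_Ici_self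
  have hψρc : ContinuousOn (fun x => (C - φ x) * ρ x) (Set.Icc lo L) :=
    (continuous_const.sub hφc).continuousOn.mul hρc
  have hψρi : ∀ a b : ℝ, lo ≤ a → a ≤ b → b ≤ L → IntervalIntegrable
      (fun x => (C - φ x) * ρ x) MeasureTheory.volume a b := by
    intro a b ha hab hb
    apply ContinuousOn.intervalIntegrable
    rw [Set.uIcc_of_le hab]
    exact hψρc.mono (Set.Icc_subset_Icc ha hb)
  have hψρ0 : ∀ x, lo ≤ x → x ≤ L → 0 ≤ (C - φ x) * ρ x :=
    fun x h1 h2 => mul_nonneg (hψ x h1 h2) (hρ0 x h1)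
  set I := ∫ x in lo..L, (C - φ x) * ρ x with hIdef
  have hI0 : 0 ≤ I := by
    rw [hIdef]
    exact intervalIntegral.integral_nonneg hloL (fun x hx => hψρ0 x hx.1 hx.2)
  have hsub : ∀ a b : ℝ, lo ≤ a → a ≤ b → b ≤ L → ∫ x in a..b, (C - φ x) * ρ x ≤ I := by
    intro a b ha hab hb
    apply intervalIntegral.integral_mono_interval ha hab hb _ (hψρi lo L le_rfl hloL le_rfl)
    filter_upwards [MeasureTheory.ae_restrict_mem measurableSet_Ioc] with x hx
    exact hψρ0 x hx.1.le hx.2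
  have hψi : ∀ a b : ℝ, IntervalIntegrable (fun x => C - φ x) MeasureTheory.volume a b :=
    fun a b => (continuous_const.sub hφc).intervalIntegrable a b
  have hJ : ∫ x in (1 / (2 * (n : ℝ) ^ 2))..1, (C - φ x) ≤ I := by
    refine le_trans ?_ (hsub (1 / (2 * (n : ℝ) ^ 2)) 1 hlo1 hτ1 (by linarith))
    apply intervalIntegral.integral_mono_on hτ1 (hψi _ _) (hψρi _ _ hlo1 hτ1 (by linarith))
    intro x hx
    have h1 := hψ x (hlo1.trans hx.1) (by linarith [hx.2])
    have h2 := hr1 x hx.1 hx.2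
    have h3 : 0 ≤ C - φ x := h1
    show C - φ x ≤ (C - φ x) * ρ x
    exact le_mul_of_one_le_right h3 h2
  have hJ' : ∫ x in (25 / 2 * (n : ℝ))..(50 * n), (C - φ x) ≤ 50 * n * I := by
    have hab : 25 / 2 * (n : ℝ) ≤ 50 * n := by linarith
    have ha : lo ≤ 25 / 2 * (n : ℝ) := by linarith
    have hb : 50 * (n : ℝ) ≤ L := by rw [hLdef]; linarith
    have h1 : ∫ x in (25 / 2 * (n : ℝ))..(50 * n), (C - φ x) ≤
        ∫ x in (25 / 2 * (n : ℝ))..(50 * n), 50 * n * ((C - φ x) * ρ x) := by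
      apply intervalIntegral.integral_mono_on hab (hψi _ _)
        ((hψρi _ _ ha hab hb).const_mul _)
      intro x hx
      have h2 : 0 ≤ C - φ x := hψ x (ha.trans hx.1) (hx.2.trans hb)
      have h3 := hr2 x hx.1 hx.2
      have h4 : 1 ≤ 50 * n * ρ x := by
        rw [div_le_iff₀ (by positivity)] at h3
        linarith
      show C - φ x ≤ 50 * n * ((C - φ x) * ρ x)
      calc C - φ x ≤ (C - φ x) * (50 * n * ρ x) := le_mul_of_one_le_right h2 h4
        _ = 50 * n * ((C - φ x) * ρ x) := by ring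
    rw [intervalIntegral.integral_const_mul] at h1
    exact h1.trans (mul_le_mul_of_nonneg_left (hsub _ _ ha hab hb) (by positivity))
  -- part near zero
  set B := 30 * (n : ℝ) ^ 2 * C + 48 * (n : ℝ) ^ 4 * I with hBdef
  have hB0 : 0 ≤ B := by rw [hBdef]; positivity
  have hnear : ∀ x, 0 ≤ x → x ≤ 1 / (2 * (n : ℝ) ^ 2) → |C - φ x| ≤ B * x := by
    intro x hx0 hx1
    have h1 := near_zero n hn Q hQ hC
      (fun y hy1 hy2 => hψ y (hlo1.trans hy1) (by linarith)) x hx0 hx1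
    refine h1.trans (mul_le_mul_of_nonneg_right ?_ hx0)
    rw [hBdef]
    have h2 : 48 * (n : ℝ) ^ 4 * ∫ y in (1 / (2 * (n : ℝ) ^ 2))..1,
        (Q.eval 0 - Real.exp (-y) * Q.eval y) ≤ 48 * (n : ℝ) ^ 4 * I :=
      mul_le_mul_of_nonneg_left hJ (by positivity)
    linarith
  -- the tail, pointwise
  have htp : ∀ x, 100 * (n : ℝ) ≤ x → |φ x| ≤
      Real.exp (-x / 2) * (16 * Real.exp 1 * x / (100 * n)) ^ n * (C + 4 * I) := by
    intro x hx1
    have h4 := tail_bound n (by omega) Q hQ C hC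
      (fun y hy1 hy2 => hψ y (by linarith) (by rw [hLdef]; linarith)) x hx1
    have h5 : C + 8 / (100 * n) * ∫ y in (25 / 2 * (n : ℝ))..(50 * n),
        (C - Real.exp (-y) * Q.eval y) ≤ C + 4 * I := by
      have h6 : 8 / (100 * (n : ℝ)) * ∫ y in (25 / 2 * (n : ℝ))..(50 * n),
          (C - Real.exp (-y) * Q.eval y) ≤ 8 / (100 * n) * (50 * n * I) :=
        mul_le_mul_of_nonneg_left hJ' (by positivity)
      have h7 : 8 / (100 * (n : ℝ)) * (50 * n * I) = 4 * I := by
        field_simp; ring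
      linarith
    have hE : 0 ≤ Real.exp (-x / 2) * (16 * Real.exp 1 * x / (100 * n)) ^ n := by
      have hx0 : 0 ≤ x := by linarith
      positivity
    exact h4.trans (mul_le_mul_of_nonneg_left h5 hE)
  refine ⟨hI0, hnear, htp, ?_⟩
  intro hI
  have hIab : ∀ a b : ℝ, 0 ≤ a → a ≤ b → IntervalIntegrable (fun x => φ x * ρ x)
      MeasureTheory.volume a b := by
    intro a b ha hab
    rw [intervalIntegrable_iff_integrableOn_Ioc_of_le hab]
    exact hI.mono_set (fun x hx => lt_of_le_of_lt ha hx.1)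
  have hsplit : (∫ x in (0 : ℝ)..lo, φ x * ρ x) + (∫ x in lo..L, φ x * ρ x) +
      (∫ x in Set.Ioi L, φ x * ρ x) = ∫ x in Set.Ioi (0 : ℝ), φ x * ρ x := by
    rw [intervalIntegral.integral_add_adjacent_intervals (hIab 0 lo le_rfl hlo0.le)
      (hIab lo L hlo0.le hloL),
      intervalIntegral.integral_interval_add_Ioi hI
        (hI.mono_set (Set.Ioi_subset_Ioi (by linarith)))]
  have hρi' : IntervalIntegrable ρ MeasureTheory.volume 0 lo := rhoAB_int a b lo ha0 hba 0 lo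
  have hlogi : IntervalIntegrable (fun x => Real.log lo - Real.log x) MeasureTheory.volume 0 lo :=
    intervalIntegrable_const.sub intervalIntegral.intervalIntegrable_log'
  have hlogv : ∫ x in (0 : ℝ)..lo, (Real.log lo - Real.log x) = lo := by
    rw [intervalIntegral.integral_sub intervalIntegrable_const
      intervalIntegral.intervalIntegrable_log', intervalIntegral.integral_const, integral_log]
    simp
  have hρv := coer_rho_int0 a b lo lo ha0 hba hlo0.le
  have hρvL := coer_rho_int0 a b lo L ha0 hba (by linarith)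
  have hA : ∫ x in (0 : ℝ)..lo, φ x * ρ x ≤ C * coer_F a b lo lo + B * lo := by
    have h1 : ∫ x in (0 : ℝ)..lo, φ x * ρ x ≤
        ∫ x in (0 : ℝ)..lo, (C * ρ x + B * (Real.log lo - Real.log x)) := by
      apply intervalIntegral.integral_mono_on_of_le_Ioo hlo0.le (hIab 0 lo le_rfl hlo0.le)
        ((hρi'.const_mul C).add (hlogi.const_mul B))
      intro x hx
      have h2 := hnear x hx.1.le (hx.2.le.trans hlo1)
      have h3 : 0 ≤ Real.log lo - Real.log x :=
        sub_nonneg.mpr (Real.log_le_log hx.1 hx.2.le)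
      have hlo1' : lo ≤ 1 := by linarith
      obtain ⟨h7, h8⟩ := rhoAB_neg_le a b lo x hb hlo0 hx.1 hx.2.le
      have h4 : x * (lo ^ b * x ^ (a - b - 1)) ≤ 1 := by
        have h5 : x * x ^ (a - b - 1) = x ^ (a - b) := by
          rw [Real.rpow_sub hx.1, Real.rpow_one, mul_div_assoc', mul_comm x,
            mul_div_assoc, div_self hx.1.ne', mul_one]
        have h6 : x * (lo ^ b * x ^ (a - b - 1)) = lo ^ b * x ^ (a - b) := by
          rw [← h5]; ring
        rw [h6]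
        have h9 : lo ^ b ≤ 1 := Real.rpow_le_one hlo0.le hlo1' hb.le
        have h10 : x ^ (a - b) ≤ 1 :=
          Real.rpow_le_one hx.1.le (by linarith [hx.2]) (sub_pos.mpr hba).le
        exact mul_le_one₀ h9 (Real.rpow_nonneg hx.1.le _) h10
      have h9 : (C - φ x) * (-ρ x) ≤ B * (Real.log lo - Real.log x) := by
        calc (C - φ x) * (-ρ x) ≤ B * x * (-ρ x) :=
              mul_le_mul_of_nonneg_right ((le_abs_self _).trans h2) h7
          _ ≤ B * x * ((Real.log lo - Real.log x) * (lo ^ b * x ^ (a - b - 1))) :=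
              mul_le_mul_of_nonneg_left h8 (mul_nonneg hB0 hx.1.le)
          _ = B * (Real.log lo - Real.log x) * (x * (lo ^ b * x ^ (a - b - 1))) := by ring
          _ ≤ B * (Real.log lo - Real.log x) * 1 :=
              mul_le_mul_of_nonneg_left h4 (mul_nonneg hB0 h3)
          _ = B * (Real.log lo - Real.log x) := by ring
      show φ x * ρ x ≤ C * ρ x + B * (Real.log lo - Real.log x)
      linarith
    rw [intervalIntegral.integral_add (hρi'.const_mul C) (hlogi.const_mul B),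
      intervalIntegral.integral_const_mul, intervalIntegral.integral_const_mul, hlogv, hρv] at h1
    exact h1
  -- the middle part
  have hρi2 : IntervalIntegrable ρ MeasureTheory.volume lo L := rhoAB_int a b lo ha0 hba lo L
  have hM : ∫ x in lo..L, φ x * ρ x = C * (coer_F a b lo L - coer_F a b lo lo) - I := by
    have h1 : (fun x => φ x * ρ x) = fun x => C * ρ x - (C - φ x) * ρ x := by
      funext x; ring
    have h2 : ∫ x in lo..L, ρ x = coer_F a b lo L - coer_F a b lo lo := by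
      rw [← hρv, ← hρvL, eq_sub_iff_add_eq, add_comm]
      exact intervalIntegral.integral_add_adjacent_intervals hρi' hρi2
    rw [h1, intervalIntegral.integral_sub (hρi2.const_mul C) (hψρi lo L le_rfl hloL le_rfl),
      intervalIntegral.integral_const_mul, h2]
  -- the tail
  have hT : ∫ x in Set.Ioi L, φ x * ρ x ≤ (C + 4 * I) * (1 / 1000) := by
    have hint : MeasureTheory.IntegrableOn (fun x : ℝ => (C + 4 * I) * Real.exp (-(1 / 4) * x))
        (Set.Ioi L) := (integrableOn_exp_mul_Ioi (by norm_num) L).const_mul _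
    have h1 : ∫ x in Set.Ioi L, φ x * ρ x ≤
        ∫ x in Set.Ioi L, (C + 4 * I) * Real.exp (-(1 / 4) * x) := by
      apply MeasureTheory.setIntegral_mono_on (hI.mono_set (Set.Ioi_subset_Ioi (by linarith)))
        hint measurableSet_Ioi
      intro x hx
      have hx1 : 100 * (n : ℝ) ≤ x := le_of_lt hx
      obtain ⟨h2, h3, -⟩ := htail x hx1
      have h8 : φ x ≤ Real.exp (-x / 2) * (16 * Real.exp 1 * x / (100 * n)) ^ n *
          (C + 4 * I) := (le_abs_self _).trans (htp x hx1)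
      show φ x * ρ x ≤ (C + 4 * I) * Real.exp (-(1 / 4) * x)
      calc φ x * ρ x ≤ Real.exp (-x / 2) * (16 * Real.exp 1 * x / (100 * n)) ^ n *
            (C + 4 * I) * ρ x := mul_le_mul_of_nonneg_right h8 h2
        _ = (C + 4 * I) * (Real.exp (-x / 2) * (16 * Real.exp 1 * x / (100 * n)) ^ n *
            ρ x) := by ring
        _ ≤ (C + 4 * I) * Real.exp (-(1 / 4) * x) := by
            apply mul_le_mul_of_nonneg_left _ (by positivity)
            rw [hLdef] at h3
            exact h3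
    refine h1.trans ?_
    rw [MeasureTheory.integral_const_mul, integral_exp_mul_Ioi (by norm_num) L]
    apply mul_le_mul_of_nonneg_left _ (by positivity)
    have h2 : Real.exp (-(1 / 4) * L) ≤ 1 / 4000 := by
      have h3 : Real.exp (-(1 / 4) * L) ≤ Real.exp (-50) := by
        apply Real.exp_le_exp.mpr; linarith
      have h4 : (4000 : ℝ) ≤ Real.exp 50 := by
        have h5 : (11 : ℝ) ≤ Real.exp 10 := by
          have := Real.add_one_le_exp (10 : ℝ); linarith
        have h6 : Real.exp 50 = Real.exp 10 ^ 5 := by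
          rw [← Real.exp_nat_mul]; norm_num
        rw [h6]
        calc (4000 : ℝ) ≤ 11 ^ 5 := by norm_num
          _ ≤ Real.exp 10 ^ 5 := pow_le_pow_left₀ (by norm_num) h5 5
      rw [Real.exp_neg] at h3
      refine h3.trans ?_
      rw [← one_div]
      exact one_div_le_one_div_of_le (by norm_num) h4
    have h3 : -Real.exp (-(1 / 4) * L) / -(1 / 4) = 4 * Real.exp (-(1 / 4) * L) := by ring
    rw [h3]
    linarith
  -- conclusion
  have hBlo : B * lo ≤ (1 / 50) * C + (3 / 25) * I := by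
    rw [hBdef, hlodef]
    have h1 : (30 * (n : ℝ) ^ 2 * C + 48 * (n : ℝ) ^ 4 * I) * (1 / (400 * (n : ℝ) ^ 4)) =
        (3 / 40) * (1 / (n : ℝ) ^ 2) * C + (3 / 25) * I := by
      field_simp
      ring
    rw [h1]
    have h2 : 1 / (n : ℝ) ^ 2 ≤ 1 / 4 := one_div_le_one_div_of_le (by norm_num) hn24
    have h3 : 1 / (n : ℝ) ^ 2 * C ≤ 1 / 4 * C := mul_le_mul_of_nonneg_right h2 hC
    have h4 : 3 / 40 * (1 / (n : ℝ) ^ 2) * C = 3 / 40 * (1 / (n : ℝ) ^ 2 * C) := by ring
    rw [h4]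
    linarith
  have hCF : C * coer_F a b lo L ≤ C * (-1) := mul_le_mul_of_nonneg_left hF hC
  show (∫ x in Set.Ioi (0 : ℝ), φ x * ρ x) ≤ -(4 / 5) * (C + I)
  rw [← hsplit, hM, mul_sub]
  linarith

/-- Moment bound: every moment of `e ^ (-x) Q x` with exponent `g - 1`, `0 < g ≤ 1`. -/
theorem coer_moment (n : ℕ) (hn : 2 ≤ n) (a b : ℝ) (hb : 0 < b) (hba : b < a)
    (ha : a * (2 * Real.log (40000 * (n : ℝ) ^ 5)) ≤ 1) (Q : Polynomial ℝ)
    (hQ : Q.natDegree ≤ n) (hC : 0 ≤ Q.eval 0)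
    (hψ : ∀ x : ℝ, 1 / (400 * (n : ℝ) ^ 4) ≤ x → x ≤ 100 * n →
      0 ≤ Q.eval 0 - Real.exp (-x) * Q.eval x)
    (g : ℝ) (hg : 0 < g) (hg1 : g ≤ 1) :
    |∫ x in Set.Ioi (0 : ℝ), x ^ (g - 1) * (Real.exp (-x) * Q.eval x)| ≤
      125 * (n : ℝ) ^ 2 / g * (Q.eval 0 + ∫ x in (1 / (400 * (n : ℝ) ^ 4))..(100 * n),
        (Q.eval 0 - Real.exp (-x) * Q.eval x) * rhoAB a b (1 / (400 * (n : ℝ) ^ 4)) x) := by
  obtain ⟨hI0, hnear, htp, -⟩ := coer_all n hn a b hb hba ha Q hQ hC hψ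
  have hn2 : (2 : ℝ) ≤ n := by exact_mod_cast hn
  have hn0 : (0 : ℝ) < n := by linarith
  have ha0 : 0 < a := hb.trans hba
  have hn24 : (4 : ℝ) ≤ (n : ℝ) ^ 2 := by
    calc (4 : ℝ) = 2 ^ 2 := by norm_num
      _ ≤ (n : ℝ) ^ 2 := pow_le_pow_left₀ (by norm_num) hn2 2
  have hnn : 2 * (n : ℝ) ≤ (n : ℝ) ^ 2 := by nlinarith
  have hR := coer_R n hn
  have hrl := rhoAB_lower n hn a b hb hba ha
  have ha1 : a ≤ 1 := by
    have h1 : a * 20 ≤ a * (2 * Real.log (40000 * (n : ℝ) ^ 5)) :=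
      mul_le_mul_of_nonneg_left (by linarith) ha0.le
    linarith
  have htail := fun x hx => coer_tail_pt n hn a b hb ha1 x hx
  set lo : ℝ := 1 / (400 * (n : ℝ) ^ 4) with hlodef
  set L : ℝ := 100 * (n : ℝ) with hLdef
  set τ : ℝ := 1 / (2 * (n : ℝ) ^ 2) with hτdef
  have hlo0 : 0 < lo := by rw [hlodef]; positivity
  have hτ0 : 0 < τ := by rw [hτdef]; positivity
  have hlo1 : lo ≤ τ := by
    rw [hlodef, hτdef]
    apply one_div_le_one_div_of_le (by positivity)
    have h1 : (n : ℝ) ^ 2 * 4 ≤ (n : ℝ) ^ 2 * (n : ℝ) ^ 2 :=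
      mul_le_mul_of_nonneg_left hn24 (by positivity)
    have h2 : (n : ℝ) ^ 4 = (n : ℝ) ^ 2 * (n : ℝ) ^ 2 := by ring
    have h3 : 0 ≤ (n : ℝ) ^ 2 := by positivity
    rw [h2]
    linarith
  have hτ1 : τ ≤ 1 := by
    rw [hτdef, div_le_one (by positivity)]; linarith
  have hL200 : 200 ≤ L := by rw [hLdef]; linarith
  have hloL : lo ≤ L := by linarith
  set C := Q.eval 0 with hCdef
  set φ : ℝ → ℝ := fun x => Real.exp (-x) * Q.eval x with hφdef
  set ρ : ℝ → ℝ := rhoAB a b lo with hρdef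
  have hρ0 : ∀ x, lo ≤ x → 0 ≤ ρ x := fun x hx => rhoAB_nonneg a b lo x hb hlo0 hx
  have hφc : Continuous φ := by
    rw [hφdef]
    exact (Real.continuous_exp.comp continuous_neg).mul Q.continuous
  set I := ∫ x in lo..L, (C - φ x) * ρ x with hIdef
  -- the three majorants
  have hgi : ∀ u v : ℝ, IntervalIntegrable (fun x : ℝ => x ^ (g - 1)) MeasureTheory.volume u v :=
    fun u v => intervalIntegral.intervalIntegrable_rpow' (by linarith)
  have hgv : ∀ u v : ℝ, ∫ x in u..v, x ^ (g - 1) = (v ^ g - u ^ g) / g := by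
    intro u v
    rw [integral_rpow (Or.inl (by linarith))]
    rw [sub_add_cancel]
  -- first part
  have hp1 : ∀ x ∈ Set.Ioc 0 τ, |x ^ (g - 1) * φ x| ≤ 24 * (n : ℝ) ^ 2 * (C + I) * x ^ (g - 1) := by
    intro x hx
    have h1 : |C - φ x| ≤ _ := hnear x hx.1.le hx.2
    have h2 : (30 * (n : ℝ) ^ 2 * C + 48 * (n : ℝ) ^ 4 * I) * x ≤
        (30 * (n : ℝ) ^ 2 * C + 48 * (n : ℝ) ^ 4 * I) * τ :=
      mul_le_mul_of_nonneg_left hx.2 (by positivity)
    have h3 : (30 * (n : ℝ) ^ 2 * C + 48 * (n : ℝ) ^ 4 * I) * τ = 15 * C + 24 * (n : ℝ) ^ 2 * I := by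
      rw [hτdef]; field_simp; ring
    have h4 : |φ x| ≤ 16 * C + 24 * (n : ℝ) ^ 2 * I := by
      have h5 : |φ x| ≤ |C| + |C - φ x| := by
        have h6 : φ x = C - (C - φ x) := by ring
        calc |φ x| = |C - (C - φ x)| := by rw [← h6]
          _ ≤ |C| + |C - φ x| := abs_sub _ _
      rw [abs_of_nonneg hC] at h5
      linarith
    have h5 : 16 * C ≤ 24 * (n : ℝ) ^ 2 * C := by
      apply mul_le_mul_of_nonneg_right _ hC
      linarith
    have hxg : 0 ≤ x ^ (g - 1) := Real.rpow_nonneg hx.1.le _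
    rw [abs_mul, abs_of_nonneg hxg, mul_comm]
    apply mul_le_mul_of_nonneg_right _ hxg
    rw [mul_add]
    linarith
  -- second part
  have hp2 : ∀ x ∈ Set.Icc τ L, |x ^ (g - 1) * φ x| ≤
      C * x ^ (g - 1) + 50 * (n : ℝ) ^ 2 * ((C - φ x) * ρ x) := by
    intro x hx
    have hx0 : 0 < x := lt_of_lt_of_le hτ0 hx.1
    have h0 : 0 ≤ C - φ x := hψ x (hlo1.trans hx.1) hx.2
    have h1 : |φ x| ≤ C + (C - φ x) := by
      rw [abs_le]; constructor <;> linarith
    have hxg : 0 ≤ x ^ (g - 1) := Real.rpow_nonneg hx0.le _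
    have h2 : x ^ (g - 1) ≤ 50 * (n : ℝ) ^ 2 * x ^ (a - 1) := by
      have h3 : x ^ (g - 1) = x ^ (g - a) * x ^ (a - 1) := by
        rw [← Real.rpow_add hx0]; congr 1; ring
      rw [h3]
      apply mul_le_mul_of_nonneg_right _ (Real.rpow_nonneg hx0.le _)
      rcases le_total a g with hag | hag
      · calc x ^ (g - a) ≤ L ^ (g - a) := Real.rpow_le_rpow hx0.le hx.2 (by linarith)
          _ ≤ L ^ (1 : ℝ) := Real.rpow_le_rpow_of_exponent_le (by linarith) (by linarith)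
          _ = 100 * n := by rw [Real.rpow_one]
          _ ≤ 50 * (n : ℝ) ^ 2 := by linarith
      · calc x ^ (g - a) ≤ τ ^ (g - a) := Real.rpow_le_rpow_of_nonpos hτ0 hx.1 (by linarith)
          _ ≤ τ ^ (-1 : ℝ) := Real.rpow_le_rpow_of_exponent_ge hτ0 hτ1 (by linarith)
          _ = 2 * (n : ℝ) ^ 2 := by rw [Real.rpow_neg_one, hτdef, one_div, inv_inv]
          _ ≤ 50 * (n : ℝ) ^ 2 := by linarith
    have h3 := hrl x hx.1 hx.2
    have h4 : x ^ (g - 1) ≤ 50 * (n : ℝ) ^ 2 * ρ x :=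
      h2.trans (mul_le_mul_of_nonneg_left h3 (by positivity))
    rw [abs_mul, abs_of_nonneg hxg]
    calc x ^ (g - 1) * |φ x| ≤ x ^ (g - 1) * (C + (C - φ x)) := mul_le_mul_of_nonneg_left h1 hxg
      _ = C * x ^ (g - 1) + x ^ (g - 1) * (C - φ x) := by ring
      _ ≤ C * x ^ (g - 1) + 50 * (n : ℝ) ^ 2 * ρ x * (C - φ x) := by
          have := mul_le_mul_of_nonneg_right h4 h0
          linarith
      _ = C * x ^ (g - 1) + 50 * (n : ℝ) ^ 2 * ((C - φ x) * ρ x) := by ring
  -- third part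
  have hp3 : ∀ x ∈ Set.Ioi L, |x ^ (g - 1) * φ x| ≤ (C + 4 * I) * Real.exp (-(1 / 4) * x) := by
    intro x hx
    have hx1 : L ≤ x := le_of_lt hx
    have hx0 : 0 < x := by linarith
    have hxg : 0 ≤ x ^ (g - 1) := Real.rpow_nonneg hx0.le _
    have hxg1 : x ^ (g - 1) ≤ 1 := Real.rpow_le_one_of_one_le_of_nonpos (by linarith) (by linarith)
    have h1 : |φ x| ≤ _ := htp x hx1
    have h2 := (htail x hx1).2.2
    rw [abs_mul, abs_of_nonneg hxg]
    calc x ^ (g - 1) * |φ x| ≤ 1 * |φ x| := mul_le_mul_of_nonneg_right hxg1 (abs_nonneg _)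
      _ = |φ x| := one_mul _
      _ ≤ Real.exp (-x / 2) * (16 * Real.exp 1 * x / L) ^ n * (C + 4 * I) := h1
      _ ≤ Real.exp (-(1 / 4) * x) * (C + 4 * I) :=
          mul_le_mul_of_nonneg_right h2 (by positivity)
      _ = (C + 4 * I) * Real.exp (-(1 / 4) * x) := mul_comm _ _
  -- measurability and integrability of the function
  have hfc : ContinuousOn (fun x : ℝ => x ^ (g - 1) * φ x) (Set.Ioi 0) := by
    intro x hx
    exact ((Real.continuousAt_rpow_const x (g - 1) (Or.inl (ne_of_gt hx))).mul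
      hφc.continuousAt).continuousWithinAt
  have hmeas : MeasureTheory.AEStronglyMeasurable (fun x : ℝ => x ^ (g - 1) * φ x)
      (MeasureTheory.volume.restrict (Set.Ioi 0)) :=
    hfc.aestronglyMeasurable measurableSet_Ioi
  have hρi2 : IntervalIntegrable ρ MeasureTheory.volume lo L := rhoAB_int a b lo ha0 hba lo L
  have hψρi : ∀ u v : ℝ, lo ≤ u → u ≤ v → v ≤ L → IntervalIntegrable
      (fun x => (C - φ x) * ρ x) MeasureTheory.volume u v := by
    intro u v hu huv hv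
    apply ContinuousOn.intervalIntegrable
    rw [Set.uIcc_of_le huv]
    exact ((continuous_const.sub hφc).continuousOn.mul
      ((rhoAB_cont a b lo lo hlo0).mono Set.Icc_subset_Ici_self)).mono (Set.Icc_subset_Icc hu hv)
  have i1 : MeasureTheory.IntegrableOn (fun x : ℝ => 24 * (n : ℝ) ^ 2 * (C + I) * x ^ (g - 1))
      (Set.Ioc 0 τ) :=
    (intervalIntegrable_iff_integrableOn_Ioc_of_le hτ0.le).mp ((hgi 0 τ).const_mul _)
  have hτL : τ ≤ L := by linarith
  have i2' : IntervalIntegrable (fun x : ℝ => C * x ^ (g - 1) +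
      50 * (n : ℝ) ^ 2 * ((C - φ x) * ρ x)) MeasureTheory.volume τ L :=
    ((hgi τ L).const_mul C).add ((hψρi τ L hlo1 hτL le_rfl).const_mul _)
  have i2 : MeasureTheory.IntegrableOn (fun x : ℝ => C * x ^ (g - 1) +
      50 * (n : ℝ) ^ 2 * ((C - φ x) * ρ x)) (Set.Ioc τ L) :=
    (intervalIntegrable_iff_integrableOn_Ioc_of_le hτL).mp i2'
  have i3 : MeasureTheory.IntegrableOn (fun x : ℝ => (C + 4 * I) * Real.exp (-(1 / 4) * x))
      (Set.Ioi L) := (integrableOn_exp_mul_Ioi (by norm_num) L).const_mul _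
  have j1 : MeasureTheory.IntegrableOn (fun x : ℝ => x ^ (g - 1) * φ x) (Set.Ioc 0 τ) := by
    refine MeasureTheory.Integrable.mono' i1
      (hmeas.mono_measure (MeasureTheory.Measure.restrict_mono (fun x hx => hx.1) le_rfl)) ?_
    rw [MeasureTheory.ae_restrict_iff' measurableSet_Ioc]
    exact Filter.Eventually.of_forall fun x hx => by
      rw [Real.norm_eq_abs]; exact hp1 x hx
  have j2 : MeasureTheory.IntegrableOn (fun x : ℝ => x ^ (g - 1) * φ x) (Set.Ioc τ L) := by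
    refine MeasureTheory.Integrable.mono' i2
      (hmeas.mono_measure (MeasureTheory.Measure.restrict_mono
        (fun x hx => lt_trans hτ0 hx.1) le_rfl)) ?_
    rw [MeasureTheory.ae_restrict_iff' measurableSet_Ioc]
    exact Filter.Eventually.of_forall fun x hx => by
      rw [Real.norm_eq_abs]; exact hp2 x ⟨hx.1.le, hx.2⟩
  have j3 : MeasureTheory.IntegrableOn (fun x : ℝ => x ^ (g - 1) * φ x) (Set.Ioi L) := by
    refine MeasureTheory.Integrable.mono' i3
      (hmeas.mono_measure (MeasureTheory.Measure.restrict_mono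
        (fun x hx => lt_trans (by linarith) (Set.mem_Ioi.mp hx)) le_rfl)) ?_
    rw [MeasureTheory.ae_restrict_iff' measurableSet_Ioi]
    exact Filter.Eventually.of_forall fun x hx => by
      rw [Real.norm_eq_abs]; exact hp3 x hx
  have hsplit : ∫ x in Set.Ioi (0 : ℝ), x ^ (g - 1) * φ x =
      (∫ x in Set.Ioc 0 τ, x ^ (g - 1) * φ x) + ((∫ x in Set.Ioc τ L, x ^ (g - 1) * φ x) +
        ∫ x in Set.Ioi L, x ^ (g - 1) * φ x) := by
    have hj23 : MeasureTheory.IntegrableOn (fun x : ℝ => x ^ (g - 1) * φ x) (Set.Ioi τ) := by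
      rw [← Set.Ioc_union_Ioi_eq_Ioi hτL]
      exact j2.union j3
    rw [← MeasureTheory.setIntegral_union (Set.Ioc_disjoint_Ioi le_rfl) measurableSet_Ioi j2 j3,
      Set.Ioc_union_Ioi_eq_Ioi hτL,
      ← MeasureTheory.setIntegral_union (Set.Ioc_disjoint_Ioi le_rfl) measurableSet_Ioi j1 hj23,
      Set.Ioc_union_Ioi_eq_Ioi hτ0.le]
  have k1 : |∫ x in Set.Ioc 0 τ, x ^ (g - 1) * φ x| ≤ 24 * (n : ℝ) ^ 2 / g * (C + I) := by
    have h1 : ‖∫ x in Set.Ioc 0 τ, x ^ (g - 1) * φ x‖ ≤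
        ∫ x in Set.Ioc 0 τ, 24 * (n : ℝ) ^ 2 * (C + I) * x ^ (g - 1) := by
      apply MeasureTheory.norm_integral_le_of_norm_le i1
      rw [MeasureTheory.ae_restrict_iff' measurableSet_Ioc]
      exact Filter.Eventually.of_forall fun x hx => by
        rw [Real.norm_eq_abs]; exact hp1 x hx
    have h1' : |∫ x in Set.Ioc 0 τ, x ^ (g - 1) * φ x| ≤
        ∫ x in (0 : ℝ)..τ, 24 * (n : ℝ) ^ 2 * (C + I) * x ^ (g - 1) := by
      rw [intervalIntegral.integral_of_le hτ0.le]
      exact h1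
    rw [intervalIntegral.integral_const_mul, hgv, Real.zero_rpow hg.ne', sub_zero] at h1'
    have h2 : τ ^ g ≤ 1 := Real.rpow_le_one hτ0.le hτ1 hg.le
    have h3 : τ ^ g / g ≤ 1 / g := div_le_div_of_nonneg_right h2 hg.le
    calc _ ≤ 24 * (n : ℝ) ^ 2 * (C + I) * (τ ^ g / g) := h1'
      _ ≤ 24 * (n : ℝ) ^ 2 * (C + I) * (1 / g) := mul_le_mul_of_nonneg_left h3 (by positivity)
      _ = _ := by ring
  have k2 : |∫ x in Set.Ioc τ L, x ^ (g - 1) * φ x| ≤
      100 * n / g * C + 50 * (n : ℝ) ^ 2 * I := by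
    have h1 : ‖∫ x in Set.Ioc τ L, x ^ (g - 1) * φ x‖ ≤
        ∫ x in Set.Ioc τ L, (C * x ^ (g - 1) + 50 * (n : ℝ) ^ 2 * ((C - φ x) * ρ x)) := by
      apply MeasureTheory.norm_integral_le_of_norm_le i2
      rw [MeasureTheory.ae_restrict_iff' measurableSet_Ioc]
      exact Filter.Eventually.of_forall fun x hx => by
        rw [Real.norm_eq_abs]; exact hp2 x ⟨hx.1.le, hx.2⟩
    have h1' : |∫ x in Set.Ioc τ L, x ^ (g - 1) * φ x| ≤
        ∫ x in τ..L, (C * x ^ (g - 1) + 50 * (n : ℝ) ^ 2 * ((C - φ x) * ρ x)) := by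
      rw [intervalIntegral.integral_of_le hτL]
      exact h1
    rw [intervalIntegral.integral_add ((hgi τ L).const_mul C)
        ((hψρi τ L hlo1 hτL le_rfl).const_mul _),
      intervalIntegral.integral_const_mul, intervalIntegral.integral_const_mul, hgv] at h1'
    have h2 : ∫ x in τ..L, (C - φ x) * ρ x ≤ I := by
      apply intervalIntegral.integral_mono_interval hlo1 hτL le_rfl _ (hψρi lo L le_rfl hloL le_rfl)
      filter_upwards [MeasureTheory.ae_restrict_mem measurableSet_Ioc] with x hx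
      exact mul_nonneg (hψ x hx.1.le hx.2) (hρ0 x hx.1.le)
    have h3 : L ^ g ≤ 100 * n := by
      calc L ^ g ≤ L ^ (1 : ℝ) := Real.rpow_le_rpow_of_exponent_le (by linarith) hg1
        _ = 100 * n := by rw [Real.rpow_one]
    have h4 : 0 ≤ τ ^ g := Real.rpow_nonneg hτ0.le _
    have h5 : (L ^ g - τ ^ g) / g ≤ 100 * n / g := div_le_div_of_nonneg_right (by linarith) hg.le
    calc _ ≤ C * ((L ^ g - τ ^ g) / g) + 50 * (n : ℝ) ^ 2 * ∫ x in τ..L, (C - φ x) * ρ x := h1'
      _ ≤ C * (100 * n / g) + 50 * (n : ℝ) ^ 2 * I :=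
          add_le_add (mul_le_mul_of_nonneg_left h5 hC)
            (mul_le_mul_of_nonneg_left h2 (by positivity))
      _ = _ := by ring
  have k3 : |∫ x in Set.Ioi L, x ^ (g - 1) * φ x| ≤ (C + 4 * I) * (1 / 1000) := by
    have h1 : ‖∫ x in Set.Ioi L, x ^ (g - 1) * φ x‖ ≤
        ∫ x in Set.Ioi L, (C + 4 * I) * Real.exp (-(1 / 4) * x) := by
      apply MeasureTheory.norm_integral_le_of_norm_le i3
      rw [MeasureTheory.ae_restrict_iff' measurableSet_Ioi]
      exact Filter.Eventually.of_forall fun x hx => by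
        rw [Real.norm_eq_abs]; exact hp3 x hx
    rw [Real.norm_eq_abs, MeasureTheory.integral_const_mul,
      integral_exp_mul_Ioi (by norm_num) L] at h1
    refine h1.trans ?_
    apply mul_le_mul_of_nonneg_left _ (by positivity)
    have h2 : Real.exp (-(1 / 4) * L) ≤ 1 / 4000 := by
      have h3 : Real.exp (-(1 / 4) * L) ≤ Real.exp (-50) := by
        apply Real.exp_le_exp.mpr; linarith
      have h4 : (4000 : ℝ) ≤ Real.exp 50 := by
        have h5 : (11 : ℝ) ≤ Real.exp 10 := by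
          have := Real.add_one_le_exp (10 : ℝ); linarith
        have h6 : Real.exp 50 = Real.exp 10 ^ 5 := by
          rw [← Real.exp_nat_mul]; norm_num
        rw [h6]
        calc (4000 : ℝ) ≤ 11 ^ 5 := by norm_num
          _ ≤ Real.exp 10 ^ 5 := pow_le_pow_left₀ (by norm_num) h5 5
      rw [Real.exp_neg] at h3
      refine h3.trans ?_
      rw [← one_div]
      exact one_div_le_one_div_of_le (by norm_num) h4
    have h3 : -Real.exp (-(1 / 4) * L) / -(1 / 4) = 4 * Real.exp (-(1 / 4) * L) := by ring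
    rw [h3]
    linarith
  have hg1' : 1 ≤ 1 / g := by rw [le_div_iff₀ hg]; linarith
  show |∫ x in Set.Ioi (0 : ℝ), x ^ (g - 1) * φ x| ≤ 125 * (n : ℝ) ^ 2 / g * (C + I)
  rw [hsplit]
  have h1 := abs_add_le (∫ x in Set.Ioc 0 τ, x ^ (g - 1) * φ x)
    ((∫ x in Set.Ioc τ L, x ^ (g - 1) * φ x) + ∫ x in Set.Ioi L, x ^ (g - 1) * φ x)
  have h2 := abs_add_le (∫ x in Set.Ioc τ L, x ^ (g - 1) * φ x)
    (∫ x in Set.Ioi L, x ^ (g - 1) * φ x)
  -- everything over g
  set G := 1 / g with hG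
  have e1 : 24 * (n : ℝ) ^ 2 / g * (C + I) = 24 * ((n : ℝ) ^ 2 * G * (C + I)) := by
    rw [hG]; ring
  have e2 : 100 * (n : ℝ) / g * C = 50 * (2 * n * (G * C)) := by rw [hG]; ring
  have e3 : 125 * (n : ℝ) ^ 2 / g * (C + I) = 125 * ((n : ℝ) ^ 2 * G * (C + I)) := by
    rw [hG]; ring
  rw [e1] at k1
  rw [e2] at k2
  rw [e3]
  have hGC : 0 ≤ G * C := mul_nonneg (by linarith) hC
  have hGI : 0 ≤ G * I := mul_nonneg (by linarith) hI0
  have f1 : 2 * (n : ℝ) * (G * C) ≤ (n : ℝ) ^ 2 * (G * C) := mul_le_mul_of_nonneg_right hnn hGC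
  have f2 : (n : ℝ) ^ 2 * I ≤ (n : ℝ) ^ 2 * (G * I) :=
    mul_le_mul_of_nonneg_left (le_mul_of_one_le_left hI0 hg1') (by positivity)
  have f3 : (n : ℝ) ^ 2 * G * (C + I) = (n : ℝ) ^ 2 * (G * C) + (n : ℝ) ^ 2 * (G * I) := by ring
  have f4 : C ≤ (n : ℝ) ^ 2 * (G * C) := by
    have f5 : C ≤ G * C := le_mul_of_one_le_left hC hg1'
    have f6 : G * C ≤ (n : ℝ) ^ 2 * (G * C) := le_mul_of_one_le_left hGC (by linarith)
    linarith
  have f5 : I ≤ (n : ℝ) ^ 2 * (G * I) := by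
    have f5 : I ≤ G * I := le_mul_of_one_le_left hI0 hg1'
    have f6 : G * I ≤ (n : ℝ) ^ 2 * (G * I) := le_mul_of_one_le_left hGI (by linarith)
    linarith
  rw [f3] at k1 ⊢
  linarith

/-- A crude lower bound for the Gamma function. -/
theorem gamma_ge (g : ℝ) (hg : 0 < g) : 1 / (3 * g) ≤ Real.Gamma g := by
  rw [Real.Gamma_eq_integral hg]
  have hint := Real.GammaIntegral_convergent hg
  have h1 : ∫ x in Set.Ioc (0 : ℝ) 1, Real.exp (-x) * x ^ (g - 1) ≤
      ∫ x in Set.Ioi (0 : ℝ), Real.exp (-x) * x ^ (g - 1) := by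
    apply MeasureTheory.setIntegral_mono_set hint
    · rw [Filter.EventuallyLE, MeasureTheory.ae_restrict_iff' measurableSet_Ioi]
      exact Filter.Eventually.of_forall fun x hx =>
        mul_nonneg (Real.exp_pos _).le (Real.rpow_nonneg (le_of_lt hx) _)
    · exact Filter.Eventually.of_forall fun x hx => hx.1
  have hgi : IntervalIntegrable (fun x : ℝ => x ^ (g - 1)) MeasureTheory.volume 0 1 :=
    intervalIntegral.intervalIntegrable_rpow' (by linarith)
  have h2 : ∫ x in Set.Ioc (0 : ℝ) 1, (1 / 3) * x ^ (g - 1) ≤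
      ∫ x in Set.Ioc (0 : ℝ) 1, Real.exp (-x) * x ^ (g - 1) := by
    apply MeasureTheory.setIntegral_mono_on
      ((intervalIntegrable_iff_integrableOn_Ioc_of_le zero_le_one).mp (hgi.const_mul _))
      (hint.mono_set fun x hx => hx.1) measurableSet_Ioc
    intro x hx
    apply mul_le_mul_of_nonneg_right _ (Real.rpow_nonneg hx.1.le _)
    have h3 : Real.exp (-1) ≤ Real.exp (-x) := Real.exp_le_exp.mpr (by linarith [hx.2])
    have h4 : (1 / 3 : ℝ) ≤ Real.exp (-1) := by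
      rw [Real.exp_neg, ← one_div]
      apply one_div_le_one_div_of_le (Real.exp_pos 1)
      have := Real.exp_one_lt_d9
      linarith
    linarith
  rw [← intervalIntegral.integral_of_le zero_le_one, intervalIntegral.integral_const_mul,
    integral_rpow (Or.inl (by linarith)), sub_add_cancel, Real.one_rpow,
    Real.zero_rpow hg.ne', sub_zero] at h2
  have h3 : 1 / (3 * g) = 1 / 3 * (1 / g) := by field_simp
  rw [h3]
  exact h2.trans h1

end Pool.Agent.H.MP_cba12a_lc.QP
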