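import Pool.Agent.H.MP_cba12a_lc.QP.Jet
import Pool.Agent.H.MP_cba12a_lc.QP.Coer

/-!
# Consequences of coercivity for the weights of the jets
-/

namespace Pool.Agent.H.MP_cba12a_lc.QP

open Finset Filter Topology MeasureTheory

/-- `Γ g ≤ 1 / g` for `0 < g ≤ 1` -/
theorem Gamma_le_inv (g : ℝ) (hg : 0 < g) (hg1 : g ≤ 1) : Real.Gamma g ≤ 1 / g := by
  have h1 : Real.Gamma (g + 1) ≤ 1 := by
    have h2 := Real.convexOn_Gamma.2 (by norm_num : (1 : ℝ) ∈ Set.Ioi 0)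
      (by norm_num : (2 : ℝ) ∈ Set.Ioi 0) (by linarith : (0 : ℝ) ≤ 1 - g) hg.le (by ring)
    rw [Real.Gamma_one, Real.Gamma_two] at h2
    simp only [smul_eq_mul, mul_one] at h2
    have h3 : 1 - g + g * 2 = g + 1 := by ring
    rw [h3] at h2
    linarith
  rw [Real.Gamma_add_one hg.ne'] at h1
  rw [le_div_iff₀ hg]
  linarith

/-- the polynomial with the weights `w` -/
noncomputable def Qw (d e n : ℕ) (w : ℕ → ℝ) : Polynomial ℝ :=
  ∑ i ∈ range (n + 1), Polynomial.C (w i) * RR d e i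

theorem natDegree_Qw (d e n : ℕ) (w : ℕ → ℝ) : (Qw d e n w).natDegree ≤ n := by
  unfold Qw
  apply Polynomial.natDegree_sum_le_of_forall_le
  intro i hi
  refine (Polynomial.natDegree_C_mul_le _ _).trans ((natDegree_RR d e i).trans ?_)
  rw [mem_range] at hi
  omega

theorem eval_Qw (d e n : ℕ) (w : ℕ → ℝ) (x : ℝ) :
    (Qw d e n w).eval x = ∑ i ∈ range (n + 1), w i * (RR d e i).eval x := by
  unfold Qw
  rw [Polynomial.eval_finsetSum]
  apply sum_congr rfl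
  intro i _
  rw [Polynomial.eval_mul, Polynomial.eval_C]

theorem moment_Qw (d e n r : ℕ) (he : 1 ≤ e) (hr : r < d) (w : ℕ → ℝ) :
    ∫ x in Set.Ioi (0 : ℝ), x ^ (((d : ℝ) - r) / e - 1) *
      (Real.exp (-x) * (Qw d e n w).eval x) =
      Real.Gamma (((d : ℝ) - r) / e) *
        ∑ j ∈ range (n + 1), w j * (r.descFactorial j : ℝ) := by
  have he0 : (0 : ℝ) < e := by exact_mod_cast he
  have hr0 : (0 : ℝ) < (d : ℝ) - r := by
    have : (r : ℝ) < d := by exact_mod_cast hr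
    linarith
  have h1 : (fun x : ℝ => x ^ (((d : ℝ) - r) / e - 1) *
      (Real.exp (-x) * (Qw d e n w).eval x)) =
      fun x : ℝ => ∑ i ∈ range (n + 1), w i * (x ^ (((d : ℝ) - r) / e - 1) *
        (Real.exp (-x) * (RR d e i).eval x)) := by
    funext x
    rw [eval_Qw, mul_sum, mul_sum]
    apply sum_congr rfl
    intro i _
    ring
  rw [h1, integral_finsetSum _ fun i _ =>
    (intg_RR d e i (((d : ℝ) - r) / e) (by positivity)).const_mul _, mul_sum]
  apply sum_congr rfl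
  intro i _
  rw [integral_const_mul, moment_RR_at d e i r he hr]
  ring

/-- the quantity controlling everything -/
noncomputable def CI (d e n : ℕ) (Q : Polynomial ℝ) : ℝ :=
  Q.eval 0 + ∫ x in (1 / (400 * (n : ℝ) ^ 4))..(100 * n),
    (Q.eval 0 - Real.exp (-x) * Q.eval x) *
      rhoAB ((d : ℝ) / e) (1 / e) (1 / (400 * (n : ℝ) ^ 4)) x

theorem integral_rho (d e : ℕ) (he : 1 ≤ e) (hd : 2 ≤ d) (lo : ℝ) (Q : Polynomial ℝ) :
    IntegrableOn (fun x : ℝ => Real.exp (-x) * Q.eval x *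
      rhoAB ((d : ℝ) / e) (1 / e) lo x) (Set.Ioi 0) ∧
    ∫ x in Set.Ioi (0 : ℝ), Real.exp (-x) * Q.eval x * rhoAB ((d : ℝ) / e) (1 / e) lo x =
      e * (∫ x in Set.Ioi (0 : ℝ), x ^ ((d : ℝ) / e - 1) * (Real.exp (-x) * Q.eval x)) -
      e * lo ^ (1 / (e : ℝ)) *
        ∫ x in Set.Ioi (0 : ℝ), x ^ (((d : ℝ) - 1) / e - 1) * (Real.exp (-x) * Q.eval x) := by
  have he0 : (0 : ℝ) < e := by exact_mod_cast he
  have hd0 : (2 : ℝ) ≤ d := by exact_mod_cast hd
  have g0 : 0 < (d : ℝ) / e := by positivity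
  have g1 : 0 < ((d : ℝ) - 1) / e := div_pos (by linarith) he0
  have i0 := SQ.mom_intg _ g0 Q
  have i1 := SQ.mom_intg _ g1 Q
  have h1 : (fun x : ℝ => Real.exp (-x) * Q.eval x * rhoAB ((d : ℝ) / e) (1 / e) lo x) =
      fun x : ℝ => e * (x ^ ((d : ℝ) / e - 1) * (Real.exp (-x) * Q.eval x)) -
        e * lo ^ (1 / (e : ℝ)) * (x ^ (((d : ℝ) - 1) / e - 1) *
          (Real.exp (-x) * Q.eval x)) := by
    funext x
    unfold rhoAB
    have h2 : (d : ℝ) / e - 1 / e - 1 = ((d : ℝ) - 1) / e - 1 := by ring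
    rw [h2]
    field_simp
  rw [h1]
  refine ⟨(i0.const_mul _).sub (i1.const_mul _), ?_⟩
  rw [integral_sub (i0.const_mul _) (i1.const_mul _), integral_const_mul, integral_const_mul]

theorem integral_rho_Qw (d e n : ℕ) (he : 1 ≤ e) (hd : 2 ≤ d) (lo : ℝ) (w : ℕ → ℝ)
    (hw : w 1 = 0) :
    ∫ x in Set.Ioi (0 : ℝ), Real.exp (-x) * (Qw d e n w).eval x *
      rhoAB ((d : ℝ) / e) (1 / e) lo x =
      w 0 * (e * (Real.Gamma ((d : ℝ) / e) - lo ^ (1 / (e : ℝ)) *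
        Real.Gamma (((d : ℝ) - 1) / e))) := by
  have m0 := moment_Qw d e n 0 he (by omega) w
  have m1 := moment_Qw d e n 1 he (by omega) w
  have s0 : ∑ j ∈ range (n + 1), w j * ((0 : ℕ).descFactorial j : ℝ) = w 0 := by
    rw [sum_range_succ']
    simp
  have s1 : ∑ j ∈ range (n + 1), w j * ((1 : ℕ).descFactorial j : ℝ) = w 0 := by
    rw [sum_range_succ']
    simp only [Nat.descFactorial_zero, Nat.cast_one, mul_one]
    rw [add_eq_right]
    apply sum_eq_zero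
    intro j _
    rcases Nat.eq_zero_or_pos j with rfl | hj
    · rw [zero_add, hw, zero_mul]
    · rw [Nat.descFactorial_of_lt (by omega)]
      simp
  rw [s0] at m0
  rw [s1] at m1
  simp only [Nat.cast_zero, sub_zero, Nat.cast_one] at m0 m1
  rw [(integral_rho d e he hd lo (Qw d e n w)).2, m0, m1]
  ring

theorem Qw_one (d e n : ℕ) : Qw d e n (fun i => if i = 0 then 1 else 0) = 1 := by
  unfold Qw
  rw [sum_range_succ']
  simp [RR]

theorem w_zero_bound (d e n : ℕ) (hn : 2 ≤ n) (hd : 2 ≤ d) (hde : d ≤ e)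
    (ha : (d : ℝ) / e * (2 * Real.log (40000 * (n : ℝ) ^ 5)) ≤ 1) (w : ℕ → ℝ) (hw : w 1 = 0)
    (hC : 0 ≤ (Qw d e n w).eval 0)
    (hψ : ∀ x : ℝ, 1 / (400 * (n : ℝ) ^ 4) ≤ x → x ≤ 100 * n →
      0 ≤ (Qw d e n w).eval 0 - Real.exp (-x) * (Qw d e n w).eval x) :
    0 ≤ CI d e n (Qw d e n w) ∧ 4 / 5 * CI d e n (Qw d e n w) ≤ w 0 * (e : ℝ) ^ 2 := by
  have he : 1 ≤ e := by omega
  have he0 : (0 : ℝ) < e := by exact_mod_cast he
  have hd0 : (2 : ℝ) ≤ d := by exact_mod_cast hd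
  have hde0 : (d : ℝ) ≤ e := by exact_mod_cast hde
  have hb : (0 : ℝ) < 1 / e := by positivity
  have hba : 1 / (e : ℝ) < (d : ℝ) / e := by
    apply div_lt_div_of_pos_right _ he0
    linarith
  have g0 : 0 < (d : ℝ) / e := by positivity
  have g1 : 0 < ((d : ℝ) - 1) / e := div_pos (by linarith) he0
  have g11 : ((d : ℝ) - 1) / e ≤ 1 := by
    rw [div_le_one he0]
    linarith
  set lo : ℝ := 1 / (400 * (n : ℝ) ^ 4) with hlo
  set K : ℝ := e * (Real.Gamma ((d : ℝ) / e) - lo ^ (1 / (e : ℝ)) *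
    Real.Gamma (((d : ℝ) - 1) / e)) with hK
  have hmain : ∀ v : ℕ → ℝ, v 1 = 0 → 0 ≤ (Qw d e n v).eval 0 →
      (∀ x : ℝ, lo ≤ x → x ≤ 100 * n →
        0 ≤ (Qw d e n v).eval 0 - Real.exp (-x) * (Qw d e n v).eval x) →
      0 ≤ (CI d e n (Qw d e n v) - (Qw d e n v).eval 0) ∧
        v 0 * K ≤ -(4 / 5) * CI d e n (Qw d e n v) := by
    intro v hv hvC hvψ
    obtain ⟨h1, _, _, h4⟩ := coer_all n hn ((d : ℝ) / e) (1 / e) hb hba ha (Qw d e n v)
      (natDegree_Qw d e n v) hvC hvψ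
    have h5 := h4 (integral_rho d e he hd lo (Qw d e n v)).1
    rw [integral_rho_Qw d e n he hd lo v hv] at h5
    refine ⟨?_, h5⟩
    unfold CI
    rw [add_sub_cancel_left]
    exact h1
  obtain ⟨h1, h2⟩ := hmain w hw hC hψ
  have hCI : 0 ≤ CI d e n (Qw d e n w) := by linarith
  refine ⟨hCI, ?_⟩
  -- the sign of K
  have hKneg : K < 0 := by
    obtain ⟨h3, h4⟩ := hmain (fun i => if i = 0 then 1 else 0) (by simp)
      (by rw [Qw_one]; simp) (by
        intro x hx _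
        rw [Qw_one]
        simp only [Polynomial.eval_one, mul_one]
        have hx0 : 0 ≤ x := le_trans (by rw [hlo]; positivity) hx
        have := Real.exp_le_one_iff.2 (by linarith : -x ≤ 0)
        linarith)
    rw [Qw_one] at h3 h4
    simp only [Polynomial.eval_one, if_true, one_mul] at h3 h4
    linarith
  have hw0 : 0 ≤ w 0 := by
    by_contra hc
    push Not at hc
    have h3 : 0 < w 0 * K := mul_pos_of_neg_of_neg hc hKneg
    linarith
  have hn0 : (2 : ℝ) ≤ n := by exact_mod_cast hn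
  have hlo1 : lo ≤ 1 := by
    rw [hlo, div_le_one (by positivity)]
    have h3 : (1 : ℝ) ≤ (n : ℝ) ^ 4 := one_le_pow₀ (by linarith)
    linarith
  have hlo0 : 0 ≤ lo := by rw [hlo]; positivity
  have hKe : -K ≤ (e : ℝ) ^ 2 := by
    have h3 : 0 < Real.Gamma ((d : ℝ) / e) := Real.Gamma_pos_of_pos g0
    have h4 : 0 < Real.Gamma (((d : ℝ) - 1) / e) := Real.Gamma_pos_of_pos g1
    have h5 := Gamma_le_inv _ g1 g11
    have h6 : lo ^ (1 / (e : ℝ)) ≤ 1 := Real.rpow_le_one hlo0 hlo1 hb.le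
    have h7 : 1 / (((d : ℝ) - 1) / e) ≤ e := by
      rw [one_div_div, div_le_iff₀ (by linarith)]
      have := mul_le_mul_of_nonneg_left (by linarith : (1 : ℝ) ≤ (d : ℝ) - 1) he0.le
      linarith
    have h8 : lo ^ (1 / (e : ℝ)) * Real.Gamma (((d : ℝ) - 1) / e) ≤ e := by
      calc lo ^ (1 / (e : ℝ)) * Real.Gamma (((d : ℝ) - 1) / e)
          ≤ 1 * Real.Gamma (((d : ℝ) - 1) / e) := mul_le_mul_of_nonneg_right h6 h4.le
        _ ≤ e := by linarith
    rw [hK]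
    have h9 : -(e * (Real.Gamma ((d : ℝ) / e) - lo ^ (1 / (e : ℝ)) *
        Real.Gamma (((d : ℝ) - 1) / e))) = e * (lo ^ (1 / (e : ℝ)) *
        Real.Gamma (((d : ℝ) - 1) / e) - Real.Gamma ((d : ℝ) / e)) := by ring
    rw [h9, sq]
    apply mul_le_mul_of_nonneg_left _ he0.le
    linarith
  have h3 := mul_le_mul_of_nonneg_left hKe hw0
  linarith

theorem w_bound (d e n : ℕ) (hn : 2 ≤ n) (hnd : n < d) (hde : d ≤ e)
    (ha : (d : ℝ) / e * (2 * Real.log (40000 * (n : ℝ) ^ 5)) ≤ 1) (w : ℕ → ℝ)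
    (hC : 0 ≤ (Qw d e n w).eval 0)
    (hψ : ∀ x : ℝ, 1 / (400 * (n : ℝ) ^ 4) ≤ x → x ≤ 100 * n →
      0 ≤ (Qw d e n w).eval 0 - Real.exp (-x) * (Qw d e n w).eval x) (i : ℕ) (hi : i ≤ n) :
    |w i| * (i.factorial : ℝ) ≤ 2 ^ i * (375 * (n : ℝ) ^ 2 * CI d e n (Qw d e n w)) := by
  have he : 1 ≤ e := by omega
  have he0 : (0 : ℝ) < e := by exact_mod_cast he
  have hd0 : (2 : ℝ) < d := by
    have : 2 < d := by omega
    exact_mod_cast this
  have hde0 : (d : ℝ) ≤ e := by exact_mod_cast hde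
  have hb : (0 : ℝ) < 1 / e := by positivity
  have hba : 1 / (e : ℝ) < (d : ℝ) / e := by
    apply div_lt_div_of_pos_right _ he0
    linarith
  apply newton_bound n w _ _ i hi
  intro r hr
  have hrd : (r : ℝ) < d := by
    have : r < d := by omega
    exact_mod_cast this
  have g0 : 0 < ((d : ℝ) - r) / e := div_pos (by linarith) he0
  have g1 : ((d : ℝ) - r) / e ≤ 1 := by
    rw [div_le_one he0]
    have : (0 : ℝ) ≤ r := by positivity
    linarith
  have h1 := coer_moment n hn ((d : ℝ) / e) (1 / e) hb hba ha (Qw d e n w)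
    (natDegree_Qw d e n w) hC hψ (((d : ℝ) - r) / e) g0 g1
  rw [moment_Qw d e n r he (by omega) w, abs_mul] at h1
  have h2 := gamma_ge _ g0
  have h3 : 0 < Real.Gamma (((d : ℝ) - r) / e) := Real.Gamma_pos_of_pos g0
  rw [abs_of_pos h3] at h1
  set S := |∑ j ∈ range (n + 1), w j * (r.descFactorial j : ℝ)| with hS
  set g := ((d : ℝ) - r) / e with hg
  have hS0 : 0 ≤ S := abs_nonneg _
  have h4 : 1 / (3 * g) * S ≤ 125 * (n : ℝ) ^ 2 / g * CI d e n (Qw d e n w) :=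
    (mul_le_mul_of_nonneg_right h2 hS0).trans h1
  have h5 : 3 * g * (1 / (3 * g) * S) ≤
      3 * g * (125 * (n : ℝ) ^ 2 / g * CI d e n (Qw d e n w)) :=
    mul_le_mul_of_nonneg_left h4 (by positivity)
  have h6 : 3 * g * (1 / (3 * g) * S) = S := by field_simp
  have h7 : 3 * g * (125 * (n : ℝ) ^ 2 / g * CI d e n (Qw d e n w)) =
      375 * (n : ℝ) ^ 2 * CI d e n (Qw d e n w) := by
    field_simp
    ring
  rw [h6, h7] at h5
  exact h5

end Pool.Agent.H.MP_cba12a_lc.QP
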