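import Pool.Agent.H.MP_cba12a_lc.QP.Defs
import Pool.Agent.H.MP_cba12a_lc.QP.Bnd

/-!
# Consequences of coercivity for the coefficients of a functional
-/

set_option autoImplicit false

namespace Pool.Agent.H.MP_cba12a_lc.QP

open Finset Pool.Agent.H.MP_cba12a_lc.SQ

theorem bnd (n d e : ℕ) (hn : 2 ≤ n) (hnd : n + 1 < d) (hde : 2 * d ≤ e)
    (he : 4 * (d : ℝ) * Real.log (40000 * (n : ℝ) ^ 5) ≤ e) (w : ℕ → ℝ) (hw : w 1 = 0)
    (hS : Sgn n (QQ n d e w)) :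
    ∃ T : ℝ, (QQ n d e w).eval 0 ≤ T ∧ 4 / 5 * T ≤ w 0 * (e : ℝ) ^ 2 ∧
      ∀ i ≤ n, |w i| * (i.factorial : ℝ) ≤ 2 ^ i * (1000 * (e : ℝ) * (n : ℝ) ^ 4) * T := by
  have he1 : 1 ≤ e := by omega
  have he0 : (1 : ℝ) ≤ e := by exact_mod_cast he1
  have hn0 : (2 : ℝ) ≤ n := by exact_mod_cast hn
  have hlog : 0 ≤ Real.log (40000 * (n : ℝ) ^ 5) := by
    apply Real.log_nonneg
    have : (1 : ℝ) ≤ (n : ℝ) ^ 5 := one_le_pow₀ (by linarith)
    linarith
  have ha : (d : ℝ) / e * (2 * Real.log (40000 * (n : ℝ) ^ 5)) ≤ 1 := by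
    rw [div_mul_eq_mul_div, div_le_one (by linarith)]
    have : 0 ≤ (d : ℝ) * Real.log (40000 * (n : ℝ) ^ 5) := by positivity
    linarith
  obtain ⟨hC, hψ⟩ := hS
  have hQ : QQ n d e w = Qw d e n w := rfl
  rw [hQ] at hC hψ ⊢
  obtain ⟨h1, h2⟩ := w_zero_bound d e n hn (by omega) (by omega) ha w hw hC hψ
  refine ⟨CI d e n (Qw d e n w), ?_, h2, ?_⟩
  · have hb : (0 : ℝ) < 1 / e := by positivity
    have hba : 1 / (e : ℝ) < (d : ℝ) / e := by
      apply div_lt_div_of_pos_right _ (by linarith)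
      have : 1 < d := by omega
      exact_mod_cast this
    have h3 := (coer_all n hn ((d : ℝ) / e) (1 / e) hb hba ha (Qw d e n w)
      (natDegree_Qw d e n w) hC hψ).1
    unfold CI
    linarith
  · intro i hi
    refine (w_bound d e n hn (by omega) (by omega) ha w hC hψ i hi).trans ?_
    rw [mul_assoc (2 ^ i : ℝ)]
    apply mul_le_mul_of_nonneg_left _ (by positivity)
    apply mul_le_mul_of_nonneg_right _ h1
    have h4 : (n : ℝ) ^ 2 ≤ (n : ℝ) ^ 4 := pow_le_pow_right₀ (by linarith) (by norm_num)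
    have h5 : (0 : ℝ) ≤ (n : ℝ) ^ 2 := by positivity
    nlinarith

end Pool.Agent.H.MP_cba12a_lc.QP
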