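import Mathlib

/-!
# A power is close to an exponential
-/

set_option autoImplicit false

namespace Pool.Agent.H.MP_cba12a_lc.QP

private theorem exp_neg_sub_le (a b : ℝ) (ha : 0 ≤ a) (hab : a ≤ b) :
    Real.exp (-a) - Real.exp (-b) ≤ b - a := by
  have h1 : Real.exp (-b) = Real.exp (-a) * Real.exp (-(b - a)) := by
    rw [← Real.exp_add]; congr 1; ring
  have h2 : 1 - (b - a) ≤ Real.exp (-(b - a)) := by
    have := Real.add_one_le_exp (-(b - a)); linarith
  have h3 : Real.exp (-a) ≤ 1 := Real.exp_le_one_iff.mpr (by linarith)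
  have h4 : 0 ≤ Real.exp (-a) := (Real.exp_pos _).le
  have h5 : Real.exp (-a) * (1 - (b - a)) ≤ Real.exp (-a) * Real.exp (-(b - a)) :=
    mul_le_mul_of_nonneg_left h2 h4
  have h6 : Real.exp (-a) * (b - a) ≤ 1 * (b - a) :=
    mul_le_mul_of_nonneg_right h3 (by linarith)
  rw [h1]
  linarith

/- PROOF: for 0 ≤ w ≤ 1/2, M = floor (x 2^e): (1-w)^M ≤ exp(-M w), and
(1-w)^M ≥ exp(-M w) (1 - M w^2) [1 - w ≥ exp(-w) (1 - w^2), since exp(w)(1-w) ≥ (1+w)(1-w); and
Bernoulli]; |exp(-M w) - exp(-x 2^e w)| ≤ w. -/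
theorem pow_exp (e : ℕ) (x w : ℝ) (hx : 0 ≤ x) (hw0 : 0 ≤ w) (hw1 : w ≤ 1) :
    |(1 - w) ^ ⌊x * 2 ^ e⌋₊ - Real.exp (-(x * 2 ^ e * w))| ≤ w + x * 2 ^ e * w ^ 2 := by
  set y : ℝ := x * 2 ^ e with hy
  have hy0 : 0 ≤ y := by rw [hy]; positivity
  set M : ℕ := ⌊y⌋₊ with hM
  have hM1 : (M : ℝ) ≤ y := Nat.floor_le hy0
  have hM2 : y < M + 1 := Nat.lt_floor_add_one y
  have hM0 : (0 : ℝ) ≤ M := Nat.cast_nonneg M
  have e1 : Real.exp (-(M * w)) = Real.exp (-w) ^ M := by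
    rw [← Real.exp_nat_mul]; congr 1; ring
  have e2 : Real.exp (-(M * w)) - Real.exp (-(y * w)) ≤ y * w - M * w :=
    exp_neg_sub_le _ _ (mul_nonneg hM0 hw0) (mul_le_mul_of_nonneg_right hM1 hw0)
  have e3 : y * w - M * w ≤ w := by
    have := mul_le_mul_of_nonneg_right (show y - M ≤ 1 by linarith) hw0
    linarith
  have e4 : Real.exp (-(y * w)) ≤ Real.exp (-(M * w)) := by
    apply Real.exp_le_exp.mpr
    have := mul_le_mul_of_nonneg_right hM1 hw0
    linarith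
  have u1 : (1 - w) ^ M ≤ Real.exp (-(M * w)) := by
    rw [e1]
    apply pow_le_pow_left₀ (by linarith)
    have := Real.add_one_le_exp (-w)
    linarith
  have l1 : Real.exp (-w) * (1 - w ^ 2) ≤ 1 - w := by
    have h1 : 1 + w ≤ Real.exp w := by
      have := Real.add_one_le_exp w; linarith
    have h2 : Real.exp (-w) * Real.exp w = 1 := by rw [← Real.exp_add]; simp
    have h3 : 0 < Real.exp (-w) := Real.exp_pos _
    have h4 : Real.exp (-w) * (1 + w) ≤ 1 := by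
      have := mul_le_mul_of_nonneg_left h1 h3.le
      rw [h2] at this
      exact this
    have h5 : Real.exp (-w) * (1 - w ^ 2) = Real.exp (-w) * (1 + w) * (1 - w) := by ring
    rw [h5]
    calc Real.exp (-w) * (1 + w) * (1 - w) ≤ 1 * (1 - w) :=
          mul_le_mul_of_nonneg_right h4 (by linarith)
      _ = 1 - w := one_mul _
  have hw2 : w ^ 2 ≤ 1 := pow_le_one₀ hw0 hw1
  have l2 : Real.exp (-(M * w)) * (1 - w ^ 2) ^ M ≤ (1 - w) ^ M := by
    rw [e1, ← mul_pow]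
    exact pow_le_pow_left₀ (mul_nonneg (Real.exp_pos _).le (by linarith)) l1 M
  have l3 : 1 - M * w ^ 2 ≤ (1 - w ^ 2) ^ M := by
    have := one_add_mul_le_pow (show (-2 : ℝ) ≤ -w ^ 2 by linarith) M
    calc 1 - M * w ^ 2 = 1 + (M : ℝ) * (-w ^ 2) := by ring
      _ ≤ (1 + -w ^ 2) ^ M := this
      _ = (1 - w ^ 2) ^ M := by rw [← sub_eq_add_neg]
  have l4 : Real.exp (-(M * w)) * (1 - M * w ^ 2) ≤ (1 - w) ^ M :=
    (mul_le_mul_of_nonneg_left l3 (Real.exp_pos _).le).trans l2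
  have l5 : Real.exp (-(M * w)) * (M * w ^ 2) ≤ y * w ^ 2 := by
    have h1 : Real.exp (-(M * w)) ≤ 1 := by
      rw [Real.exp_le_one_iff]
      have := mul_nonneg hM0 hw0
      linarith
    calc Real.exp (-(M * w)) * (M * w ^ 2) ≤ 1 * (M * w ^ 2) :=
          mul_le_mul_of_nonneg_right h1 (by positivity)
      _ ≤ y * w ^ 2 := by
          rw [one_mul]
          exact mul_le_mul_of_nonneg_right hM1 (by positivity)
  have hyw : 0 ≤ y * w ^ 2 := by positivity
  rw [abs_le]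
  constructor
  · have : Real.exp (-(M * w)) * (1 - M * w ^ 2) =
        Real.exp (-(M * w)) - Real.exp (-(M * w)) * (M * w ^ 2) := by ring
    linarith
  · linarith

end Pool.Agent.H.MP_cba12a_lc.QP
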