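import Pool.Agent.H.MP_cba12a_lc.QP.Lev
import Pool.Agent.H.MP_cba12a_lc.QP.PowE

/-!
# The response of a block is close to its smooth form
-/

set_option autoImplicit false

namespace Pool.Agent.H.MP_cba12a_lc.QP

open Finset Pool.Agent.H.MP_cba12a_lc.SQ

private theorem blkF_half {y m : ℕ} : 1 + (2 * (y : ℝ) / m - 1) = 2 * ((y : ℝ) / m) := by ring

private theorem blkF_diff (m d e M y : ℕ) (x : ℝ) :
    2 ^ d * blkT m d e M y - (ff d e 0 (2 * (y : ℝ) / m - 1) - ff d e x (2 * (y : ℝ) / m - 1)) =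
      (2 * ((y : ℝ) / m)) ^ d * (Real.exp (-(x * (2 * ((y : ℝ) / m)) ^ e)) -
        (1 - ((y : ℝ) / m) ^ e) ^ M) := by
  unfold blkT ff
  rw [blkF_half, zero_mul, neg_zero, Real.exp_zero, mul_pow 2 ((y : ℝ) / m) d]
  ring

private theorem blkF_unit {y m : ℕ} (hy : y ≤ m) : 0 ≤ (y : ℝ) / m ∧ (y : ℝ) / m ≤ 1 := by
  refine ⟨by positivity, ?_⟩
  apply div_le_one_of_le₀ _ (Nat.cast_nonneg m)
  exact_mod_cast hy

/-- Powers of a number close to one. -/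
private theorem blkF_pow {μ a : ℕ} {s c : ℝ} (hμ : 0 < μ) (hs : |s| < 1 / μ) (h0 : 0 ≤ 1 + s)
    (ha : (a : ℝ) ≤ c * μ) : (1 + s) ^ a ≤ Real.exp c := by
  have hμ' : (0 : ℝ) < μ := by exact_mod_cast hμ
  have h1 : 1 + s ≤ Real.exp s := by
    have := Real.add_one_le_exp s
    linarith
  have h2 : s ≤ 1 / μ := (le_abs_self s).trans hs.le
  calc (1 + s) ^ a ≤ Real.exp s ^ a := pow_le_pow_left₀ h0 h1 a
    _ = Real.exp (a * s) := by rw [← Real.exp_nat_mul]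
    _ ≤ Real.exp c := by
        apply Real.exp_le_exp.2
        calc (a : ℝ) * s ≤ a * (1 / μ) := mul_le_mul_of_nonneg_left h2 (Nat.cast_nonneg a)
          _ ≤ c * μ * (1 / μ) := mul_le_mul_of_nonneg_right ha (by positivity)
          _ = c := by field_simp

/- PROOF: with s = 2y/m - 1: (y/m)^d = 2^-d (1+s)^d, (y/m)^e = 2^-e (1+s)^e =: w, so
2^d blkT - (ff 0 - ff x) = (1+s)^d (exp(-x 2^e w) - (1-w)^M). crad_small: typical (1+s)^d ≤ 3 and
z = (1+s)^e ≤ 2, w = 2^-e z, pow_exp: A = 3 (2/2^e) (1 + 2x) ≤ 6 (1 + 200 n)/2^e. All: |.| ≤ 2^d. -/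
theorem crad_blkT (μ n d e j : ℕ) (hμ : 0 < μ) (hj : j ≤ μ ^ 4) (hde : 2 * d ≤ e)
    (hem : 4 * e ≤ μ) (x : ℝ) (hx : 0 ≤ x) (hx2 : x ≤ 100 * n) :
    |2 ^ d * crad (μ ^ 4) j (blkT (μ ^ 4) d e ⌊x * 2 ^ e⌋₊)
      - lev (μ ^ 4) j (fun s => ff d e 0 s - ff d e x s)| ≤
      6 * (1 + 200 * (n : ℝ)) / 2 ^ e + 2 * 2 ^ d * Real.exp (-(μ : ℝ) ^ 2 / 2) := by
  obtain ⟨M, hM⟩ : ∃ M, M = ⌊x * 2 ^ e⌋₊ := ⟨_, rfl⟩
  rw [← hM]
  unfold lev
  rw [← crad_mul, ← crad_sub]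
  have hμ' : (0 : ℝ) < μ := by exact_mod_cast hμ
  have hw : ∀ y ≤ μ ^ 4, 0 ≤ ((y : ℝ) / ((μ ^ 4 : ℕ) : ℝ)) ^ e ∧
      ((y : ℝ) / ((μ ^ 4 : ℕ) : ℝ)) ^ e ≤ 1 := fun y hy =>
    ⟨pow_nonneg (blkF_unit hy).1 e, pow_le_one₀ (blkF_unit hy).1 (blkF_unit hy).2⟩
  refine crad_small μ j hμ hj _ _ (2 ^ d) (by positivity) (by positivity) ?_ ?_
  · intro y hy hs
    rw [blkF_diff]
    obtain ⟨v, hv⟩ : ∃ v, v = (y : ℝ) / ((μ ^ 4 : ℕ) : ℝ) := ⟨_, rfl⟩
    obtain ⟨s, hsd⟩ : ∃ s, s = 2 * (y : ℝ) / ((μ ^ 4 : ℕ) : ℝ) - 1 := ⟨_, rfl⟩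
    have hv2 : 1 + s = 2 * v := by rw [hsd, hv]; exact blkF_half
    have hw' := hw y hy
    have hvu := blkF_unit hy
    rw [← hsd] at hs
    rw [← hv] at hw' hvu ⊢
    have h0 : 0 ≤ 1 + s := by rw [hv2]; linarith [hvu.1]
    have hc1 : (d : ℝ) ≤ 1 * μ := by
      rw [one_mul]
      exact_mod_cast (by omega : d ≤ μ)
    have hc2 : (e : ℝ) ≤ 1 / 4 * μ := by
      have : (4 : ℝ) * e ≤ μ := by exact_mod_cast hem
      linarith
    have hd3 : (1 + s) ^ d ≤ 3 := (blkF_pow hμ hs h0 hc1).trans (by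
      have := Real.exp_one_lt_d9
      linarith)
    have he2 : (1 + s) ^ e ≤ 2 := (blkF_pow hμ hs h0 hc2).trans (by
      have h3 : Real.exp (1 / 4) ≤ Real.exp (Real.log 2) := by
        apply Real.exp_le_exp.2
        have := Real.log_two_gt_d9
        linarith
      rwa [Real.exp_log (by norm_num)] at h3)
    have hpe : (0 : ℝ) < 2 ^ e := by positivity
    have hwz : v ^ e = (1 + s) ^ e / 2 ^ e := by
      rw [hv2, mul_pow]
      field_simp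
    have hkey := pow_exp e x (v ^ e) hx hw'.1 hw'.2
    rw [← hM] at hkey
    have harg : x * 2 ^ e * v ^ e = x * (2 * v) ^ e := by rw [mul_pow]; ring
    rw [harg] at hkey
    have hz0 : 0 ≤ (1 + s) ^ e := pow_nonneg h0 e
    have hbd : v ^ e + x * 2 ^ e * (v ^ e) ^ 2 ≤ 2 * (1 + 200 * (n : ℝ)) / 2 ^ e := by
      obtain ⟨z, hz⟩ : ∃ z, z = (1 + s) ^ e := ⟨_, rfl⟩
      rw [hwz, ← hz]
      rw [← hz] at he2 hz0
      have e1 : z / 2 ^ e + x * 2 ^ e * (z / 2 ^ e) ^ 2 = z * (1 + x * z) / 2 ^ e := by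
        field_simp
      rw [e1]
      refine div_le_div_of_nonneg_right ?_ hpe.le
      have h3 : x * z ≤ 200 * (n : ℝ) := by nlinarith
      have h4 : 0 ≤ x * z := mul_nonneg hx hz0
      nlinarith
    rw [abs_mul, abs_of_nonneg (pow_nonneg (by linarith [hvu.1] : 0 ≤ 2 * v) d)]
    rw [hv2] at hd3
    calc (2 * v) ^ d * |Real.exp (-(x * (2 * v) ^ e)) - (1 - v ^ e) ^ M|
        ≤ 3 * (2 * (1 + 200 * (n : ℝ)) / 2 ^ e) := by
          refine mul_le_mul hd3 ?_ (abs_nonneg _) (by norm_num)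
          rw [abs_sub_comm]
          exact hkey.trans hbd
      _ = 6 * (1 + 200 * (n : ℝ)) / 2 ^ e := by ring
  · intro y hy
    rw [blkF_diff]
    have hw' := hw y hy
    have hvu := blkF_unit hy
    obtain ⟨v, hv⟩ : ∃ v, v = (y : ℝ) / ((μ ^ 4 : ℕ) : ℝ) := ⟨_, rfl⟩
    rw [← hv] at hw' hvu ⊢
    have h2v : 0 ≤ 2 * v := by linarith [hvu.1]
    rw [abs_mul, abs_of_nonneg (pow_nonneg h2v d)]
    have h3 : (2 * v) ^ d ≤ 2 ^ d := pow_le_pow_left₀ h2v (by linarith [hvu.2]) d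
    have h4 : |Real.exp (-(x * (2 * v) ^ e)) - (1 - v ^ e) ^ M| ≤ 1 := by
      have a1 : 0 < Real.exp (-(x * (2 * v) ^ e)) := Real.exp_pos _
      have a2 : Real.exp (-(x * (2 * v) ^ e)) ≤ 1 := by
        rw [Real.exp_le_one_iff]
        have := mul_nonneg hx (pow_nonneg h2v e)
        linarith
      have a3 : 0 ≤ (1 - v ^ e) ^ M := pow_nonneg (by linarith [hw'.2]) M
      have a4 : (1 - v ^ e) ^ M ≤ 1 := pow_le_one₀ (by linarith [hw'.2]) (by linarith [hw'.1])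
      rw [abs_le]
      constructor <;> linarith
    calc (2 * v) ^ d * |Real.exp (-(x * (2 * v) ^ e)) - (1 - v ^ e) ^ M| ≤ 2 ^ d * 1 :=
          mul_le_mul h3 h4 (abs_nonneg _) (by positivity)
      _ = 2 ^ d := mul_one _

theorem crad_pureT (m d e j : ℕ) (hm : 0 < m) :
    2 ^ d * crad m j (fun y => ((y : ℝ) / m) ^ d) = lev m j (ff d e 0) := by
  unfold lev
  rw [← crad_mul]
  congr 1
  funext y
  unfold ff
  rw [blkF_half, zero_mul, neg_zero, Real.exp_zero, mul_one, mul_pow]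

/- PROOF: 0 ≤ (y/m)^d; ex of (2|x|/m)^d is at most exp(d^2/(2m)) ≤ 2 (moment_pow_le,
moment_ex_exp). -/
theorem crad_blkT_le (m d e M j : ℕ) (hm : 0 < m) (hj : j ≤ m) (hd : d ^ 2 ≤ m) :
    |crad m j (blkT m d e M)| ≤ 2 / 2 ^ d ∧ |crad m j (fun y => ((y : ℝ) / m) ^ d)| ≤ 2 / 2 ^ d := by
  have hm' : (0 : ℝ) < m := by exact_mod_cast hm
  have key : ∀ f : ℕ → ℝ, (∀ y ≤ m, |f y| ≤ ((y : ℝ) / m) ^ d) →
      |crad m j f| ≤ 2 / 2 ^ d := by
    intro f hf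
    have h1 : |crad m j f| ≤ ex (fun x : Finset (Fin m) =>
        1 / 2 ^ d * Real.exp (d * (2 * (x.card : ℝ) / m - 1))) := by
      refine abs_crad_le m j hj f _ fun x => ?_
      have hx : x.card ≤ m := by
        have := card_le_univ x
        simpa using this
      refine (hf _ hx).trans ?_
      have h2 := moment_pow_le hm d x
      have h3 : ((x.card : ℝ) / m) ^ d = 1 / 2 ^ d * (2 * (x.card : ℝ) / m) ^ d := by
        rw [mul_div_assoc, mul_pow]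
        field_simp
      rw [h3]
      exact mul_le_mul_of_nonneg_left h2 (by positivity)
    rw [ex_mul_left] at h1
    have h4 := moment_ex_exp hm (d : ℝ)
    have h5 : Real.exp ((d : ℝ) ^ 2 / (2 * m)) ≤ 2 := by
      have h6 : Real.exp ((d : ℝ) ^ 2 / (2 * m)) ≤ Real.exp (Real.log 2) := by
        apply Real.exp_le_exp.2
        have h7 : (d : ℝ) ^ 2 ≤ m := by exact_mod_cast hd
        have h8 : (d : ℝ) ^ 2 / (2 * m) ≤ 1 / 2 := by
          rw [div_le_div_iff₀ (by positivity) (by norm_num)]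
          linarith
        have := Real.log_two_gt_d9
        linarith
      rwa [Real.exp_log (by norm_num)] at h6
    calc |crad m j f| ≤ _ := h1
      _ ≤ 1 / 2 ^ d * 2 := mul_le_mul_of_nonneg_left (h4.trans h5) (by positivity)
      _ = 2 / 2 ^ d := by ring
  refine ⟨key _ fun y hy => ?_, key _ fun y hy => ?_⟩
  · have h1 := radial_base m e M y hy
    have h2 : 0 ≤ ((y : ℝ) / m) ^ d := pow_nonneg (blkF_unit hy).1 d
    unfold blkT
    rw [abs_mul, abs_of_nonneg h2, abs_of_nonneg h1.1]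
    exact mul_le_of_le_one_right h2 h1.2
  · rw [abs_of_nonneg (pow_nonneg (blkF_unit hy).1 d)]

end Pool.Agent.H.MP_cba12a_lc.QP
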