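import Pool.Agent.H.MP_cba12a_lc.QP.Defs

/-!
# The parameters exist
-/

set_option autoImplicit false

namespace Pool.Agent.H.MP_cba12a_lc.QP

/-- the logarithm of `L = 1000 h` -/
def ll (h : ℕ) : ℕ := Nat.log 2 (1000 * h) + 1

private lemma num_lt (h : ℕ) : 1000 * h < 2 ^ ll h := Nat.lt_pow_succ_log_self (by norm_num) _

private lemma num_120 (l : ℕ) (hl : 11 ≤ l) : 120 * l ≤ 2 ^ l := by
  induction l, hl using Nat.le_induction with
  | base => norm_num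
  | succ m hm ih => rw [pow_succ]; omega

private lemma num_l10 (h : ℕ) (hh : 100 ≤ h) : 11 ≤ ll h := by
  have h1 : 2 ^ 10 ≤ 1000 * h := by norm_num; omega
  have h2 : 10 ≤ Nat.log 2 (1000 * h) := Nat.le_log_of_pow_le (by norm_num) h1
  unfold ll; omega

/- PROOF: all conditions for large h (uniform in κ). With l = ll h, 1000 h < 2^l ≤ 2000 h:
mK: 131072 l * 20 κ ≤ h. kn: 2 κ ≤ h/(4l). lg: log (40000 n^5) ≤ 5 l since n ≤ 2^l, l ≥ 7.
sm: polynomial in h against 2^h. Un: (n+1) (2^(2l+1))^n with 3 l n ≤ (3/4) h.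
en: 3 e = 120000 l h ≤ 2^(3l), 3 l (n+1) ≤ h. ty: 3l(n+1) + 5000h ≤ 32768 l (n+1), as
n + 1 ≥ h/(4l). Ut: (2l+1)(n+1) + 1000h ≤ 32768 l (n+1). bd: (l+1) 2000 h + 6000 h ≤ 131072 l h.
mL, em, Um, Uu: polynomial in 2^l against 2^(32768 l). kU: k + 12 ≤ 1000 h. -/
theorem par_exists : ∃ h₀ : ℕ, ∀ h : ℕ, h₀ ≤ h → ∀ κ : ℕ, 2 ≤ κ → κ * (3000000 * ll h) ≤ h →
    Par h (2 ^ (32768 * ll h)) (2 * κ) (h / (4 * ll h)) (40000 * ll h * h) ((1000 * h) ^ 2) := by
  refine ⟨100, fun h hh κ hκ hκl => ?_⟩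
  have hX := num_lt h
  have hl10 := num_l10 h hh
  have h120 := num_120 (ll h) hl10
  generalize hl : ll h = l at *
  have hnd : h / (4 * l) * (4 * l) ≤ h := Nat.div_mul_le_self _ _
  have hnu : h < (h / (4 * l) + 1) * (4 * l) := by
    have := Nat.lt_div_mul_add (a := h) (b := 4 * l) (by omega)
    nlinarith
  have hkn : 2 * κ ≤ h / (4 * l) := by
    rw [Nat.le_div_iff_mul_le (by omega)]; nlinarith
  have hlh : 6000000 * l ≤ h := by nlinarith
  generalize hn : h / (4 * l) = n at *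
  generalize hXd : (2 : ℕ) ^ l = X at *
  have hX1 : 1 ≤ X := by rw [← hXd]; exact Nat.one_le_two_pow
  have hnh : n * 40 ≤ h := by nlinarith
  have e3 : 3 * (40000 * l * h) ≤ 2 ^ (2 * l) := by
    rw [two_mul, pow_add, hXd]
    calc 3 * (40000 * l * h) = (120 * l) * (1000 * h) := by ring
      _ ≤ X * X := Nat.mul_le_mul h120 hX.le
  have eU : 2 * (1000 * h) ^ 2 ≤ 2 ^ (2 * l + 1) := by
    calc 2 * (1000 * h) ^ 2 ≤ 2 * X ^ 2 := Nat.mul_le_mul_left _ (Nat.pow_le_pow_left hX.le 2)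
      _ = 2 ^ (2 * l + 1) := by rw [← hXd, ← pow_mul, pow_succ]; ring
  refine ⟨hh, by omega, hkn, by omega, by omega, by nlinarith, ?_, ?_, ?_, ?_, ?_, ?_, ?_, ?_, ?_, ?_,
    ?_, ?_, ?_⟩
  · -- lg
    have hn0 : 1 ≤ n := by omega
    have h5 : (40000 * (n : ℝ) ^ 5) ≤ 2 ^ (5 * l) := by
      have h6 : 40000 * n ^ 5 ≤ 2 ^ (5 * l) := by
        have : 40 * n ≤ X := by omega
        rw [mul_comm 5 l, pow_mul, hXd]
        calc 40000 * n ^ 5 ≤ (40 * n) ^ 5 := by rw [mul_pow]; exact Nat.mul_le_mul_right _ (by norm_num)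
          _ ≤ X ^ 5 := Nat.pow_le_pow_left this 5
      exact_mod_cast h6
    have hpos : (0 : ℝ) < 40000 * (n : ℝ) ^ 5 := by
      have : (0 : ℝ) < n := by exact_mod_cast hn0
      positivity
    have h7 : Real.log (40000 * (n : ℝ) ^ 5) ≤ 5 * l := by
      calc Real.log (40000 * (n : ℝ) ^ 5) ≤ Real.log (2 ^ (5 * l)) := Real.log_le_log hpos h5
        _ = (5 * l : ℕ) * Real.log 2 := by rw [Real.log_pow]
        _ ≤ (5 * l : ℕ) * 1 := by
            apply mul_le_mul_of_nonneg_left _ (by positivity)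
            have := Real.log_two_lt_d9; linarith
        _ = 5 * l := by push_cast; ring
    push_cast
    have hh0 : (0 : ℝ) ≤ h := by positivity
    nlinarith [mul_le_mul_of_nonneg_left h7 hh0]
  · -- sm
    have a1 : 2 * κ + 2 ≤ X := by omega
    have a2 : n ≤ X := by omega
    have a3 : 40000 * l * h ≤ 2 ^ (2 * l) := by omega
    calc 10 ^ 9 * (2 * κ + 2) ^ 4 * n ^ 20 * (40000 * l * h) ^ 10
        ≤ 2 ^ 30 * X ^ 4 * X ^ 20 * (2 ^ (2 * l)) ^ 10 := by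
          refine Nat.mul_le_mul (Nat.mul_le_mul (Nat.mul_le_mul (by norm_num) ?_) ?_) ?_
          · exact Nat.pow_le_pow_left a1 _
          · exact Nat.pow_le_pow_left a2 _
          · exact Nat.pow_le_pow_left a3 _
      _ = 2 ^ (30 + l * 4 + l * 20 + 2 * l * 10) := by
          rw [← hXd, ← pow_mul, ← pow_mul, ← pow_mul, ← pow_add, ← pow_add, ← pow_add]
      _ ≤ 2 ^ h := Nat.pow_le_pow_right (by norm_num) (by omega)
  · -- mK
    rw [← pow_mul, ← pow_mul]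
    exact Nat.pow_le_pow_right (by norm_num) (by nlinarith)
  · -- Un
    calc (n + 1) * (2 * (1000 * h) ^ 2) ^ n ≤ 2 ^ n * (2 ^ (2 * l + 1)) ^ n := by
          refine Nat.mul_le_mul Nat.lt_two_pow_self (Nat.pow_le_pow_left eU n)
      _ = 2 ^ (n + (2 * l + 1) * n) := by rw [← pow_mul, ← pow_add]
      _ ≤ 2 ^ h := Nat.pow_le_pow_right (by norm_num) (by nlinarith)
  · -- en
    calc (3 * (40000 * l * h)) ^ (n + 1) ≤ (2 ^ (2 * l)) ^ (n + 1) := Nat.pow_le_pow_left e3 _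
      _ = 2 ^ (2 * l * (n + 1)) := by rw [← pow_mul]
      _ ≤ 2 ^ h := Nat.pow_le_pow_right (by norm_num) (by nlinarith)
  · -- ty
    calc (3 * (40000 * l * h)) ^ (n + 1) * 2 ^ (5000 * h)
        ≤ (2 ^ (2 * l)) ^ (n + 1) * 2 ^ (5000 * h) := by gcongr
      _ = 2 ^ (2 * l * (n + 1) + 5000 * h) := by rw [← pow_mul, ← pow_add]
      _ ≤ 2 ^ (32768 * l * (n + 1)) := Nat.pow_le_pow_right (by norm_num) (by nlinarith)
      _ = (2 ^ (32768 * l)) ^ (n + 1) := by rw [← pow_mul]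
  · -- Ut
    calc (2 * (1000 * h) ^ 2) ^ (n + 1) * 2 ^ (1000 * h)
        ≤ (2 ^ (2 * l + 1)) ^ (n + 1) * 2 ^ (1000 * h) := by gcongr
      _ = 2 ^ ((2 * l + 1) * (n + 1) + 1000 * h) := by rw [← pow_mul, ← pow_add]
      _ ≤ 2 ^ (32768 * l * (n + 1)) := Nat.pow_le_pow_right (by norm_num) (by nlinarith)
      _ = (2 ^ (32768 * l)) ^ (n + 1) := by rw [← pow_mul]
  · -- bd
    have b1 : 2000 * h ≤ 2 ^ (l + 1) := by rw [pow_succ, hXd]; omega
    calc (2000 * h) ^ (2000 * h) * 2 ^ (6000 * h)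
        ≤ (2 ^ (l + 1)) ^ (2000 * h) * 2 ^ (6000 * h) := by gcongr
      _ = 2 ^ ((l + 1) * (2000 * h) + 6000 * h) := by rw [← pow_mul, ← pow_add]
      _ ≤ 2 ^ (32768 * l * 4 * h) := Nat.pow_le_pow_right (by norm_num) (by nlinarith)
      _ = ((2 ^ (32768 * l)) ^ 4) ^ h := by rw [pow_mul, pow_mul]
  · -- mL
    calc 40000 * h ≤ 2 ^ (l + 6) := by rw [pow_add, hXd]; omega
      _ ≤ 2 ^ (32768 * l) := Nat.pow_le_pow_right (by norm_num) (by omega)
  · -- em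
    calc 4 * (40000 * l * h) ≤ 2 ^ (2 * l + 1) := by rw [pow_succ]; omega
      _ ≤ 2 ^ (32768 * l) := Nat.pow_le_pow_right (by norm_num) (by omega)
  · -- Um
    calc 3 * ((1000 * h) ^ 2) ^ 2 ≤ (2 * (1000 * h) ^ 2) ^ 2 := by nlinarith [sq_nonneg ((1000 * h) ^ 2)]
      _ ≤ (2 ^ (2 * l + 1)) ^ 2 := Nat.pow_le_pow_left eU 2
      _ = 2 ^ ((2 * l + 1) * 2) := by rw [← pow_mul]
      _ ≤ 2 ^ (32768 * l * 4) := Nat.pow_le_pow_right (by norm_num) (by omega)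
      _ = (2 ^ (32768 * l)) ^ 4 := by rw [← pow_mul]
  · -- Uu
    exact eU.trans (Nat.pow_le_pow_right (by norm_num) (by omega))
  · -- kU
    rw [pow_two]
    exact Nat.mul_le_mul_right _ (by omega)

end Pool.Agent.H.MP_cba12a_lc.QP
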