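import Pool.Agent.H.MP_cba12a_lc.QP.Defs
import Pool.Agent.H.MP_cba12a_lc.QP.Num

/-!
# Choice of the parameters
-/

set_option autoImplicit false

namespace Pool.Agent.H.MP_cba12a_lc.QP

open Finset Pool.Agent.H.MP_cba12a_lc.SQ

/-- the size of the logarithm -/
private theorem choose_event (h₀ : ℕ) : ∃ X : ℝ, ∀ x : ℝ, X ≤ x →
    1 ≤ Real.logb 2 x ∧ 10 ^ 40 * Real.logb 2 x ^ 4 ≤ x ∧
      (h₀ : ℝ) + 1 ≤ x / (100000 * Real.logb 2 x) ∧ 1 ≤ x := by
  have e1 : ∀ᶠ x : ℝ in Filter.atTop, 1 ≤ Real.logb 2 x :=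
    (Real.tendsto_logb_atTop (by norm_num : (1 : ℝ) < 2)).eventually_ge_atTop 1
  have hlog2 : 0 < Real.log 2 := Real.log_pos (by norm_num)
  have e2 : ∀ᶠ x : ℝ in Filter.atTop, 10 ^ 40 * Real.logb 2 x ^ 4 ≤ x := by
    have h1 := (Real.isLittleO_pow_log_id_atTop (n := 4)).def
      (c := Real.log 2 ^ 4 / 10 ^ 40) (by positivity)
    filter_upwards [h1, Filter.eventually_ge_atTop (1 : ℝ)] with x hx hx1
    rw [Real.norm_of_nonneg (by positivity), id, Real.norm_of_nonneg (by linarith)] at hx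
    unfold Real.logb
    rw [div_pow]
    have h4 : (0 : ℝ) < Real.log 2 ^ 4 := by positivity
    rw [← mul_div_assoc, div_le_iff₀ h4]
    calc 10 ^ 40 * Real.log x ^ 4 ≤ 10 ^ 40 * (Real.log 2 ^ 4 / 10 ^ 40 * x) :=
          mul_le_mul_of_nonneg_left hx (by positivity)
      _ = x * Real.log 2 ^ 4 := by ring
  have e3 : ∀ᶠ x : ℝ in Filter.atTop, 100000 * ((h₀ : ℝ) + 1) ≤ Real.logb 2 x :=
    (Real.tendsto_logb_atTop (by norm_num : (1 : ℝ) < 2)).eventually_ge_atTop _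
  obtain ⟨X, hX⟩ := Filter.eventually_atTop.1
    (e1.and (e2.and (e3.and (Filter.eventually_ge_atTop (1 : ℝ)))))
  refine ⟨X, fun x hx => ?_⟩
  obtain ⟨h1, h2, h3, h4⟩ := hX x hx
  refine ⟨h1, h2, ?_, h4⟩
  have hy : 0 < Real.logb 2 x := by linarith
  rw [le_div_iff₀ (by positivity)]
  have h5 : Real.logb 2 x ^ 2 ≤ Real.logb 2 x ^ 4 := pow_le_pow_right₀ h1 (by norm_num)
  have h6 : ((h₀ : ℝ) + 1) * (100000 * Real.logb 2 x) ≤ Real.logb 2 x * Real.logb 2 x := by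
    have := mul_le_mul_of_nonneg_right h3 hy.le
    nlinarith
  have h7 : 0 ≤ Real.logb 2 x ^ 4 := by positivity
  nlinarith

/-- the real part of the choice -/
private theorem choose_real {x y : ℝ} {h l κ : ℕ} (hy : 1 ≤ y) (hx : 10 ^ 40 * y ^ 4 ≤ x)
    (hh1 : (h : ℝ) ≤ x / (100000 * y)) (hh2 : x / (100000 * y) < h + 1) (hl1 : 1 ≤ l)
    (hl : (l : ℝ) ≤ y) (hκ : κ = h / (3000000 * l)) :
    2 ≤ κ ∧ ((3000 * h + 40000 * l * h : ℕ) : ℝ) ≤ x ∧
    ((131072 * l + 1000 * h : ℕ) : ℝ) ≤ x ∧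
    3 + 4 * (x * (10 ^ (-16 : ℤ) * x / y ^ 3)) ≤ (((κ - 1) * (1000 * h) : ℕ) : ℝ) ∧
    x * (10 ^ (-16 : ℤ) / y) + 1 ≤ 400 * h ∧
    x * (10 ^ (-16 : ℤ) / y) + 1 ≤ x * (10 ^ (-16 : ℤ) * x / y ^ 3) := by
  have hy0 : 0 < y := by linarith
  have hy4 : 1 ≤ y ^ 4 := one_le_pow₀ hy
  have hx0 : 0 < x := by nlinarith
  have hx40 : (10 : ℝ) ^ 40 ≤ x := by nlinarith
  -- the ratio
  set r : ℝ := x / y with hr
  have hxr : x = r * y := by rw [hr]; field_simp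
  have hry : 10 ^ 40 * y ^ 3 ≤ r := by
    rw [hr, le_div_iff₀ hy0]
    calc 10 ^ 40 * y ^ 3 * y = 10 ^ 40 * y ^ 4 := by ring
      _ ≤ x := hx
  have hy3 : 1 ≤ y ^ 3 := one_le_pow₀ hy
  have hyy3 : y ≤ y ^ 3 := by
    calc y = y ^ 1 := (pow_one y).symm
      _ ≤ y ^ 3 := pow_le_pow_right₀ hy (by norm_num)
  have hr40 : (10 : ℝ) ^ 40 ≤ r := by nlinarith
  have hr0 : 0 < r := by linarith
  have hdiv : x / (100000 * y) = r / 100000 := by
    rw [hr]
    field_simp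
  rw [hdiv] at hh1 hh2
  have hh3 : r / 200000 ≤ h := by
    have : (1 : ℝ) ≤ r / 200000 := by
      rw [le_div_iff₀ (by norm_num)]
      linarith
    linarith
  have hl0 : (1 : ℝ) ≤ l := by exact_mod_cast hl1
  have hlpos : (0 : ℝ) < l := by linarith
  have hh0 : (0 : ℝ) < h := by
    have : (0 : ℝ) < r / 200000 := by positivity
    linarith
  -- size of h against l
  have hhl : 12000000 * (l : ℝ) ≤ h := by
    have h1 : 12000000 * (l : ℝ) ≤ 12000000 * y := by linarith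
    have h2 : 12000000 * y ≤ r / 200000 := by
      rw [le_div_iff₀ (by norm_num)]
      nlinarith
    linarith
  have hD : 0 < 3000000 * l := by omega
  have hdm := Nat.div_add_mod h (3000000 * l)
  have hml := Nat.mod_lt h hD
  have hκ0 : (h : ℝ) < 3000000 * l * (κ + 1) := by
    have h1 : h < 3000000 * l * (κ + 1) := by
      rw [hκ, mul_add, mul_one]
      omega
    exact_mod_cast h1
  have hκ2 : 2 ≤ κ := by
    rw [hκ, Nat.le_div_iff_mul_le hD]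
    have h1 : 12000000 * l ≤ h := by exact_mod_cast hhl
    omega
  have hκc : ((κ - 1 : ℕ) : ℝ) = (κ : ℝ) - 1 := by
    rw [Nat.cast_sub (by omega)]
    norm_num
  have hκ1 : (h : ℝ) / (6000000 * l) ≤ (κ : ℝ) - 1 := by
    rw [div_le_iff₀ (by positivity)]
    nlinarith
  have hrr : 10 ^ 40 * r ≤ r ^ 2 / y := by
    rw [le_div_iff₀ hy0]
    have h1 : 10 ^ 40 * y ≤ r := by nlinarith
    calc 10 ^ 40 * r * y = 10 ^ 40 * y * r := by ring
      _ ≤ r * r := mul_le_mul_of_nonneg_right h1 hr0.le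
      _ = r ^ 2 := by ring
  have hxx : x * (10 ^ (-16 : ℤ) * x / y ^ 3) = 10 ^ (-16 : ℤ) * (r ^ 2 / y) := by
    rw [hxr]
    field_simp
  have hxy1 : x * ((10 : ℝ) ^ (-16 : ℤ) / y) = 10 ^ (-16 : ℤ) * r := by
    rw [hxr]
    field_simp
  have h16 : (10 : ℝ) ^ (-16 : ℤ) = 1 / 10 ^ 16 := by
    norm_num
  refine ⟨hκ2, ?_, ?_, ?_, ?_, ?_⟩
  · push_cast
    have h1 : (l : ℝ) * h ≤ y * (r / 100000) := mul_le_mul hl hh1 hh0.le hy0.le
    have h2 : (h : ℝ) ≤ y * (r / 100000) := by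
      have h3 : (h : ℝ) ≤ 1 * (r / 100000) := by linarith
      refine h3.trans ?_
      apply mul_le_mul_of_nonneg_right hy (by positivity)
    rw [hxr]
    nlinarith
  · push_cast
    have h1 : 131072 * y ≤ r / 2 := by
      rw [le_div_iff₀ (by norm_num)]
      nlinarith
    have h2 : r ≤ x := by
      rw [hxr]
      nlinarith
    linarith
  · rw [hxx, h16]
    push_cast
    rw [hκc]
    have h1 : (h : ℝ) / (6000000 * y) ≤ (κ : ℝ) - 1 := by
      refine le_trans ?_ hκ1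
      apply div_le_div_of_nonneg_left hh0.le (by positivity)
      linarith
    have h2 : r ^ 2 / y / (240000000000000 : ℝ) ≤ (h : ℝ) / (6000000 * y) * (1000 * h) := by
      have h3 : (r / 200000) ^ 2 ≤ (h : ℝ) ^ 2 := pow_le_pow_left₀ (by positivity) hh3 2
      rw [div_div, div_mul_eq_mul_div, div_le_div_iff₀ (by positivity) (by positivity)]
      nlinarith
    have h4 : (h : ℝ) / (6000000 * y) * (1000 * h) ≤ ((κ : ℝ) - 1) * (1000 * h) :=
      mul_le_mul_of_nonneg_right h1 (by positivity)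
    have h5 : (10 : ℝ) ^ 40 * 10 ^ 40 ≤ r ^ 2 / y := by nlinarith
    nlinarith
  · rw [hxy1, h16]
    nlinarith
  · rw [hxy1, hxx, h16]
    nlinarith

/- PROOF: choice of h, κ for given s. x = logb 2 s, h = floor (x/(10^5 logb 2 x)), l = ll h ≤
logb 2 x (as 2000h ≤ x/50 ..), κ = floor (h/(3000000 l)) ≥ 2. Then
(40000 l h + 3000 h) ≤ x, 131072 l + 1000 h ≤ x, and 8 Q^4 ≤ 2^((κ-1)1000h) for
Q = s^(c x/(logb 2 x)^3) with small c, and (1/2)^(400h) + 1/Q ≤ s^(-c/logb 2 x). -/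
theorem choose_par : ∃ c : ℝ, 0 < c ∧ ∃ s₀ : ℕ, ∀ s : ℕ, s₀ ≤ s → ∃ h κ : ℕ, 2 ≤ κ ∧
    Par h (2 ^ (32768 * ll h)) (2 * κ) (h / (4 * ll h)) (40000 * ll h * h) ((1000 * h) ^ 2) ∧
    2 ^ (3000 * h + 40000 * ll h * h) ≤ s ∧
    (2 ^ (32768 * ll h)) ^ 4 * 2 ^ (1000 * h) ≤ s ∧
    1 ≤ (s : ℝ) ^ (c * Real.logb 2 s / Real.logb 2 (Real.logb 2 s) ^ 3) ∧
    8 * ((s : ℝ) ^ (c * Real.logb 2 s / Real.logb 2 (Real.logb 2 s) ^ 3)) ^ 4 ≤
      2 ^ ((κ - 1) * (1000 * h)) ∧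
    (1 / 2) ^ (400 * h) + 1 / (s : ℝ) ^ (c * Real.logb 2 s / Real.logb 2 (Real.logb 2 s) ^ 3) ≤
      (s : ℝ) ^ (-(c / Real.logb 2 (Real.logb 2 s))) := by
  obtain ⟨h₀, hpar⟩ := par_exists
  obtain ⟨X, hX⟩ := choose_event h₀
  refine ⟨10 ^ (-16 : ℤ), by positivity, ?_⟩
  have htend : Filter.Tendsto (fun s : ℕ => Real.logb 2 (s : ℝ)) Filter.atTop Filter.atTop :=
    (Real.tendsto_logb_atTop (by norm_num : (1 : ℝ) < 2)).comp tendsto_natCast_atTop_atTop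
  obtain ⟨s₀, hs₀⟩ := Filter.eventually_atTop.1
    ((htend.eventually_ge_atTop X).and (Filter.eventually_ge_atTop 1))
  refine ⟨s₀, fun s hs => ?_⟩
  obtain ⟨hsX, hs1⟩ := hs₀ s hs
  obtain ⟨hy, hxy, hh0, hx1⟩ := hX _ hsX
  set x : ℝ := Real.logb 2 (s : ℝ) with hx
  set y : ℝ := Real.logb 2 x with hydef
  have hspos : (0 : ℝ) < (s : ℝ) := by exact_mod_cast hs1
  have hsx : (s : ℝ) = 2 ^ x := (Real.rpow_logb (by norm_num) (by norm_num) hspos).symm
  have hy0 : 0 < y := by linarith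
  have hx0 : 0 < x := by linarith
  set h : ℕ := ⌊x / (100000 * y)⌋₊ with hh
  have hq0 : 0 ≤ x / (100000 * y) := by positivity
  have hh1 : (h : ℝ) ≤ x / (100000 * y) := Nat.floor_le hq0
  have hh2 : x / (100000 * y) < h + 1 := Nat.lt_floor_add_one _
  have hhh : h₀ ≤ h := by
    apply Nat.le_floor
    linarith
  have hhpos : 1 ≤ h := by
    apply Nat.le_floor
    have : (0 : ℝ) ≤ h₀ := Nat.cast_nonneg h₀
    push_cast
    linarith
  have hl : ((ll h : ℕ) : ℝ) ≤ y := by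
    rw [hydef, Real.le_logb_iff_rpow_le (by norm_num) hx0, Real.rpow_natCast]
    have h1 : 2 ^ ll h ≤ 2000 * h := by
      unfold ll
      rw [pow_succ]
      have := Nat.pow_log_le_self 2 (show 1000 * h ≠ 0 by omega)
      omega
    have h2 : ((2 ^ ll h : ℕ) : ℝ) ≤ ((2000 * h : ℕ) : ℝ) := by exact_mod_cast h1
    push_cast at h2
    have h3 : 2000 * (x / (100000 * y)) ≤ x := by
      rw [mul_div_assoc', div_le_iff₀ (by positivity)]
      nlinarith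
    linarith
  obtain ⟨k1, k2, k3, k4, k5, k6⟩ := choose_real hy hxy hh1 hh2
    (show 1 ≤ ll h by unfold ll; omega) hl (rfl : h / (3000000 * ll h) = h / (3000000 * ll h))
  have hpw : ∀ N : ℕ, (N : ℝ) ≤ x → 2 ^ N ≤ s := by
    intro N hN
    have h1 : ((2 ^ N : ℕ) : ℝ) ≤ (s : ℝ) := by
      rw [hsx]
      push_cast
      rw [← Real.rpow_natCast]
      exact Real.rpow_le_rpow_of_exponent_le (by norm_num) hN
    exact_mod_cast h1
  refine ⟨h, h / (3000000 * ll h), k1, hpar h hhh _ k1 (Nat.div_mul_le_self _ _), hpw _ k2, ?_,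
    ?_, ?_, ?_⟩
  · have h1 := hpw _ k3
    have e : 32768 * ll h * 4 + 1000 * h = 131072 * ll h + 1000 * h := by omega
    rw [← pow_mul, ← pow_add, e]
    exact h1
  · apply Real.one_le_rpow
    · exact_mod_cast hs1
    · positivity
  · rw [hsx, ← Real.rpow_mul (by norm_num), ← Real.rpow_natCast (2 ^ (_ : ℝ)) 4,
      ← Real.rpow_mul (by norm_num), ← Real.rpow_natCast 2 ((h / (3000000 * ll h) - 1) * _)]
    have h8 : (8 : ℝ) = 2 ^ (3 : ℝ) := by norm_num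
    rw [h8, ← Real.rpow_add (by norm_num)]
    apply Real.rpow_le_rpow_of_exponent_le (by norm_num)
    push_cast at k4 ⊢
    linarith
  · have e1 : ((1 : ℝ) / 2) ^ (400 * h) = 2 ^ (-(400 * (h : ℝ))) := by
      rw [one_div, inv_pow, ← Real.rpow_natCast, ← Real.rpow_neg (by norm_num)]
      push_cast
      rfl
    have e2 : 1 / (s : ℝ) ^ (10 ^ (-16 : ℤ) * x / y ^ 3) =
        2 ^ (-(x * (10 ^ (-16 : ℤ) * x / y ^ 3))) := by
      rw [hsx, ← Real.rpow_mul (by norm_num), one_div, ← Real.rpow_neg (by norm_num)]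
    have e3 : (s : ℝ) ^ (-((10 : ℝ) ^ (-16 : ℤ) / y)) = 2 ^ (-(x * (10 ^ (-16 : ℤ) / y))) := by
      rw [hsx, ← Real.rpow_mul (by norm_num)]
      congr 1
      ring
    rw [e1, e2, e3]
    have hhalf : ∀ a b : ℝ, b + 1 ≤ a → (2 : ℝ) ^ (-a) ≤ 2 ^ (-b) / 2 := by
      intro a b hab
      rw [show (2 : ℝ) ^ (-b) / 2 = 2 ^ (-b - 1) by
        rw [Real.rpow_sub (by norm_num), Real.rpow_one]]
      apply Real.rpow_le_rpow_of_exponent_le (by norm_num)
      linarith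
    have h1 := hhalf _ _ k5
    have h2 := hhalf _ _ k6
    linarith

end Pool.Agent.H.MP_cba12a_lc.QP
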