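import Pool.Agent.H.MP_cba12a_lc.QP.Jet
import Pool.Agent.H.MP_cba12a_lc.SQ.Defs

/-!
# Definitions for the quasipolynomial statistical query lower bound

Parameters: `m = μ ^ 4` rows, `N = 2 ^ (1000 h)` columns, `k` levels, `n` jets, blocks made of a
random `d`-tuple and of random `e`-tuples, `d = 2000 h`.
-/

set_option autoImplicit false

namespace Pool.Agent.H.MP_cba12a_lc.QP

open Finset Pool.Agent.H.MP_cba12a_lc.SQ

/-- the lower end of the interval of the parameter `x` -/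
noncomputable def lo (n : ℕ) : ℝ := 1 / (400 * (n : ℝ) ^ 4)

/-- the sign conditions: all generators are nonnegative -/
def Sgn (n : ℕ) (Q : Polynomial ℝ) : Prop :=
  0 ≤ Q.eval 0 ∧ ∀ x : ℝ, lo n ≤ x → x ≤ 100 * n → 0 ≤ Q.eval 0 - Real.exp (-x) * Q.eval x

/-- the combination of the polynomials `RR` with coefficients `w` -/
noncomputable def QQ (n d e : ℕ) (w : ℕ → ℝ) : Polynomial ℝ :=
  ∑ i ∈ range (n + 1), Polynomial.C (w i) * RR d e i

/-- the response of a block with parameter `x` (normalised, `x = 0`: the pure conjunction) -/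
noncomputable def ff (d e : ℕ) (x s : ℝ) : ℝ := (1 + s) ^ d * Real.exp (-(x * (1 + s) ^ e))

/-- its Taylor polynomial of degree `n` at zero -/
noncomputable def tf (n d e : ℕ) (x s : ℝ) : ℝ :=
  ∑ i ∈ range (n + 1), s ^ i / (i.factorial : ℝ) * (Real.exp (-x) * (RR d e i).eval x)

/-- the coefficient of level `j` of the radial function `f (2 |x| / m - 1)` -/
noncomputable def lev (m j : ℕ) (f : ℝ → ℝ) : ℝ := crad m j fun y => f (2 * (y : ℝ) / m - 1)

/-- the radial average of a block: a random `d`-tuple and one of `M` random `e`-tuples -/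
noncomputable def blkT (m d e M y : ℕ) : ℝ :=
  ((y : ℝ) / m) ^ d * (1 - (1 - ((y : ℝ) / m) ^ e) ^ M)

/-- the error of the Taylor approximation -/
noncomputable def tau (μ n d e : ℕ) : ℝ :=
  3 * (3 * (e : ℝ) / μ) ^ (n + 1) + 2 * (2 ^ d + (3 * (e : ℝ)) ^ (n + 1)) * Real.exp (-(μ : ℝ) ^ 2 / 2)

/-- the response of a random set of size `u`, as a function of `s = 2 |x| / m - 1` -/
noncomputable def urp (m u : ℕ) : Polynomial ℝ :=
  Polynomial.C ((1 / 2) ^ u) * ∏ i ∈ range u,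
    (Polynomial.C (1 / (1 - (i : ℝ) / m)) * (Polynomial.C (1 - 2 * (i : ℝ) / m) + Polynomial.X))

/-- The numerical conditions on the parameters (`L = 1000 h`, `m = μ ^ 4` rows, `2 ^ L` columns,
levels below `k`, `n` jets, tuples of lengths `2 L` and `e`, widths at most `U`). -/
structure Par (h μ k n e U : ℕ) : Prop where
  h1 : 100 ≤ h
  k3 : 3 ≤ k
  kn : k ≤ n
  n2 : 2 ≤ n
  nd : n + 1 < 2000 * h
  de : 4000 * h ≤ e
  lg : 4 * ((2000 * h : ℕ) : ℝ) * Real.log (40000 * (n : ℝ) ^ 5) ≤ e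
  sm : 10 ^ 9 * (k + 2) ^ 4 * n ^ 20 * e ^ 10 ≤ 2 ^ h
  mK : (μ ^ 4) ^ (10 * k) ≤ 2 ^ h
  Un : (n + 1) * (2 * U) ^ n ≤ 2 ^ h
  en : (3 * e) ^ (n + 1) ≤ 2 ^ h
  ty : (3 * e) ^ (n + 1) * 2 ^ (5000 * h) ≤ μ ^ (n + 1)
  Ut : (2 * U) ^ (n + 1) * 2 ^ (1000 * h) ≤ μ ^ (n + 1)
  bd : (2000 * h) ^ (2000 * h) * 2 ^ (6000 * h) ≤ (μ ^ 4) ^ h
  mL : 40000 * h ≤ μ
  em : 4 * e ≤ μ
  Um : 3 * U ^ 2 ≤ μ ^ 4
  Uu : 2 * U ≤ μ
  kU : (k + 12) * (1000 * h) ≤ U

end Pool.Agent.H.MP_cba12a_lc.QP
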