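import Pool.Agent.H.MP_cba12a_lc.QP.Theta2
import Pool.Agent.H.MP_cba12a_lc.SQ.StageDist
import Pool.Agent.H.MP_cba12a_lc.SQ.Iterate

/-!
# The distribution of a correction stage, many levels
-/

set_option autoImplicit false

namespace Pool.Agent.H.MP_cba12a_lc.QP

open Finset Pool.Agent.H.MP_cba12a_lc.SQ

private theorem Dist2_pow {m k u : ℕ} (hm0 : (0 : ℝ) < m) (hm2 : 8 * (u * k) ≤ m) :
    (1 + 2 * (u : ℝ) / m) ^ k ≤ 3 / 2 := by
  have hx0 : (0 : ℝ) ≤ 2 * (u : ℝ) / m := by positivity
  have hkx : (k : ℝ) * (2 * (u : ℝ) / m) ≤ 1 / 4 := by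
    have h1 : 8 * ((u : ℝ) * k) ≤ m := by exact_mod_cast hm2
    rw [← mul_div_assoc, div_le_iff₀ hm0]
    linarith
  rcases Nat.eq_zero_or_pos k with hk | hk
  · subst hk
    norm_num
  have hk1 : (1 : ℝ) ≤ k := by exact_mod_cast hk
  have hx1 : 2 * (u : ℝ) / m ≤ 1 / 4 := by nlinarith
  set x : ℝ := 2 * (u : ℝ) / m with hx
  have h1 : 1 + (k : ℝ) * (-x) ≤ (1 + -x) ^ k := one_add_mul_le_pow (by linarith) k
  have h2 : 3 / 4 ≤ (1 + -x) ^ k := by linarith
  have h3 : (1 + x) ^ k * (1 + -x) ^ k ≤ 1 := by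
    rw [← mul_pow]
    apply pow_le_one₀
    · nlinarith
    · nlinarith
  have h4 : 0 ≤ (1 + x) ^ k := by positivity
  nlinarith

private theorem Dist2_c {m : ℕ} (k u : ℕ) (hku : k ≤ u) (hm : 2 * (u + k) ≤ m)
    {B₀ B : Finset (Fin m)} (h : B₀ ⊂ B) (hBk : B.card < k) :
    |(if B₀ ⊆ B then ((m - (B₀ ∪ B).card).choose (u - (B \ B₀).card) : ℝ) /
        ((m - B₀.card).choose u : ℝ) * (if (B \ B₀).card ≤ u then 1 else 0) else 0)|
      ≤ (2 * (u : ℝ) / m) ^ (B \ B₀).card := by
  have hsub := h.subset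
  have hc := card_sdiff_add_card_eq_card hsub
  have hb : (B \ B₀).card ≤ u := by omega
  rw [if_pos hsub, if_pos hb, mul_one, abs_of_nonneg (by positivity), union_eq_right.2 hsub]
  have h1 := iterate_choose (m - B₀.card) u (B \ B₀).card hb (by omega) (by omega)
  have e1 : m - B₀.card - (B \ B₀).card = m - B.card := by omega
  rw [e1] at h1
  refine h1.trans (pow_le_pow_left₀ (by positivity) ?_ _)
  have hm0 : (0 : ℝ) < m := by
    have : 0 < m := by omega
    exact_mod_cast this
  have hM : (m : ℝ) ≤ 2 * ((m - B₀.card : ℕ) : ℝ) := by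
    have : m ≤ 2 * (m - B₀.card) := by omega
    exact_mod_cast this
  rw [div_le_div_iff₀ (by linarith) hm0]
  have hu : (0 : ℝ) ≤ u := Nat.cast_nonneg u
  nlinarith

/- PROOF: as SQ.stage_dist (StageDist.lean). For B₀ ⊂ B, b = |B \ B₀|, M = m - |B₀| ≥ m/2:
C(M-b,u-b)/C(M,u) ≤ (u/M)^b ≤ (2u/m)^b =: x^b (see SQ.iterate_choose); (1+x)^k ≤ 1 + 2 k x ≤ 3/2
since 8 u k ≤ m. exists_theta2 gives |θ| ≤ 2 t0, and the key inequality is now
2 * 2^(2k) * (2k) ≤ m^k (from 16 ≤ m, 3 ≤ k). -/
theorem stage_dist2 {m : ℕ} (k u : ℕ) (hk : 3 ≤ k) (hku : k ≤ u) (hm : 2 * (u + k) ≤ m)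
    (hm2 : 8 * (u * k) ≤ m) (hm3 : 16 ≤ m) (τ : Finset (Fin m) → ℝ)
    (hτ : ∀ B, |τ B| * 2 ^ u * (m : ℝ) ^ (3 * k) ≤ 1) :
    ∃ p : Option (Finset (Fin m)) → ℝ, (∀ ω, 0 ≤ p ω) ∧ ∑ ω, p ω = 1 ∧
      (∀ T, p (some T) ≠ 0 → u ≤ T.card ∧ T.card ≤ u + k) ∧
      (∀ x : Finset (Fin m), ∑ T, p (some T) * cj T x ≤ ((x.card : ℝ) / m) ^ u) ∧
      ∀ B : Finset (Fin m), 2 ≤ B.card → B.card < k →
        ∑ T, p (some T) * co (cj T) B = plan m k u B.card + τ B := by
  have hm0 : (0 : ℝ) < m := by
    have : 0 < m := by omega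
    exact_mod_cast this
  have hm2' : 2 ≤ m := by omega
  have hkR : (0 : ℝ) < k := by
    have : 0 < k := by omega
    exact_mod_cast this
  set t0 : ℝ := 1 / (2 ^ u * (m : ℝ) ^ (3 * k)) with ht0
  have ht0n : 0 ≤ t0 := by positivity
  have hτ' : ∀ B, |τ B| ≤ t0 := by
    intro B
    rw [ht0, le_div_iff₀ (by positivity), ← mul_assoc]
    exact hτ B
  set c : Finset (Fin m) → Finset (Fin m) → ℝ := fun B₀ B =>
    (if B₀ ⊆ B then ((m - (B₀ ∪ B).card).choose (u - (B \ B₀).card) : ℝ) /
        ((m - B₀.card).choose u : ℝ) * (if (B \ B₀).card ≤ u then 1 else 0) else 0) with hcdef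
  obtain ⟨θ, hθb, hθ0, hθe⟩ := exists_theta2 k t0 ht0n (2 * (u : ℝ) / m) (by positivity)
    (Dist2_pow hm0 hm2) τ hτ' c (fun B₀ B h1 h2 => Dist2_c k u hku hm h1 h2)
  set b : Finset (Fin m) → ℝ := fun T => ∑ l ∈ range k, (if T.card = u + l then
      1 / (2 * k) / (m.choose (u + l) : ℝ) else 0) with hbdef
  set s : Finset (Fin m) → ℝ := fun T => ∑ B₀, θ B₀ * gadg u B₀ T with hsdef
  have hb0 : ∀ T, 0 ≤ b T := by
    intro T
    apply sum_nonneg
    intro l _
    split
    · positivity
    · exact le_rfl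
  have hbval : ∀ T : Finset (Fin m), ∀ l, l < k → T.card = u + l →
      b T = 1 / (2 * k) / (m.choose (u + l) : ℝ) := by
    intro T l hl hT
    rw [hbdef]
    simp only
    rw [sum_eq_single l]
    · rw [if_pos hT]
    · intro l' _ hne
      rw [if_neg (by omega)]
    · intro h
      exact absurd (mem_range.2 hl) h
  have hterm : ∀ T B₀ : Finset (Fin m), θ B₀ * gadg u B₀ T ≠ 0 →
      B₀.card < k ∧ u ≤ T.card ∧ T.card < u + k := by
    intro T B₀ hne
    have h1 : θ B₀ ≠ 0 := left_ne_zero_of_mul hne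
    have h2 : gadg u B₀ T ≠ 0 := right_ne_zero_of_mul hne
    have h3 : 2 ≤ B₀.card ∧ B₀.card < k := by
      by_contra h
      exact h1 (hθ0 B₀ h)
    have h4 : (T \ B₀).card = u := by
      by_contra h
      apply h2
      unfold gadg
      rw [if_neg h]
    have h5 := card_sdiff_add_card_inter T B₀
    have h6 : (T ∩ B₀).card ≤ B₀.card := card_le_card inter_subset_right
    exact ⟨h3.2, by omega, by omega⟩
  have hkey : (2 : ℝ) * 2 ^ (2 * k) * (2 * k) ≤ (m : ℝ) ^ k := by
    have h1 : 2 * 2 ^ (2 * k) * (2 * k) ≤ m ^ k := by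
      have h2 : 4 * k ≤ 2 ^ (2 * k) := by
        have h3 : ∀ n, 4 * (n + 1) ≤ 2 ^ (2 * (n + 1)) := by
          intro n
          induction n with
          | zero => norm_num
          | succ n ih =>
            have h4 : 2 ^ (2 * (n + 1 + 1)) = 4 * 2 ^ (2 * (n + 1)) := by
              rw [show 2 * (n + 1 + 1) = 2 * (n + 1) + 2 by ring, pow_add]
              ring
            rw [h4]
            omega
        obtain ⟨n, rfl⟩ : ∃ n, k = n + 1 := ⟨k - 1, by omega⟩
        exact h3 n
      calc 2 * 2 ^ (2 * k) * (2 * k) = 2 ^ (2 * k) * (4 * k) := by ring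
        _ ≤ 2 ^ (2 * k) * 2 ^ (2 * k) := Nat.mul_le_mul_left _ h2
        _ = 16 ^ k := by
            rw [← pow_add, show 2 * k + 2 * k = 4 * k by ring, pow_mul]
            norm_num
        _ ≤ m ^ k := Nat.pow_le_pow_left hm3 k
    exact_mod_cast h1
  have hs : ∀ T, |s T| ≤ b T := by
    intro T
    by_cases hT : u ≤ T.card ∧ T.card < u + k
    · obtain ⟨cc, hcc⟩ := Nat.exists_eq_add_of_le hT.1
      have hcck : cc < k := by omega
      rw [hbval T cc hcck hcc]
      have hP : (0 : ℝ) < (m.choose (u + cc) : ℝ) := by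
        exact_mod_cast Nat.choose_pos (by omega)
      have h1 : |s T| ≤ ∑ B₀ ∈ univ.filter (fun B : Finset (Fin m) => B.card < k),
          (2 * t0) * (2 ^ (u + k) * (2 ^ k * (m : ℝ) ^ k / (m.choose (u + cc) : ℝ))) := by
        rw [hsdef]
        simp only
        rw [← sum_subset (subset_univ (univ.filter (fun B : Finset (Fin m) => B.card < k)))]
        · refine (abs_sum_le_sum_abs _ _).trans ?_
          apply sum_le_sum
          intro B₀ hB₀
          have hB₀' := (mem_filter.1 hB₀).2
          rw [abs_mul]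
          apply mul_le_mul (hθb B₀) _ (abs_nonneg _) (by positivity)
          rw [stagedist_gadg_abs]
          split
          · rw [div_eq_mul_one_div]
            apply mul_le_mul
            · apply pow_le_pow_right₀ (by norm_num)
              omega
            · exact stagedist_ratio hB₀' hcck hm
            · positivity
            · positivity
          · positivity
        · intro B₀ _ hB₀
          by_contra hne
          exact hB₀ (mem_filter.2 ⟨mem_univ _, (hterm T B₀ hne).1⟩)
      refine h1.trans ?_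
      rw [sum_const, nsmul_eq_mul]
      have h2 : ((univ.filter (fun B : Finset (Fin m) => B.card < k)).card : ℝ) ≤ (m : ℝ) ^ k := by
        exact_mod_cast stagedist_count k hm2'
      calc ((univ.filter (fun B : Finset (Fin m) => B.card < k)).card : ℝ) *
            ((2 * t0) * (2 ^ (u + k) * (2 ^ k * (m : ℝ) ^ k / (m.choose (u + cc) : ℝ))))
          ≤ (m : ℝ) ^ k * ((2 * t0) *
            (2 ^ (u + k) * (2 ^ k * (m : ℝ) ^ k / (m.choose (u + cc) : ℝ)))) := by
            apply mul_le_mul_of_nonneg_right h2 (by positivity)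
        _ = (2 * 2 ^ (2 * k) / (m : ℝ) ^ k) / (m.choose (u + cc) : ℝ) := by
            rw [ht0]
            field_simp
            ring
        _ ≤ 1 / (2 * k) / (m.choose (u + cc) : ℝ) := by
            apply div_le_div_of_nonneg_right _ hP.le
            rw [div_le_div_iff₀ (by positivity) (by positivity), one_mul]
            exact hkey
    · have h0 : s T = 0 := by
        rw [hsdef]
        simp only
        apply sum_eq_zero
        intro B₀ _
        by_contra hne
        exact hT (hterm T B₀ hne).2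
      rw [h0, abs_zero]
      exact hb0 T
  have hp0 : ∀ T, 0 ≤ b T + s T := by
    intro T
    have := (abs_le.1 (hs T)).1
    linarith
  have hp2 : ∀ T, b T + s T ≤ 2 * b T := by
    intro T
    have := (abs_le.1 (hs T)).2
    linarith
  have hmass : ∑ T, (b T + s T) ≤ 1 := by
    have h1 := plan_mass (m := m) k u (by omega) (by omega)
    calc ∑ T, (b T + s T) ≤ ∑ T, 2 * b T := sum_le_sum fun T _ => hp2 T
      _ = 2 * ∑ T, b T := by rw [mul_sum]
      _ = 1 := by
        rw [hbdef]
        simp only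
        rw [h1]
        norm_num
  refine ⟨fun ω => match ω with
    | none => 1 - ∑ T, (b T + s T)
    | some T => b T + s T, ?_, ?_, ?_, ?_, ?_⟩
  · intro ω
    cases ω with
    | none =>
      simp only
      linarith
    | some T => exact hp0 T
  · rw [Fintype.sum_option]
    simp only
    ring
  · intro T hT
    simp only at hT
    have hbT : b T ≠ 0 := by
      intro h
      have h1 := hs T
      rw [h] at h1
      have h2 : s T = 0 := abs_nonpos_iff.1 h1
      apply hT
      rw [h, h2, add_zero]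
    have hex : ∃ l ∈ range k, (if T.card = u + l then
      1 / (2 * k) / (m.choose (u + l) : ℝ) else 0) ≠ 0 := exists_ne_zero_of_sum_ne_zero hbT
    obtain ⟨l, hl, hl2⟩ := hex
    have hl' := mem_range.1 hl
    have hTl : T.card = u + l := by
      by_contra h
      exact hl2 (if_neg h)
    omega
  · intro x
    simp only
    have h1 := plan_avg (m := m) k u (by omega) (by omega) x
    calc ∑ T, (b T + s T) * cj T x ≤ ∑ T, (2 * b T) * cj T x := by
          apply sum_le_sum
          intro T _
          exact mul_le_mul_of_nonneg_right (hp2 T) (cj_nonneg T x)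
      _ = 2 * ∑ T, b T * cj T x := by
          rw [mul_sum]
          apply sum_congr rfl
          intro T _
          ring
      _ ≤ 2 * (1 / 2 * ((x.card : ℝ) / m) ^ u) := mul_le_mul_of_nonneg_left h1 (by norm_num)
      _ = ((x.card : ℝ) / m) ^ u := by ring
  · intro B hB2 hBk
    simp only
    have h1 := plan_sum (m := m) k u hku (by omega) (by omega) B hBk
    have h2 : ∑ T, (b T + s T) * co (cj T) B =
        ∑ T, b T * co (cj T) B + ∑ T, s T * co (cj T) B := by
      rw [← sum_add_distrib]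
      apply sum_congr rfl
      intro T _
      ring
    rw [h2]
    have h3 : ∑ T, b T * co (cj T) B = plan m k u B.card := h1
    rw [h3]
    congr 1
    rw [← hθe B hB2 hBk]
    have h4 : ∑ T, s T * co (cj T) B = ∑ B₀, θ B₀ * c B₀ B := by
      calc ∑ T, s T * co (cj T) B = ∑ T, ∑ B₀, θ B₀ * (gadg u B₀ T * co (cj T) B) := by
            apply sum_congr rfl
            intro T _
            rw [hsdef]
            simp only
            rw [sum_mul]
            apply sum_congr rfl
            intro B₀ _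
            ring
        _ = ∑ B₀, ∑ T, θ B₀ * (gadg u B₀ T * co (cj T) B) := sum_comm
        _ = ∑ B₀, θ B₀ * c B₀ B := by
            apply sum_congr rfl
            intro B₀ _
            rw [← mul_sum]
            by_cases h0 : θ B₀ = 0
            · rw [h0, zero_mul, zero_mul]
            · have h5 : 2 ≤ B₀.card ∧ B₀.card < k := by
                by_contra h
                exact h0 (hθ0 B₀ h)
              rw [gadg_sum u B₀ B (by omega)]
    rw [h4]
    have h5 : ∑ B₀, θ B₀ * c B₀ B = ∑ B₀ ∈ B.powerset, θ B₀ * c B₀ B := by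
      symm
      apply sum_subset (subset_univ _)
      intro B₀ _ hB₀
      rw [hcdef]
      simp only
      rw [if_neg fun h => hB₀ (mem_powerset.2 h), mul_zero]
    rw [h5, ← add_sum_erase B.powerset (fun B₀ => θ B₀ * c B₀ B) (mem_powerset_self B)]
    have h6 : c B B = 1 := by
      rw [hcdef]
      simp only
      rw [if_pos (Subset.refl B), union_self, sdiff_self, bot_eq_empty, card_empty, Nat.sub_zero,
        if_pos (Nat.zero_le u), mul_one]
      apply div_self
      have : 0 < (m - B.card).choose u := Nat.choose_pos (by omega)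
      positivity
    rw [h6, mul_one]
    rfl

end Pool.Agent.H.MP_cba12a_lc.QP
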