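import Pool.Agent.H.MP_cba12a_lc.QP.IterF

/-!
# The iteration of the correction stages: numbers
-/

set_option autoImplicit false

namespace Pool.Agent.H.MP_cba12a_lc.QP

open Finset Pool.Agent.H.MP_cba12a_lc.SQ

private theorem Iter_geom (w : ℝ) (hw0 : 0 ≤ w) (hw : w ≤ 1 / 2) (n : ℕ) :
    ∑ i ∈ range n, w ^ i ≤ 2 := by
  have h1 : ∑ i ∈ range n, w ^ i ≤ ∑ i ∈ range n, (1 / 2 : ℝ) ^ i :=
    sum_le_sum fun i _ => pow_le_pow_left₀ hw0 hw i
  have h2 : ∀ n : ℕ, ∑ i ∈ range n, (1 / 2 : ℝ) ^ i = 2 - 2 * (1 / 2) ^ n := by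
    intro n
    induction n with
    | zero => simp
    | succ n ih =>
      rw [sum_range_succ, ih, pow_succ]
      ring
  rw [h2] at h1
  have h3 : (0 : ℝ) ≤ 2 * (1 / 2) ^ n := by positivity
  linarith

/- PROOF: iterate_fixed2 with R = 2^(1000h), u i = 2489h + 250hi, ε i = 2^(-1490h-250hi),
K 0 = 2^(-997h), K (i+1) = K i + 2 R 2^(-u i), z = 2^(-996h), n = I.
hε: 2^(-1490h-250hi+2489h+250hi) m^(3k) ≤ 2^(999h) 2^h. hKz: sum of 2 R 2^(-u i) ≤ 4 * 2^(-1489h).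
hstep: 4 * 2^(500h) 2^(-2489h-250hi) 2^h = 2^(2-1988h-250hi) and 16 k z R 2^(-u i) ≤
2^h 2^(-996h) 2^(1000h-2489h-250hi), both ≤ (1/2) 2^(-1740h-250hi). -/
theorem iter {m : ℕ} (h k I U : ℕ) (hh : 100 ≤ h) (hk : 3 ≤ k)
    (hmk : (m : ℝ) ^ (3 * k) ≤ 2 ^ h) (hkh : 16 * (k : ℝ) ≤ 2 ^ h) (hU : 3 * U ^ 2 ≤ m)
    (hm3 : 16 ≤ m) (hkh' : k ≤ 2489 * h) (hIU : 2489 * h + 250 * h * I + k ≤ U)
    (F₀ : List (Finset (Fin m))) (hinv : Inv U ((1 / 2) ^ (997 * h)) F₀)
    (h0 : ∀ B : Finset (Fin m), 2 ≤ B.card → B.card < k →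
      |co (ind F₀) B + ∑ i ∈ range I, 2 ^ (1000 * h) * plan m k (2489 * h + 250 * h * i) B.card
        - Qf F₀ B| ≤ (1 / 2) ^ (1490 * h)) :
    ∃ F : List (Finset (Fin m)), F.length ≤ F₀.length + I * 2 ^ (1000 * h) ∧
      (∀ x, ind F₀ x ≤ ind F x) ∧
      ex (fun x => ind F x - ind F₀ x) ≤ (1 / 2) ^ (1480 * h) ∧
      ∀ B : Finset (Fin m), 2 ≤ B.card → B.card < k →
        |co (ind F) B - Qf F B| ≤ (1 / 2) ^ (1490 * h + 250 * h * I) := by
  obtain ⟨t, ht⟩ : ∃ t : ℝ, t = 2 ^ h := ⟨_, rfl⟩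
  obtain ⟨s, hs⟩ : ∃ s : ℝ, s = (1 / 2) ^ h := ⟨_, rfl⟩
  have hts : t * s = 1 := by rw [ht, hs, ← mul_pow]; norm_num
  have ht0 : 0 < t := by rw [ht]; positivity
  have hs0 : 0 < s := by rw [hs]; positivity
  have hs8 : s ≤ 1 / 16 := by
    rw [hs]
    calc (1 / 2 : ℝ) ^ h ≤ (1 / 2) ^ 4 :=
          pow_le_pow_of_le_one (by norm_num) (by norm_num) (by omega)
      _ = 1 / 16 := by norm_num
  have hs1 : s ≤ 1 := by linarith
  have hp : ∀ a : ℕ, (1 / 2 : ℝ) ^ (a * h) = s ^ a := fun a => by rw [pow_mul', hs]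
  have hq : ∀ a : ℕ, (2 : ℝ) ^ (a * h) = t ^ a := fun a => by rw [pow_mul', ht]
  have hsp : ∀ a b : ℕ, a ≤ b → s ^ b ≤ s ^ a := fun a b hab =>
    pow_le_pow_of_le_one hs0.le hs1 hab
  have hcan : ∀ a b : ℕ, t ^ a * s ^ (a + b) = s ^ b := by
    intro a b
    rw [pow_add, ← mul_assoc, ← mul_pow, hts, one_pow, one_mul]
  -- the widths
  obtain ⟨u, hu⟩ : ∃ u : ℕ → ℕ, u = fun i => 2489 * h + 250 * h * i := ⟨_, rfl⟩
  obtain ⟨w, hw⟩ : ∃ w : ℝ, w = s ^ 250 := ⟨_, rfl⟩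
  have hw0 : 0 < w := by rw [hw]; positivity
  have hw2 : w ≤ 1 / 2 := by
    rw [hw]
    have := hsp 1 250 (by norm_num)
    rw [pow_one] at this
    linarith
  have hui : ∀ i, (1 / 2 : ℝ) ^ (u i) = s ^ 2489 * w ^ i := by
    intro i
    rw [hu]
    dsimp only
    rw [pow_add, hp, hw, ← pow_mul, ← hp (250 * i)]
    congr 2
    ring
  have hεi : ∀ i : ℕ, (1 / 2 : ℝ) ^ (1490 * h + 250 * h * i) = s ^ 1490 * w ^ i := by
    intro i
    rw [pow_add, hp, hw, ← pow_mul, ← hp (250 * i)]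
    congr 2
    ring
  have hRc : (((2 ^ (1000 * h) : ℕ)) : ℝ) = t ^ 1000 := by
    push_cast
    exact hq 1000
  have hRs : Real.sqrt (((2 ^ (1000 * h) : ℕ)) : ℝ) = t ^ 500 := by
    rw [hRc]
    have : t ^ 1000 = (t ^ 500) ^ 2 := by rw [← pow_mul]
    rw [this, Real.sqrt_sq (by positivity)]
  obtain ⟨K, hK⟩ : ∃ K : ℕ → ℝ, K = fun i => s ^ 997 +
    ∑ j ∈ range i, 2 * (((2 ^ (1000 * h) : ℕ)) : ℝ) * (1 / 2) ^ (u j) := ⟨_, rfl⟩
  have hterm : ∀ j, (((2 ^ (1000 * h) : ℕ)) : ℝ) * (1 / 2) ^ (u j) = s ^ 1489 * w ^ j := by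
    intro j
    rw [hRc, hui, ← mul_assoc, hcan 1000 1489]
  have hsum : ∀ i, ∑ j ∈ range i, (((2 ^ (1000 * h) : ℕ)) : ℝ) * (1 / 2) ^ (u j) ≤
      2 * s ^ 1489 := by
    intro i
    simp only [hterm]
    rw [← mul_sum]
    have := Iter_geom w hw0.le hw2 i
    have h1 : (0 : ℝ) < s ^ 1489 := by positivity
    nlinarith
  have hKz : ∀ i, K i ≤ s ^ 996 := by
    intro i
    rw [hK]
    dsimp only
    have h1 := hsum i
    have h2 : ∑ j ∈ range i, 2 * (((2 ^ (1000 * h) : ℕ)) : ℝ) * (1 / 2) ^ (u j) =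
        2 * ∑ j ∈ range i, (((2 ^ (1000 * h) : ℕ)) : ℝ) * (1 / 2) ^ (u j) := by
      rw [mul_sum]
      apply sum_congr rfl
      intro j _
      ring
    rw [h2]
    have h3 := hsp 997 1489 (by norm_num)
    have h4 : s ^ 997 = s ^ 996 * s := by rw [← pow_succ]
    have h5 : (0 : ℝ) < s ^ 996 := by positivity
    nlinarith
  have hm1 : (1 : ℝ) ≤ m := by
    have : (16 : ℝ) ≤ m := by exact_mod_cast hm3
    linarith
  have hmk1 : (m : ℝ) ^ k ≤ t := by
    rw [ht]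
    exact (pow_le_pow_right₀ hm1 (by omega)).trans hmk
  obtain ⟨F, f1, f2, f3, f4, f5⟩ := iterate_fixed2 (m := m) k (2 ^ (1000 * h)) U I hk hU hm3
    (by positivity) u (fun i => s ^ 1490 * w ^ i) K (s ^ 996)
    (fun i => by positivity)
    (fun i _ => by rw [hu]; dsimp only; omega)
    (fun i hi => by
      rw [hu]
      dsimp only
      have h1 : 250 * h * i ≤ 250 * h * I := Nat.mul_le_mul_left _ hi.le
      omega)
    (fun i _ => by
      have h1 : (2 : ℝ) ^ (u i) * (1 / 2) ^ (u i) = 1 := by rw [← mul_pow]; norm_num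
      have h2 : s ^ 1490 * w ^ i * 2 ^ (u i) = t ^ 999 := by
        have h3 : s ^ 1490 * w ^ i = t ^ 999 * (1 / 2) ^ (u i) := by
          rw [hui, ← mul_assoc, hcan 999 1490]
        rw [h3, mul_assoc, mul_comm ((1 / 2 : ℝ) ^ (u i)), h1, mul_one]
      rw [h2, hRc]
      calc t ^ 999 * (m : ℝ) ^ (3 * k) ≤ t ^ 999 * t := by
            rw [← ht] at hmk
            exact mul_le_mul_of_nonneg_left hmk (by positivity)
        _ = t ^ 1000 := by rw [← pow_succ])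
    (fun i _ => by
      rw [hK]
      dsimp only
      rw [sum_range_succ]
      ring)
    (fun i _ => hKz i)
    (by
      have := hsp 1 996 (by norm_num)
      rw [pow_one] at this
      linarith)
    (by
      rw [hRs, hcan 500 496]
      exact pow_le_one₀ hs0.le hs1)
    (fun i _ => by
      have h1 := hterm i
      rw [h1, hRs, hui, pow_succ w i]
      have hwi : (0 : ℝ) < w ^ i := by positivity
      have e1 : 4 * t ^ 500 * (s ^ 2489 * w ^ i) * (m : ℝ) ^ k ≤ 4 * s ^ 1988 * w ^ i := by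
        have h2 : t ^ 500 * s ^ 2489 = s ^ 1989 := hcan 500 1989
        have h3 : t * s ^ 1989 = s ^ 1988 := by
          have := hcan 1 1988
          rwa [pow_one] at this
        calc 4 * t ^ 500 * (s ^ 2489 * w ^ i) * (m : ℝ) ^ k
            ≤ 4 * t ^ 500 * (s ^ 2489 * w ^ i) * t :=
              mul_le_mul_of_nonneg_left hmk1 (by positivity)
          _ = 4 * (t * (t ^ 500 * s ^ 2489)) * w ^ i := by ring
          _ = 4 * s ^ 1988 * w ^ i := by rw [h2, h3]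
      have e2 : 16 * (k : ℝ) * s ^ 996 * (s ^ 1489 * w ^ i) ≤ s ^ 2484 * w ^ i := by
        have h3 : t * s ^ 2485 = s ^ 2484 := by
          have := hcan 1 2484
          rwa [pow_one] at this
        calc 16 * (k : ℝ) * s ^ 996 * (s ^ 1489 * w ^ i)
            ≤ t * s ^ 996 * (s ^ 1489 * w ^ i) := by
              rw [← ht] at hkh
              have h4 : (0 : ℝ) ≤ s ^ 996 := by positivity
              have h5 : (0 : ℝ) ≤ s ^ 1489 * w ^ i := by positivity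
              exact mul_le_mul_of_nonneg_right (mul_le_mul_of_nonneg_right hkh h4) h5
          _ = (t * (s ^ 996 * s ^ 1489)) * w ^ i := by ring
          _ = s ^ 2484 * w ^ i := by rw [← pow_add, h3]
      have e3 : s ^ 1490 * (w ^ i * w) = s ^ 1740 * w ^ i := by
        rw [hw, mul_comm _ (s ^ 250), ← mul_assoc, ← pow_add]
      rw [e3]
      refine (add_le_add e1 e2).trans ?_
      rw [← add_mul]
      apply mul_le_mul_of_nonneg_right _ hwi.le
      have h6 := hsp 1741 1988 (by norm_num)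
      have h7 := hsp 1741 2484 (by norm_num)
      have h8 : s ^ 1741 = s ^ 1740 * s := by rw [← pow_succ]
      have h9 : (0 : ℝ) < s ^ 1740 := by positivity
      nlinarith)
    F₀
    (by
      have e : K 0 = (1 / 2) ^ (997 * h) := by rw [hK, hp]; simp
      rw [e]
      exact hinv)
    (fun B hB2 hBk => by
      have h1 := h0 B hB2 hBk
      have e : Ico 0 I = range I := by rw [← Nat.Ico_zero_eq_range]
      rw [e, hu, pow_zero, mul_one, ← hp]
      push_cast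
      exact h1)
    I le_rfl
  refine ⟨F, f1, f3, ?_, ?_⟩
  · refine f4.trans ((hsum I).trans ?_)
    rw [hp]
    have h1 := hsp 1481 1489 (by norm_num)
    have h2 : s ^ 1481 = s ^ 1480 * s := by rw [← pow_succ]
    have h3 : (0 : ℝ) < s ^ 1480 := by positivity
    nlinarith
  · intro B hB2 hBk
    have h1 := f5 B hB2 hBk
    rw [Ico_self, sum_empty, add_zero] at h1
    rw [hεi]
    exact h1

end Pool.Agent.H.MP_cba12a_lc.QP
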