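import Pool.Agent.H.MP_cba12a_lc.QP.Base
import Pool.Agent.H.MP_cba12a_lc.QP.Iter

/-!
# The gadget: a small monotone formula with the product property up to level `2 κ`
-/

set_option autoImplicit false

namespace Pool.Agent.H.MP_cba12a_lc.QP

open Finset Pool.Agent.H.MP_cba12a_lc.SQ

/- PROOF: as SQ.gadget (Gadget.lean): base with I = 4 κ + 8, u i = 2489h + 250hi (hsum: geometric
series; widths ≤ 2489h + 250h(4κ+8) + k ≤ (k+12) 1000h ≤ U), then iter. |Qf F₀ B| ≤ 4 z^2 ≤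
4 * 2^(-1994h) (SQ.abs_Qf_le with z = 2^(-997h), ex (ind F₀) ≤ z from Inv at s = 0).
Length: 2^(1003h+e) + (4κ+8) 2^(1000h) ≤ 2^(2000h+e). Final error 2^(-1490h-250h(4κ+8)) =
2^(-3490h-1000hκ) ≤ 2^(-(κ+3)1000h). co ∅: 2^(1000h) (2^(-1480h) + 2^(-1480h)) ≤ 2^(-450h). -/

private theorem gad_geo (a b I : ℕ) (hb : 1 ≤ b) :
    ∑ i ∈ range I, (1 / 2 : ℝ) ^ (a + b * i) ≤ 2 * (1 / 2) ^ a := by
  have h1 : ∀ i ∈ range I, (1 / 2 : ℝ) ^ (a + b * i) ≤ (1 / 2) ^ a * (1 / 2) ^ i := by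
    intro i _
    rw [← pow_add]
    apply pow_le_pow_of_le_one (by norm_num) (by norm_num)
    nlinarith [Nat.zero_le i]
  refine (sum_le_sum h1).trans ?_
  rw [← mul_sum]
  have h2 : ∑ i ∈ range I, (1 / 2 : ℝ) ^ i ≤ 2 := by
    have := geom_sum_eq (show (1 / 2 : ℝ) ≠ 1 by norm_num) I
    rw [this]
    have h3 : (0 : ℝ) ≤ (1 / 2) ^ I := by positivity
    have h4 : ((1 / 2 : ℝ) ^ I - 1) / (1 / 2 - 1) = 2 * (1 - (1 / 2) ^ I) := by
      field_simp
      ring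
    rw [h4]
    linarith
  have h5 : (0 : ℝ) ≤ (1 / 2) ^ a := by positivity
  nlinarith

private theorem gad_half_le {a b : ℕ} (h : a ≤ b) : (1 / 2 : ℝ) ^ b ≤ (1 / 2) ^ a :=
  pow_le_pow_of_le_one (by norm_num) (by norm_num) h

private theorem gad_two_half (a : ℕ) : 2 * (1 / 2 : ℝ) ^ (a + 1) = (1 / 2) ^ a := by
  rw [pow_succ]; ring

theorem gad {h μ k n e U : ℕ} (P : Par h μ k n e U) (κ : ℕ) (hκ : 2 ≤ κ) (hk2 : k = 2 * κ) :
    ∃ F : List (Finset (Fin (μ ^ 4))), F.length ≤ 2 ^ (2000 * h + e) ∧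
      |2 ^ (1000 * h) * co (ind F) ∅ - Real.log 2| ≤ (1 / 2) ^ (450 * h) ∧
      ∀ B : Finset (Fin (μ ^ 4)), 2 ≤ B.card → B.card < k →
        |co (ind F) B - Qf F B| ≤ 1 / 2 ^ ((κ + 3) * (1000 * h)) := by
  have hh := P.h1
  have hk3 := P.k3
  have hkn := P.kn
  have hnd := P.nd
  have hk16 : 16 * k + 16 ≤ 2 ^ h := by
    have h1 := P.sm
    have h2 := P.n2
    have h3 := P.de
    have h4 : 1 ≤ n ^ 20 := Nat.one_le_pow _ _ (by omega)
    have h5 : 1 ≤ e ^ 10 := Nat.one_le_pow _ _ (by omega)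
    have h6 : k + 2 ≤ (k + 2) ^ 4 := by
      calc k + 2 = (k + 2) ^ 1 := (pow_one _).symm
        _ ≤ (k + 2) ^ 4 := Nat.pow_le_pow_right (by omega) (by norm_num)
    calc 16 * k + 16 ≤ 10 ^ 9 * (k + 2) := by omega
      _ ≤ 10 ^ 9 * (k + 2) ^ 4 := Nat.mul_le_mul_left _ h6
      _ = 10 ^ 9 * (k + 2) ^ 4 * 1 * 1 := by ring
      _ ≤ 10 ^ 9 * (k + 2) ^ 4 * n ^ 20 * e ^ 10 :=
          Nat.mul_le_mul (Nat.mul_le_mul_left _ h4) h5
      _ ≤ 2 ^ h := h1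
  have hkU := P.kU
  have hκh : 2 * κ ≤ 1000 * h * κ := by nlinarith
  have hU1 : 2489 * h + 250 * h * (4 * κ + 8) + k ≤ U := by
    have h1 : (k + 12) * (1000 * h) = 2000 * (h * κ) + 12000 * h := by rw [hk2]; ring
    have h2 : 250 * h * (4 * κ + 8) = 1000 * (h * κ) + 2000 * h := by ring
    have h3 : 1000 * h * κ = 1000 * (h * κ) := by ring
    omega
  have hsum : ∑ i ∈ range (4 * κ + 8), (1 / 2 : ℝ) ^ (2489 * h + 250 * h * i) ≤
      2 * (1 / 2) ^ (2489 * h) := gad_geo _ _ _ (by omega)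
  have hu : ∀ i < 4 * κ + 8, 2489 * h ≤ 2489 * h + 250 * h * i ∧
      2489 * h + 250 * h * i + k ≤ U := by
    intro i hi
    have h1 : 250 * h * i ≤ 250 * h * (4 * κ + 8) := Nat.mul_le_mul_left _ hi.le
    omega
  have hI : ((4 * κ + 8 : ℕ) : ℝ) ≤ 2 ^ h := by
    have h1 : 4 * κ + 8 ≤ 2 ^ h := by omega
    exact_mod_cast h1
  obtain ⟨F₀, hlen, hInv, h0, hB⟩ := base P (4 * κ + 8) hI (fun i => 2489 * h + 250 * h * i) hu hsum
  have hm1 : 1 ≤ μ ^ 4 := Nat.one_le_pow _ _ (by have := P.mL; omega)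
  have hmk : ((μ ^ 4 : ℕ) : ℝ) ^ (3 * k) ≤ 2 ^ h := by
    have h1 : (μ ^ 4) ^ (3 * k) ≤ 2 ^ h :=
      (Nat.pow_le_pow_right hm1 (by omega)).trans P.mK
    exact_mod_cast h1
  have hm16 : 16 ≤ μ ^ 4 := by
    have h1 := P.mL
    have h2 : 2 ≤ μ := by omega
    calc 16 = 2 ^ 4 := by norm_num
      _ ≤ μ ^ 4 := Nat.pow_le_pow_left h2 4
  have hex : ex (ind F₀) ≤ (1 / 2) ^ (997 * h) := by
    have := hInv 0 (Nat.zero_le _)
    simpa using this
  have hz : ((1 : ℝ) / 2) ^ (997 * h) ≤ 1 / 2 := by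
    calc ((1 : ℝ) / 2) ^ (997 * h) ≤ (1 / 2) ^ 1 := gad_half_le (by omega)
      _ = 1 / 2 := pow_one _
  have hyp : ∀ B : Finset (Fin (μ ^ 4)), 2 ≤ B.card → B.card < k →
      |co (ind F₀) B + ∑ i ∈ range (4 * κ + 8), 2 ^ (1000 * h) *
        plan (μ ^ 4) k (2489 * h + 250 * h * i) B.card - Qf F₀ B| ≤ (1 / 2) ^ (1490 * h) := by
    intro B h2 hk'
    have h1 := hB B h2 hk'
    have h3 := abs_Qf_le F₀ ((1 / 2) ^ (997 * h)) hz hex B h2
    have h4 : 4 * (((1 : ℝ) / 2) ^ (997 * h)) ^ 2 ≤ (1 / 2) ^ (1491 * h) := by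
      have h5 : (4 : ℝ) * (((1 : ℝ) / 2) ^ (997 * h)) ^ 2 = 4 * (1 / 2) ^ (1994 * h) := by
        rw [← pow_mul]
        congr 2
        ring
      rw [h5]
      have h6 : ((1 : ℝ) / 2) ^ (1994 * h) ≤ (1 / 2) ^ (1491 * h + 2) :=
        gad_half_le (by omega)
      rw [pow_add] at h6
      have h7 : (0 : ℝ) ≤ (1 / 2) ^ (1491 * h) := by positivity
      nlinarith
    have h8 : 2 * ((1 : ℝ) / 2) ^ (1491 * h) ≤ (1 / 2) ^ (1490 * h) := by
      rw [← gad_two_half (1490 * h)]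
      apply mul_le_mul_of_nonneg_left _ (by norm_num)
      exact gad_half_le (by omega)
    refine (abs_sub _ _).trans ?_
    linarith
  obtain ⟨F, hFlen, hle, hdiff, hfin⟩ := iter h k (4 * κ + 8) U hh hk3 hmk
    (by
      have h1 : 16 * k ≤ 2 ^ h := by omega
      exact_mod_cast h1) P.Um hm16 (by omega) hU1 F₀ hInv hyp
  refine ⟨F, ?_, ?_, ?_⟩
  · -- the number of terms
    have h1 : (4 * κ + 8) * 2 ^ (1000 * h) ≤ 2 ^ (1003 * h + e) := by
      calc (4 * κ + 8) * 2 ^ (1000 * h) ≤ 2 ^ h * 2 ^ (1000 * h) :=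
            Nat.mul_le_mul_right _ (by omega)
        _ = 2 ^ (h + 1000 * h) := (pow_add _ _ _).symm
        _ ≤ 2 ^ (1003 * h + e) := Nat.pow_le_pow_right (by norm_num) (by omega)
    calc F.length ≤ F₀.length + (4 * κ + 8) * 2 ^ (1000 * h) := hFlen
      _ ≤ 2 ^ (1003 * h + e) + 2 ^ (1003 * h + e) := Nat.add_le_add hlen h1
      _ = 2 ^ (1003 * h + e + 1) := by rw [pow_succ]; ring
      _ ≤ 2 ^ (2000 * h + e) := Nat.pow_le_pow_right (by norm_num) (by omega)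
  · -- the coefficient at the empty set
    set N : ℝ := 2 ^ (1000 * h) with hN
    have hN0 : 0 < N := by positivity
    have hNi : N * (1 / 2) ^ (1480 * h) = (1 / 2) ^ (480 * h) := by
      rw [hN, show 1480 * h = 1000 * h + 480 * h by ring, pow_add, ← mul_assoc, ← mul_pow]
      norm_num
    have h1 : co (ind F) ∅ = co (ind F₀) ∅ + ex (fun x => ind F x - ind F₀ x) := by
      rw [co_empty, co_empty, ex_sub]
      ring
    have h2 : 0 ≤ ex (fun x => ind F x - ind F₀ x) := ex_nonneg fun x => sub_nonneg.mpr (hle x)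
    have h3 : N * co (ind F) ∅ - Real.log 2 =
        N * (co (ind F₀) ∅ - Real.log 2 / N) + N * ex (fun x => ind F x - ind F₀ x) := by
      rw [h1]
      field_simp
      ring
    rw [h3]
    have h4 : |N * (co (ind F₀) ∅ - Real.log 2 / N)| ≤ (1 / 2) ^ (480 * h) := by
      rw [abs_mul, abs_of_pos hN0, ← hNi]
      exact mul_le_mul_of_nonneg_left h0 hN0.le
    have h5 : |N * ex (fun x => ind F x - ind F₀ x)| ≤ (1 / 2) ^ (480 * h) := by
      rw [abs_mul, abs_of_pos hN0, abs_of_nonneg h2, ← hNi]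
      exact mul_le_mul_of_nonneg_left hdiff hN0.le
    have h6 : 2 * ((1 : ℝ) / 2) ^ (480 * h) ≤ (1 / 2) ^ (450 * h) := by
      rw [← gad_two_half (450 * h)]
      apply mul_le_mul_of_nonneg_left _ (by norm_num)
      exact gad_half_le (by omega)
    refine (abs_add_le _ _).trans ?_
    linarith
  · -- the other coefficients
    intro B h2 hk'
    refine (hfin B h2 hk').trans ?_
    rw [← one_div_pow]
    apply gad_half_le
    have h1 : (κ + 3) * (1000 * h) = 1000 * (h * κ) + 3000 * h := by ring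
    have h2 : 250 * h * (4 * κ + 8) = 1000 * (h * κ) + 2000 * h := by ring
    omega

end Pool.Agent.H.MP_cba12a_lc.QP
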