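import Pool.Agent.H.MP_cba12a_lc.QP.Stage
import Pool.Agent.H.MP_cba12a_lc.SQ.QfLip
import Pool.Agent.H.MP_cba12a_lc.SQ.Iterate

/-!
# The iteration of the correction stages
-/

set_option autoImplicit false

namespace Pool.Agent.H.MP_cba12a_lc.QP

open Finset Pool.Agent.H.MP_cba12a_lc.SQ

/- PROOF: word for word SQ.iterate_fixed (Iterate.lean) with stage_step2. -/
theorem iterate_fixed2 {m : ℕ} (k R U I : ℕ) (hk : 3 ≤ k) (hU : 3 * U ^ 2 ≤ m)
    (hm3 : 16 ≤ m) (hR : 0 < R) (u : ℕ → ℕ) (ε K : ℕ → ℝ) (z : ℝ)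
    (hε0 : ∀ i, 0 ≤ ε i)
    (hu1 : ∀ i < I, k ≤ u i) (hu2 : ∀ i < I, u i + k ≤ U)
    (hε : ∀ i < I, ε i * 2 ^ (u i) * (m : ℝ) ^ (3 * k) ≤ R)
    (hKs : ∀ i < I, K (i + 1) = K i + 2 * R * (1 / 2) ^ (u i))
    (hKz : ∀ i ≤ I, K i ≤ z) (hz : z ≤ 1 / 2) (hzR : Real.sqrt R * z ≤ 1)
    (hstep : ∀ i < I, 4 * Real.sqrt R * (1 / 2) ^ (u i) * (m : ℝ) ^ k +
      16 * k * z * (R * (1 / 2) ^ (u i)) ≤ ε (i + 1))
    (F₀ : List (Finset (Fin m))) (hinv : Inv U (K 0) F₀)
    (h0 : ∀ B : Finset (Fin m), 2 ≤ B.card → B.card < k →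
      |co (ind F₀) B + ∑ i ∈ Ico 0 I, R * plan m k (u i) B.card - Qf F₀ B| ≤ ε 0) :
    ∀ n ≤ I, ∃ F : List (Finset (Fin m)), F.length ≤ F₀.length + n * R ∧ Inv U (K n) F ∧
      (∀ x, ind F₀ x ≤ ind F x) ∧
      ex (fun x => ind F x - ind F₀ x) ≤ ∑ i ∈ range n, (R : ℝ) * (1 / 2) ^ (u i) ∧
      ∀ B : Finset (Fin m), 2 ≤ B.card → B.card < k →
        |co (ind F) B + ∑ i ∈ Ico n I, R * plan m k (u i) B.card - Qf F B| ≤ ε n := by
  intro n
  induction n with
  | zero =>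
    intro _
    refine ⟨F₀, by simp, hinv, fun x => le_refl _, ?_, h0⟩
    simp [ex_const]
  | succ n ih =>
    intro hn
    obtain ⟨F, f1, f2, f3, f4, f5⟩ := ih (by omega)
    have hnI : n < I := by omega
    set e : Finset (Fin m) → ℝ := fun B => if 2 ≤ B.card ∧ B.card < k then
      co (ind F) B + ∑ i ∈ Ico n I, R * plan m k (u i) B.card - Qf F B else 0 with he
    have he1 : ∀ B, |e B| ≤ ε n := by
      intro B
      rw [he]
      by_cases h : 2 ≤ B.card ∧ B.card < k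
      · simp only [if_pos h]; exact f5 B h.1 h.2
      · simp only [if_neg h, abs_zero]; exact hε0 n
    have hK1 : Real.sqrt R * (K n + 2 * R * (1 / 2) ^ (u n)) ≤ 1 := by
      rw [← hKs n hnI]
      refine le_trans (mul_le_mul_of_nonneg_left (hKz (n + 1) hn) (Real.sqrt_nonneg _)) hzR
    obtain ⟨F', g1, g2, g3, g4, g5⟩ := stage_step2 k (u n) R U (K n) (ε n) hk (hu1 n hnI)
      (hu2 n hnI) hU hm3 hR F f2 hK1 e he1 (hε n hnI)
    refine ⟨F', ?_, ?_, fun x => (f3 x).trans (g3 x), ?_, ?_⟩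
    · rw [Nat.succ_mul]; omega
    · rw [hKs n hnI]; exact g2
    · rw [sum_range_succ]
      have e1 : ex (fun x => ind F' x - ind F₀ x)
          = ex (fun x => ind F x - ind F₀ x) + ex (fun x => ind F' x - ind F x) := by
        rw [← ex_add]; congr 1; funext x; ring
      rw [e1]; exact add_le_add f4 g4
    · intro B hB2 hBk
      have h5 := g5 B hB2 hBk
      have hpos : 2 ≤ B.card ∧ B.card < k := ⟨hB2, hBk⟩
      have heB : e B = co (ind F) B + ∑ i ∈ Ico n I, R * plan m k (u i) B.card - Qf F B := by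
        rw [he]; simp only [if_pos hpos]
      rw [heB] at h5
      have hsum : ∑ i ∈ Ico n I, (R : ℝ) * plan m k (u i) B.card
          = R * plan m k (u n) B.card + ∑ i ∈ Ico (n + 1) I, (R : ℝ) * plan m k (u i) B.card :=
        Finset.sum_eq_sum_Ico_succ_bot hnI (fun i => (R : ℝ) * plan m k (u i) B.card)
      rw [hsum] at h5
      have h6 : |Qf F' B - Qf F B| ≤ 16 * k * z * (R * (1 / 2) ^ (u n)) :=
        Qf_lip k F F' z (R * (1 / 2) ^ (u n)) hz
          ((iterate_inv_ex f2).trans (hKz n (by omega)))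
          ((iterate_inv_ex g2).trans (by rw [← hKs n hnI]; exact hKz (n + 1) hn))
          g3 g4 B hB2 hBk
      have h7 : co (ind F') B + ∑ i ∈ Ico (n + 1) I, (R : ℝ) * plan m k (u i) B.card - Qf F' B
          = (co (ind F') B - co (ind F) B - R * plan m k (u n) B.card +
            (co (ind F) B + (R * plan m k (u n) B.card +
              ∑ i ∈ Ico (n + 1) I, (R : ℝ) * plan m k (u i) B.card) - Qf F B))
            - (Qf F' B - Qf F B) := by ring
      rw [h7]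
      refine (abs_sub _ _).trans ((add_le_add h5 h6).trans (hstep n hnI))

end Pool.Agent.H.MP_cba12a_lc.QP
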