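import Pool.Agent.H.MP_cba12a_lc.SQ.Mom

/-!
# The jets of `(1 + s) ^ d * exp (-x * (1 + s) ^ e)`
-/

namespace Pool.Agent.H.MP_cba12a_lc.QP

open Finset Filter Topology MeasureTheory

/-- the polynomials of the derivatives of `(1 + s) ^ d * exp (-x * (1 + s) ^ e)` -/
noncomputable def RR (d e : ℕ) : ℕ → Polynomial ℝ
  | 0 => 1
  | i + 1 => Polynomial.C ((d : ℝ) - i) * RR d e i +
      Polynomial.C (e : ℝ) * (Polynomial.X * (RR d e i).derivative - Polynomial.X * RR d e i)

theorem natDegree_RR (d e i : ℕ) : (RR d e i).natDegree ≤ i := by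
  induction i with
  | zero => simp [RR]
  | succ i ih =>
    rw [RR]
    have h1 : (Polynomial.C ((d : ℝ) - i) * RR d e i).natDegree ≤ i + 1 :=
      (Polynomial.natDegree_C_mul_le _ _).trans (ih.trans (by omega))
    have h2 : (Polynomial.X * (RR d e i).derivative : Polynomial ℝ).natDegree ≤ i + 1 := by
      refine Polynomial.natDegree_mul_le.trans ?_
      rw [Polynomial.natDegree_X]
      have := Polynomial.natDegree_derivative_le (RR d e i)
      omega
    have h3 : (Polynomial.X * RR d e i : Polynomial ℝ).natDegree ≤ i + 1 := by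
      refine Polynomial.natDegree_mul_le.trans ?_
      rw [Polynomial.natDegree_X]
      omega
    refine (Polynomial.natDegree_add_le _ _).trans (max_le h1 ?_)
    refine (Polynomial.natDegree_C_mul_le _ _).trans ?_
    exact (Polynomial.natDegree_sub_le _ _).trans (max_le h2 h3)

theorem eval_succ_RR (d e i : ℕ) (x : ℝ) :
    (RR d e (i + 1)).eval x = ((d : ℝ) - i) * (RR d e i).eval x +
      e * (x * ((RR d e i).derivative.eval x - (RR d e i).eval x)) := by
  rw [RR]
  simp only [Polynomial.eval_add, Polynomial.eval_sub, Polynomial.eval_mul, Polynomial.eval_C,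
    Polynomial.eval_X]
  ring

theorem eval_zero_RR (d e i : ℕ) : (RR d e i).eval 0 = ∏ j ∈ range i, ((d : ℝ) - j) := by
  induction i with
  | zero => simp [RR]
  | succ i ih =>
    rw [eval_succ_RR, prod_range_succ, ih]
    ring

/-- the derivatives, in closed form -/
noncomputable def jet (d e : ℕ) (x : ℝ) (i : ℕ) (s : ℝ) : ℝ :=
  (1 + s) ^ (d - i) * (Real.exp (-(x * (1 + s) ^ e)) * (RR d e i).eval (x * (1 + s) ^ e))

theorem hasDerivAt_jet (d e : ℕ) (he : 1 ≤ e) (x : ℝ) (i : ℕ) (hi : i < d) (s : ℝ) :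
    HasDerivAt (jet d e x i) (jet d e x (i + 1) s) s := by
  have h0 : HasDerivAt (fun s : ℝ => 1 + s) 1 s := (hasDerivAt_id s).const_add 1
  have hX : HasDerivAt (fun s : ℝ => x * (1 + s) ^ e) (x * (e * (1 + s) ^ (e - 1))) s := by
    have := (h0.fun_pow e).const_mul x
    refine this.congr_deriv ?_
    ring
  have h1 : HasDerivAt (fun s : ℝ => (1 + s) ^ (d - i)) (((d - i : ℕ) : ℝ) * (1 + s) ^ (d - i - 1))
      s := by
    have := h0.fun_pow (d - i)
    refine this.congr_deriv ?_
    ring
  have h2 : HasDerivAt (fun y : ℝ => Real.exp (-y) * (RR d e i).eval y)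
      (Real.exp (-(x * (1 + s) ^ e)) * ((RR d e i).derivative.eval (x * (1 + s) ^ e) -
        (RR d e i).eval (x * (1 + s) ^ e))) (x * (1 + s) ^ e) :=
    SQ.mom_hasDerivAt _ _
  have h3 := HasDerivAt.comp s h2 hX
  have h4 := h1.fun_mul h3
  refine h4.congr_deriv ?_
  unfold jet
  rw [eval_succ_RR]
  have e1 : (1 + s) ^ (d - i) = (1 + s) ^ (d - (i + 1)) * (1 + s) := by
    rw [← pow_succ]
    congr 1
    omega
  have e2 : (1 + s) ^ e = (1 + s) ^ (e - 1) * (1 + s) := by
    rw [← pow_succ]
    congr 1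
    omega
  have e3 : ((d - i : ℕ) : ℝ) = (d : ℝ) - i := by
    rw [Nat.cast_sub hi.le]
  have e4 : d - i - 1 = d - (i + 1) := by omega
  simp only [Function.comp]
  rw [e3, e4, e1]
  generalize hE : Real.exp (-(x * (1 + s) ^ e)) = E
  generalize (RR d e i).derivative.eval (x * (1 + s) ^ e) = D
  generalize (RR d e i).eval (x * (1 + s) ^ e) = P
  rw [e2]
  ring

/-- Taylor's formula for a chain of derivatives, on the right -/
theorem taylor_chain_pos (n : ℕ) : ∀ (F : ℕ → ℝ → ℝ) (M b : ℝ), 0 ≤ b →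
    (∀ i ≤ n, ∀ t, HasDerivAt (F i) (F (i + 1) t) t) →
    (∀ t, 0 ≤ t → t ≤ b → |F n t| ≤ M) →
    |F 0 b - ∑ i ∈ range n, b ^ i / (i.factorial : ℝ) * F i 0| ≤
      M * b ^ n / (n.factorial : ℝ) := by
  induction n with
  | zero =>
    intro F M b hb _ hM
    simpa using hM b hb le_rfl
  | succ n ih =>
    intro F M b hb hF hM
    have hG : ∀ t : ℝ, HasDerivAt (fun t : ℝ => F 0 t -
        ∑ i ∈ range (n + 1), t ^ i / (i.factorial : ℝ) * F i 0)
        (F 1 t - ∑ i ∈ range n, t ^ i / (i.factorial : ℝ) * F (i + 1) 0) t := by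
      intro t
      have h1 := hF 0 (by omega) t
      have h2 : ∀ i ∈ range (n + 1), HasDerivAt
          (fun t : ℝ => t ^ i / (i.factorial : ℝ) * F i 0)
          ((i : ℝ) * t ^ (i - 1) / (i.factorial : ℝ) * F i 0) t := by
        intro i _
        have := (((hasDerivAt_id t).fun_pow i).div_const (i.factorial : ℝ)).mul_const (F i 0)
        refine this.congr_deriv ?_
        simp
      have h3 := HasDerivAt.fun_sum h2
      refine (h1.fun_sub h3).congr_deriv ?_
      rw [sum_range_succ']
      simp only [zero_add, CharP.cast_eq_zero, zero_mul, zero_div, add_zero]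
      congr 1
      apply sum_congr rfl
      intro i _
      rw [Nat.factorial_succ]
      push_cast
      have h4 : (i.factorial : ℝ) ≠ 0 := by positivity
      have h5 : ((i : ℝ) + 1) ≠ 0 := by positivity
      try simp only [Nat.add_sub_cancel]
      field_simp
    have hc : Continuous fun t : ℝ => F 1 t -
        ∑ i ∈ range n, t ^ i / (i.factorial : ℝ) * F (i + 1) 0 := by
      have h1 : Continuous (F 1) := continuous_iff_continuousAt.2 fun t =>
        (hF 1 (by omega) t).continuousAt
      fun_prop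
    have hint := intervalIntegral.integral_eq_sub_of_hasDerivAt (a := 0) (b := b)
      (fun t _ => hG t) (hc.intervalIntegrable _ _)
    have h0 : F 0 0 - ∑ i ∈ range (n + 1), (0 : ℝ) ^ i / (i.factorial : ℝ) * F i 0 = 0 := by
      rw [sum_range_succ']
      simp
    rw [h0, sub_zero] at hint
    rw [← hint]
    have hb1 : ∀ t ∈ Set.Icc (0 : ℝ) b, ‖F 1 t -
        ∑ i ∈ range n, t ^ i / (i.factorial : ℝ) * F (i + 1) 0‖ ≤
          M * t ^ n / (n.factorial : ℝ) := by
      intro t ht
      rw [Real.norm_eq_abs]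
      exact ih (fun i => F (i + 1)) M t ht.1 (fun i hi t => hF (i + 1) (by omega) t)
        (fun r hr0 hr1 => hM r hr0 (hr1.trans ht.2))
    have h5 : |∫ t in (0 : ℝ)..b, F 1 t -
        ∑ i ∈ range n, t ^ i / (i.factorial : ℝ) * F (i + 1) 0| ≤
          ∫ t in (0 : ℝ)..b, M * t ^ n / (n.factorial : ℝ) := by
      have h6 := intervalIntegral.norm_integral_le_integral_norm (μ := volume) (f := fun t : ℝ =>
        F 1 t - ∑ i ∈ range n, t ^ i / (i.factorial : ℝ) * F (i + 1) 0) hb
      rw [Real.norm_eq_abs] at h6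
      refine h6.trans ?_
      apply intervalIntegral.integral_mono_on hb (hc.norm.intervalIntegrable _ _)
      · apply Continuous.intervalIntegrable
        fun_prop
      · exact hb1
    refine h5.trans (le_of_eq ?_)
    have h7 : (fun t : ℝ => M * t ^ n / (n.factorial : ℝ)) =
        fun t : ℝ => (M / (n.factorial : ℝ)) * t ^ n := by
      funext t
      ring
    rw [h7, intervalIntegral.integral_const_mul, integral_pow, Nat.factorial_succ]
    push_cast
    have h8 : (n.factorial : ℝ) ≠ 0 := by positivity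
    have h9 : ((n : ℝ) + 1) ≠ 0 := by positivity
    field_simp
    ring

/-- Taylor's formula for a chain of derivatives -/
theorem taylor_chain (n : ℕ) (F : ℕ → ℝ → ℝ) (M s : ℝ)
    (hF : ∀ i ≤ n, ∀ t, HasDerivAt (F i) (F (i + 1) t) t)
    (hM : ∀ t, |t| ≤ |s| → |F n t| ≤ M) :
    |F 0 s - ∑ i ∈ range n, s ^ i / (i.factorial : ℝ) * F i 0| ≤
      M * |s| ^ n / (n.factorial : ℝ) := by
  have h := taylor_chain_pos n (fun i t => s ^ i * F i (s * t)) (|s| ^ n * M) 1 zero_le_one
    (by
      intro i hi t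
      have h1 : HasDerivAt (fun t : ℝ => s * t) s t := by
        simpa using (hasDerivAt_id t).const_mul s
      have h2 := (HasDerivAt.comp t (hF i hi (s * t)) h1).const_mul (s ^ i)
      refine h2.congr_deriv ?_
      ring)
    (by
      intro t ht0 ht1
      rw [abs_mul, abs_pow]
      apply mul_le_mul_of_nonneg_left _ (by positivity)
      apply hM
      rw [abs_mul, abs_of_nonneg ht0]
      exact mul_le_of_le_one_right (abs_nonneg s) ht1)
  simp only [pow_zero, one_mul, mul_one, one_pow, mul_zero] at h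
  have h3 : ∑ i ∈ range n, (1 : ℝ) / (i.factorial : ℝ) * (s ^ i * F i 0) =
      ∑ i ∈ range n, s ^ i / (i.factorial : ℝ) * F i 0 := by
    apply sum_congr rfl
    intro i _
    ring
  rw [h3] at h
  refine h.trans (le_of_eq ?_)
  ring

theorem norm_one_add_pow_sub_one (z : ℂ) (k : ℕ) : ‖(1 + z) ^ k - 1‖ ≤ (1 + ‖z‖) ^ k - 1 := by
  induction k with
  | zero => simp
  | succ k ih =>
    have h1 : (1 + z) ^ (k + 1) - 1 = ((1 + z) ^ k - 1) * (1 + z) + z := by ring
    have h2 : ‖1 + z‖ ≤ 1 + ‖z‖ := by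
      have := norm_add_le (1 : ℂ) z
      rwa [norm_one] at this
    rw [h1]
    calc ‖((1 + z) ^ k - 1) * (1 + z) + z‖ ≤ ‖((1 + z) ^ k - 1) * (1 + z)‖ + ‖z‖ :=
          norm_add_le _ _
      _ = ‖(1 + z) ^ k - 1‖ * ‖1 + z‖ + ‖z‖ := by rw [norm_mul]
      _ ≤ ((1 + ‖z‖) ^ k - 1) * (1 + ‖z‖) + ‖z‖ := by
          have h3 : 0 ≤ (1 + ‖z‖) ^ k - 1 := (norm_nonneg _).trans ih
          have := mul_le_mul ih h2 (norm_nonneg _) h3
          linarith
      _ = (1 + ‖z‖) ^ (k + 1) - 1 := by ring

/-- complex form of `jet` -/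
noncomputable def cjet (d e : ℕ) (x : ℝ) (i : ℕ) (z : ℂ) : ℂ :=
  (1 + z) ^ (d - i) * (Complex.exp (-(x * (1 + z) ^ e)) *
    ((RR d e i).map Complex.ofRealHom).eval (x * (1 + z) ^ e))

theorem hasDerivAt_cjet (d e : ℕ) (he : 1 ≤ e) (x : ℝ) (i : ℕ) (hi : i < d) (z : ℂ) :
    HasDerivAt (cjet d e x i) (cjet d e x (i + 1) z) z := by
  have h0 : HasDerivAt (fun z : ℂ => 1 + z) 1 z := (hasDerivAt_id z).const_add 1
  have hX : HasDerivAt (fun z : ℂ => (x : ℂ) * (1 + z) ^ e) (x * (e * (1 + z) ^ (e - 1))) z := by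
    have := (h0.fun_pow e).const_mul (x : ℂ)
    refine this.congr_deriv ?_
    ring
  have h1 : HasDerivAt (fun z : ℂ => (1 + z) ^ (d - i)) (((d - i : ℕ) : ℂ) * (1 + z) ^ (d - i - 1))
      z := by
    have := h0.fun_pow (d - i)
    refine this.congr_deriv ?_
    ring
  have h2 : HasDerivAt (fun y : ℂ => Complex.exp (-y) * ((RR d e i).map Complex.ofRealHom).eval y)
      (Complex.exp (-(x * (1 + z) ^ e)) *
        (((RR d e i).map Complex.ofRealHom).derivative.eval (x * (1 + z) ^ e) -
        ((RR d e i).map Complex.ofRealHom).eval (x * (1 + z) ^ e))) (x * (1 + z) ^ e) := by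
    have h3 : HasDerivAt (fun y : ℂ => Complex.exp (-y))
        (Complex.exp (-(x * (1 + z) ^ e)) * (-1)) (x * (1 + z) ^ e) := (hasDerivAt_neg _).cexp
    exact (h3.fun_mul (((RR d e i).map Complex.ofRealHom).hasDerivAt _)).congr_deriv (by ring)
  have h3 := HasDerivAt.comp z h2 hX
  have h4 := h1.fun_mul h3
  refine h4.congr_deriv ?_
  unfold cjet
  have e1 : (1 + z) ^ (d - i) = (1 + z) ^ (d - (i + 1)) * (1 + z) := by
    rw [← pow_succ]
    congr 1
    omega
  have e2 : (1 + z) ^ e = (1 + z) ^ (e - 1) * (1 + z) := by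
    rw [← pow_succ]
    congr 1
    omega
  have e3 : ((d - i : ℕ) : ℂ) = (d : ℂ) - i := by
    rw [Nat.cast_sub hi.le]
  have e4 : d - i - 1 = d - (i + 1) := by omega
  have e5 : ∀ y : ℂ, ((RR d e (i + 1)).map Complex.ofRealHom).eval y =
      ((d : ℂ) - i) * ((RR d e i).map Complex.ofRealHom).eval y +
      e * (y * (((RR d e i).map Complex.ofRealHom).derivative.eval y -
        ((RR d e i).map Complex.ofRealHom).eval y)) := by
    intro y
    rw [RR]
    simp only [Polynomial.map_add, Polynomial.map_sub, Polynomial.map_mul, Polynomial.map_C,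
      Polynomial.map_X, Polynomial.eval_add, Polynomial.eval_sub, Polynomial.eval_mul,
      Polynomial.eval_C, Polynomial.eval_X, Polynomial.derivative_map]
    simp only [Complex.ofRealHom_eq_coe, Complex.ofReal_sub, Complex.ofReal_natCast]
    ring
  simp only [Function.comp]
  rw [e3, e4, e1, e5]
  generalize hE : Complex.exp (-(x * (1 + z) ^ e)) = E
  generalize ((RR d e i).map Complex.ofRealHom).derivative.eval (x * (1 + z) ^ e) = D
  generalize ((RR d e i).map Complex.ofRealHom).eval (x * (1 + z) ^ e) = P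
  rw [e2]
  ring

theorem iteratedDeriv_cjet (d e : ℕ) (he : 1 ≤ e) (x : ℝ) (i : ℕ) (hi : i ≤ d) :
    iteratedDeriv i (cjet d e x 0) = cjet d e x i := by
  induction i with
  | zero => exact iteratedDeriv_zero
  | succ i ih =>
    rw [iteratedDeriv_succ, ih (by omega)]
    funext z
    exact (hasDerivAt_cjet d e he x i (by omega) z).deriv

theorem abs_RR (d e : ℕ) (he : 1 ≤ e) (hde : 2 * d ≤ e) (x : ℝ) (hx : 0 ≤ x) (i : ℕ)
    (hi : i ≤ d) :
    |Real.exp (-x) * (RR d e i).eval x| ≤ (3 * (e : ℝ)) ^ i * (i.factorial : ℝ) := by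
  rcases Nat.eq_zero_or_pos i with rfl | hi0
  · simp only [RR, Polynomial.eval_one, mul_one, pow_zero, Nat.factorial_zero, Nat.cast_one]
    rw [abs_of_pos (Real.exp_pos _)]
    exact Real.exp_le_one_iff.2 (by linarith)
  have he0 : (0 : ℝ) < e := by exact_mod_cast he
  have hd1 : 1 ≤ d := by omega
  have h1 : ∀ z ∈ Metric.sphere (0 : ℂ) (1 / (2 * e)), ‖cjet d e x 0 z‖ ≤ 3 / 2 := by
    intro z hz
    rw [mem_sphere_zero_iff_norm] at hz
    have h2 : ‖(1 + z) ^ d‖ ≤ 3 / 2 := by
      rw [norm_pow]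
      have h3 : ‖1 + z‖ ≤ 1 + 1 / (2 * e) := by
        have := norm_add_le (1 : ℂ) z
        rw [norm_one, hz] at this
        exact this
      have h4 : ‖1 + z‖ ≤ Real.exp (1 / (2 * e)) := by
        have := Real.add_one_le_exp (1 / (2 * (e : ℝ)))
        linarith
      have h5 : (d : ℝ) * (1 / (2 * e)) ≤ 1 / 4 := by
        have h6 : 2 * (d : ℝ) ≤ e := by exact_mod_cast hde
        rw [mul_one_div, div_le_iff₀ (by positivity)]
        linarith
      have h7 : Real.exp (1 / 4) ≤ 3 / 2 := by
        have h8 : Real.exp (1 / 4) ^ 4 = Real.exp 1 := by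
          rw [← Real.exp_nat_mul]
          norm_num
        have h9 : Real.exp 1 < 3 := Real.exp_one_lt_three
        by_contra hc
        push Not at hc
        have h10 : (3 / 2 : ℝ) ^ 4 < Real.exp (1 / 4) ^ 4 :=
          pow_lt_pow_left₀ hc (by norm_num) (by norm_num)
        rw [h8] at h10
        norm_num at h10
        linarith
      calc ‖1 + z‖ ^ d ≤ Real.exp (1 / (2 * e)) ^ d :=
            pow_le_pow_left₀ (norm_nonneg _) h4 d
        _ = Real.exp (d * (1 / (2 * e))) := by rw [← Real.exp_nat_mul]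
        _ ≤ Real.exp (1 / 4) := Real.exp_le_exp.2 h5
        _ ≤ 3 / 2 := h7
    have h3 : ‖Complex.exp (-((x : ℂ) * (1 + z) ^ e))‖ ≤ 1 := by
      rw [Complex.norm_exp]
      apply Real.exp_le_one_iff.2
      have h4 : (-((x : ℂ) * (1 + z) ^ e)).re = -(x * ((1 + z) ^ e).re) := by
        rw [Complex.neg_re, Complex.re_ofReal_mul]
      rw [h4]
      have h5 : 0 ≤ ((1 + z) ^ e).re := by
        have h6 := norm_one_add_pow_sub_one z e
        have h7 : (1 + ‖z‖) ^ e ≤ 2 := by
          rw [hz]
          calc (1 + 1 / (2 * (e : ℝ))) ^ e ≤ Real.exp (1 / (2 * e)) ^ e := by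
                apply pow_le_pow_left₀ (by positivity)
                have := Real.add_one_le_exp (1 / (2 * (e : ℝ)))
                linarith
            _ = Real.exp (1 / 2) := by
                rw [← Real.exp_nat_mul]
                congr 1
                field_simp
            _ ≤ 2 := by
                have h8 : Real.exp (1 / 2) ^ 2 = Real.exp 1 := by
                  rw [← Real.exp_nat_mul]
                  norm_num
                have h9 : Real.exp 1 < 3 := Real.exp_one_lt_three
                by_contra hc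
                push Not at hc
                have h10 : (2 : ℝ) ^ 2 < Real.exp (1 / 2) ^ 2 :=
                  pow_lt_pow_left₀ hc (by norm_num) (by norm_num)
                rw [h8] at h10
                linarith
        have h8 : |((1 + z) ^ e - 1).re| ≤ 1 :=
          (Complex.abs_re_le_norm _).trans (h6.trans (by linarith))
        rw [Complex.sub_re, Complex.one_re] at h8
        have := neg_le_of_abs_le h8
        linarith
      have := mul_nonneg hx h5
      linarith
    unfold cjet
    rw [norm_mul, norm_mul, RR, Polynomial.map_one, Polynomial.eval_one, norm_one, mul_one,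
      Nat.sub_zero]
    calc ‖(1 + z) ^ d‖ * ‖Complex.exp (-((x : ℂ) * (1 + z) ^ e))‖ ≤ 3 / 2 * 1 :=
          mul_le_mul h2 h3 (norm_nonneg _) (by norm_num)
      _ = 3 / 2 := mul_one _
  have hdiff : Differentiable ℂ (cjet d e x 0) := fun z =>
    (hasDerivAt_cjet d e he x 0 hd1 z).differentiableAt
  have h2 := Complex.norm_iteratedDeriv_le_of_forall_mem_sphere_norm_le i
    (by positivity : (0 : ℝ) < 1 / (2 * e)) hdiff.diffContOnCl h1
  rw [iteratedDeriv_cjet d e he x i hi] at h2
  have h3 : ‖cjet d e x i 0‖ = |Real.exp (-x) * (RR d e i).eval x| := by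
    have h4 : cjet d e x i 0 = ((Real.exp (-x) * (RR d e i).eval x : ℝ) : ℂ) := by
      unfold cjet
      simp only [add_zero, one_pow, one_mul, mul_one]
      rw [Complex.ofReal_mul, Complex.ofReal_exp, Complex.ofReal_neg]
      congr 1
      rw [Polynomial.eval_map, ← Complex.ofRealHom_eq_coe, Polynomial.eval₂_hom]
      rfl
    rw [h4, Complex.norm_real, Real.norm_eq_abs]
  rw [h3] at h2
  refine h2.trans ?_
  rw [one_div, inv_pow, div_inv_eq_mul]
  have h5 : (3 / 2 : ℝ) ≤ (3 / 2) ^ i := le_self_pow₀ (by norm_num) (by omega)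
  have h6 : (3 * (e : ℝ)) ^ i = (3 / 2) ^ i * (2 * e) ^ i := by
    rw [← mul_pow]
    congr 1
    ring
  rw [h6]
  calc (i.factorial : ℝ) * (3 / 2) * (2 * (e : ℝ)) ^ i
      ≤ (i.factorial : ℝ) * (3 / 2) ^ i * (2 * (e : ℝ)) ^ i := by gcongr
    _ = _ := by ring

/-- `(1 + s) ^ k ≤ 3` for small `s` -/
theorem abs_one_add_pow (s : ℝ) (D k : ℕ) (hk : k ≤ D) (hs : |s| * D ≤ 1) : |1 + s| ^ k ≤ 3 := by
  have h1 : |1 + s| ≤ Real.exp |s| := by
    have h2 := abs_add_le 1 s
    rw [abs_one] at h2
    have h3 := Real.add_one_le_exp |s|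
    linarith
  calc |1 + s| ^ k ≤ Real.exp |s| ^ k := pow_le_pow_left₀ (abs_nonneg _) h1 k
    _ = Real.exp (k * |s|) := by rw [← Real.exp_nat_mul]
    _ ≤ Real.exp 1 := by
        apply Real.exp_le_exp.2
        have h3 : (k : ℝ) ≤ D := by exact_mod_cast hk
        have h4 : (k : ℝ) * |s| ≤ D * |s| := mul_le_mul_of_nonneg_right h3 (abs_nonneg s)
        linarith
    _ ≤ 3 := Real.exp_one_lt_three.le

/-- the Taylor polynomial of `(1 + s) ^ d * exp (-x * (1 + s) ^ e)` -/
theorem taylor_RR (d e n : ℕ) (he : 1 ≤ e) (hde : 2 * d ≤ e) (hn : n + 1 < d) (x : ℝ)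
    (hx : 0 ≤ x) (s : ℝ) (hs : |s| * d ≤ 1) :
    |(1 + s) ^ d * Real.exp (-(x * (1 + s) ^ e)) -
      ∑ i ∈ range (n + 1), s ^ i / (i.factorial : ℝ) * (Real.exp (-x) * (RR d e i).eval x)| ≤
      3 * (3 * e * |s|) ^ (n + 1) := by
  have h0 : ∀ i, jet d e x i 0 = Real.exp (-x) * (RR d e i).eval x := by
    intro i
    unfold jet
    simp
  have h1 : jet d e x 0 s = (1 + s) ^ d * Real.exp (-(x * (1 + s) ^ e)) := by
    unfold jet
    simp [RR]
  have h2 := taylor_chain (n + 1) (jet d e x) (3 * ((3 * e) ^ (n + 1) * ((n + 1).factorial : ℝ))) s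
    (fun i hi t => hasDerivAt_jet d e he x i (by omega) t)
    (by
      intro t ht
      have hd1 : 1 ≤ d := by omega
      have hd1' : (1 : ℝ) ≤ d := by exact_mod_cast hd1
      have htd : |t| * d ≤ 1 := (mul_le_mul_of_nonneg_right ht (by positivity)).trans hs
      have ht1 : 0 ≤ 1 + t := by
        have h3 : |t| ≤ 1 := (le_mul_of_one_le_right (abs_nonneg t) hd1').trans htd
        have := neg_le_of_abs_le h3
        linarith
      unfold jet
      rw [abs_mul, abs_pow]
      apply mul_le_mul (abs_one_add_pow t d _ (Nat.sub_le _ _) htd) _ (abs_nonneg _) (by norm_num)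
      exact abs_RR d e he hde _ (mul_nonneg hx (pow_nonneg ht1 e)) (n + 1) (by omega))
  rw [h1] at h2
  simp only [h0] at h2
  refine h2.trans (le_of_eq ?_)
  have h3 : ((n + 1).factorial : ℝ) ≠ 0 := by positivity
  rw [mul_pow (3 * (e : ℝ)) |s| (n + 1)]
  field_simp

/-- the Taylor polynomial of `(1 + s) ^ u` -/
theorem taylor_pow (u n : ℕ) (s : ℝ) (hs : |s| * u ≤ 1) :
    |(1 + s) ^ u - ∑ i ∈ range (n + 1), (u.choose i : ℝ) * s ^ i| ≤ 3 * (u * |s|) ^ (n + 1) := by
  rcases lt_or_ge n u with hn | hn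
  · have h1 : ∀ i ≤ n, ∀ t : ℝ, HasDerivAt (fun t : ℝ => (u.descFactorial i : ℝ) * (1 + t) ^ (u - i))
        ((u.descFactorial (i + 1) : ℝ) * (1 + t) ^ (u - (i + 1))) t := by
      intro i hi t
      have h0 : HasDerivAt (fun s : ℝ => 1 + s) 1 t := (hasDerivAt_id t).const_add 1
      have h2 := (h0.fun_pow (u - i)).const_mul (u.descFactorial i : ℝ)
      refine h2.congr_deriv ?_
      rw [Nat.descFactorial_succ, show u - i - 1 = u - (i + 1) by omega]
      push_cast
      ring
    have h1' : ∀ i ≤ n + 1, ∀ t : ℝ, HasDerivAt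
        (fun t : ℝ => (u.descFactorial i : ℝ) * (1 + t) ^ (u - i))
        ((u.descFactorial (i + 1) : ℝ) * (1 + t) ^ (u - (i + 1))) t := by
      intro i hi t
      rcases Nat.lt_or_ge i u with h | h
      · have h0 : HasDerivAt (fun s : ℝ => 1 + s) 1 t := (hasDerivAt_id t).const_add 1
        have h2 := (h0.fun_pow (u - i)).const_mul (u.descFactorial i : ℝ)
        refine h2.congr_deriv ?_
        rw [Nat.descFactorial_succ, show u - i - 1 = u - (i + 1) by omega]
        push_cast
        ring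
      · have h3 : u - i = 0 := by omega
        have h4 : u.descFactorial (i + 1) = 0 := Nat.descFactorial_of_lt (by omega)
        rw [h4]
        simp only [h3, pow_zero, mul_one, Nat.cast_zero, zero_mul]
        exact hasDerivAt_const t _
    have h2 := taylor_chain (n + 1) (fun i t => (u.descFactorial i : ℝ) * (1 + t) ^ (u - i))
      (3 * (u : ℝ) ^ (n + 1)) s h1' (by
        intro t ht
        have htu : |t| * u ≤ 1 := (mul_le_mul_of_nonneg_right ht (by positivity)).trans hs
        rw [abs_mul, abs_pow, Nat.abs_cast, mul_comm (3 : ℝ)]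
        apply mul_le_mul _ (abs_one_add_pow t u _ (Nat.sub_le _ _) htu) (by positivity)
          (by positivity)
        exact_mod_cast Nat.descFactorial_le_pow u (n + 1))
    simp only [Nat.descFactorial_zero, Nat.cast_one, one_mul, Nat.sub_zero, add_zero, one_pow,
      mul_one] at h2
    have h3 : ∑ i ∈ range (n + 1), s ^ i / (i.factorial : ℝ) * (u.descFactorial i : ℝ) =
        ∑ i ∈ range (n + 1), (u.choose i : ℝ) * s ^ i := by
      apply sum_congr rfl
      intro i _
      have h4 : (u.descFactorial i : ℝ) = (i.factorial : ℝ) * (u.choose i : ℝ) := by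
        exact_mod_cast Nat.descFactorial_eq_factorial_mul_choose u i
      rw [h4]
      have h5 : (i.factorial : ℝ) ≠ 0 := by positivity
      field_simp
    rw [h3] at h2
    refine h2.trans ?_
    rw [div_le_iff₀ (by positivity), mul_pow]
    have h6 : (1 : ℝ) ≤ ((n + 1).factorial : ℝ) := by
      exact_mod_cast Nat.one_le_iff_ne_zero.2 (Nat.factorial_ne_zero _)
    calc 3 * (u : ℝ) ^ (n + 1) * |s| ^ (n + 1) = 3 * ((u : ℝ) ^ (n + 1) * |s| ^ (n + 1)) * 1 := by
          ring
      _ ≤ _ := mul_le_mul_of_nonneg_left h6 (by positivity)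
  · have h1 : ∑ i ∈ range (n + 1), (u.choose i : ℝ) * s ^ i = (1 + s) ^ u := by
      rw [add_comm 1 s, add_pow]
      symm
      have hsub : range (u + 1) ⊆ range (n + 1) := range_subset_range.2 (by omega)
      rw [← sum_subset hsub]
      · apply sum_congr rfl
        intro i _
        ring
      · intro i _ hi
        rw [mem_range, not_lt] at hi
        rw [Nat.choose_eq_zero_of_lt (by omega)]
        simp
    rw [h1, sub_self, abs_zero]
    positivity

theorem intg_RR (d e i : ℕ) (g : ℝ) (hg : 0 < g) :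
    IntegrableOn (fun x : ℝ => x ^ (g - 1) * (Real.exp (-x) * (RR d e i).eval x)) (Set.Ioi 0) :=
  SQ.mom_intg g hg _

/-- the moments of the jets -/
theorem moment_RR (d e i : ℕ) (g : ℝ) (hg : 0 < g) :
    ∫ x in Set.Ioi (0 : ℝ), x ^ (g - 1) * (Real.exp (-x) * (RR d e i).eval x) =
      Real.Gamma g * ∏ j ∈ range i, ((d : ℝ) - j - e * g) := by
  induction i with
  | zero =>
    rw [Real.Gamma_eq_integral hg]
    simp only [RR, Polynomial.eval_one, mul_one, range_zero, prod_empty]
    apply setIntegral_congr_fun measurableSet_Ioi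
    intro x _
    ring
  | succ i ih =>
    have hder : ∀ x ∈ Set.Ioi (0 : ℝ), HasDerivAt
        (fun x : ℝ => x ^ g * (Real.exp (-x) * (RR d e i).eval x))
        (g * (x ^ (g - 1) * (Real.exp (-x) * (RR d e i).eval x)) +
          x ^ (g - 1) * (Real.exp (-x) *
            (Polynomial.X * (RR d e i).derivative - Polynomial.X * RR d e i).eval x)) x := by
      intro x hx
      have hx' : (0 : ℝ) < x := hx
      have h1 := Real.hasDerivAt_rpow_const (x := x) (p := g) (Or.inl hx'.ne')
      refine (h1.fun_mul (SQ.mom_hasDerivAt (RR d e i) x)).congr_deriv ?_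
      simp only [Polynomial.eval_sub, Polynomial.eval_mul, Polynomial.eval_X]
      rw [SQ.mom_rpow g x hx']
      ring
    have hi1 := intg_RR d e i g hg
    have hi2 := SQ.mom_intg g hg
      (Polynomial.X * (RR d e i).derivative - Polynomial.X * RR d e i)
    have hc : ContinuousWithinAt (fun x : ℝ => x ^ g * (Real.exp (-x) * (RR d e i).eval x))
        (Set.Ici 0) 0 := by
      apply Continuous.continuousWithinAt
      exact (Real.continuous_rpow_const hg.le).mul (SQ.mom_cont _)
    have h0 := integral_Ioi_of_hasDerivAt_of_tendsto hc hder ((hi1.const_mul g).add hi2)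
      (SQ.mom_tendsto g (RR d e i))
    rw [integral_add (hi1.const_mul g) hi2, integral_const_mul, ih] at h0
    simp only [Real.zero_rpow hg.ne', zero_mul, sub_zero] at h0
    have h2 : ∫ x in Set.Ioi (0 : ℝ), x ^ (g - 1) * (Real.exp (-x) * (RR d e (i + 1)).eval x) =
        ∫ x in Set.Ioi (0 : ℝ), (((d : ℝ) - i) * (x ^ (g - 1) * (Real.exp (-x) *
          (RR d e i).eval x)) + e * (x ^ (g - 1) * (Real.exp (-x) *
            (Polynomial.X * (RR d e i).derivative - Polynomial.X * RR d e i).eval x))) := by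
      apply setIntegral_congr_fun measurableSet_Ioi
      intro x _
      simp only
      rw [eval_succ_RR]
      simp only [Polynomial.eval_sub, Polynomial.eval_mul, Polynomial.eval_X]
      ring
    rw [h2, integral_add (hi1.const_mul _) (hi2.const_mul _), integral_const_mul,
      integral_const_mul, ih, prod_range_succ]
    linear_combination (e : ℝ) * h0

/-- Newton interpolation -/
theorem newton (n : ℕ) (w : ℕ → ℝ) (i : ℕ) (hi : i ≤ n) :
    w i * (i.factorial : ℝ) = ∑ k ∈ range (i + 1), (-1 : ℝ) ^ (i - k) * (i.choose k : ℝ) *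
      ∑ j ∈ range (n + 1), w j * (k.descFactorial j : ℝ) := by
  have h1 : ∀ j : ℕ, ∑ k ∈ range (i + 1), (-1 : ℝ) ^ (i - k) * (i.choose k : ℝ) *
      (k.choose j : ℝ) = if i = j then 1 else 0 := by
    intro j
    have h2 := fwdDiff_iter_choose_zero j i
    rw [fwdDiff_iter_eq_sum_shift] at h2
    simp only [zero_add, smul_eq_mul, mul_one] at h2
    have h3 : ((∑ k ∈ range (i + 1), (-1 : ℤ) ^ (i - k) * (i.choose k : ℤ) *
      (k.choose j : ℤ) : ℤ) : ℝ) = ((if i = j then 1 else 0 : ℤ) : ℝ) := by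
      exact_mod_cast h2
    push_cast at h3
    exact h3
  have h2 : ∀ k : ℕ, ∑ j ∈ range (n + 1), w j * (k.descFactorial j : ℝ) =
      ∑ j ∈ range (n + 1), w j * (j.factorial : ℝ) * (k.choose j : ℝ) := by
    intro k
    apply sum_congr rfl
    intro j _
    have h4 : (k.descFactorial j : ℝ) = (j.factorial : ℝ) * (k.choose j : ℝ) := by
      exact_mod_cast Nat.descFactorial_eq_factorial_mul_choose k j
    rw [h4]
    ring
  simp only [h2, mul_sum]
  rw [sum_comm]
  have h3 : ∀ j ∈ range (n + 1), ∑ k ∈ range (i + 1), (-1 : ℝ) ^ (i - k) * (i.choose k : ℝ) *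
      (w j * (j.factorial : ℝ) * (k.choose j : ℝ)) =
      if i = j then w j * (j.factorial : ℝ) else 0 := by
    intro j _
    have h4 : ∑ k ∈ range (i + 1), (-1 : ℝ) ^ (i - k) * (i.choose k : ℝ) *
        (w j * (j.factorial : ℝ) * (k.choose j : ℝ)) = (w j * (j.factorial : ℝ)) *
        ∑ k ∈ range (i + 1), (-1 : ℝ) ^ (i - k) * (i.choose k : ℝ) * (k.choose j : ℝ) := by
      rw [mul_sum]
      apply sum_congr rfl
      intro k _
      ring
    rw [h4, h1]
    split_ifs <;> simp
  rw [sum_congr rfl h3, sum_ite_eq, if_pos (mem_range.2 (by omega))]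

theorem newton_bound (n : ℕ) (w : ℕ → ℝ) (G : ℝ)
    (hG : ∀ k ≤ n, |∑ j ∈ range (n + 1), w j * (k.descFactorial j : ℝ)| ≤ G) (i : ℕ)
    (hi : i ≤ n) : |w i| * (i.factorial : ℝ) ≤ 2 ^ i * G := by
  have h1 : |w i| * (i.factorial : ℝ) = |w i * (i.factorial : ℝ)| := by
    rw [abs_mul, Nat.abs_cast]
  rw [h1, newton n w i hi]
  refine (abs_sum_le_sum_abs _ _).trans ?_
  calc ∑ k ∈ range (i + 1), |(-1 : ℝ) ^ (i - k) * (i.choose k : ℝ) *
        ∑ j ∈ range (n + 1), w j * (k.descFactorial j : ℝ)|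
      ≤ ∑ k ∈ range (i + 1), (i.choose k : ℝ) * G := by
        apply sum_le_sum
        intro k hk
        rw [mem_range] at hk
        rw [abs_mul, abs_mul, abs_pow, abs_neg, abs_one, one_pow, one_mul, Nat.abs_cast]
        exact mul_le_mul_of_nonneg_left (hG k (by omega)) (by positivity)
    _ = 2 ^ i * G := by
        rw [← sum_mul]
        congr 1
        exact_mod_cast Nat.sum_range_choose i

/-- the moments at the exponents `(d - r) / e` -/
theorem moment_RR_at (d e i r : ℕ) (he : 1 ≤ e) (hr : r < d) :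
    ∫ x in Set.Ioi (0 : ℝ), x ^ (((d : ℝ) - r) / e - 1) * (Real.exp (-x) * (RR d e i).eval x) =
      Real.Gamma (((d : ℝ) - r) / e) * (r.descFactorial i : ℝ) := by
  have he0 : (0 : ℝ) < e := by exact_mod_cast he
  have hr0 : (0 : ℝ) < (d : ℝ) - r := by
    have : (r : ℝ) < d := by exact_mod_cast hr
    linarith
  rw [moment_RR d e i _ (by positivity)]
  congr 1
  have h1 : ∀ j ∈ range i, (d : ℝ) - j - e * (((d : ℝ) - r) / e) = (r : ℝ) - j := by
    intro j _
    field_simp
    ring
  rw [prod_congr rfl h1]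
  clear h1
  induction i with
  | zero => simp
  | succ i ih =>
    rw [prod_range_succ, ih, Nat.descFactorial_succ]
    rcases Nat.lt_or_ge r i with h | h
    · rw [Nat.descFactorial_of_lt h]
      simp
    · rw [Nat.cast_mul, Nat.cast_sub h]
      ring

end Pool.Agent.H.MP_cba12a_lc.QP
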