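import Pool.Agent.H.MP_cba12a_lc.QP.LevA
import Pool.Agent.H.MP_cba12a_lc.SQ.Radial
import Pool.Agent.H.MP_cba12a_lc.SQ.Moment

/-!
# Level coefficients: typical points and tails
-/

set_option autoImplicit false

namespace Pool.Agent.H.MP_cba12a_lc.QP

open Finset Pool.Agent.H.MP_cba12a_lc.SQ

/- PROOF: ex_far with d = 0, η = 1/μ, t = m/μ = μ^3: exp(-m η^2) * 2 exp(m η^2/2), m η^2 = μ^2. -/
theorem ex_tail (μ : ℕ) (hμ : 0 < μ) :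
    ex (fun x : Finset (Fin (μ ^ 4)) =>
      if 1 / (μ : ℝ) ≤ |2 * (x.card : ℝ) / ((μ ^ 4 : ℕ) : ℝ) - 1| then (1 : ℝ) else 0) ≤
      2 * Real.exp (-(μ : ℝ) ^ 2 / 2) := by
  have hμ' : (0 : ℝ) < (μ : ℝ) := by exact_mod_cast hμ
  have hm : 0 < μ ^ 4 := by positivity
  have h := ex_far (m := μ ^ 4) hm 0 ((μ : ℝ) ^ 3) (1 / (μ : ℝ)) (by positivity)
  have e1 : -(μ : ℝ) ^ 3 * (1 / (μ : ℝ)) = -(μ : ℝ) ^ 2 := by
    field_simp
  have e2 : (((0 : ℕ) : ℝ) + (μ : ℝ) ^ 3) ^ 2 / (2 * ((μ ^ 4 : ℕ) : ℝ)) = (μ : ℝ) ^ 2 / 2 := by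
    push_cast
    field_simp
    ring
  have e3 : (((0 : ℕ) : ℝ) - (μ : ℝ) ^ 3) ^ 2 / (2 * ((μ ^ 4 : ℕ) : ℝ)) = (μ : ℝ) ^ 2 / 2 := by
    push_cast
    field_simp
    ring
  rw [e1, e2, e3] at h
  have e4 : Real.exp (-(μ : ℝ) ^ 2) * (Real.exp ((μ : ℝ) ^ 2 / 2) + Real.exp ((μ : ℝ) ^ 2 / 2)) =
      2 * Real.exp (-(μ : ℝ) ^ 2 / 2) := by
    have : Real.exp (-(μ : ℝ) ^ 2) * Real.exp ((μ : ℝ) ^ 2 / 2) = Real.exp (-(μ : ℝ) ^ 2 / 2) := by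
      rw [← Real.exp_add]
      congr 1
      ring
    rw [mul_add, this]
    ring
  rw [e4] at h
  simpa only [pow_zero, one_mul] using h

/-- the main tool: small on typical points, bounded elsewhere -/
theorem crad_small (μ j : ℕ) (hμ : 0 < μ) (hj : j ≤ μ ^ 4) (f : ℕ → ℝ) (A B : ℝ) (hA : 0 ≤ A)
    (hB : 0 ≤ B)
    (h1 : ∀ y ≤ μ ^ 4, |2 * (y : ℝ) / ((μ ^ 4 : ℕ) : ℝ) - 1| < 1 / μ → |f y| ≤ A)
    (h2 : ∀ y ≤ μ ^ 4, |f y| ≤ B) :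
    |crad (μ ^ 4) j f| ≤ A + 2 * B * Real.exp (-(μ : ℝ) ^ 2 / 2) := by
  have h := abs_crad_le (μ ^ 4) j hj f (fun x : Finset (Fin (μ ^ 4)) => A + B *
    (if 1 / (μ : ℝ) ≤ |2 * (x.card : ℝ) / ((μ ^ 4 : ℕ) : ℝ) - 1| then (1 : ℝ) else 0)) (by
      intro x
      have hx : x.card ≤ μ ^ 4 := by
        have := card_le_univ x
        simpa using this
      split_ifs with hc
      · have := h2 x.card hx
        linarith
      · have := h1 x.card hx (not_le.1 hc)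
        linarith)
  refine h.trans ?_
  rw [ex_add, ex_const, ex_mul_left]
  have ht := ex_tail μ hμ
  have := mul_le_mul_of_nonneg_left ht hB
  linarith

/- lower bound for the average. -/
theorem crad_zero_ge (μ : ℕ) (hμ : 0 < μ) (f : ℕ → ℝ) (a : ℝ) (ha : 0 ≤ a)
    (h1 : ∀ y ≤ μ ^ 4, |2 * (y : ℝ) / ((μ ^ 4 : ℕ) : ℝ) - 1| < 1 / μ → a ≤ f y)
    (h2 : ∀ y ≤ μ ^ 4, 0 ≤ f y) :
    a * (1 - 2 * Real.exp (-(μ : ℝ) ^ 2 / 2)) ≤ crad (μ ^ 4) 0 f := by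
  have h0 : crad (μ ^ 4) 0 f = ex (fun x : Finset (Fin (μ ^ 4)) => f x.card) := by
    rw [← co_empty, co_radial]
    rfl
  have h : ex (fun x : Finset (Fin (μ ^ 4)) => a - a *
      (if 1 / (μ : ℝ) ≤ |2 * (x.card : ℝ) / ((μ ^ 4 : ℕ) : ℝ) - 1| then (1 : ℝ) else 0)) ≤
      ex (fun x : Finset (Fin (μ ^ 4)) => f x.card) := by
    apply ex_mono
    intro x
    have hx : x.card ≤ μ ^ 4 := by
      have := card_le_univ x
      simpa using this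
    split_ifs with hc
    · have := h2 x.card hx
      linarith
    · have := h1 x.card hx (not_le.1 hc)
      linarith
  rw [h0]
  refine le_trans ?_ h
  rw [ex_sub, ex_const, ex_mul_left]
  have ht := ex_tail μ hμ
  have := mul_le_mul_of_nonneg_left ht ha
  linarith

end Pool.Agent.H.MP_cba12a_lc.QP
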