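import Pool.Agent.H.MP_cba12a_lc.QP.Defs
import Pool.Agent.H.MP_cba12a_lc.SQ.Radial
import Pool.Agent.H.MP_cba12a_lc.SQ.Moment

/-!
# Level coefficients of functions of `s = 2 |x| / m - 1`
-/

set_option autoImplicit false

namespace Pool.Agent.H.MP_cba12a_lc.QP

open Finset Pool.Agent.H.MP_cba12a_lc.SQ

private theorem levA_add (j : ℕ) : ∀ f g : ℕ → ℝ,
    fd^[j] (fun y => f y + g y) = fun y => (fd^[j] f) y + (fd^[j] g) y := by
  induction j with
  | zero => intro f g; rfl
  | succ j ih =>
    intro f g
    rw [Function.iterate_succ_apply, Function.iterate_succ_apply, Function.iterate_succ_apply,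
      ← ih]
    congr 1
    funext y
    unfold fd
    ring

private theorem levA_mul (j : ℕ) (c : ℝ) : ∀ f : ℕ → ℝ,
    fd^[j] (fun y => c * f y) = fun y => c * (fd^[j] f) y := by
  induction j with
  | zero => intro f; rfl
  | succ j ih =>
    intro f
    rw [Function.iterate_succ_apply, Function.iterate_succ_apply, ← ih]
    congr 1
    funext y
    unfold fd
    ring

private theorem levA_zero (j : ℕ) : fd^[j] (fun _ => (0 : ℝ)) = fun _ => 0 := by
  induction j with
  | zero => rfl
  | succ j ih =>
    rw [Function.iterate_succ_apply]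
    have h : fd (fun _ => (0 : ℝ)) = fun _ => 0 := by
      funext y
      unfold fd
      ring
    rw [h, ih]

private theorem levA_crad_zero (m j : ℕ) : crad m j (fun _ => 0) = 0 := by
  unfold crad
  rw [levA_zero]
  simp

theorem crad_add (m j : ℕ) (f g : ℕ → ℝ) :
    crad m j (fun y => f y + g y) = crad m j f + crad m j g := by
  unfold crad
  rw [levA_add, ← add_div, ← sum_add_distrib]
  congr 1
  refine sum_congr rfl fun i _ => ?_
  ring

theorem crad_mul (m j : ℕ) (c : ℝ) (f : ℕ → ℝ) :
    crad m j (fun y => c * f y) = c * crad m j f := by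
  unfold crad
  rw [levA_mul, ← mul_div_assoc, mul_sum]
  congr 1
  refine sum_congr rfl fun i _ => ?_
  ring

theorem crad_sum {ι : Type} (s : Finset ι) (m j : ℕ) (f : ι → ℕ → ℝ) :
    crad m j (fun y => ∑ i ∈ s, f i y) = ∑ i ∈ s, crad m j (f i) := by
  classical
  induction s using Finset.induction_on with
  | empty =>
    simp only [sum_empty]
    exact levA_crad_zero m j
  | insert a s ha ih =>
    simp only [sum_insert ha]
    rw [← ih, ← crad_add]

theorem crad_sub (m j : ℕ) (f g : ℕ → ℝ) :
    crad m j (fun y => f y - g y) = crad m j f - crad m j g := by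
  have h : (fun y => f y - g y) = fun y => f y + (-1) * g y := by
    funext y
    ring
  rw [h, crad_add, crad_mul]
  ring

private theorem levA_set (m j : ℕ) (hj : j ≤ m) : ∃ B : Finset (Fin m), B.card = j := by
  obtain ⟨B, hB⟩ := Finset.exists_subset_card_eq (s := (univ : Finset (Fin m))) (n := j)
    (by simpa using hj)
  exact ⟨B, hB.2⟩

private theorem levA_card {m : ℕ} (x : Finset (Fin m)) : x.card ≤ m := by
  have := card_le_univ x
  simpa using this

/- the coefficient depends only on the values at 0..m (for j ≤ m). PROOF: co_radial at a set of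
size j, or the formula. -/
theorem crad_congr (m j : ℕ) (hj : j ≤ m) (f g : ℕ → ℝ) (h : ∀ y ≤ m, f y = g y) :
    crad m j f = crad m j g := by
  obtain ⟨B, rfl⟩ := levA_set m j hj
  rw [← co_radial f B, ← co_radial g B]
  congr 1
  funext x
  exact h _ (levA_card x)

/- PROOF: co_radial at a set B with card j, abs_co_le. -/
theorem abs_crad_le (m j : ℕ) (hj : j ≤ m) (f : ℕ → ℝ) (G : Finset (Fin m) → ℝ)
    (h : ∀ x : Finset (Fin m), |f x.card| ≤ G x) : |crad m j f| ≤ ex G := by
  obtain ⟨B, rfl⟩ := levA_set m j hj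
  rw [← co_radial f B]
  exact abs_co_le h B

private theorem levA_const (m j : ℕ) (hj : 0 < j) (c : ℝ) : crad m j (fun _ => c) = 0 := by
  obtain ⟨k, rfl⟩ : ∃ k, j = k + 1 := ⟨j - 1, by omega⟩
  have h : fd (fun _ => c) = fun _ => 0 := by
    funext y
    unfold fd
    ring
  unfold crad
  rw [Function.iterate_succ_apply, h, levA_zero]
  simp

theorem lev_one (m j : ℕ) (hj : j ≤ m) : lev m j (fun _ => 1) = if j = 0 then 1 else 0 := by
  unfold lev
  by_cases h0 : j = 0
  · subst h0
    rw [if_pos rfl]
    have h1 := co_radial (m := m) (fun _ => (1 : ℝ)) ∅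
    rw [co_empty, ex_const, card_empty] at h1
    exact h1.symm
  · rw [if_neg h0]
    exact levA_const m j (Nat.pos_of_ne_zero h0) 1

/- PROOF: 2|x|/m - 1 = (1/m) sum over a of chi {a}; or differences of a linear function. -/
theorem lev_id (m j : ℕ) (hm : 0 < m) (hj : j ≤ m) (hj1 : j ≠ 1) : lev m j (fun s => s) = 0 := by
  unfold lev
  rcases Nat.eq_zero_or_pos j with h0 | h0
  · subst h0
    have h1 := co_radial (m := m) (fun y => 2 * (y : ℝ) / m - 1) ∅
    rw [co_empty, card_empty] at h1
    rw [← h1]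
    have h2 : (fun x : Finset (Fin m) => 2 * (x.card : ℝ) / m - 1)
        = fun x => 2 * ur m 1 x.card - 1 := by
      funext x
      unfold ur
      rw [Nat.choose_one_right, Nat.choose_one_right]
      ring
    rw [h2, ex_sub, ex_mul_left, ex_ur 1 hm, ex_const]
    norm_num
  · obtain ⟨k, rfl⟩ : ∃ k, j = k + 1 := ⟨j - 1, by omega⟩
    have h : fd (fun y => 2 * (y : ℝ) / m - 1) = fun _ => 2 / (m : ℝ) := by
      funext y
      unfold fd
      push_cast
      ring
    have h3 : crad m (k + 1) (fun y => 2 * (y : ℝ) / m - 1) =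
        (∑ i ∈ range (m - (k + 1) + 1), ((m - (k + 1)).choose i : ℝ) *
          (fd^[k] (fun _ => 2 / (m : ℝ))) i) / 2 ^ m := by
      unfold crad
      rw [Function.iterate_succ_apply, h]
    obtain ⟨l, rfl⟩ : ∃ l, k = l + 1 := ⟨k - 1, by omega⟩
    have h4 : fd (fun _ : ℕ => 2 / (m : ℝ)) = fun _ => 0 := by
      funext y
      unfold fd
      ring
    rw [h3, Function.iterate_succ_apply, h4, levA_zero]
    simp

theorem lev_add (m j : ℕ) (f g : ℝ → ℝ) : lev m j (fun s => f s + g s) = lev m j f + lev m j g := by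
  unfold lev
  exact crad_add m j _ _

theorem lev_sub (m j : ℕ) (f g : ℝ → ℝ) : lev m j (fun s => f s - g s) = lev m j f - lev m j g := by
  unfold lev
  exact crad_sub m j _ _

theorem lev_mul (m j : ℕ) (c : ℝ) (f : ℝ → ℝ) : lev m j (fun s => c * f s) = c * lev m j f := by
  unfold lev
  exact crad_mul m j c _

theorem lev_sum {ι : Type} (t : Finset ι) (m j : ℕ) (f : ι → ℝ → ℝ) :
    lev m j (fun s => ∑ i ∈ t, f i s) = ∑ i ∈ t, lev m j (f i) := by
  unfold lev
  exact crad_sum t m j _

end Pool.Agent.H.MP_cba12a_lc.QP
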