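import Pool.Agent.H.MP_cba12a_lc.SQ.Defs

/-!
# The sum bounding the kernel, for many levels
-/

set_option autoImplicit false

namespace Pool.Agent.H.MP_cba12a_lc.QP

open Finset Pool.Agent.H.MP_cba12a_lc.SQ

private theorem ssumq_geom (q : ℝ) (hq0 : 0 ≤ q) (hq : q ≤ 1 / 2) (N : ℕ) :
    ∑ a ∈ Icc 1 N, q ^ a ≤ 2 * q - 2 * q ^ (N + 1) := by
  induction N with
  | zero => simp
  | succ N ih =>
    rw [Finset.sum_Icc_succ_top (by omega)]
    have h1 : 0 ≤ q ^ (N + 1) := by positivity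
    have h2 : q ^ (N + 1 + 1) = q ^ (N + 1) * q := pow_succ _ _
    nlinarith

private theorem ssumq_choose (N a : ℕ) (ha : 1 ≤ a) :
    (N.choose a : ℝ) ≤ (Real.exp 1 * N / a) ^ a := by
  have h1 : (N.choose a : ℝ) ≤ (N : ℝ) ^ a / (a.factorial : ℝ) := Nat.choose_le_pow_div a N
  have h2 : (a : ℝ) ^ a / (a.factorial : ℝ) ≤ Real.exp a :=
    Real.pow_div_factorial_le_exp (a : ℝ) (by positivity) a
  have ha0 : (0 : ℝ) < a := by exact_mod_cast ha
  have hf : (0 : ℝ) < (a.factorial : ℝ) := by exact_mod_cast Nat.factorial_pos a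
  have h3 : 1 / (a.factorial : ℝ) ≤ Real.exp a / (a : ℝ) ^ a := by
    rw [div_le_div_iff₀ hf (by positivity)]
    rw [div_le_iff₀ hf] at h2
    linarith
  calc (N.choose a : ℝ) ≤ (N : ℝ) ^ a * (1 / (a.factorial : ℝ)) := by
        rw [mul_one_div]; exact h1
    _ ≤ (N : ℝ) ^ a * (Real.exp a / (a : ℝ) ^ a) := by gcongr
    _ = (Real.exp 1 * N / a) ^ a := by
        rw [div_pow, mul_pow, ← Real.exp_nat_mul, mul_one]
        ring

private theorem ssumq_term (m N κ a : ℕ) (s : ℝ) (hs : 0 < s) (hκ : 1 ≤ κ) (hN : 1 ≤ N)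
    (ha : 1 ≤ a) :
    (N.choose a : ℝ) * (6 / s) ^ a * (min 1 ((m : ℝ) * a / N)) ^ (κ * a) ≤
      (17 * m / s) ^ a * (min 1 ((m : ℝ) * a / N)) ^ ((κ - 1) * a) := by
  have ha0 : (0 : ℝ) < a := by exact_mod_cast ha
  have hN0 : (0 : ℝ) < N := by exact_mod_cast hN
  have hX0 : 0 ≤ min 1 ((m : ℝ) * a / N) := le_min zero_le_one (by positivity)
  have hX1 : min 1 ((m : ℝ) * a / N) ≤ (m : ℝ) * a / N := min_le_right _ _
  obtain ⟨l, rfl⟩ : ∃ l, κ = l + 1 := ⟨κ - 1, by omega⟩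
  have he : (l + 1) * a = a + (l + 1 - 1) * a := by
    rw [Nat.add_sub_cancel]; ring
  rw [he, pow_add]
  have hc := ssumq_choose N a ha
  have he1 : Real.exp 1 < 2.7182818286 := Real.exp_one_lt_d9
  have key : (N.choose a : ℝ) * (6 / s) ^ a * (min 1 ((m : ℝ) * a / N)) ^ a ≤
      (17 * m / s) ^ a := by
    calc (N.choose a : ℝ) * (6 / s) ^ a * (min 1 ((m : ℝ) * a / N)) ^ a
        ≤ (Real.exp 1 * N / a) ^ a * (6 / s) ^ a * ((m : ℝ) * a / N) ^ a := by
          gcongr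
      _ = (Real.exp 1 * 6 * m / s) ^ a := by
          rw [← mul_pow, ← mul_pow]
          congr 1
          field_simp
      _ ≤ (17 * m / s) ^ a := by
          gcongr
          linarith
  calc (N.choose a : ℝ) * (6 / s) ^ a * ((min 1 ((m : ℝ) * a / N)) ^ a *
        (min 1 ((m : ℝ) * a / N)) ^ ((l + 1 - 1) * a))
      = ((N.choose a : ℝ) * (6 / s) ^ a * (min 1 ((m : ℝ) * a / N)) ^ a) *
        (min 1 ((m : ℝ) * a / N)) ^ ((l + 1 - 1) * a) := by ring
    _ ≤ _ := by gcongr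

theorem Ssum_bound2 (κ m L : ℕ) (hκ : 2 ≤ κ) (hm : 1 ≤ m) (hL : 1 ≤ L)
    (h34 : (34 * m) ^ 2 ≤ 2 ^ L) (hκL : ((κ + 3) * L) ^ 2 ≤ 2 ^ L)
    (h4900 : 4900 * m ^ (2 * κ) ≤ 2 ^ L) :
    Ssum m (2 ^ L) κ (6 / Real.sqrt (2 ^ L)) ^ 2 ≤ 1 / 4 * (1 / 2) ^ ((κ - 1) * L) := by
  set s : ℝ := Real.sqrt (2 ^ L) with hsdef
  have hs0 : 0 < s := Real.sqrt_pos.mpr (by positivity)
  have hss : s ^ 2 = 2 ^ L := Real.sq_sqrt (by positivity)
  have hL0 : (1 : ℝ) ≤ L := by exact_mod_cast hL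
  have hm1 : (1 : ℝ) ≤ (m : ℝ) := by exact_mod_cast hm
  have hs1 : 34 * (m : ℝ) ≤ s := by
    apply Real.le_sqrt_of_sq_le
    exact_mod_cast h34
  have hs2 : ((κ : ℝ) + 3) * L ≤ s := by
    apply Real.le_sqrt_of_sq_le
    exact_mod_cast hκL
  set v : ℝ := (m : ℝ) / s with hv
  have hv0 : 0 < v := by positivity
  have hv1 : 34 * v ≤ 1 := by
    rw [hv, ← mul_div_assoc, div_le_one hs0]
    exact hs1
  set q : ℝ := 17 * v ^ κ with hq
  have hq0 : 0 ≤ q := by positivity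
  have hvk : v ^ κ ≤ v := by
    calc v ^ κ ≤ v ^ 1 := pow_le_pow_of_le_one hv0.le (by linarith) (by omega)
      _ = v := pow_one v
  have hq1 : q ≤ 1 / 2 := by
    rw [hq]; linarith
  -- term bound
  have hterm : ∀ a ∈ Icc 1 (2 ^ L), (((2 ^ L : ℕ).choose a : ℕ) : ℝ) * (6 / s) ^ a *
      (min 1 ((m : ℝ) * a / ((2 ^ L : ℕ) : ℝ))) ^ (κ * a) ≤
      q ^ a + (1 / 2) ^ ((κ + 3) * L) := by
    intro a ha
    rw [Finset.mem_Icc] at ha
    have ha0 : (0 : ℝ) < a := by exact_mod_cast ha.1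
    have h := ssumq_term m (2 ^ L) κ a s hs0 (by omega) Nat.one_le_two_pow ha.1
    refine h.trans ?_
    have hX0 : 0 ≤ min 1 ((m : ℝ) * a / ((2 ^ L : ℕ) : ℝ)) :=
      le_min zero_le_one (by positivity)
    have hcast2 : ((2 ^ L : ℕ) : ℝ) = s ^ 2 := by rw [hss]; push_cast; ring
    have h17 : 17 * (m : ℝ) / s = 17 * v := by
      rw [hv]; ring
    rw [h17]
    by_cases hcase : (a : ℝ) ≤ s
    · have hX : min 1 ((m : ℝ) * a / ((2 ^ L : ℕ) : ℝ)) ≤ v := by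
        refine (min_le_right _ _).trans ?_
        rw [hcast2, hv, div_le_div_iff₀ (by positivity) hs0]
        calc (m : ℝ) * a * s ≤ (m : ℝ) * s * s := by gcongr
          _ = (m : ℝ) * s ^ 2 := by ring
      have : (17 * v) ^ a *
          (min 1 ((m : ℝ) * a / ((2 ^ L : ℕ) : ℝ))) ^ ((κ - 1) * a) ≤ q ^ a := by
        calc (17 * v) ^ a *
            (min 1 ((m : ℝ) * a / ((2 ^ L : ℕ) : ℝ))) ^ ((κ - 1) * a)
            ≤ (17 * v) ^ a * v ^ ((κ - 1) * a) := by gcongr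
          _ = (17 * (v * v ^ (κ - 1))) ^ a := by
            rw [pow_mul, ← mul_pow]; ring
          _ = q ^ a := by
            rw [hq, ← pow_succ']
            congr 3
            omega
      have h0 : (0 : ℝ) ≤ (1 / 2) ^ ((κ + 3) * L) := by positivity
      linarith
    · push Not at hcase
      have hX1 : min 1 ((m : ℝ) * a / ((2 ^ L : ℕ) : ℝ)) ≤ 1 := min_le_left _ _
      have hla : (κ + 3) * L ≤ a := by
        have : (((κ + 3) * L : ℕ) : ℝ) ≤ a := by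
          push_cast; linarith
        exact_mod_cast this
      have : (17 * v) ^ a *
          (min 1 ((m : ℝ) * a / ((2 ^ L : ℕ) : ℝ))) ^ ((κ - 1) * a) ≤
          (1 / 2) ^ ((κ + 3) * L) := by
        calc (17 * v) ^ a *
            (min 1 ((m : ℝ) * a / ((2 ^ L : ℕ) : ℝ))) ^ ((κ - 1) * a)
            ≤ (17 * v) ^ a * 1 := by
              gcongr
              exact pow_le_one₀ hX0 hX1
          _ ≤ (1 / 2) ^ a := by
              rw [mul_one]
              gcongr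
              linarith
          _ ≤ (1 / 2) ^ ((κ + 3) * L) :=
              pow_le_pow_of_le_one (by norm_num) (by norm_num) hla
      have h0 : (0 : ℝ) ≤ q ^ a := by positivity
      linarith
  have hsum : Ssum m (2 ^ L) κ (6 / s) ≤ 2 * q + (1 / 2) ^ ((κ + 2) * L) := by
    unfold Ssum
    refine (Finset.sum_le_sum hterm).trans ?_
    rw [Finset.sum_add_distrib, Finset.sum_const, Nat.card_Icc, nsmul_eq_mul]
    have hg := ssumq_geom q hq0 hq1 (2 ^ L)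
    have hg2 : 0 ≤ 2 * q ^ (2 ^ L + 1) := by positivity
    have he : (((2 ^ L + 1 - 1 : ℕ)) : ℝ) * (1 / 2) ^ ((κ + 3) * L) = (1 / 2) ^ ((κ + 2) * L) := by
      rw [Nat.add_sub_cancel]
      push_cast
      have : (κ + 3) * L = L + (κ + 2) * L := by ring
      rw [this, pow_add, ← mul_assoc, ← mul_pow]
      norm_num
    rw [he]
    linarith
  have hle : (1 / 2 : ℝ) ^ ((κ + 2) * L) ≤ v ^ κ := by
    have h1 : (1 / 2 : ℝ) ^ ((κ + 2) * L) ≤ (1 / 2 : ℝ) ^ (L * κ) := by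
      apply pow_le_pow_of_le_one (by norm_num) (by norm_num)
      nlinarith
    refine h1.trans ?_
    rw [pow_mul]
    have h2 : (1 / 2 : ℝ) ^ L ≤ v := by
      rw [one_div, inv_pow, ← hss, hv, ← one_div, div_le_div_iff₀ (by positivity) hs0]
      have : (1 : ℝ) ≤ s := by linarith
      nlinarith
    gcongr
  have hS : Ssum m (2 ^ L) κ (6 / s) ≤ 35 * v ^ κ := by
    rw [hq] at hsum; linarith
  have hS0 : 0 ≤ Ssum m (2 ^ L) κ (6 / s) := by
    unfold Ssum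
    apply Finset.sum_nonneg
    intro a _
    have : 0 ≤ min 1 ((m : ℝ) * a / ((2 ^ L : ℕ) : ℝ)) :=
      le_min zero_le_one (by positivity)
    positivity
  have hfin : (35 * v ^ κ) ^ 2 ≤ 1 / 4 * (1 / 2) ^ ((κ - 1) * L) := by
    have e1 : (35 * v ^ κ) ^ 2 = 1225 * (m : ℝ) ^ (2 * κ) / (2 ^ L) ^ κ := by
      rw [← hss, hv, div_pow]
      rw [mul_pow, div_pow, ← pow_mul, ← pow_mul, ← pow_mul]
      have h'' : κ * 2 = 2 * κ := by ring
      rw [h'']; ring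
    have e2 : (1 / 2 : ℝ) ^ ((κ - 1) * L) = 2 ^ L / (2 ^ L) ^ κ := by
      obtain ⟨l, rfl⟩ : ∃ l, κ = l + 1 := ⟨κ - 1, by omega⟩
      rw [Nat.add_sub_cancel, pow_succ, mul_comm l L, pow_mul]
      rw [one_div, inv_pow, inv_pow]
      field_simp
    rw [e1, e2, ← mul_div_assoc]
    refine div_le_div_of_nonneg_right ?_ (by positivity)
    have h5 : 4900 * (m : ℝ) ^ (2 * κ) ≤ 2 ^ L := by exact_mod_cast h4900
    linarith
  calc Ssum m (2 ^ L) κ (6 / s) ^ 2 ≤ (35 * v ^ κ) ^ 2 := by gcongr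
    _ ≤ _ := hfin

end Pool.Agent.H.MP_cba12a_lc.QP
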