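import Pool.Agent.H.MP_cba12a_lc.QP.Defs
import Pool.Agent.H.MP_cba12a_lc.QP.Link
import Pool.Agent.H.MP_cba12a_lc.SQ.Core

/-!
# The lower bound for given parameters
-/

set_option autoImplicit false

namespace Pool.Agent.H.MP_cba12a_lc.QP

open Finset Pool.Agent.H.MP_cba12a_lc.SQ

/- PROOF: as in SQ.main_bound (Main.lean): e : Fin N' ≃ (Fin m × Fin N) ⊕ Fin r with
r = N' - m N, sq_core with F, M of linkQ, FF e F π, length_FF. -/
theorem sq_par {h μ k n e U : ℕ} (P : Par h μ k n e U) (κ : ℕ) (hκ : 2 ≤ κ) (hk2 : k = 2 * κ)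
    (N' : ℕ) (hN : μ ^ 4 * 2 ^ (1000 * h) ≤ N') (q : ℕ) (τ : ℝ) (hτ : 0 < τ)
    (Ω : Type) [Fintype Ω] (A : Ω → Learner N') :
    ∃ F : List (Finset (Fin N')), F.length ≤ 2 ^ (3000 * h + e) ∧
      ∃ O : Query N' → ℝ, Valid (mdnf F) τ O ∧
        ((univ.filter fun ω => err ((A ω).out ((A ω).answers O q)) (mdnf F) ≤
          1 / 2 - (1 / 2) ^ (400 * h) - τ).card : ℝ) ≤
        (Fintype.card Ω : ℝ) * (((q : ℝ) + 1) * (4 * (1 / 2) ^ ((κ - 1) * (1000 * h)) / τ ^ 2)) := by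
  classical
  obtain ⟨F, M, hlen, hM, hdev⟩ := linkQ P κ hκ hk2
  obtain ⟨r, hr⟩ : ∃ r : ℕ, r = N' - μ ^ 4 * 2 ^ (1000 * h) := ⟨_, rfl⟩
  have hnr : N' = μ ^ 4 * 2 ^ (1000 * h) + r := by omega
  let e' : Fin N' ≃ (Fin (μ ^ 4) × Fin (2 ^ (1000 * h))) ⊕ Fin r :=
    (finCongr hnr).trans (finSumFinEquiv.symm.trans
      (Equiv.sumCongr finProdFinEquiv.symm (Equiv.refl _)))
  obtain ⟨π, O, hO, hcard⟩ := sq_core e' F M ((1 / 2) ^ (400 * h))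
    ((1 / 2) ^ ((κ - 1) * (1000 * h))) hM hdev q τ hτ Ω A
  refine ⟨FF e' F π, ?_, O, hO, ?_⟩
  · rw [length_FF]
    calc 2 ^ (1000 * h) * F.length ≤ 2 ^ (1000 * h) * 2 ^ (2000 * h + e) :=
          Nat.mul_le_mul_left _ hlen
      _ = 2 ^ (3000 * h + e) := by
          rw [← pow_add]
          congr 1
          ring
  · convert hcard using 1

end Pool.Agent.H.MP_cba12a_lc.QP
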