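import Pool.Agent.H.MP_cba12a_lc.QP.Defs
import Pool.Agent.H.MP_cba12a_lc.QP.SqPar
import Pool.Agent.H.MP_cba12a_lc.QP.Choose

/-!
# The quasipolynomial lower bound
-/

set_option autoImplicit false

namespace Pool.Agent.H.MP_cba12a_lc.QP

open Finset Pool.Agent.H.MP_cba12a_lc.SQ

private theorem main_arith (Q z : ℝ) (hQ : 1 ≤ Q) (hz : 0 < z) (h8 : 8 * Q ^ 4 ≤ 1 / z) (q : ℝ)
    (hq : q ≤ Q) : (q + 1) * (4 * z / (1 / Q) ^ 2) ≤ 1 / Q := by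
  have hQ0 : 0 < Q := by linarith
  have h1 : z * (8 * Q ^ 4) ≤ 1 := by
    have := mul_le_mul_of_nonneg_left h8 hz.le
    rwa [mul_one_div_cancel hz.ne'] at this
  have h2 : 4 * z / (1 / Q) ^ 2 = 4 * z * Q ^ 2 := by
    field_simp
  rw [h2, le_div_iff₀ hQ0]
  have h3 : (q + 1) * (4 * z * Q ^ 2) ≤ (2 * Q) * (4 * z * Q ^ 2) :=
    mul_le_mul_of_nonneg_right (by linarith) (by positivity)
  calc (q + 1) * (4 * z * Q ^ 2) * Q ≤ (2 * Q) * (4 * z * Q ^ 2) * Q :=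
        mul_le_mul_of_nonneg_right h3 hQ0.le
    _ = z * (8 * Q ^ 4) := by ring
    _ ≤ 1 := h1

/-- For all large `s` and all `n ≥ s`: every randomised statistical query learner making at most
`Q = s ^ (c log s / (log log s) ^ 3)` queries of tolerance `1 / Q` fails on a monotone DNF with at
most `s` terms, even for the advantage `s ^ (- c / log log s)`. -/
theorem quasi_bound : ∃ c : ℝ, 0 < c ∧ ∃ s₀ : ℕ, ∀ s n : ℕ, s₀ ≤ s → s ≤ n → ∀ Q : ℝ,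
    Q = (s : ℝ) ^ (c * Real.logb 2 s / Real.logb 2 (Real.logb 2 s) ^ 3) →
    ∀ (Ω : Type) [Fintype Ω] (A : Ω → Learner n),
      ∃ F : List (Finset (Fin n)), F.length ≤ s ∧
        ∃ O : Query n → ℝ, Valid (mdnf F) (1 / Q) O ∧
          ((univ.filter fun ω => err ((A ω).out ((A ω).answers O ⌊Q⌋₊)) (mdnf F) ≤
            1 / 2 - (s : ℝ) ^ (-(c / Real.logb 2 (Real.logb 2 s)))).card : ℝ) ≤
          Fintype.card Ω / Q := by
  obtain ⟨c, hc, s₀, H⟩ := choose_par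
  refine ⟨c, hc, s₀, fun s n hs hsn Q hQ Ω _ A => ?_⟩
  obtain ⟨h, κ, hκ, P, hs1, hs2, h1, h8, hadv⟩ := H s hs
  rw [← hQ] at h1 h8 hadv
  have hQ0 : 0 < Q := by linarith
  obtain ⟨F, hF, O, hO, hcard⟩ := sq_par P κ hκ rfl n (hs2.trans hsn) ⌊Q⌋₊ (1 / Q)
    (by positivity) Ω A
  refine ⟨F, hF.trans hs1, O, hO, ?_⟩
  have hz : (0 : ℝ) < (1 / 2) ^ ((κ - 1) * (1000 * h)) := by positivity
  have h8' : 8 * Q ^ 4 ≤ 1 / (1 / 2) ^ ((κ - 1) * (1000 * h)) := by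
    rw [one_div_pow, one_div_one_div]
    exact h8
  have hb := main_arith Q _ h1 hz h8' (⌊Q⌋₊ : ℝ) (Nat.floor_le hQ0.le)
  have hsub : (univ.filter fun ω => err ((A ω).out ((A ω).answers O ⌊Q⌋₊)) (mdnf F) ≤
      1 / 2 - (s : ℝ) ^ (-(c / Real.logb 2 (Real.logb 2 s)))) ⊆
      (univ.filter fun ω => err ((A ω).out ((A ω).answers O ⌊Q⌋₊)) (mdnf F) ≤
      1 / 2 - (1 / 2) ^ (400 * h) - 1 / Q) := by
    intro ω hω
    rw [mem_filter] at hω ⊢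
    refine ⟨mem_univ _, hω.2.trans ?_⟩
    linarith
  calc ((univ.filter fun ω => err ((A ω).out ((A ω).answers O ⌊Q⌋₊)) (mdnf F) ≤
      1 / 2 - (s : ℝ) ^ (-(c / Real.logb 2 (Real.logb 2 s)))).card : ℝ)
      ≤ ((univ.filter fun ω => err ((A ω).out ((A ω).answers O ⌊Q⌋₊)) (mdnf F) ≤
      1 / 2 - (1 / 2) ^ (400 * h) - 1 / Q).card : ℝ) := by
        exact_mod_cast card_le_card hsub
    _ ≤ (Fintype.card Ω : ℝ) * (((⌊Q⌋₊ : ℝ) + 1) *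
        (4 * (1 / 2) ^ ((κ - 1) * (1000 * h)) / (1 / Q) ^ 2)) := hcard
    _ ≤ (Fintype.card Ω : ℝ) * (1 / Q) := mul_le_mul_of_nonneg_left hb (Nat.cast_nonneg _)
    _ = Fintype.card Ω / Q := by ring

end Pool.Agent.H.MP_cba12a_lc.QP
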