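import Pool.Agent.H.MP_cba12a_lc.QP.Dist2
import Pool.Agent.H.MP_cba12a_lc.SQ.StageStep

/-!
# A correction stage for many levels
-/

set_option autoImplicit false

namespace Pool.Agent.H.MP_cba12a_lc.QP

open Finset Pool.Agent.H.MP_cba12a_lc.SQ

/-- the event list of an outcome -/
private def stage2Ev {m : ℕ} : Option (Finset (Fin m)) → List (Finset (Fin m))
  | none => []
  | some T => [T]

theorem stage_step2 {m : ℕ} (k u R U : ℕ) (K ε : ℝ) (hk : 3 ≤ k) (hku : k ≤ u)
    (huU : u + k ≤ U) (hU : 3 * U ^ 2 ≤ m) (hm3 : 16 ≤ m) (hR : 0 < R)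
    (F₀ : List (Finset (Fin m))) (hinv : Inv U K F₀)
    (hK : Real.sqrt R * (K + 2 * R * (1 / 2) ^ u) ≤ 1)
    (e : Finset (Fin m) → ℝ) (he : ∀ B, |e B| ≤ ε) (hε : ε * 2 ^ u * (m : ℝ) ^ (3 * k) ≤ R) :
    ∃ F : List (Finset (Fin m)), F.length ≤ F₀.length + R ∧
      Inv U (K + 2 * R * (1 / 2) ^ u) F ∧
      (∀ x, ind F₀ x ≤ ind F x) ∧ ex (fun x => ind F x - ind F₀ x) ≤ R * (1 / 2) ^ u ∧
      ∀ B : Finset (Fin m), 2 ≤ B.card → B.card < k →
        |co (ind F) B - co (ind F₀) B - R * plan m k u B.card + e B| ≤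
          4 * Real.sqrt R * (1 / 2) ^ u * (m : ℝ) ^ k := by
  have hR0 : (0 : ℝ) < R := by exact_mod_cast hR
  have hU6 : 6 ≤ U := by omega
  have hUU : U ≤ U ^ 2 := Nat.le_self_pow (by norm_num) U
  have hm2 : 2 * (u + k) ≤ m := by omega
  have hm : 2 ≤ m := by omega
  have hum : u ≤ m := by omega
  have h8uk : 8 * (u * k) ≤ m := by
    have h1 : 4 * (u * k) ≤ (u + k) ^ 2 := by
      zify
      nlinarith [sq_nonneg ((u : ℤ) - k)]
    have h2 : (u + k) ^ 2 ≤ U ^ 2 := Nat.pow_le_pow_left huU 2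
    omega
  have hτ : ∀ B, |-e B / (R : ℝ)| * 2 ^ u * (m : ℝ) ^ (3 * k) ≤ 1 := by
    intro B
    rw [abs_div, abs_neg, abs_of_pos hR0]
    have h1 : |e B| / (R : ℝ) * 2 ^ u * (m : ℝ) ^ (3 * k) =
        (|e B| * 2 ^ u * (m : ℝ) ^ (3 * k)) / R := by ring
    rw [h1, div_le_one hR0]
    refine le_trans ?_ hε
    exact mul_le_mul_of_nonneg_right (mul_le_mul_of_nonneg_right (he B) (by positivity))
      (by positivity)
  obtain ⟨p, hp0, hp1, hpT, havg, hco⟩ := stage_dist2 k u hk hku hm2 h8uk hm3 (fun B => -e B / (R : ℝ)) hτ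
  have hsumx : ∀ x : Finset (Fin m), ∑ ω, p ω * ind (stage2Ev ω) x =
      ∑ T, p (some T) * cj T x := by
    intro x
    rw [Fintype.sum_option]
    have h1 : ind (stage2Ev (none : Option (Finset (Fin m)))) x = 0 := ind_nil x
    rw [h1, mul_zero, zero_add]
    exact Finset.sum_congr rfl fun T _ => by
      have h2 : ind (stage2Ev (some T)) x = cj T x := ind_singleton T x
      rw [h2]
  obtain ⟨F, h1, h2, h3, h4, h5⟩ := proc hm k R u U 1 K (by omega) p hp0 hp1 stage2Ev
    (by
      intro ω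
      cases ω with
      | none => simp [stage2Ev]
      | some T => simp [stage2Ev])
    (by
      intro ω hω
      cases ω with
      | none =>
        obtain ⟨D, -, hD⟩ := Finset.exists_subset_card_eq (s := (univ : Finset (Fin m)))
          (n := u) (by simpa using hum)
        exact ⟨D, hD.ge, by omega, by simp [stage2Ev]⟩
      | some T =>
        obtain ⟨h1, h2⟩ := hpT T hω
        refine ⟨T, h1, by omega, ?_⟩
        intro T' hT'
        have h3 : T' = T := by simpa [stage2Ev] using hT'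
        rw [h3])
    (by
      intro x
      rw [hsumx x]
      exact havg x)
    (by omega) hU F₀ hinv hK
  refine ⟨F, by omega, h2, h3, h4, fun B hB2 hBk => ?_⟩
  have h6 := h5 B hBk
  have h7 : ∑ ω, p ω * co (ind (stage2Ev ω)) B = plan m k u B.card + -e B / (R : ℝ) := by
    rw [Fintype.sum_option]
    have h8 : ind (stage2Ev (none : Option (Finset (Fin m)))) = fun _ => 0 := by
      funext x
      exact ind_nil x
    have h9 : co (fun _ : Finset (Fin m) => (0 : ℝ)) B = 0 := by
      simp [co, ex]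
    rw [h8, h9, mul_zero, zero_add, ← hco B hB2 hBk]
    refine Finset.sum_congr rfl fun T _ => ?_
    have h10 : ind (stage2Ev (some T)) = cj T := by
      funext x
      exact ind_singleton T x
    rw [h10]
  rw [h7] at h6
  have h8 : co (ind F) B - co (ind F₀) B - R * plan m k u B.card + e B =
      co (ind F) B - co (ind F₀) B - R * (plan m k u B.card + -e B / (R : ℝ)) := by
    field_simp
    ring
  rw [h8]
  exact h6

end Pool.Agent.H.MP_cba12a_lc.QP
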