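import Pool.Agent.H.MP_cba12a_lc.QP.Defs
import Pool.Agent.H.MP_cba12a_lc.SQ.Theta

/-!
# Solving for the corrections, many levels
-/

set_option autoImplicit false

namespace Pool.Agent.H.MP_cba12a_lc.QP

open Finset Pool.Agent.H.MP_cba12a_lc.SQ

private theorem Theta2_bound {m : ℕ} (k : ℕ) (t : ℝ) (ht : 0 ≤ t) (x : ℝ) (hx : 0 ≤ x)
    (hx1 : (1 + x) ^ k ≤ 3 / 2) (θ : Finset (Fin m) → ℝ) (hθ : ∀ B, |θ B| ≤ 2 * t)
    (c : Finset (Fin m) → Finset (Fin m) → ℝ)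
    (hc : ∀ B₀ B : Finset (Fin m), B₀ ⊂ B → B.card < k → |c B₀ B| ≤ x ^ (B \ B₀).card)
    (B : Finset (Fin m)) (hBk : B.card < k) (r : ℝ) (hr : |r| ≤ t) :
    |r - ∑ B₀ ∈ B.ssubsets, θ B₀ * c B₀ B| ≤ 2 * t := by
  have h0 : ∑ B₀ ∈ B.powerset, x ^ (B \ B₀).card = (1 + x) ^ B.card := by
    rw [← Finset.sum_pow_mul_eq_add_pow]
    refine sum_congr rfl fun B₀ hB₀ => ?_
    rw [one_pow, one_mul, card_sdiff_of_subset (mem_powerset.1 hB₀)]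
  have h1 : ∑ B₀ ∈ B.ssubsets, x ^ (B \ B₀).card = (1 + x) ^ B.card - 1 := by
    rw [← h0, ← sum_erase_add _ _ (mem_powerset_self B), Finset.sdiff_self, card_empty, pow_zero,
      add_sub_cancel_right]
    rfl
  have h2 : (1 + x) ^ B.card ≤ 3 / 2 :=
    (pow_le_pow_right₀ (by linarith) hBk.le).trans hx1
  have h3 : |∑ B₀ ∈ B.ssubsets, θ B₀ * c B₀ B| ≤ 2 * t * ((1 + x) ^ B.card - 1) := by
    rw [← h1, mul_sum]
    refine (abs_sum_le_sum_abs _ _).trans (sum_le_sum fun B₀ hB₀ => ?_)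
    rw [abs_mul]
    exact mul_le_mul (hθ B₀) (hc B₀ B (mem_ssubsets.1 hB₀) hBk) (abs_nonneg _) (by linarith)
  have h4 : |r - ∑ B₀ ∈ B.ssubsets, θ B₀ * c B₀ B| ≤
      |r| + |∑ B₀ ∈ B.ssubsets, θ B₀ * c B₀ B| := abs_sub _ _
  have h5 : 2 * t * ((1 + x) ^ B.card - 1) ≤ 2 * t * (1 / 2) :=
    mul_le_mul_of_nonneg_left (by linarith) (by linarith)
  linarith

private theorem Theta2_step {m : ℕ} (k : ℕ) (t : ℝ) (ht : 0 ≤ t) (x : ℝ) (hx : 0 ≤ x)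
    (hx1 : (1 + x) ^ k ≤ 3 / 2) (τ : Finset (Fin m) → ℝ)
    (hτ : ∀ B, |τ B| ≤ t) (c : Finset (Fin m) → Finset (Fin m) → ℝ)
    (hc : ∀ B₀ B : Finset (Fin m), B₀ ⊂ B → B.card < k → |c B₀ B| ≤ x ^ (B \ B₀).card)
    (j : ℕ) :
    ∃ θ : Finset (Fin m) → ℝ, (∀ B, |θ B| ≤ 2 * t) ∧
      (∀ B, ¬ (2 ≤ B.card ∧ B.card < k ∧ B.card < j) → θ B = 0) ∧
      ∀ B, 2 ≤ B.card → B.card < k → B.card < j →
        θ B + ∑ B₀ ∈ B.ssubsets, θ B₀ * c B₀ B = τ B := by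
  induction j with
  | zero =>
    refine ⟨fun _ => 0, ?_, fun _ _ => rfl, fun B _ _ h => absurd h (by omega)⟩
    intro B
    simp only [abs_zero]
    positivity
  | succ j ih =>
    obtain ⟨θ, h1, h2, h3⟩ := ih
    refine ⟨fun B => if B.card = j ∧ 2 ≤ j ∧ j < k then τ B - ∑ B₀ ∈ B.ssubsets, θ B₀ * c B₀ B
      else θ B, ?_, ?_, ?_⟩
    · intro B
      by_cases h : B.card = j ∧ 2 ≤ j ∧ j < k
      · simp only [if_pos h]
        exact Theta2_bound k t ht x hx hx1 θ h1 c hc B (by omega) (τ B) (hτ B)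
      · simp only [if_neg h]
        exact h1 B
    · intro B hB
      have h : ¬ (B.card = j ∧ 2 ≤ j ∧ j < k) := by omega
      simp only [if_neg h]
      exact h2 B (by omega)
    · intro B hB1 hB2 hB3
      have hss : ∀ B₀ ∈ B.ssubsets, (if B₀.card = j ∧ 2 ≤ j ∧ j < k then
          τ B₀ - ∑ B₁ ∈ B₀.ssubsets, θ B₁ * c B₁ B₀ else θ B₀) * c B₀ B = θ B₀ * c B₀ B := by
        intro B₀ h0
        have hlt : B₀.card < B.card := card_lt_card (mem_ssubsets.1 h0)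
        have h : ¬ (B₀.card = j ∧ 2 ≤ j ∧ j < k) := by omega
        rw [if_neg h]
      simp only []
      rw [sum_congr rfl hss]
      by_cases h : B.card = j
      · rw [if_pos ⟨h, by omega, by omega⟩]
        ring
      · rw [if_neg (by omega)]
        exact h3 B hB1 hB2 (by omega)

/- PROOF: as SQ.exists_theta (Theta.lean); now |θ B| ≤ t + sum over B₀ ⊂ B of 2 t x^|B \ B₀| =
t + 2 t ((1+x)^|B| - 1) ≤ 2 t. -/
theorem exists_theta2 {m : ℕ} (k : ℕ) (t : ℝ) (ht : 0 ≤ t) (x : ℝ) (hx : 0 ≤ x)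
    (hx1 : (1 + x) ^ k ≤ 3 / 2) (τ : Finset (Fin m) → ℝ)
    (hτ : ∀ B, |τ B| ≤ t) (c : Finset (Fin m) → Finset (Fin m) → ℝ)
    (hc : ∀ B₀ B : Finset (Fin m), B₀ ⊂ B → B.card < k → |c B₀ B| ≤ x ^ (B \ B₀).card) :
    ∃ θ : Finset (Fin m) → ℝ, (∀ B, |θ B| ≤ 2 * t) ∧
      (∀ B, ¬ (2 ≤ B.card ∧ B.card < k) → θ B = 0) ∧
      ∀ B, 2 ≤ B.card → B.card < k → θ B + ∑ B₀ ∈ B.ssubsets, θ B₀ * c B₀ B = τ B := by
  obtain ⟨θ, h1, h2, h3⟩ := Theta2_step k t ht x hx hx1 τ hτ c hc k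
  exact ⟨θ, h1, fun B hB => h2 B (by omega), fun B hB1 hB2 => h3 B hB1 hB2 hB2⟩

end Pool.Agent.H.MP_cba12a_lc.QP
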