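import Pool.Agent.H.MP_cba12a_lc.QP.Defs
import Pool.Agent.H.MP_cba12a_lc.SQ.Radial

/-!
# The response of a random set of size `u` as a polynomial in `s`
-/

set_option autoImplicit false

namespace Pool.Agent.H.MP_cba12a_lc.QP

open Finset Pool.Agent.H.MP_cba12a_lc.SQ

private theorem UrA_choose (n k : ℕ) :
    ((n.choose (k + 1) : ℕ) : ℝ) * (k + 1) = (n.choose k : ℝ) * ((n : ℝ) - k) := by
  have h1 := Nat.choose_succ_right_eq n k
  rcases le_or_gt k n with h | h
  · have h2 : ((n.choose (k + 1) * (k + 1) : ℕ) : ℝ) = ((n.choose k * (n - k) : ℕ) : ℝ) := by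
      rw [h1]
    push_cast [Nat.cast_sub h] at h2
    exact h2
  · rw [Nat.choose_eq_zero_of_lt h, Nat.choose_eq_zero_of_lt (by omega)]
    simp

private theorem UrA_prod (m u y : ℕ) (hu : u ≤ m) :
    ur m u y = ∏ i ∈ range u, ((y : ℝ) - i) / ((m : ℝ) - i) := by
  induction u with
  | zero => simp [ur]
  | succ u ih =>
    have hum : u < m := hu
    have ih' := ih hum.le
    rw [Finset.prod_range_succ, ← ih']
    unfold ur
    have h1 := UrA_choose y u
    have h2 := UrA_choose m u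
    have h3 : (0 : ℝ) < m.choose u := by exact_mod_cast Nat.choose_pos hum.le
    have h4 : (0 : ℝ) < m.choose (u + 1) := by exact_mod_cast Nat.choose_pos hu
    have h5 : (0 : ℝ) < (m : ℝ) - u := by
      have : (u : ℝ) < m := by exact_mod_cast hum
      linarith
    have h6 : (0 : ℝ) < (u : ℝ) + 1 := by positivity
    rw [div_mul_div_comm, div_eq_div_iff h4.ne' (mul_pos h3 h5).ne', ← h1, ← h2]
    ring

/- PROOF: ur m u y = prod over i < u of (y - i)/(m - i) (both sides 0 for y < u), and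
(y - i)/(m - i) = (1/2) (1 + s - 2i/m)/(1 - i/m), s = 2y/m - 1. -/
theorem ur_eq (m u y : ℕ) (hu : u < m) (hy : y ≤ m) :
    ur m u y = (urp m u).eval (2 * (y : ℝ) / m - 1) := by
  rw [UrA_prod m u y hu.le]
  unfold urp
  rw [Polynomial.eval_mul, Polynomial.eval_C, Polynomial.eval_prod]
  have h0 : ((1 : ℝ) / 2) ^ u = ∏ _i ∈ range u, (1 / 2 : ℝ) := by simp
  rw [h0, ← Finset.prod_mul_distrib]
  refine Finset.prod_congr rfl fun i hi => ?_
  rw [Finset.mem_range] at hi
  simp only [Polynomial.eval_mul, Polynomial.eval_add, Polynomial.eval_C, Polynomial.eval_X]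
  have hm : (0 : ℝ) < m := by exact_mod_cast (by omega : 0 < m)
  have him : (i : ℝ) < m := by exact_mod_cast (by omega : i < m)
  have h1 : (m : ℝ) - i ≠ 0 := by linarith
  have h2 : (1 : ℝ) - i / m ≠ 0 := by
    have h4 : (i : ℝ) / m < 1 := by
      rw [div_lt_one hm]
      exact him
    linarith
  have h3 : (1 : ℝ) - i / m = (m - i) / m := by field_simp
  rw [h3]
  field_simp
  ring

private theorem UrA_low (m u : ℕ) (hu : 3 * u ^ 2 ≤ m) :
    (1 : ℝ) / 2 ≤ ∏ i ∈ range u, (1 - (i : ℝ) / m) := by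
  rcases Nat.eq_zero_or_pos u with rfl | hu0
  · norm_num
  have hm0 : 0 < m := by
    have : 0 < u ^ 2 := by positivity
    omega
  have hm : (0 : ℝ) < m := by exact_mod_cast hm0
  have hR : 3 * (u : ℝ) ^ 2 ≤ m := by exact_mod_cast hu
  have hu1 : (1 : ℝ) ≤ u := by exact_mod_cast hu0
  have h1 : (u : ℝ) / m ≤ 1 := by
    rw [div_le_one hm]
    nlinarith
  have h2 : (1 : ℝ) + u * (-((u : ℝ) / m)) ≤ (1 + -((u : ℝ) / m)) ^ u :=
    one_add_mul_le_pow (by linarith) u
  have h3 : (u : ℝ) * (u / m) ≤ 1 / 3 := by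
    rw [← mul_div_assoc, div_le_iff₀ hm]
    nlinarith
  calc (1 : ℝ) / 2 ≤ (1 + -((u : ℝ) / m)) ^ u := by linarith
    _ = ∏ _i ∈ range u, (1 + -((u : ℝ) / m)) := by simp
    _ ≤ ∏ i ∈ range u, (1 - (i : ℝ) / m) := by
      refine Finset.prod_le_prod (fun i _ => by linarith) fun i hi => ?_
      rw [Finset.mem_range] at hi
      have : (i : ℝ) / m ≤ u / m := by
        have : (i : ℝ) ≤ u := by exact_mod_cast hi.le
        gcongr
      linarith

private theorem UrA_coeff (m u v : ℕ) (hv : v ≤ u) (hu : 3 * u ^ 2 ≤ m) (j : ℕ) :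
    0 ≤ (∏ i ∈ range v, (Polynomial.C (1 / (1 - (i : ℝ) / m)) *
      (Polynomial.C (1 - 2 * (i : ℝ) / m) + Polynomial.X))).coeff j ∧
    (∏ i ∈ range v, (Polynomial.C (1 / (1 - (i : ℝ) / m)) *
      (Polynomial.C (1 - 2 * (i : ℝ) / m) + Polynomial.X))).coeff j ≤
      (∏ i ∈ range v, (1 / (1 - (i : ℝ) / m))) * (v.choose j : ℝ) := by
  induction v generalizing j with
  | zero =>
    rcases j with _ | j
    · simp
    · simp [Polynomial.coeff_one]
  | succ v ih =>
    have hvu : v < u := hv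
    have hm0 : 0 < m := by
      have : 0 < u ^ 2 := by
        have : 0 < u := by omega
        positivity
      omega
    have hm : (0 : ℝ) < m := by exact_mod_cast hm0
    have hv2 : 2 * v ≤ m := by nlinarith
    have hv2R : 2 * (v : ℝ) ≤ m := by exact_mod_cast hv2
    have hvm : (v : ℝ) < m := by
      have h1 : v < m := by nlinarith
      exact_mod_cast h1
    have ha : 0 < 1 / (1 - (v : ℝ) / m) := by
      have : (v : ℝ) / m < 1 := by
        rw [div_lt_one hm]
        exact hvm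
      apply one_div_pos.2
      linarith
    have hb0 : 0 ≤ 1 - 2 * (v : ℝ) / m := by
      have : 2 * (v : ℝ) / m ≤ 1 := by
        rw [div_le_one hm]
        exact hv2R
      linarith
    have hb1 : 1 - 2 * (v : ℝ) / m ≤ 1 := by
      have : 0 ≤ 2 * (v : ℝ) / m := by positivity
      linarith
    have ih' := ih hvu.le
    rw [Finset.prod_range_succ, Finset.prod_range_succ]
    obtain ⟨Q, hQ⟩ : ∃ Q : Polynomial ℝ, Q = ∏ i ∈ range v, (Polynomial.C (1 / (1 - (i : ℝ) / m)) *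
      (Polynomial.C (1 - 2 * (i : ℝ) / m) + Polynomial.X)) := ⟨_, rfl⟩
    obtain ⟨a, haD⟩ : ∃ a : ℝ, a = 1 / (1 - (v : ℝ) / m) := ⟨_, rfl⟩
    obtain ⟨b, hbD⟩ : ∃ b : ℝ, b = 1 - 2 * (v : ℝ) / m := ⟨_, rfl⟩
    obtain ⟨A, hA⟩ : ∃ A : ℝ, A = ∏ i ∈ range v, (1 / (1 - (i : ℝ) / m)) := ⟨_, rfl⟩
    rw [← hQ, ← hA] at ih'
    rw [← hQ, ← hA, ← haD, ← hbD]
    rw [← haD] at ha
    rw [← hbD] at hb0 hb1
    have hA0 : 0 ≤ A := by
      have h1 := ih' 0
      simp only [Nat.choose_zero_right, Nat.cast_one, mul_one] at h1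
      linarith [h1.1, h1.2]
    have e1 : Q * (Polynomial.C a * (Polynomial.C b + Polynomial.X)) =
        Polynomial.C a * (Polynomial.C b * Q + Q * Polynomial.X) := by ring
    rw [e1]
    rcases j with _ | j
    · rw [Polynomial.coeff_C_mul, Polynomial.coeff_add, Polynomial.coeff_C_mul,
        Polynomial.coeff_mul_X_zero, add_zero]
      obtain ⟨g1, g2⟩ := ih' 0
      simp only [Nat.choose_zero_right, Nat.cast_one, mul_one] at g2 ⊢
      refine ⟨by positivity, ?_⟩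
      calc a * (b * Q.coeff 0) ≤ a * (1 * A) := by gcongr
        _ = A * a := by ring
    · rw [Polynomial.coeff_C_mul, Polynomial.coeff_add, Polynomial.coeff_C_mul,
        Polynomial.coeff_mul_X]
      obtain ⟨g1, g2⟩ := ih' (j + 1)
      obtain ⟨g3, g4⟩ := ih' j
      refine ⟨by positivity, ?_⟩
      have e2 : (((v + 1).choose (j + 1) : ℕ) : ℝ) = (v.choose j : ℝ) + (v.choose (j + 1) : ℝ) := by
        rw [Nat.choose_succ_succ]
        push_cast
        ring
      rw [e2]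
      calc a * (b * Q.coeff (j + 1) + Q.coeff j) ≤
          a * (1 * (A * (v.choose (j + 1) : ℝ)) + A * (v.choose j : ℝ)) := by gcongr
        _ = A * a * ((v.choose j : ℝ) + (v.choose (j + 1) : ℝ)) := by ring

/- PROOF: each factor (1/(1-i/m)) (1 - 2i/m + X) has nonnegative coefficients, at most those of
(1/(1-i/m)) (1 + X); the product of 1/(1-i/m) is at most 2 as 3 u^2 ≤ m. -/
theorem urp_coeff (m u i : ℕ) (hu : 3 * u ^ 2 ≤ m) :
    |(urp m u).coeff i| ≤ 2 * (1 / 2) ^ u * (u.choose i : ℝ) := by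
  obtain ⟨h1, h2⟩ := UrA_coeff m u u le_rfl hu i
  unfold urp
  rw [Polynomial.coeff_C_mul, abs_of_nonneg (by positivity)]
  have h3 := UrA_low m u hu
  have h4 : ∏ i ∈ range u, (1 / (1 - (i : ℝ) / m)) ≤ 2 := by
    have e1 : ∏ i ∈ range u, (1 / (1 - (i : ℝ) / m)) = 1 / ∏ i ∈ range u, (1 - (i : ℝ) / m) := by
      simp
    rw [e1, div_le_iff₀ (by linarith)]
    linarith
  calc (1 / 2 : ℝ) ^ u * _ ≤ (1 / 2) ^ u * ((∏ i ∈ range u, (1 / (1 - (i : ℝ) / m))) *
        (u.choose i : ℝ)) := by gcongr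
    _ ≤ (1 / 2) ^ u * (2 * (u.choose i : ℝ)) := by gcongr
    _ = 2 * (1 / 2) ^ u * (u.choose i : ℝ) := by ring

theorem urp_sum (m u n : ℕ) (hu : 3 * u ^ 2 ≤ m) (hu1 : 1 ≤ u) :
    ∑ i ∈ range (n + 1), |(urp m u).coeff i| * 2 ^ i ≤
      2 * (1 / 2) ^ u * ((n + 1) * (2 * (u : ℝ)) ^ n) := by
  have hu1R : (1 : ℝ) ≤ u := by exact_mod_cast hu1
  have h1 : ∀ i ∈ range (n + 1), |(urp m u).coeff i| * 2 ^ i ≤
      2 * (1 / 2) ^ u * (2 * (u : ℝ)) ^ n := by
    intro i hi
    rw [Finset.mem_range] at hi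
    have h2 := urp_coeff m u i hu
    have h3 : ((u.choose i : ℕ) : ℝ) ≤ (u : ℝ) ^ i := by exact_mod_cast Nat.choose_le_pow u i
    calc |(urp m u).coeff i| * 2 ^ i ≤ 2 * (1 / 2) ^ u * (u.choose i : ℝ) * 2 ^ i := by gcongr
      _ ≤ 2 * (1 / 2) ^ u * (u : ℝ) ^ i * 2 ^ i := by gcongr
      _ = 2 * (1 / 2) ^ u * (2 * (u : ℝ)) ^ i := by rw [mul_pow]; ring
      _ ≤ 2 * (1 / 2) ^ u * (2 * (u : ℝ)) ^ n := by
        refine mul_le_mul_of_nonneg_left ?_ (by positivity)
        exact pow_le_pow_right₀ (by linarith) (by omega)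
  refine (Finset.sum_le_sum h1).trans (le_of_eq ?_)
  rw [Finset.sum_const, Finset.card_range, nsmul_eq_mul]
  push_cast
  ring

end Pool.Agent.H.MP_cba12a_lc.QP
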