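import Pool.Agent.H.MP_cba12a_lc.QP.UrA
import Pool.Agent.H.MP_cba12a_lc.QP.Lev

/-!
# The level coefficients of the truncated response of a random set
-/

set_option autoImplicit false

namespace Pool.Agent.H.MP_cba12a_lc.QP

open Finset Pool.Agent.H.MP_cba12a_lc.SQ

private theorem UrB_deg (m u : ℕ) (hu : 3 * u ^ 2 ≤ m) : (urp m u).natDegree ≤ u := by
  rw [Polynomial.natDegree_le_iff_coeff_eq_zero]
  intro N hN
  have h1 := urp_coeff m u N hu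
  rw [Nat.choose_eq_zero_of_lt hN, Nat.cast_zero, mul_zero] at h1
  exact abs_eq_zero.1 (le_antisymm h1 (abs_nonneg _))

private theorem UrB_split (m u n y : ℕ) (hu : 3 * u ^ 2 ≤ m) (hum : u < m) (hy : y ≤ m) :
    ur m u y - ∑ i ∈ range (n + 1), (urp m u).coeff i * (2 * (y : ℝ) / m - 1) ^ i =
      ∑ i ∈ Ico (n + 1) (max u n + 1), (urp m u).coeff i * (2 * (y : ℝ) / m - 1) ^ i := by
  have hd : (urp m u).natDegree < max u n + 1 :=
    Nat.lt_succ_of_le ((UrB_deg m u hu).trans (le_max_left _ _))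
  have hn : n + 1 ≤ max u n + 1 := Nat.succ_le_succ (le_max_right _ _)
  rw [ur_eq m u y hum hy, Polynomial.eval_eq_sum_range' hd,
    ← Finset.sum_range_add_sum_Ico _ hn]
  ring

private theorem UrB_abs (m u n : ℕ) (s : ℝ) (hu : 3 * u ^ 2 ≤ m) :
    |∑ i ∈ Ico (n + 1) (max u n + 1), (urp m u).coeff i * s ^ i| ≤
      2 * (1 / 2) ^ u * ∑ i ∈ Ico (n + 1) (max u n + 1), (u.choose i : ℝ) * |s| ^ i := by
  rw [mul_sum]
  refine (abs_sum_le_sum_abs _ _).trans (sum_le_sum fun i _ => ?_)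
  rw [abs_mul, abs_pow, ← mul_assoc]
  exact mul_le_mul_of_nonneg_right (urp_coeff m u i hu) (by positivity)

/- PROOF: ur_eq and crad_congr; the difference is sum over i > n of coeff i * s^i; typical: at most
2 (1/2)^u sum over i > n of (u/μ)^i ≤ 4 (1/2)^u (u/μ)^(n+1) as 2 u ≤ μ; all: at most
2 (1/2)^u 2^u = 2. crad_small. -/
theorem lev_ur (μ u n j : ℕ) (hμ : 0 < μ) (hj : j ≤ μ ^ 4) (hu : 3 * u ^ 2 ≤ μ ^ 4) (hu1 : 1 ≤ u)
    (huμ : 2 * u ≤ μ) :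
    |crad (μ ^ 4) j (ur (μ ^ 4) u) -
      lev (μ ^ 4) j (fun s => ∑ i ∈ range (n + 1), (urp (μ ^ 4) u).coeff i * s ^ i)| ≤
      4 * (1 / 2) ^ u * ((u : ℝ) / μ) ^ (n + 1) + 4 * Real.exp (-(μ : ℝ) ^ 2 / 2) := by
  have hμ4 : μ ≤ μ ^ 4 := Nat.le_self_pow (by norm_num) μ
  have hum : u < μ ^ 4 := by omega
  have hμR : (0 : ℝ) < μ := by exact_mod_cast hμ
  have hmR : (0 : ℝ) < ((μ ^ 4 : ℕ) : ℝ) := by exact_mod_cast (by omega : 0 < μ ^ 4)
  have hr0 : (0 : ℝ) ≤ (u : ℝ) / μ := by positivity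
  have hr2 : (u : ℝ) / μ ≤ 1 / 2 := by
    rw [div_le_iff₀ hμR]
    have : ((2 * u : ℕ) : ℝ) ≤ μ := by exact_mod_cast huμ
    push_cast at this
    linarith
  unfold lev
  rw [← crad_sub]
  have hC := crad_small μ j hμ hj (fun y => ur (μ ^ 4) u y -
    ∑ i ∈ range (n + 1), (urp (μ ^ 4) u).coeff i * (2 * (y : ℝ) / ((μ ^ 4 : ℕ) : ℝ) - 1) ^ i)
    (4 * (1 / 2) ^ u * ((u : ℝ) / μ) ^ (n + 1)) 2 (by positivity) (by norm_num) ?_ ?_
  · refine hC.trans (le_of_eq ?_)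
    ring
  · intro y hy hs
    rw [UrB_split _ u n y hu hum hy]
    refine (UrB_abs _ u n _ hu).trans ?_
    have h1 : ∀ i ∈ Ico (n + 1) (max u n + 1),
        (u.choose i : ℝ) * |2 * (y : ℝ) / ((μ ^ 4 : ℕ) : ℝ) - 1| ^ i ≤ ((u : ℝ) / μ) ^ i := by
      intro i _
      have h2 : (u.choose i : ℝ) ≤ (u : ℝ) ^ i := by exact_mod_cast Nat.choose_le_pow u i
      have h3 : |2 * (y : ℝ) / ((μ ^ 4 : ℕ) : ℝ) - 1| ^ i ≤ (1 / (μ : ℝ)) ^ i :=
        pow_le_pow_left₀ (abs_nonneg _) hs.le i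
      calc (u.choose i : ℝ) * |2 * (y : ℝ) / ((μ ^ 4 : ℕ) : ℝ) - 1| ^ i
          ≤ (u : ℝ) ^ i * (1 / (μ : ℝ)) ^ i :=
            mul_le_mul h2 h3 (by positivity) (by positivity)
        _ = ((u : ℝ) / μ) ^ i := by
            rw [← mul_pow]
            congr 1
            ring
    have h4 : ∑ i ∈ Ico (n + 1) (max u n + 1),
        (u.choose i : ℝ) * |2 * (y : ℝ) / ((μ ^ 4 : ℕ) : ℝ) - 1| ^ i ≤
        2 * ((u : ℝ) / μ) ^ (n + 1) := by
      refine (sum_le_sum h1).trans ((geom_sum_Ico_le_of_lt_one hr0 (by linarith)).trans ?_)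
      rw [div_le_iff₀ (by linarith)]
      have h5 : (0 : ℝ) ≤ ((u : ℝ) / μ) ^ (n + 1) := by positivity
      nlinarith
    calc 2 * (1 / 2) ^ u * ∑ i ∈ Ico (n + 1) (max u n + 1),
          (u.choose i : ℝ) * |2 * (y : ℝ) / ((μ ^ 4 : ℕ) : ℝ) - 1| ^ i
        ≤ 2 * (1 / 2) ^ u * (2 * ((u : ℝ) / μ) ^ (n + 1)) :=
          mul_le_mul_of_nonneg_left h4 (by positivity)
      _ = 4 * (1 / 2) ^ u * ((u : ℝ) / μ) ^ (n + 1) := by ring
  · intro y hy
    rw [UrB_split _ u n y hu hum hy]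
    refine (UrB_abs _ u n _ hu).trans ?_
    have hs : |2 * (y : ℝ) / ((μ ^ 4 : ℕ) : ℝ) - 1| ≤ 1 := by
      have h1 : (y : ℝ) ≤ ((μ ^ 4 : ℕ) : ℝ) := by exact_mod_cast hy
      have h2 : (0 : ℝ) ≤ y := Nat.cast_nonneg y
      have h3 : 2 * (y : ℝ) / ((μ ^ 4 : ℕ) : ℝ) ≤ 2 := by
        rw [div_le_iff₀ hmR]
        linarith
      have h4 : 0 ≤ 2 * (y : ℝ) / ((μ ^ 4 : ℕ) : ℝ) := by positivity
      rw [abs_le]
      constructor <;> linarith
    have h1 : ∀ i ∈ Ico (n + 1) (max u n + 1),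
        (u.choose i : ℝ) * |2 * (y : ℝ) / ((μ ^ 4 : ℕ) : ℝ) - 1| ^ i ≤ (u.choose i : ℝ) := by
      intro i _
      exact mul_le_of_le_one_right (Nat.cast_nonneg _) (pow_le_one₀ (abs_nonneg _) hs)
    have h2 : ∑ i ∈ Ico (n + 1) (max u n + 1), (u.choose i : ℝ) ≤ 2 ^ u := by
      have h3 : ∑ i ∈ range (u + 1), (u.choose i : ℝ) = 2 ^ u := by
        exact_mod_cast Nat.sum_range_choose u
      have h4 : ∑ i ∈ range (max u n + 1), (u.choose i : ℝ) =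
          ∑ i ∈ range (u + 1), (u.choose i : ℝ) := by
        symm
        refine sum_subset (range_subset_range.2 (Nat.succ_le_succ (le_max_left _ _))) ?_
        intro i _ hi
        rw [mem_range, not_lt] at hi
        rw [Nat.choose_eq_zero_of_lt (by omega), Nat.cast_zero]
      rw [← h3, ← h4]
      refine sum_le_sum_of_subset_of_nonneg ?_ fun i _ _ => Nat.cast_nonneg _
      intro i hi
      rw [mem_Ico] at hi
      rw [mem_range]
      exact hi.2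
    calc 2 * (1 / 2) ^ u * ∑ i ∈ Ico (n + 1) (max u n + 1),
          (u.choose i : ℝ) * |2 * (y : ℝ) / ((μ ^ 4 : ℕ) : ℝ) - 1| ^ i
        ≤ 2 * (1 / 2) ^ u * 2 ^ u :=
          mul_le_mul_of_nonneg_left ((sum_le_sum h1).trans h2) (by positivity)
      _ = 2 := by
          rw [mul_assoc, ← mul_pow]
          norm_num

end Pool.Agent.H.MP_cba12a_lc.QP
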